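import Pool.Agent.NCV.Stmts

/-!
# Closed surfaces of negative curvature: the coordinates of pairs, algebraic part   (helper7)
-/

open MeasureTheory Filter Topology Set
open UpperHalfPlane hiding I
open scoped ContDiff MatrixGroups ENNReal

namespace QE

namespace NC

noncomputable section

namespace ALGm

theorem m00 (g h : SL(2, ℝ)) : (g * h) 0 0 = g 0 0 * h 0 0 + g 0 1 * h 1 0 := by
  show (g.1 * h.1) 0 0 = _
  rw [Matrix.mul_apply, Fin.sum_univ_two]

theorem m01 (g h : SL(2, ℝ)) : (g * h) 0 1 = g 0 0 * h 0 1 + g 0 1 * h 1 1 := by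
  show (g.1 * h.1) 0 1 = _
  rw [Matrix.mul_apply, Fin.sum_univ_two]

theorem m10 (g h : SL(2, ℝ)) : (g * h) 1 0 = g 1 0 * h 0 0 + g 1 1 * h 1 0 := by
  show (g.1 * h.1) 1 0 = _
  rw [Matrix.mul_apply, Fin.sum_univ_two]

theorem m11 (g h : SL(2, ℝ)) : (g * h) 1 1 = g 1 0 * h 0 1 + g 1 1 * h 1 1 := by
  show (g.1 * h.1) 1 1 = _
  rw [Matrix.mul_apply, Fin.sum_univ_two]

theorem i00 (g : SL(2, ℝ)) : g⁻¹ 0 0 = g 1 1 := by
  rw [Matrix.SpecialLinearGroup.SL2_inv_expl]; rfl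

theorem i01 (g : SL(2, ℝ)) : g⁻¹ 0 1 = -g 0 1 := by
  rw [Matrix.SpecialLinearGroup.SL2_inv_expl]; rfl

theorem i10 (g : SL(2, ℝ)) : g⁻¹ 1 0 = -g 1 0 := by
  rw [Matrix.SpecialLinearGroup.SL2_inv_expl]; rfl

theorem i11 (g : SL(2, ℝ)) : g⁻¹ 1 1 = g 0 0 := by
  rw [Matrix.SpecialLinearGroup.SL2_inv_expl]; rfl

theorem dt (g : SL(2, ℝ)) : g 0 0 * g 1 1 - g 0 1 * g 1 0 = 1 := by
  have h := g.2
  rw [Matrix.det_fin_two] at h
  exact h

theorem ec (i j : Fin 2) : Continuous fun g : SL(2, ℝ) => g i j :=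
  (continuous_apply j).comp ((continuous_apply i).comp continuous_subtype_val)

theorem nn_nonneg (g : SL(2, ℝ)) : 0 ≤ nn g := by unfold nn; positivity

theorem nn_inv (g : SL(2, ℝ)) : nn g⁻¹ = nn g := by
  unfold nn
  rw [i00, i01, i10, i11, abs_neg, abs_neg]
  ring

theorem dd_symm (v w : SL(2, ℝ)) : dd w v = dd v w := by
  unfold dd
  rw [← nn_inv (v⁻¹ * w), mul_inv_rev, inv_inv]

/-- entries of a product, minus the linear part -/
theorem prod_err (g h : SL(2, ℝ)) :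
    |(g * h) 0 0 - 1 - (g 0 0 - 1) - (h 0 0 - 1)| + |(g * h) 0 1 - g 0 1 - h 0 1| +
      |(g * h) 1 0 - g 1 0 - h 1 0| + |(g * h) 1 1 - 1 - (g 1 1 - 1) - (h 1 1 - 1)|
        ≤ nn g * nn h := by
  rw [m00, m01, m10, m11]
  set a := g 0 0 - 1 with ha
  set b := g 0 1 with hb
  set c := g 1 0 with hc
  set d := g 1 1 - 1 with hd
  set a' := h 0 0 - 1 with ha'
  set b' := h 0 1 with hb'
  set c' := h 1 0 with hc'
  set d' := h 1 1 - 1 with hd'
  have e1 : g 0 0 * h 0 0 + b * c' - 1 - a - a' = a * a' + b * c' := by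
    rw [ha, ha']; ring
  have e2 : g 0 0 * b' + b * h 1 1 - b - b' = a * b' + b * d' := by
    rw [ha, hd']; ring
  have e3 : c * h 0 0 + g 1 1 * c' - c - c' = c * a' + d * c' := by
    rw [ha', hd]; ring
  have e4 : c * b' + g 1 1 * h 1 1 - 1 - d - d' = c * b' + d * d' := by
    rw [hd, hd']; ring
  rw [e1, e2, e3, e4]
  have hn : nn g = |a| + |b| + |c| + |d| := rfl
  have hn' : nn h = |a'| + |b'| + |c'| + |d'| := rfl
  rw [hn, hn']
  have f : ∀ p q r s : ℝ, |p * q + r * s| ≤ |p| * |q| + |r| * |s| := by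
    intro p q r s
    calc |p * q + r * s| ≤ |p * q| + |r * s| := abs_add_le _ _
      _ = _ := by rw [abs_mul, abs_mul]
  have h1 := f a a' b c'
  have h2 := f a b' b d'
  have h3 := f c a' d c'
  have h4 := f c b' d d'
  have A := abs_nonneg a
  have B := abs_nonneg b
  have C := abs_nonneg c
  have D := abs_nonneg d
  have A' := abs_nonneg a'
  have B' := abs_nonneg b'
  have C' := abs_nonneg c'
  have D' := abs_nonneg d'
  have k1 := mul_nonneg A C'
  have k2 := mul_nonneg A D'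
  have k3 := mul_nonneg B A'
  have k4 := mul_nonneg B B'
  have k5 := mul_nonneg C C'
  have k6 := mul_nonneg C D'
  have k7 := mul_nonneg D A'
  have k8 := mul_nonneg D B'
  nlinarith [h1, h2, h3, h4, k1, k2, k3, k4, k5, k6, k7, k8]

theorem nn_mul (g h : SL(2, ℝ)) : nn (g * h) ≤ nn g + nn h + nn g * nn h := by
  have h1 := prod_err g h
  have t : ∀ p q r : ℝ, |p| ≤ |p - q - r| + |q| + |r| := by
    intro p q r
    calc |p| = |(p - q - r) + q + r| := by congr 1; ring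
      _ ≤ |(p - q - r) + q| + |r| := abs_add_le _ _
      _ ≤ _ := by gcongr; exact abs_add_le _ _
  have t1 := t ((g * h) 0 0 - 1) (g 0 0 - 1) (h 0 0 - 1)
  have t2 := t ((g * h) 0 1) (g 0 1) (h 0 1)
  have t3 := t ((g * h) 1 0) (g 1 0) (h 1 0)
  have t4 := t ((g * h) 1 1 - 1) (g 1 1 - 1) (h 1 1 - 1)
  have e1 : nn (g * h) = |(g * h) 0 0 - 1| + |(g * h) 0 1| + |(g * h) 1 0| + |(g * h) 1 1 - 1| := rfl
  have e2 : nn g = |g 0 0 - 1| + |g 0 1| + |g 1 0| + |g 1 1 - 1| := rfl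
  have e3 : nn h = |h 0 0 - 1| + |h 0 1| + |h 1 0| + |h 1 1 - 1| := rfl
  linarith

theorem dd_tri (v w u : SL(2, ℝ)) (h1 : dd v w ≤ 1) : dd v u ≤ 2 * (dd v w + dd w u) := by
  have e : v⁻¹ * u = (v⁻¹ * w) * (w⁻¹ * u) := by group
  have h2 := nn_mul (v⁻¹ * w) (w⁻¹ * u)
  have h3 : 0 ≤ nn (w⁻¹ * u) := nn_nonneg _
  have h0 : 0 ≤ nn (v⁻¹ * w) := nn_nonneg _
  unfold dd at *
  rw [e]
  nlinarith [mul_le_mul_of_nonneg_right h1 h3]

/-- the three linear functionals -/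
def sf (g : SL(2, ℝ)) : ℝ := g 0 1 + g 1 0
def tf (g : SL(2, ℝ)) : ℝ := g 0 0 - g 1 1
def qf (g : SL(2, ℝ)) : ℝ := g 1 0 - g 0 1

theorem sf_le (g : SL(2, ℝ)) : |sf g| ≤ nn g := by
  have h := abs_add_le (g 0 1) (g 1 0)
  have h1 := abs_nonneg (g 0 0 - 1)
  have h2 := abs_nonneg (g 1 1 - 1)
  unfold sf nn
  linarith

theorem qf_le (g : SL(2, ℝ)) : |qf g| ≤ nn g := by
  have h := abs_sub (g 1 0) (g 0 1)
  have h1 := abs_nonneg (g 0 0 - 1)
  have h2 := abs_nonneg (g 1 1 - 1)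
  unfold qf nn
  linarith

theorem tf_le (g : SL(2, ℝ)) : |tf g| ≤ nn g := by
  have h := abs_sub (g 0 0 - 1) (g 1 1 - 1)
  have h1 := abs_nonneg (g 0 1)
  have h2 := abs_nonneg (g 1 0)
  have e : g 0 0 - g 1 1 = (g 0 0 - 1) - (g 1 1 - 1) := by ring
  unfold tf nn
  rw [e]
  linarith

theorem sf_mul (g h : SL(2, ℝ)) : |sf (g * h) - sf g - sf h| ≤ nn g * nn h := by
  have h1 := prod_err g h
  have e : sf (g * h) - sf g - sf h = ((g * h) 0 1 - g 0 1 - h 0 1) +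
      ((g * h) 1 0 - g 1 0 - h 1 0) := by unfold sf; ring
  rw [e]
  refine (abs_add_le _ _).trans (le_trans ?_ h1)
  have h2 := abs_nonneg ((g * h) 0 0 - 1 - (g 0 0 - 1) - (h 0 0 - 1))
  have h3 := abs_nonneg ((g * h) 1 1 - 1 - (g 1 1 - 1) - (h 1 1 - 1))
  linarith

theorem qf_mul (g h : SL(2, ℝ)) : |qf (g * h) - qf g - qf h| ≤ nn g * nn h := by
  have h1 := prod_err g h
  have e : qf (g * h) - qf g - qf h = ((g * h) 1 0 - g 1 0 - h 1 0) -
      ((g * h) 0 1 - g 0 1 - h 0 1) := by unfold qf; ring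
  rw [e]
  refine (abs_sub _ _).trans (le_trans ?_ h1)
  have h2 := abs_nonneg ((g * h) 0 0 - 1 - (g 0 0 - 1) - (h 0 0 - 1))
  have h3 := abs_nonneg ((g * h) 1 1 - 1 - (g 1 1 - 1) - (h 1 1 - 1))
  linarith

theorem tf_mul (g h : SL(2, ℝ)) : |tf (g * h) - tf g - tf h| ≤ nn g * nn h := by
  have h1 := prod_err g h
  have e : tf (g * h) - tf g - tf h = ((g * h) 0 0 - 1 - (g 0 0 - 1) - (h 0 0 - 1)) -
      ((g * h) 1 1 - 1 - (g 1 1 - 1) - (h 1 1 - 1)) := by unfold tf; ring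
  rw [e]
  refine (abs_sub _ _).trans (le_trans ?_ h1)
  have h2 := abs_nonneg ((g * h) 0 1 - g 0 1 - h 0 1)
  have h3 := abs_nonneg ((g * h) 1 0 - g 1 0 - h 1 0)
  linarith

/-- close to `1` the three functionals control the distance -/
theorem nn_le (g : SL(2, ℝ)) (hg : nn g ≤ 1) : nn g ≤ 2 * (|sf g| + |qf g| + |tf g|) := by
  have hs := sf_le g
  have hq := qf_le g
  have ht := tf_le g
  have hdet := dt g
  have eb : g 0 1 = (sf g - qf g) / 2 := by unfold sf qf; ring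
  have ec : g 1 0 = (sf g + qf g) / 2 := by unfold sf qf; ring
  have hb : |g 0 1| ≤ (|sf g| + |qf g|) / 2 := by
    rw [eb, abs_div, abs_of_pos (by norm_num : (0 : ℝ) < 2)]
    have := abs_sub (sf g) (qf g)
    linarith
  have hc : |g 1 0| ≤ (|sf g| + |qf g|) / 2 := by
    rw [ec, abs_div, abs_of_pos (by norm_num : (0 : ℝ) < 2)]
    have := abs_add_le (sf g) (qf g)
    linarith
  have h1 := abs_nonneg (g 0 1)
  have h2 := abs_nonneg (g 1 0)
  have h0 := abs_nonneg (g 0 0 - 1)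
  have h3 := abs_nonneg (g 1 1 - 1)
  have hn : nn g = |g 0 0 - 1| + |g 0 1| + |g 1 0| + |g 1 1 - 1| := rfl
  -- the trace
  set tr : ℝ := g 0 0 + g 1 1 - 2 with htr
  have etr : tr * (tr + 4) = tf g ^ 2 + sf g ^ 2 - qf g ^ 2 := by
    have : (g 0 0 + g 1 1) ^ 2 - 4 = tf g ^ 2 + sf g ^ 2 - qf g ^ 2 := by
      unfold tf sf qf
      linear_combination (4 : ℝ) * hdet
    rw [← this, htr]; ring
  have htr1 : -1 ≤ tr := by
    have a1 := neg_abs_le (g 0 0 - 1)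
    have a2 := neg_abs_le (g 1 1 - 1)
    rw [htr]
    linarith
  have habs : |tr| * 3 ≤ |sf g| + |qf g| + |tf g| := by
    have k1 : |tr| * (tr + 4) = |tf g ^ 2 + sf g ^ 2 - qf g ^ 2| := by
      rw [← etr, abs_mul, abs_of_pos (by linarith : (0 : ℝ) < tr + 4)]
    have k2 : |tr| * 3 ≤ |tr| * (tr + 4) :=
      mul_le_mul_of_nonneg_left (by linarith) (abs_nonneg _)
    have k3 : |tf g ^ 2 + sf g ^ 2 - qf g ^ 2| ≤ |tf g| ^ 2 + |sf g| ^ 2 + |qf g| ^ 2 := by
      rw [abs_le]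
      have s1 := sq_abs (tf g)
      have s2 := sq_abs (sf g)
      have s3 := sq_abs (qf g)
      constructor <;> nlinarith [sq_nonneg (tf g), sq_nonneg (sf g), sq_nonneg (qf g)]
    have k4 : |tf g| ^ 2 ≤ |tf g| := by
      have := abs_nonneg (tf g)
      nlinarith
    have k5 : |sf g| ^ 2 ≤ |sf g| := by
      have := abs_nonneg (sf g)
      nlinarith
    have k6 : |qf g| ^ 2 ≤ |qf g| := by
      have := abs_nonneg (qf g)
      nlinarith
    linarith
  have ea : |g 0 0 - 1| ≤ (|tr| + |tf g|) / 2 := by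
    have e : g 0 0 - 1 = (tr + tf g) / 2 := by rw [htr]; unfold tf; ring
    rw [e, abs_div, abs_of_pos (by norm_num : (0 : ℝ) < 2)]
    have := abs_add_le tr (tf g)
    linarith
  have ed : |g 1 1 - 1| ≤ (|tr| + |tf g|) / 2 := by
    have e : g 1 1 - 1 = (tr - tf g) / 2 := by rw [htr]; unfold tf; ring
    rw [e, abs_div, abs_of_pos (by norm_num : (0 : ℝ) < 2)]
    have := abs_sub tr (tf g)
    linarith
  have n1 := abs_nonneg (sf g)
  have n2 := abs_nonneg (qf g)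
  have n3 := abs_nonneg (tf g)
  linarith

end ALGm

open ALGm

theorem stmtAlg (hLip : StmtLip) : StmtAlg := by
  intro Γ ρ hF
  obtain ⟨hinv, -, cρ, cP, cH, B, L, hB, hL, bρ, bP, bH, lρ, lP, lH⟩ := hLip Γ ρ hF
  have hE : 1 ≤ Real.exp B := Real.one_le_exp hB
  have hE0 : 0 < Real.exp B := Real.exp_pos B
  have eB : ∀ z, Real.exp (ρ z) ≤ Real.exp B := fun z => Real.exp_le_exp.2 ((abs_le.1 (bρ z)).2)
  have eBn : ∀ z, Real.exp (-ρ z) ≤ Real.exp B := fun z =>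
    Real.exp_le_exp.2 (by have := (abs_le.1 (bρ z)).1; linarith)
  -- the coordinates in terms of the functionals
  have ex : ∀ v w, xx ρ v w = Real.exp (ρ (v • UpperHalfPlane.I)) * sf (v⁻¹ * w) := fun v w => rfl
  have et : ∀ v w, tt ρ v w = Real.exp (ρ (v • UpperHalfPlane.I)) * tf (v⁻¹ * w) := fun v w => rfl
  have ey : ∀ v w, yy ρ v w = qf (v⁻¹ * w) - tf (v⁻¹ * w) * Pr ρ v + sf (v⁻¹ * w) * Hr ρ v :=
    fun v w => rfl
  -- exponentials are Lipschitz
  have lE : ∀ v w : SL(2, ℝ), |Real.exp (ρ (v • UpperHalfPlane.I)) -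
      Real.exp (ρ (w • UpperHalfPlane.I))| ≤ Real.exp B * (L * dd v w) := by
    have key : ∀ a b : ℝ, a ≤ B → b ≤ B → |Real.exp a - Real.exp b| ≤ Real.exp B * |a - b| := by
      have one : ∀ a b : ℝ, a ≤ b → b ≤ B → Real.exp b - Real.exp a ≤ Real.exp B * (b - a) := by
        intro a b hab hb
        have h1 : Real.exp a = Real.exp b * Real.exp (a - b) := by
          rw [← Real.exp_add]; congr 1; ring
        have h2 := Real.add_one_le_exp (a - b)
        have h3 : Real.exp b - Real.exp a ≤ Real.exp b * (b - a) := by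
          rw [h1]
          nlinarith [Real.exp_pos b]
        refine h3.trans (mul_le_mul_of_nonneg_right (Real.exp_le_exp.2 hb) (by linarith))
      intro a b ha hb
      rcases le_total a b with h | h
      · rw [abs_sub_comm, abs_of_nonneg (sub_nonneg.2 (Real.exp_le_exp.2 h)), abs_sub_comm a b,
          abs_of_nonneg (sub_nonneg.2 h)]
        exact one a b h hb
      · rw [abs_of_nonneg (sub_nonneg.2 (Real.exp_le_exp.2 h)), abs_of_nonneg (sub_nonneg.2 h)]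
        exact one b a h ha
    intro v w
    refine (key _ _ (abs_le.1 (bρ _)).2 (abs_le.1 (bρ _)).2).trans ?_
    refine mul_le_mul_of_nonneg_left ?_ hE0.le
    rw [abs_sub_comm]
    exact lρ v w
  -- continuity
  have hsm : Continuous fun g : SL(2, ℝ) => g • UpperHalfPlane.I := continuous_id.smul continuous_const
  have hinvmul : Continuous fun p : SL(2, ℝ) × SL(2, ℝ) => p.1⁻¹ * p.2 :=
    continuous_fst.inv.mul continuous_snd
  have cE : Continuous fun p : SL(2, ℝ) × SL(2, ℝ) => Real.exp (ρ (p.1 • UpperHalfPlane.I)) :=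
    Real.continuous_exp.comp (cρ.comp (hsm.comp continuous_fst))
  have ce : ∀ i j : Fin 2, Continuous fun p : SL(2, ℝ) × SL(2, ℝ) => (p.1⁻¹ * p.2) i j :=
    fun i j => (ec i j).comp hinvmul
  -- invariance of the quotient
  have hq : ∀ γ v w : SL(2, ℝ), (γ * v)⁻¹ * (γ * w) = v⁻¹ * w := by
    intro γ v w; group
  have hri : ∀ γ ∈ Γ, ∀ v : SL(2, ℝ), ρ ((γ * v) • UpperHalfPlane.I) = ρ (v • UpperHalfPlane.I) := by
    intro γ hγ v
    rw [mul_smul]
    exact hF.inv γ hγ _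
  -- dd w u
  have hwu : ∀ v w u : SL(2, ℝ), dd v w ≤ 1 → dd w u ≤ 2 * (dd v w + dd v u) := by
    intro v w u h
    have h1 : dd w v ≤ 1 := by rw [dd_symm]; exact h
    have h2 := dd_tri w v u h1
    rwa [dd_symm v w] at h2
  have dn : ∀ v w : SL(2, ℝ), 0 ≤ dd v w := fun v w => nn_nonneg _
  have hprod : ∀ v w u : SL(2, ℝ), v⁻¹ * u = (v⁻¹ * w) * (w⁻¹ * u) := by
    intro v w u; group
  -- the constant
  set c : ℝ := 4 * (1 + B) * (1 + L) * Real.exp B with hc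
  have hBL : 1 ≤ (1 + B) * (1 + L) := by nlinarith [mul_nonneg hB hL]
  have hc1 : 4 * ((1 + B) * (1 + L)) ≤ c := by
    rw [hc]
    nlinarith
  have hc4 : 4 * (1 + B) * Real.exp B ≤ c := by
    rw [hc]
    have : 0 ≤ 4 * (1 + B) * Real.exp B := by positivity
    nlinarith
  have hc5 : 4 * (1 + L) * Real.exp B ≤ c := by
    rw [hc]
    have : 0 ≤ 4 * (1 + L) * Real.exp B := by positivity
    nlinarith
  have hc0 : 4 ≤ c := by linarith
  have hc6 : 4 * Real.exp B ≤ c := by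
    have : 0 ≤ L * Real.exp B := mul_nonneg hL hE0.le
    nlinarith
  have hcp : 0 ≤ c := by linarith
  -- general bound for x and τ under the change of base point
  have gen : ∀ f : SL(2, ℝ) → ℝ, (∀ g, |f g| ≤ nn g) → (∀ g h, |f (g * h) - f g - f h| ≤ nn g * nn h) →
      ∀ v w u : SL(2, ℝ), dd v w ≤ 1 → dd v u ≤ 1 →
      |Real.exp (ρ (v • UpperHalfPlane.I)) * f (v⁻¹ * u)
        - Real.exp (ρ (v • UpperHalfPlane.I)) * f (v⁻¹ * w)
        - Real.exp (ρ (w • UpperHalfPlane.I)) * f (w⁻¹ * u)| ≤ c * (dd v w + dd v u) ^ 2 := by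
    intro f hf1 hf2 v w u h1 h2
    have h3 := hwu v w u h1
    set D := dd v w + dd v u with hD
    have hD0 : 0 ≤ D := add_nonneg (dn _ _) (dn _ _)
    have hvw : dd v w ≤ D := by have := dn v u; linarith
    have hf3 : |f (w⁻¹ * u)| ≤ 2 * D := (hf1 _).trans h3
    have hf4 : |f (v⁻¹ * u) - f (v⁻¹ * w) - f (w⁻¹ * u)| ≤ D * (2 * D) := by
      rw [hprod v w u]
      exact (hf2 _ _).trans (mul_le_mul hvw h3 (dn w u) hD0)
    have e : Real.exp (ρ (v • UpperHalfPlane.I)) * f (v⁻¹ * u)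
        - Real.exp (ρ (v • UpperHalfPlane.I)) * f (v⁻¹ * w)
        - Real.exp (ρ (w • UpperHalfPlane.I)) * f (w⁻¹ * u) =
        Real.exp (ρ (v • UpperHalfPlane.I)) * (f (v⁻¹ * u) - f (v⁻¹ * w) - f (w⁻¹ * u)) +
        (Real.exp (ρ (v • UpperHalfPlane.I)) - Real.exp (ρ (w • UpperHalfPlane.I))) *
          f (w⁻¹ * u) := by ring
    rw [e]
    have k1 : |Real.exp (ρ (v • UpperHalfPlane.I)) * (f (v⁻¹ * u) - f (v⁻¹ * w) - f (w⁻¹ * u))| ≤
        Real.exp B * (D * (2 * D)) := by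
      rw [abs_mul, abs_of_pos (Real.exp_pos _)]
      exact mul_le_mul (eB _) hf4 (abs_nonneg _) hE0.le
    have k2 : |(Real.exp (ρ (v • UpperHalfPlane.I)) - Real.exp (ρ (w • UpperHalfPlane.I))) *
          f (w⁻¹ * u)| ≤ (Real.exp B * (L * D)) * (2 * D) := by
      rw [abs_mul]
      refine mul_le_mul ((lE v w).trans ?_) hf3 (abs_nonneg _) (by positivity)
      exact mul_le_mul_of_nonneg_left (mul_le_mul_of_nonneg_left hvw hL) hE0.le
    refine (abs_add_le _ _).trans ((add_le_add k1 k2).trans ?_)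
    have e2 : Real.exp B * (D * (2 * D)) + Real.exp B * (L * D) * (2 * D) =
        (2 * (1 + L) * Real.exp B) * D ^ 2 := by ring
    rw [e2]
    refine mul_le_mul_of_nonneg_right ?_ (sq_nonneg D)
    have : 0 ≤ 2 * (1 + L) * Real.exp B := by positivity
    linarith
  refine ⟨c, 1, ?_⟩
  refine
    { one_le := by linarith
      rpos := one_pos
      rle := le_rfl
      xc := ?_
      yc := ?_
      tc := ?_
      xi := ?_
      yi := ?_
      ti := ?_
      dsymm := dd_symm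
      dtri := ?_
      dle := ?_
      xle := ?_
      yle := ?_
      tle := ?_
      xcc := ?_
      ycc := ?_
      tcc := ?_ }
  · exact cE.mul ((ce 0 1).add (ce 1 0))
  · exact (((ce 1 0).sub (ce 0 1)).sub (((ce 0 0).sub (ce 1 1)).mul (cP.comp continuous_fst))).add
      (((ce 0 1).add (ce 1 0)).mul (cH.comp continuous_fst))
  · exact cE.mul ((ce 0 0).sub (ce 1 1))
  · intro γ hγ v w
    rw [ex, ex, hq, hri γ hγ]
  · intro γ hγ v w
    have := hinv γ (hF.inv γ hγ) v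
    rw [ey, ey, hq, this.1, this.2]
  · intro γ hγ v w
    rw [et, et, hq, hri γ hγ]
  · intro v w u h1 _
    refine (dd_tri v w u h1).trans ?_
    exact mul_le_mul_of_nonneg_right (by linarith) (add_nonneg (dn _ _) (dn _ _))
  · intro v w h
    have h1 := nn_le (v⁻¹ * w) h
    have hs : |sf (v⁻¹ * w)| ≤ Real.exp B * |xx ρ v w| := by
      have e1 : sf (v⁻¹ * w) = Real.exp (-ρ (v • UpperHalfPlane.I)) * xx ρ v w := by
        rw [ex, ← mul_assoc, ← Real.exp_add]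
        simp
      rw [e1, abs_mul, abs_of_pos (Real.exp_pos _)]
      exact mul_le_mul_of_nonneg_right (eBn _) (abs_nonneg _)
    have ht : |tf (v⁻¹ * w)| ≤ Real.exp B * |tt ρ v w| := by
      have e1 : tf (v⁻¹ * w) = Real.exp (-ρ (v • UpperHalfPlane.I)) * tt ρ v w := by
        rw [et, ← mul_assoc, ← Real.exp_add]
        simp
      rw [e1, abs_mul, abs_of_pos (Real.exp_pos _)]
      exact mul_le_mul_of_nonneg_right (eBn _) (abs_nonneg _)
    have hqq : |qf (v⁻¹ * w)| ≤ |yy ρ v w| + B * |tf (v⁻¹ * w)| + B * |sf (v⁻¹ * w)| := by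
      have e1 : qf (v⁻¹ * w) = yy ρ v w + tf (v⁻¹ * w) * Pr ρ v - sf (v⁻¹ * w) * Hr ρ v := by
        rw [ey]; ring
      have a1 : |tf (v⁻¹ * w) * Pr ρ v| ≤ B * |tf (v⁻¹ * w)| := by
        rw [abs_mul, mul_comm]
        exact mul_le_mul_of_nonneg_right (bP v) (abs_nonneg _)
      have a2 : |sf (v⁻¹ * w) * Hr ρ v| ≤ B * |sf (v⁻¹ * w)| := by
        rw [abs_mul, mul_comm]
        exact mul_le_mul_of_nonneg_right (bH v) (abs_nonneg _)
      calc |qf (v⁻¹ * w)| = |yy ρ v w + tf (v⁻¹ * w) * Pr ρ v - sf (v⁻¹ * w) * Hr ρ v| := by rw [← e1]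
        _ ≤ |yy ρ v w + tf (v⁻¹ * w) * Pr ρ v| + |sf (v⁻¹ * w) * Hr ρ v| := abs_sub _ _
        _ ≤ |yy ρ v w| + |tf (v⁻¹ * w) * Pr ρ v| + |sf (v⁻¹ * w) * Hr ρ v| := by
          gcongr; exact abs_add_le _ _
        _ ≤ _ := by linarith
    have h2 : dd v w ≤ 2 * (|yy ρ v w| + (1 + B) * |tf (v⁻¹ * w)| + (1 + B) * |sf (v⁻¹ * w)|) := by
      refine h1.trans ?_
      linarith
    have h3 : (1 + B) * |tf (v⁻¹ * w)| ≤ (1 + B) * (Real.exp B * |tt ρ v w|) :=
      mul_le_mul_of_nonneg_left ht (by linarith)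
    have h4 : (1 + B) * |sf (v⁻¹ * w)| ≤ (1 + B) * (Real.exp B * |xx ρ v w|) :=
      mul_le_mul_of_nonneg_left hs (by linarith)
    have h5 : 4 * (1 + B) * Real.exp B * |tt ρ v w| ≤ c * |tt ρ v w| :=
      mul_le_mul_of_nonneg_right hc4 (abs_nonneg _)
    have h6 : 4 * (1 + B) * Real.exp B * |xx ρ v w| ≤ c * |xx ρ v w| :=
      mul_le_mul_of_nonneg_right hc4 (abs_nonneg _)
    have h7 : 4 * |yy ρ v w| ≤ c * |yy ρ v w| := mul_le_mul_of_nonneg_right hc0 (abs_nonneg _)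
    have p1 : 0 ≤ (1 + B) * (Real.exp B * |tt ρ v w|) := by positivity
    have p2 : 0 ≤ (1 + B) * (Real.exp B * |xx ρ v w|) := by positivity
    have p3 := abs_nonneg (yy ρ v w)
    have : c * (|xx ρ v w| + |yy ρ v w| + |tt ρ v w|) =
      c * |xx ρ v w| + c * |yy ρ v w| + c * |tt ρ v w| := by ring
    rw [this]
    linarith
  · intro v w _
    rw [ex, abs_mul, abs_of_pos (Real.exp_pos _)]
    refine mul_le_mul ((eB _).trans (by linarith)) (sf_le _) (abs_nonneg _) hcp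
  · intro v w _
    rw [ey]
    have a1 : |tf (v⁻¹ * w) * Pr ρ v| ≤ dd v w * B := by
      rw [abs_mul]
      exact mul_le_mul (tf_le _) (bP v) (abs_nonneg _) (dn v w)
    have a2 : |sf (v⁻¹ * w) * Hr ρ v| ≤ dd v w * B := by
      rw [abs_mul]
      exact mul_le_mul (sf_le _) (bH v) (abs_nonneg _) (dn v w)
    have a3 : |qf (v⁻¹ * w)| ≤ dd v w := qf_le _
    have a4 : |qf (v⁻¹ * w) - tf (v⁻¹ * w) * Pr ρ v + sf (v⁻¹ * w) * Hr ρ v| ≤
        |qf (v⁻¹ * w)| + |tf (v⁻¹ * w) * Pr ρ v| + |sf (v⁻¹ * w) * Hr ρ v| := by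
      refine (abs_add_le _ _).trans ?_
      gcongr
      exact abs_sub _ _
    have a5 : (1 + 2 * B) * dd v w ≤ c * dd v w := by
      refine mul_le_mul_of_nonneg_right ?_ (dn v w)
      nlinarith
    linarith
  · intro v w _
    rw [et, abs_mul, abs_of_pos (Real.exp_pos _)]
    refine mul_le_mul ((eB _).trans (by linarith)) (tf_le _) (abs_nonneg _) hcp
  · intro v w u h1 h2
    rw [ex, ex, ex]
    exact gen sf sf_le sf_mul v w u h1 h2
  · intro v w u h1 h2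
    have h3 := hwu v w u h1
    rw [ey, ey, ey]
    set D := dd v w + dd v u with hD
    have hD0 : 0 ≤ D := add_nonneg (dn _ _) (dn _ _)
    have hvw : dd v w ≤ D := by have := dn v u; linarith
    have herr : ∀ f : SL(2, ℝ) → ℝ, (∀ g h, |f (g * h) - f g - f h| ≤ nn g * nn h) →
        |f (v⁻¹ * u) - f (v⁻¹ * w) - f (w⁻¹ * u)| ≤ D * (2 * D) := by
      intro f hf2
      rw [hprod v w u]
      exact (hf2 _ _).trans (mul_le_mul hvw h3 (dn w u) hD0)
    have q1 := herr qf qf_mul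
    have q2 := herr tf tf_mul
    have q3 := herr sf sf_mul
    have r1 : |tf (w⁻¹ * u)| ≤ 2 * D := (tf_le _).trans h3
    have r2 : |sf (w⁻¹ * u)| ≤ 2 * D := (sf_le _).trans h3
    have r3 : |Pr ρ w - Pr ρ v| ≤ L * D := (lP v w).trans (mul_le_mul_of_nonneg_left hvw hL)
    have r4 : |Hr ρ w - Hr ρ v| ≤ L * D := (lH v w).trans (mul_le_mul_of_nonneg_left hvw hL)
    have e : qf (v⁻¹ * u) - tf (v⁻¹ * u) * Pr ρ v + sf (v⁻¹ * u) * Hr ρ v -
        (qf (v⁻¹ * w) - tf (v⁻¹ * w) * Pr ρ v + sf (v⁻¹ * w) * Hr ρ v) -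
        (qf (w⁻¹ * u) - tf (w⁻¹ * u) * Pr ρ w + sf (w⁻¹ * u) * Hr ρ w) =
        (qf (v⁻¹ * u) - qf (v⁻¹ * w) - qf (w⁻¹ * u)) -
        (tf (v⁻¹ * u) - tf (v⁻¹ * w) - tf (w⁻¹ * u)) * Pr ρ v +
        (sf (v⁻¹ * u) - sf (v⁻¹ * w) - sf (w⁻¹ * u)) * Hr ρ v +
        tf (w⁻¹ * u) * (Pr ρ w - Pr ρ v) - sf (w⁻¹ * u) * (Hr ρ w - Hr ρ v) := by ring
    rw [e]
    have t2 : |(tf (v⁻¹ * u) - tf (v⁻¹ * w) - tf (w⁻¹ * u)) * Pr ρ v| ≤ D * (2 * D) * B := by
      rw [abs_mul]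
      exact mul_le_mul q2 (bP v) (abs_nonneg _) (by positivity)
    have t3 : |(sf (v⁻¹ * u) - sf (v⁻¹ * w) - sf (w⁻¹ * u)) * Hr ρ v| ≤ D * (2 * D) * B := by
      rw [abs_mul]
      exact mul_le_mul q3 (bH v) (abs_nonneg _) (by positivity)
    have t4 : |tf (w⁻¹ * u) * (Pr ρ w - Pr ρ v)| ≤ 2 * D * (L * D) := by
      rw [abs_mul]
      exact mul_le_mul r1 r3 (abs_nonneg _) (by positivity)
    have t5 : |sf (w⁻¹ * u) * (Hr ρ w - Hr ρ v)| ≤ 2 * D * (L * D) := by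
      rw [abs_mul]
      exact mul_le_mul r2 r4 (abs_nonneg _) (by positivity)
    have tot : ∀ p q r s t : ℝ, |p - q + r + s - t| ≤ |p| + |q| + |r| + |s| + |t| := by
      intro p q r s t
      calc |p - q + r + s - t| ≤ |p - q + r + s| + |t| := abs_sub _ _
        _ ≤ |p - q + r| + |s| + |t| := by gcongr; exact abs_add_le _ _
        _ ≤ |p - q| + |r| + |s| + |t| := by gcongr; exact abs_add_le _ _
        _ ≤ |p| + |q| + |r| + |s| + |t| := by gcongr; exact abs_sub _ _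
    refine (tot _ _ _ _ _).trans ?_
    have fin : D * (2 * D) + D * (2 * D) * B + D * (2 * D) * B + 2 * D * (L * D) + 2 * D * (L * D)
        = (2 + 4 * B + 4 * L) * D ^ 2 := by ring
    have fin2 : (2 + 4 * B + 4 * L) * D ^ 2 ≤ c * D ^ 2 := by
      refine mul_le_mul_of_nonneg_right ?_ (sq_nonneg D)
      nlinarith [mul_nonneg hB hL]
    linarith
  · intro v w u h1 h2
    rw [et, et, et]
    exact gen tf tf_le tf_mul v w u h1 h2

end

end NC

end QE
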