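import Pool.Agent.NCV.Stmts

/-!
# No directional atoms in negative curvature
-/

open MeasureTheory Filter Topology Set
open UpperHalfPlane hiding I
open scoped ContDiff MatrixGroups ENNReal

namespace QE

namespace NC

noncomputable section

/-! ### the curvature -/

section curv

variable {Γ : Subgroup SL(2, ℝ)} {ρ : ℍ → ℝ}

theorem at_smooth (hF : Fac Γ ρ) (z : ℍ) : ContDiffAt ℝ ∞ (ro ρ) (z : ℂ) :=
  hF.smooth.contDiffAt (isOpen_UH.mem_nhds (coe_mem_UH z))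

theorem at_lap_cont (hF : Fac Γ ρ) : Continuous (lapR ρ) := by
  have h1 : Continuous fun z : ℍ => Laplacian.laplacian (ro ρ) (z : ℂ) := by
    rw [continuous_iff_continuousAt]
    intro z
    have h2 : ContinuousAt (Laplacian.laplacian (ro ρ)) (z : ℂ) := by
      rw [InnerProductSpace.laplacian_eq_iteratedFDeriv_complexPlane]
      have h3 : ContinuousAt (iteratedFDeriv ℝ 2 (ro ρ)) (z : ℂ) :=
        (at_smooth hF z).continuousAt_iteratedFDeriv (WithTop.coe_le_coe.2 le_top)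
      have h4 : ∀ m : Fin 2 → ℂ, ContinuousAt (fun x => iteratedFDeriv ℝ 2 (ro ρ) x m) (z : ℂ) :=
        fun m => h3.eval_const m
      exact (h4 _).add (h4 _)
    exact ContinuousAt.comp (f := fun z : ℍ => (z : ℂ)) h2 continuous_coe.continuousAt
  unfold lapR
  exact continuous_const.add ((continuous_im.pow 2).mul h1)

theorem at_lap_inv (hF : Fac Γ ρ) {γ : SL(2, ℝ)} (hγ : γ ∈ Γ) (z : ℍ) :
    lapR ρ (γ • z) = lapR ρ z := by
  have hz := coe_mem_UH z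
  have h0 := den_ne_zero γ hz
  have e1 : (fun w => ro ρ (mob γ w)) = ro ρ := by
    funext w
    unfold ro
    rw [ofComplex_mob, hF.inv γ hγ]
  have han : AnalyticAt ℂ (mob γ) (z : ℂ) := by
    have hd : DifferentiableOn ℂ (mob γ) UH := fun w hw =>
      (hasDerivAt_mob γ hw).differentiableAt.differentiableWithinAt
    exact hd.analyticAt (isOpen_UH.mem_nhds hz)
  have h1 : ContDiffAt ℝ 2 (ro ρ) (mob γ (z : ℂ)) := by
    rw [mob_coe]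
    exact (at_smooth hF (γ • z)).of_le (WithTop.coe_le_coe.2 le_top)
  have h2 := Berry.laplacian_conformal h1 han
  rw [e1, (hasDerivAt_mob γ hz).deriv, mob_coe] at h2
  have h3 : (γ • z).im = z.im / ‖den γ z‖ ^ 2 := by
    have := mob_im γ hz
    rw [mob_coe] at this
    exact this
  unfold lapR
  rw [h2, h3, norm_div, norm_pow, norm_one]
  have h4 : ‖den γ z‖ ≠ 0 := norm_ne_zero_iff.2 h0
  field_simp

theorem at_kap_bd (hF : Fac Γ ρ) (hρ : Continuous ρ) (hlap : ∀ z, 0 < lapR ρ z) :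
    ∃ k₀ k₁ : ℝ, 0 < k₀ ∧ (∀ v, k₀ ≤ kap ρ v) ∧ ∀ v, kap ρ v ≤ k₁ := by
  set f : ℍ → ℝ := fun z => Real.exp (-(2 * ρ z)) * lapR ρ z with hf
  have hfc : Continuous f := (Real.continuous_exp.comp (hρ.const_mul 2).neg).mul (at_lap_cont hF)
  have hfi : ∀ γ ∈ Γ, ∀ z, f (γ • z) = f z := fun γ hγ z => by
    simp only [hf, hF.inv γ hγ, at_lap_inv hF hγ]
  obtain ⟨K, hK, hKc⟩ := hF.cpt
  have hne : K.Nonempty := by
    obtain ⟨γ, -, h⟩ := hKc UpperHalfPlane.I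
    exact ⟨_, h⟩
  obtain ⟨a, -, ha⟩ := hK.exists_isMinOn hne hfc.continuousOn
  obtain ⟨b, -, hb⟩ := hK.exists_isMaxOn hne hfc.continuousOn
  refine ⟨f a, f b, mul_pos (Real.exp_pos _) (hlap a), fun v => ?_, fun v => ?_⟩
  · obtain ⟨γ, hγ, h⟩ := hKc (v • UpperHalfPlane.I)
    have h1 := ha h
    rw [mem_ofPred_eq, hfi γ hγ] at h1
    exact h1
  · obtain ⟨γ, hγ, h⟩ := hKc (v • UpperHalfPlane.I)
    have h1 := hb h
    rw [mem_ofPred_eq, hfi γ hγ] at h1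
    exact h1

end curv

/-! ### change of the constants -/

section mono

theorem at_nn_nonneg (g : SL(2, ℝ)) : 0 ≤ nn g := by unfold nn; positivity

theorem at_dd_nonneg (v w : SL(2, ℝ)) : 0 ≤ dd v w := at_nn_nonneg _

variable {Γ : Subgroup SL(2, ℝ)} {x y τ : SL(2, ℝ) → SL(2, ℝ) → ℝ} {c c' r r' : ℝ}
  {Φ : ℝ → SL(2, ℝ) → SL(2, ℝ)} {κ : SL(2, ℝ) → ℝ}

theorem at_alg_mono (h : PairAlg Γ x y τ c r) (hc : c ≤ c') (h0 : 0 < r') (hr : r' ≤ r) :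
    PairAlg Γ x y τ c' r' := by
  have hd := at_dd_nonneg
  refine ⟨h.one_le.trans hc, h0, hr.trans h.rle, h.xc, h.yc, h.tc, h.xi, h.yi, h.ti, h.dsymm,
    ?_, ?_, ?_, ?_, ?_, ?_, ?_, ?_⟩
  · intro v w u h1 h2
    exact (h.dtri v w u (h1.trans hr) (h2.trans hr)).trans
      (mul_le_mul_of_nonneg_right hc (add_nonneg (hd _ _) (hd _ _)))
  · intro v w h1
    exact (h.dle v w (h1.trans hr)).trans (mul_le_mul_of_nonneg_right hc (by positivity))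
  · intro v w h1
    exact (h.xle v w (h1.trans hr)).trans (mul_le_mul_of_nonneg_right hc (hd _ _))
  · intro v w h1
    exact (h.yle v w (h1.trans hr)).trans (mul_le_mul_of_nonneg_right hc (hd _ _))
  · intro v w h1
    exact (h.tle v w (h1.trans hr)).trans (mul_le_mul_of_nonneg_right hc (hd _ _))
  · intro v w u h1 h2
    exact (h.xcc v w u (h1.trans hr) (h2.trans hr)).trans
      (mul_le_mul_of_nonneg_right hc (by positivity))
  · intro v w u h1 h2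
    exact (h.ycc v w u (h1.trans hr) (h2.trans hr)).trans
      (mul_le_mul_of_nonneg_right hc (by positivity))
  · intro v w u h1 h2
    exact (h.tcc v w u (h1.trans hr) (h2.trans hr)).trans
      (mul_le_mul_of_nonneg_right hc (by positivity))

theorem at_fl_mono {L : ℝ} (h : PairFl Φ c L) (hc : c ≤ c') : PairFl Φ c' L := by
  have hd := at_dd_nonneg
  refine ⟨fun v w t => (h.dflow v w t).trans ?_, fun v t ht => (h.dmove v t ht).trans ?_⟩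
  · exact mul_le_mul_of_nonneg_right (mul_le_mul_of_nonneg_right hc (Real.exp_pos _).le) (hd _ _)
  · exact mul_le_mul_of_nonneg_right hc (abs_nonneg _)

theorem at_der_mono (h : PairDer Φ x y τ κ c r) (hc : c ≤ c') (hr : r' ≤ r) :
    PairDer Φ x y τ κ c' r' := by
  have hd := at_dd_nonneg
  have h2 : ∀ v w, c * dd v w ^ 2 ≤ c' * dd v w ^ 2 := fun v w =>
    mul_le_mul_of_nonneg_right hc (by positivity)
  have h1 : ∀ v w, c * dd v w ≤ c' * dd v w := fun v w =>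
    mul_le_mul_of_nonneg_right hc (hd _ _)
  refine ⟨?_, ?_, ?_, ?_, ?_, ?_⟩
  · intro v w hw
    obtain ⟨a, ha, hb⟩ := h.xd v w (hw.trans hr)
    exact ⟨a, ha, hb.trans (h2 _ _)⟩
  · intro v w hw
    obtain ⟨a, ha, hb⟩ := h.yd v w (hw.trans hr)
    exact ⟨a, ha, hb.trans (h2 _ _)⟩
  · intro v w hw
    obtain ⟨a, ha, hb⟩ := h.td v w (hw.trans hr)
    exact ⟨a, ha, hb.trans (h2 _ _)⟩
  · intro v w hw
    obtain ⟨a, ha, hb⟩ := h.xm v w (hw.trans hr)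
    exact ⟨a, ha, hb.trans (h1 _ _)⟩
  · intro v w hw
    obtain ⟨a, ha, hb⟩ := h.ym v w (hw.trans hr)
    exact ⟨a, ha, hb.trans (h1 _ _)⟩
  · intro v w hw
    obtain ⟨a, ha, hb⟩ := h.tm v w (hw.trans hr)
    exact ⟨a, ha, hb.trans (h1 _ _)⟩

end mono

/-! ### the boxes -/

section box

theorem at_kset_neg {g : SL(2, ℝ)} {d ε : ℝ} (h : g ∈ Kset d ε) : -g ∈ Kset d ε := by
  obtain ⟨h1, h2⟩ := h
  refine ⟨?_, ?_⟩
  · have e : ∀ i j, (-g) i j = -(g i j) := fun i j => rfl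
    rw [e, e, e, e]
    calc _ = (g 0 0 - g 1 1) ^ 2 + (g 0 1 + g 1 0) ^ 2 := by ring
      _ < _ := h1
  · have e : ∀ i j, (-g) i j = -(g i j) := fun i j => rfl
    rw [e, e, abs_sub_comm]
    calc _ = |g 0 1 - g 1 0| := by congr 1; ring
      _ < _ := h2

theorem at_real {a b c e d ε : ℝ} (hdet : a * e - b * c = 1)
    (h1 : (a - e) ^ 2 + (b + c) ^ 2 < d ^ 2) (h2 : |b - c| < ε) (hs : 0 ≤ a + e) (hd : 0 < d)
    (hd1 : d ≤ 1) (hε1 : ε ≤ 1) :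
    |a - 1| + |b| + |c| + |e - 1| ≤ 3 * (d + ε) ∧ |b + c| ≤ d ∧ |a - e| ≤ d := by
  have hε : 0 ≤ ε := (abs_nonneg _).trans h2.le
  have h3 : |a - e| ≤ d := abs_le_of_sq_le_sq (by nlinarith [sq_nonneg (b + c)]) hd.le
  have h4 : |b + c| ≤ d := abs_le_of_sq_le_sq (by nlinarith [sq_nonneg (a - e)]) hd.le
  refine ⟨?_, h4, h3⟩
  have h5 : (b - c) ^ 2 ≤ ε ^ 2 := by
    rw [← sq_abs (b - c)]
    exact pow_le_pow_left₀ (abs_nonneg _) h2.le 2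
  have h6 : |a + e - 2| * (a + e + 2) ≤ d ^ 2 + ε ^ 2 := by
    have e1 : |a + e - 2| * (a + e + 2) = |(a - e) ^ 2 + (b + c) ^ 2 - (b - c) ^ 2| := by
      have e2 : |a + e + 2| = a + e + 2 := abs_of_nonneg (by linarith)
      calc |a + e - 2| * (a + e + 2) = |a + e - 2| * |a + e + 2| := by rw [e2]
        _ = |(a + e - 2) * (a + e + 2)| := (abs_mul _ _).symm
        _ = _ := ?_
      congr 1
      linear_combination 4 * hdet
    rw [e1, abs_le]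
    constructor
    · nlinarith [sq_nonneg (a - e), sq_nonneg (b + c), sq_nonneg d]
    · nlinarith [sq_nonneg (b - c), sq_nonneg ε]
  have h7 : |a + e - 2| * 2 ≤ d + ε := by
    have h8 : |a + e - 2| * 2 ≤ |a + e - 2| * (a + e + 2) :=
      mul_le_mul_of_nonneg_left (by linarith) (abs_nonneg _)
    nlinarith
  have k1 := abs_le.1 h3
  have k2 := abs_le.1 h4
  have k3 := abs_le.1 h2.le
  have k4 : |a + e - 2| ≤ (d + ε) / 2 := by linarith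
  have k5 := abs_le.1 k4
  have m1 : |a - 1| + |e - 1| ≤ (d + ε) / 2 + d := by
    rcases abs_cases (a - 1) with ⟨q1, -⟩ | ⟨q1, -⟩ <;> rcases abs_cases (e - 1) with ⟨q2, -⟩ | ⟨q2, -⟩
      <;> rw [q1, q2] <;> linarith
  have m2 : |b| + |c| ≤ d + ε := by
    rcases abs_cases b with ⟨q1, -⟩ | ⟨q1, -⟩ <;> rcases abs_cases c with ⟨q2, -⟩ | ⟨q2, -⟩
      <;> rw [q1, q2] <;> linarith
  linarith

theorem at_kset_nn {g : SL(2, ℝ)} {d ε : ℝ} (hd : 0 < d) (hd1 : d ≤ 1) (hε1 : ε ≤ 1)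
    (h : g ∈ Kset d ε) (hs : 0 ≤ g 0 0 + g 1 1) :
    nn g ≤ 3 * (d + ε) ∧ |g 0 1 + g 1 0| ≤ d ∧ |g 0 0 - g 1 1| ≤ d := by
  obtain ⟨h1, h2⟩ := h
  have hdet : g 0 0 * g 1 1 - g 0 1 * g 1 0 = 1 := by
    have := g.det_coe
    rw [Matrix.det_fin_two] at this
    exact this
  exact at_real hdet h1 h2 hs hd hd1 hε1

/-- the set in Theorem N -/
def at_set (ρ : ℍ → ℝ) (r δ ε : ℝ) (v : SL(2, ℝ)) : Set SL(2, ℝ) :=
  {w | dd v w ≤ r ∧ |xx ρ v w| ≤ δ ∧ |tt ρ v w| ≤ δ ∧ |yy ρ v w| ≤ ε}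

theorem at_mem {ρ : ℍ → ℝ} {B r d ε ε' : ℝ} (hBρ : ∀ z, |ρ z| ≤ B)
    (hBP : ∀ g, |Pr ρ g| ≤ B) (hBH : ∀ g, |Hr ρ g| ≤ B) (hd : 0 < d) (hd1 : d ≤ 1)
    (hε1 : ε ≤ 1) (hr : 3 * (d + ε) ≤ r) (hε' : ε + 2 * B * d ≤ ε') {v w : SL(2, ℝ)}
    (h : v⁻¹ * w ∈ Kset d ε) (hs : 0 ≤ (v⁻¹ * w) 0 0 + (v⁻¹ * w) 1 1) :
    w ∈ at_set ρ r (Real.exp B * d) ε' v := by
  obtain ⟨h1, h2, h3⟩ := at_kset_nn hd hd1 hε1 h hs
  have h4 : |(v⁻¹ * w) 0 1 - (v⁻¹ * w) 1 0| < ε := h.2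
  have hexp : Real.exp (ρ (v • UpperHalfPlane.I)) ≤ Real.exp B :=
    Real.exp_le_exp.2 ((le_abs_self _).trans (hBρ _))
  refine ⟨h1.trans hr, ?_, ?_, ?_⟩
  · unfold xx
    rw [abs_mul, abs_of_pos (Real.exp_pos _)]
    exact mul_le_mul hexp h2 (abs_nonneg _) (Real.exp_pos _).le
  · unfold tt
    rw [abs_mul, abs_of_pos (Real.exp_pos _)]
    exact mul_le_mul hexp h3 (abs_nonneg _) (Real.exp_pos _).le
  · unfold yy
    have h5 : |((v⁻¹ * w) 0 0 - (v⁻¹ * w) 1 1) * Pr ρ v| ≤ d * B := by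
      rw [abs_mul]
      exact mul_le_mul h3 (hBP v) (abs_nonneg _) hd.le
    have h6 : |((v⁻¹ * w) 0 1 + (v⁻¹ * w) 1 0) * Hr ρ v| ≤ d * B := by
      rw [abs_mul]
      exact mul_le_mul h2 (hBH v) (abs_nonneg _) hd.le
    have h7 : |(v⁻¹ * w) 1 0 - (v⁻¹ * w) 0 1| ≤ ε := by rw [abs_sub_comm]; exact h4.le
    calc _ ≤ |(v⁻¹ * w) 1 0 - (v⁻¹ * w) 0 1 - ((v⁻¹ * w) 0 0 - (v⁻¹ * w) 1 1) * Pr ρ v|
          + |((v⁻¹ * w) 0 1 + (v⁻¹ * w) 1 0) * Hr ρ v| := abs_add_le _ _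
      _ ≤ |(v⁻¹ * w) 1 0 - (v⁻¹ * w) 0 1| + |((v⁻¹ * w) 0 0 - (v⁻¹ * w) 1 1) * Pr ρ v|
          + |((v⁻¹ * w) 0 1 + (v⁻¹ * w) 1 0) * Hr ρ v| := by gcongr; exact abs_sub _ _
      _ ≤ ε + d * B + d * B := by gcongr
      _ ≤ ε' := by linarith

theorem at_subset {ρ : ℍ → ℝ} {B r d ε ε' : ℝ} (hBρ : ∀ z, |ρ z| ≤ B)
    (hBP : ∀ g, |Pr ρ g| ≤ B) (hBH : ∀ g, |Hr ρ g| ≤ B) (hd : 0 < d) (hd1 : d ≤ 1)
    (hε1 : ε ≤ 1) (hr : 3 * (d + ε) ≤ r) (hε' : ε + 2 * B * d ≤ ε') (v : SL(2, ℝ)) :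
    (fun w => v⁻¹ * w) ⁻¹' (Kset d ε) ⊆
      at_set ρ r (Real.exp B * d) ε' v ∪ (fun g => -g) ⁻¹' (at_set ρ r (Real.exp B * d) ε' v) := by
  intro w hw
  rw [mem_preimage] at hw
  by_cases hs : 0 ≤ (v⁻¹ * w) 0 0 + (v⁻¹ * w) 1 1
  · exact Or.inl (at_mem hBρ hBP hBH hd hd1 hε1 hr hε' hw hs)
  · right
    rw [mem_preimage]
    have e : v⁻¹ * -w = -(v⁻¹ * w) := mul_neg _ _
    refine at_mem hBρ hBP hBH hd hd1 hε1 hr hε' ?_ ?_
    · rw [e]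
      exact at_kset_neg hw
    · rw [e]
      have e2 : ∀ i j, (-(v⁻¹ * w)) i j = -((v⁻¹ * w) i j) := fun i j => rfl
      rw [e2, e2]
      linarith [not_le.1 hs]

end box

/-! ### the measures -/

section meas

variable [MeasurableSpace SL(2, ℝ)] [BorelSpace SL(2, ℝ)]

theorem at_nu_fin {ρ : ℍ → ℝ} {B : ℝ} (hBρ : ∀ z, |ρ z| ≤ B) (μ : Measure SL(2, ℝ))
    [IsFiniteMeasureOnCompacts μ] : IsFiniteMeasureOnCompacts (nuR ρ μ) := by
  refine ⟨fun K hK => ?_⟩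
  unfold nuR
  rw [withDensity_apply _ hK.measurableSet]
  have h1 : ∫⁻ g in K, ENNReal.ofReal (Real.exp (2 * ρ (g • UpperHalfPlane.I))) ∂μ
      ≤ ∫⁻ _ in K, ENNReal.ofReal (Real.exp (2 * B)) ∂μ := by
    refine lintegral_mono fun g => ENNReal.ofReal_le_ofReal (Real.exp_le_exp.2 ?_)
    linarith [(le_abs_self _).trans (hBρ (g • UpperHalfPlane.I))]
  refine h1.trans_lt ?_
  rw [setLIntegral_const]
  exact ENNReal.mul_lt_top ENNReal.ofReal_lt_top hK.measure_lt_top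

omit [BorelSpace SL(2, ℝ)] in
theorem at_mu_le {ρ : ℍ → ℝ} {B : ℝ} (hBρ : ∀ z, |ρ z| ≤ B) (μ : Measure SL(2, ℝ)) :
    μ ≤ ENNReal.ofReal (Real.exp (2 * B)) • nuR ρ μ := by
  refine Measure.le_iff.2 fun s hs => ?_
  rw [Measure.smul_apply, smul_eq_mul]
  unfold nuR
  rw [withDensity_apply _ hs, ← lintegral_const_mul' _ _ ENNReal.ofReal_ne_top]
  calc μ s = ∫⁻ _ in s, 1 ∂μ := by rw [setLIntegral_one]
    _ ≤ _ := by
      refine lintegral_mono fun g => ?_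
      rw [← ENNReal.ofReal_mul (Real.exp_pos _).le, ← Real.exp_add, ← ENNReal.ofReal_one]
      refine ENNReal.ofReal_le_ofReal ?_
      rw [← Real.exp_zero]
      refine Real.exp_le_exp.2 ?_
      linarith [(neg_le_of_abs_le (hBρ (g • UpperHalfPlane.I)))]

theorem at_pair_le {ρ : ℍ → ℝ} {B r d ε ε' : ℝ} (hBρ : ∀ z, |ρ z| ≤ B)
    (hBP : ∀ g, |Pr ρ g| ≤ B) (hBH : ∀ g, |Hr ρ g| ≤ B) (hd : 0 < d) (hd1 : d ≤ 1)
    (hε1 : ε ≤ 1) (hr : 3 * (d + ε) ≤ r) (hε' : ε + 2 * B * d ≤ ε') {μ : Measure SL(2, ℝ)}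
    (hneg : Measure.map (fun g => -g) μ = μ) (D : Set ℍ) {η : ℝ}
    (h : PM D (nuR ρ μ) (fun v w => dd v w ≤ r ∧ |xx ρ v w| ≤ Real.exp B * d ∧
      |tt ρ v w| ≤ Real.exp B * d ∧ |yy ρ v w| ≤ ε') ≤ ENNReal.ofReal (η * (Real.exp B * d) ^ 2)) :
    pairMass D μ (Kset d ε) ≤
      ENNReal.ofReal (2 * Real.exp (2 * B) * Real.exp (2 * B) * (η * (Real.exp B * d) ^ 2)) := by
  set A : SL(2, ℝ) → Set SL(2, ℝ) := at_set ρ r (Real.exp B * d) ε' with hA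
  set E : ℝ≥0∞ := ENNReal.ofReal (Real.exp (2 * B)) with hE
  have hle := at_mu_le hBρ μ
  have hn : Measurable fun g : SL(2, ℝ) => -g := neg_cont.measurable
  have h1 : ∀ v, μ ((fun w => v⁻¹ * w) ⁻¹' (Kset d ε)) ≤ 2 * E * nuR ρ μ (A v) := by
    intro v
    calc μ ((fun w => v⁻¹ * w) ⁻¹' (Kset d ε))
        ≤ μ (A v ∪ (fun g => -g) ⁻¹' (A v)) :=
          measure_mono (at_subset hBρ hBP hBH hd hd1 hε1 hr hε' v)
      _ ≤ μ (A v) + μ ((fun g => -g) ⁻¹' (A v)) := measure_union_le _ _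
      _ ≤ μ (A v) + μ (A v) := by
          refine add_le_add le_rfl ?_
          refine (Measure.le_map_apply hn.aemeasurable _).trans (le_of_eq ?_)
          rw [hneg]
      _ = 2 * μ (A v) := (two_mul _).symm
      _ ≤ 2 * (E * nuR ρ μ (A v)) := by
          gcongr
          exact hle _
      _ = _ := by rw [mul_assoc]
  calc pairMass D μ (Kset d ε)
      = ∫⁻ v in Berry.Fd D, μ ((fun w => v⁻¹ * w) ⁻¹' (Kset d ε)) ∂μ := rfl
    _ ≤ ∫⁻ v in Berry.Fd D, 2 * E * nuR ρ μ (A v) ∂μ := lintegral_mono h1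
    _ ≤ ∫⁻ v in Berry.Fd D, 2 * E * nuR ρ μ (A v) ∂(E • nuR ρ μ) :=
        lintegral_mono' (Measure.restrict_mono le_rfl hle) le_rfl
    _ = E * (2 * E * PM D (nuR ρ μ) (fun v w => dd v w ≤ r ∧ |xx ρ v w| ≤ Real.exp B * d ∧
      |tt ρ v w| ≤ Real.exp B * d ∧ |yy ρ v w| ≤ ε')) := by
        rw [Measure.restrict_smul, lintegral_smul_measure, lintegral_const_mul' _ _
          (ENNReal.mul_ne_top (by simp) ENNReal.ofReal_ne_top), smul_eq_mul]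
        rfl
    _ ≤ E * (2 * E * ENNReal.ofReal (η * (Real.exp B * d) ^ 2)) := by gcongr
    _ = _ := by
        rw [hE, show (2 : ℝ≥0∞) = ENNReal.ofReal 2 by simp, ← ENNReal.ofReal_mul (by norm_num),
          ← ENNReal.ofReal_mul (by positivity), ← ENNReal.ofReal_mul (Real.exp_pos _).le]
        congr 1
        ring

end meas

/-- **no directional atoms** -/
theorem stmtAtoms (hLip : StmtLip) (hInf : StmtInf) (hFlow : StmtFlow) (hFl : StmtFl)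
    (hInv : StmtInv) (hAlg : StmtAlg) (hDer : StmtDer) (hMass : StmtMass) (hN : StmtN) :
    StmtAtoms := by
  intro Γ _ D ρ u hDm hD hF hlap hu
  let _ : MeasurableSpace SL(2, ℝ) := borel _
  have : BorelSpace SL(2, ℝ) := ⟨rfl⟩
  obtain ⟨μ, p, -, hfc, hleft, hneg, hpm, hp0, hpi, hpae, hpsq, hproj, hcoef⟩ :=
    exists_measure hDm hD hF.cpt hu.toLimFam0
  have := hfc
  have hμ : FlowMeas0 Γ D μ p := ⟨hleft, hneg, hpm, hp0, hpi, hpsq, hproj⟩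
  obtain ⟨Φ, hΦ⟩ := hFlow Γ ρ hF
  obtain ⟨-, -, hρc, -, -, B, -, hB0, -, hBρ, hBP, hBH, -⟩ := hLip Γ ρ hF
  have := at_nu_fin hBρ μ
  have hinf := hInf Γ ρ u μ hF hu hneg hcoef
  have hinv := hInv Γ ρ Φ (nuR ρ μ) hF hΦ hinf
  obtain ⟨c₁, r₁, hA⟩ := hAlg Γ ρ hF
  obtain ⟨c₂, L, hc₂, hL, hFL⟩ := hFl Γ ρ Φ hF hΦ
  obtain ⟨c₃, r₃, hc₃, hr₃, hDD⟩ := hDer Γ ρ Φ hF hΦ
  obtain ⟨k₀, k₁, hk₀, hklo, hkhi⟩ := at_kap_bd hF hρc hlap
  set c : ℝ := max c₁ (max c₂ c₃) with hc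
  set r : ℝ := min r₁ r₃ with hr
  have hr0 : 0 < r := lt_min hA.rpos hr₃
  have hr1 : r ≤ 1 := (min_le_left _ _).trans hA.rle
  have hsys : PairSys Γ Φ (xx ρ) (yy ρ) (tt ρ) (kap ρ) c r L k₀ k₁ :=
    ⟨at_alg_mono hA (le_max_left _ _) hr0 (min_le_left _ _),
      at_fl_mono hFL ((le_max_left _ _).trans (le_max_right _ _)),
      at_der_mono hDD ((le_max_right _ _).trans (le_max_right _ _)) (min_le_right _ _),
      hL, hk₀, hΦ.zero, hΦ.add, hΦ.cont, fun γ hγ => hΦ.left γ (hF.inv γ hγ), hklo, hkhi⟩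
  have hms := hMass Γ D ρ Φ μ p hDm hD hF hμ hinv r hr0 hr1
  have hth := hN Γ D Φ (xx ρ) (yy ρ) (tt ρ) (kap ρ) c r L k₀ k₁ (nuR ρ μ) hsys hms
  obtain ⟨C, -, hC⟩ := hμ.pair_bound hD hDm
  refine ⟨p, hpm, hp0, hpi, hpae, hpsq, fun ζ hζ hζc hζU hζ0 => ?_⟩
  refine FejerN.fejer_tendsto hDm hD hμ hu.toLimFam0 hcoef
    ⟨C, fun d hd hd1 => hC d hd (by linarith)⟩ ?_ hζ hζc hζU hζ0
  intro η hη
  have hE : 0 < 2 * Real.exp (2 * B) * Real.exp (2 * B) * Real.exp B ^ 2 := by positivity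
  obtain ⟨ε', hε', δ₀, hδ₀, h⟩ :=
    hth (η / (2 * Real.exp (2 * B) * Real.exp (2 * B) * Real.exp B ^ 2)) (by positivity)
  refine ⟨min (ε' / 2) (min 1 (r / 6)), by positivity,
    min (δ₀ / Real.exp B) (min (ε' / (4 * (B + 1))) (min 1 (r / 6))), by positivity,
    fun d hd hdd => ?_⟩
  have h1 : d < δ₀ / Real.exp B := hdd.trans_le (min_le_left _ _)
  have h2 : d < ε' / (4 * (B + 1)) :=
    hdd.trans_le ((min_le_right _ _).trans (min_le_left _ _))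
  have h3 : d < 1 := hdd.trans_le ((min_le_right _ _).trans ((min_le_right _ _).trans
    (min_le_left _ _)))
  have h4 : d < r / 6 := hdd.trans_le ((min_le_right _ _).trans ((min_le_right _ _).trans
    (min_le_right _ _)))
  have h5 : min (ε' / 2) (min 1 (r / 6)) ≤ ε' / 2 := min_le_left _ _
  have h6 : min (ε' / 2) (min 1 (r / 6)) ≤ 1 := (min_le_right _ _).trans (min_le_left _ _)
  have h7 : min (ε' / 2) (min 1 (r / 6)) ≤ r / 6 := (min_le_right _ _).trans (min_le_right _ _)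
  have h8 : Real.exp B * d < δ₀ := by
    rw [lt_div_iff₀ (Real.exp_pos _)] at h1
    linarith
  have h9 : 2 * B * d ≤ ε' / 2 := by
    rw [lt_div_iff₀ (by positivity)] at h2
    nlinarith
  have h10 := at_pair_le (D := D) hBρ hBP hBH hd h3.le h6 (by linarith) (by linarith) hneg
    (h (Real.exp B * d) (by positivity) h8)
  refine h10.trans (ENNReal.ofReal_le_ofReal (le_of_eq ?_))
  field_simp

end

end NC

end QE
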