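import Pool.Agent.NCV.Final

/-!
# Closed surfaces of negative curvature: fourth moments and quantum ergodicity on the surface

If the fourth moments of normalised eigenfunctions tend to `3`, their squares become equidistributed.
-/

open UpperHalfPlane MeasureTheory MatrixGroups Filter Topology Set Berry
open scoped ENNReal ContDiff

namespace QE

namespace NC

noncomputable section

variable {Γ : Subgroup SL(2, ℝ)} {ρ : ℍ → ℝ} {D : Set ℍ}

/-- the local wave at the origin -/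
theorem rWave_origin (φ : ℍ → ℝ) (m : ℝ) (p : ℍ × ℝ) : rWave ρ φ m 0 p = φ p.1 := by
  unfold rWave
  rw [zero_div, add_zero, show (Complex.I : ℂ) = ((UpperHalfPlane.I : ℍ) : ℂ) from rfl,
    ofComplex_apply, frame_smul_I]

theorem angle_prob : IsProbabilityMeasure
    (ProbabilityTheory.cond (volume : Measure ℝ) (Set.Ioc 0 (2 * Real.pi))) := by
  refine ProbabilityTheory.cond_isProbabilityMeasure_of_finite ?_ ?_
  · rw [Real.volume_Ioc]
    simp [Real.pi_pos]
  · rw [Real.volume_Ioc]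
    exact ENNReal.ofReal_ne_top

theorem area_prob [Countable Γ] (hg : Geo Γ ρ D) :
    IsProbabilityMeasure (ProbabilityTheory.cond (area ρ) D) :=
  ProbabilityTheory.cond_isProbabilityMeasure_of_finite (area_ne_zero hg) (area_ne_top hg)

/-- averages over the frames of functions of the base point -/
theorem rFrame_base [Countable Γ] (hg : Geo Γ ρ D) {f : ℍ → ℝ} :
    ∫ p, f p.1 ∂(rFrameProb ρ D) = rAvg ρ D f := by
  have h1 := area_prob hg
  have h2 := angle_prob
  unfold rFrameProb rAvg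
  rw [integral_fun_fst, measureReal_def]
  simp

/-- continuous invariant functions are integrable -/
theorem integrable_area [Countable Γ] (hg : Geo Γ ρ D)
    (hK : ∃ K : Set ℍ, IsCompact K ∧ ∀ z, ∃ γ ∈ Γ, γ • z ∈ K) {f : ℍ → ℝ} (hf : Continuous f)
    (hfi : ∀ γ ∈ Γ, ∀ z, f (γ • z) = f z) :
    Integrable f (ProbabilityTheory.cond (area ρ) D) := by
  have h1 := area_prob hg
  obtain ⟨C, hC⟩ := bdd_of_cocompact hf hfi hK
  exact Integrable.of_bound hf.aestronglyMeasurable C (Eventually.of_forall fun z => by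
    rw [Real.norm_eq_abs]; exact hC z)

/-- one half of the convergence of the squares -/
theorem mass_le_of_four [Countable Γ] (hg : Geo Γ ρ D)
    (hK : ∃ K : Set ℍ, IsCompact K ∧ ∀ z, ∃ γ ∈ Γ, γ • z ∈ K)
    {φ : ℕ → ℍ → ℝ} (hc : ∀ n, Continuous (φ n)) (hinv : ∀ n, ∀ γ ∈ Γ, ∀ z, φ n (γ • z) = φ n z)
    (hn : ∀ n, rAvg ρ D (fun z => φ n z ^ 2) = 1)
    (H : ∀ g : ℍ → ℝ, Continuous g → (∀ γ ∈ Γ, ∀ z, g (γ • z) = g z) → ∀ ε > 0,
      ∀ᶠ n in atTop, 3 * rAvg ρ D (fun z => g z * φ n z ^ 2) ^ 2 - ε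
        ≤ rAvg ρ D (fun z => g z ^ 2) * rAvg ρ D (fun z => φ n z ^ 4))
    (h4 : Tendsto (fun n => rAvg ρ D (fun z => φ n z ^ 4)) atTop (𝓝 3))
    {f : ℍ → ℝ} (hf : Continuous f) (hfi : ∀ γ ∈ Γ, ∀ z, f (γ • z) = f z) {η : ℝ} (hη : 0 < η) :
    ∀ᶠ n in atTop, rAvg ρ D (fun z => f z * φ n z ^ 2) ≤ rAvg ρ D f + η := by
  have hP := area_prob hg
  set b : ℝ := rAvg ρ D (fun z => f z ^ 2) with hb
  have hb0 : 0 ≤ b := integral_nonneg fun z => sq_nonneg _
  set t : ℝ := η / (b + 1) with ht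
  have ht0 : 0 < t := by positivity
  have htb : t * b ≤ η := by
    rw [ht, div_mul_eq_mul_div, div_le_iff₀ (by positivity)]
    nlinarith
  set g : ℍ → ℝ := fun z => 1 + t * f z with hgd
  have hgc : Continuous g := continuous_const.add (continuous_const.mul hf)
  have hgi : ∀ γ ∈ Γ, ∀ z, g (γ • z) = g z := fun γ hγ z => by simp only [hgd, hfi γ hγ]
  set G : ℝ := rAvg ρ D (fun z => g z ^ 2) with hG
  have hG0 : 0 ≤ G := integral_nonneg fun z => sq_nonneg _
  have i1 : Integrable f (ProbabilityTheory.cond (area ρ) D) := integrable_area hg hK hf hfi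
  have i2 : Integrable (fun z => f z ^ 2) (ProbabilityTheory.cond (area ρ) D) :=
    integrable_area hg hK (hf.pow 2) fun γ hγ z => by
      show f (γ • z) ^ 2 = f z ^ 2
      rw [hfi γ hγ]
  have eG : G = 1 + 2 * t * rAvg ρ D f + t ^ 2 * b := by
    rw [hG, hb]
    unfold rAvg
    have e : (fun z => g z ^ 2) = fun z => (1 + 2 * t * f z) + t ^ 2 * f z ^ 2 := by
      funext z; simp only [hgd]; ring
    have k1 : Integrable (fun z => 1 + 2 * t * f z) (ProbabilityTheory.cond (area ρ) D) :=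
      (integrable_const _).add (i1.const_mul _)
    rw [e, integral_add k1 (i2.const_mul _),
      integral_add (integrable_const _) (i1.const_mul _), integral_const_mul, integral_const_mul]
    simp
  have ea : ∀ n, rAvg ρ D (fun z => g z * φ n z ^ 2)
      = 1 + t * rAvg ρ D (fun z => f z * φ n z ^ 2) := by
    intro n
    have j1 : Integrable (fun z => φ n z ^ 2) (ProbabilityTheory.cond (area ρ) D) :=
      integrable_area hg hK ((hc n).pow 2) fun γ hγ z => by
        show φ n (γ • z) ^ 2 = φ n z ^ 2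
        rw [hinv n γ hγ]
    have j2 : Integrable (fun z => f z * φ n z ^ 2) (ProbabilityTheory.cond (area ρ) D) :=
      integrable_area hg hK (hf.mul ((hc n).pow 2)) fun γ hγ z => by
        show f (γ • z) * φ n (γ • z) ^ 2 = f z * φ n z ^ 2
        rw [hfi γ hγ, hinv n γ hγ]
    have e : (fun z => g z * φ n z ^ 2) = fun z => φ n z ^ 2 + t * (f z * φ n z ^ 2) := by
      funext z; simp only [hgd]; ring
    have e0 := hn n
    unfold rAvg at e0 ⊢
    rw [e, integral_add j1 (j2.const_mul _), integral_const_mul, e0]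
  have h1 := H g hgc hgi (3 * t * η / 4) (by positivity)
  have h2 := h4.eventually_lt_const (show (3 : ℝ) < 3 + 3 * t * η / 4 / (G + 1) by
    have : 0 < 3 * t * η / 4 / (G + 1) := by positivity
    linarith)
  filter_upwards [h1, h2] with n n1 n2
  rw [ea n] at n1
  set a := rAvg ρ D (fun z => f z * φ n z ^ 2) with ha
  set A := rAvg ρ D (fun z => φ n z ^ 4) with hA
  have h3 : G * A ≤ 3 * G + 3 * t * η / 4 := by
    have h5 : G * A ≤ G * (3 + 3 * t * η / 4 / (G + 1)) := mul_le_mul_of_nonneg_left n2.le hG0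
    have h6 : G * (3 * t * η / 4 / (G + 1)) ≤ 3 * t * η / 4 := by
      rw [mul_div_assoc', div_le_iff₀ (by positivity)]
      have : 0 ≤ 3 * t * η / 4 := by positivity
      nlinarith
    linarith
  have h7 : 3 * (1 + 2 * (t * a)) ≤ 3 * G + 3 * t * η / 2 := by
    nlinarith [sq_nonneg (t * a)]
  rw [eG] at h7
  have h8 : t * (2 * (a - rAvg ρ D f)) ≤ t * (t * b + η / 2) := by nlinarith
  have h9 := le_of_mul_le_mul_left h8 ht0
  linarith

/-- **Fourth moments close to `3` imply equidistribution of the squares.** -/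
theorem mass_of_four [Countable Γ] (hg : Geo Γ ρ D)
    (hK : ∃ K : Set ℍ, IsCompact K ∧ ∀ z, ∃ γ ∈ Γ, γ • z ∈ K)
    {φ : ℕ → ℍ → ℝ} (hc : ∀ n, Continuous (φ n)) (hinv : ∀ n, ∀ γ ∈ Γ, ∀ z, φ n (γ • z) = φ n z)
    (hn : ∀ n, rAvg ρ D (fun z => φ n z ^ 2) = 1)
    (H : ∀ g : ℍ → ℝ, Continuous g → (∀ γ ∈ Γ, ∀ z, g (γ • z) = g z) → ∀ ε > 0,
      ∀ᶠ n in atTop, 3 * rAvg ρ D (fun z => g z * φ n z ^ 2) ^ 2 - ε
        ≤ rAvg ρ D (fun z => g z ^ 2) * rAvg ρ D (fun z => φ n z ^ 4))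
    (h4 : Tendsto (fun n => rAvg ρ D (fun z => φ n z ^ 4)) atTop (𝓝 3))
    {f : ℍ → ℝ} (hf : Continuous f) (hfi : ∀ γ ∈ Γ, ∀ z, f (γ • z) = f z) :
    Tendsto (fun n => rAvg ρ D (fun z => f z * φ n z ^ 2)) atTop (𝓝 (rAvg ρ D f)) := by
  rw [Metric.tendsto_nhds]
  intro η hη
  have h1 := mass_le_of_four hg hK hc hinv hn H h4 hf hfi (half_pos hη)
  have h2 := mass_le_of_four hg hK hc hinv hn H h4 (f := fun z => -f z) hf.neg
    (fun γ hγ z => by rw [hfi γ hγ]) (half_pos hη)
  filter_upwards [h1, h2] with n n1 n2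
  have e1 : rAvg ρ D (fun z => -f z * φ n z ^ 2) = -rAvg ρ D (fun z => f z * φ n z ^ 2) := by
    unfold rAvg
    rw [← integral_neg]
    congr 1; funext z; ring
  have e2 : rAvg ρ D (fun z => -f z) = -rAvg ρ D f := by
    unfold rAvg
    rw [integral_neg]
  rw [e1, e2] at n2
  rw [Real.dist_eq, abs_lt]
  constructor <;> linarith

end

end NC

end QE
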