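import Mathlib

/-!
# Closed surfaces of negative curvature: the growth lemma (NC_GROW)

Approximate solutions of `X' = Y`, `Y' = K X` with `0 < k₀ ≤ K ≤ k₁`: `X Y` increases, and
`X² + Y²` grows exponentially once `X Y ≥ 0`.
-/

open Set Real

namespace QE

namespace NC

/-- `X' = Y`, `Y' = K X` up to an error `e (|X| + |Y|)` on `[0, T]`, `k₀ ≤ K ≤ k₁`. -/
structure GrowSys (k₀ k₁ e T : ℝ) (X Y K : ℝ → ℝ) : Prop where
  klo : ∀ t ∈ Icc (0 : ℝ) T, k₀ ≤ K t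
  khi : ∀ t ∈ Icc (0 : ℝ) T, K t ≤ k₁
  der : ∀ t ∈ Icc (0 : ℝ) T, ∃ x' y' : ℝ, HasDerivAt X x' t ∧ HasDerivAt Y y' t ∧
    |x' - Y t| ≤ e * (|X t| + |Y t|) ∧ |y' - K t * X t| ≤ e * (|X t| + |Y t|)

namespace Grow

theorem mono_of_der {g : ℝ → ℝ} {T : ℝ}
    (h : ∀ t ∈ Icc (0 : ℝ) T, ∃ g' : ℝ, HasDerivAt g g' t ∧ 0 ≤ g') :
    MonotoneOn g (Icc 0 T) := by
  apply monotoneOn_of_deriv_nonneg (convex_Icc 0 T)
  · intro t ht
    obtain ⟨g', hg, _⟩ := h t ht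
    exact hg.continuousAt.continuousWithinAt
  · intro t ht
    obtain ⟨g', hg, _⟩ := h t (interior_subset ht)
    exact hg.differentiableAt.differentiableWithinAt
  · intro t ht
    obtain ⟨g', hg, h0⟩ := h t (interior_subset ht)
    rw [hg.deriv]
    exact h0

/-- smaller error -/
theorem weaken {k₀ k₁ e e' T : ℝ} {X Y K : ℝ → ℝ} (h : GrowSys k₀ k₁ e T X Y K) (he : e ≤ e') :
    GrowSys k₀ k₁ e' T X Y K := by
  refine ⟨h.klo, h.khi, ?_⟩
  intro t ht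
  obtain ⟨x', y', h1, h2, h3, h4⟩ := h.der t ht
  have h5 : e * (|X t| + |Y t|) ≤ e' * (|X t| + |Y t|) :=
    mul_le_mul_of_nonneg_right he (by positivity)
  exact ⟨x', y', h1, h2, h3.trans h5, h4.trans h5⟩

/-- a shift in time -/
theorem shift {k₀ k₁ e T : ℝ} {X Y K : ℝ → ℝ} (h : GrowSys k₀ k₁ e T X Y K) {s S : ℝ}
    (hs : 0 ≤ s) (hS : s + S ≤ T) :
    GrowSys k₀ k₁ e S (fun t => X (s + t)) (fun t => Y (s + t)) (fun t => K (s + t)) := by
  have hm : ∀ t ∈ Icc (0 : ℝ) S, s + t ∈ Icc (0 : ℝ) T := by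
    intro t ht
    exact ⟨by linarith [ht.1], by linarith [ht.2]⟩
  refine ⟨fun t ht => h.klo _ (hm t ht), fun t ht => h.khi _ (hm t ht), ?_⟩
  intro t ht
  obtain ⟨x', y', h1, h2, h3, h4⟩ := h.der (s + t) (hm t ht)
  refine ⟨x', y', ?_, ?_, h3, h4⟩
  · exact HasDerivAt.comp_const_add s t h1
  · exact HasDerivAt.comp_const_add s t h2

/-- reversal of time -/
theorem reverse {k₀ k₁ e T : ℝ} {X Y K : ℝ → ℝ} (h : GrowSys k₀ k₁ e T X Y K) :
    GrowSys k₀ k₁ e T (fun t => X (T - t)) (fun t => -Y (T - t)) (fun t => K (T - t)) := by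
  have hm : ∀ t ∈ Icc (0 : ℝ) T, T - t ∈ Icc (0 : ℝ) T := by
    intro t ht
    exact ⟨by linarith [ht.2], by linarith [ht.1]⟩
  refine ⟨fun t ht => h.klo _ (hm t ht), fun t ht => h.khi _ (hm t ht), ?_⟩
  intro t ht
  obtain ⟨x', y', h1, h2, h3, h4⟩ := h.der (T - t) (hm t ht)
  refine ⟨-x', y', ?_, ?_, ?_, ?_⟩
  · exact HasDerivAt.comp_const_sub T t h1
  · have h5 := (HasDerivAt.comp_const_sub T t h2).neg
    rw [neg_neg] at h5
    exact h5
  · rw [abs_neg]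
    have h6 : -x' - -Y (T - t) = -(x' - Y (T - t)) := by ring
    rw [h6, abs_neg]
    exact h3
  · rw [abs_neg]
    exact h4

/-- the derivative of `X Y` -/
theorem der_f {k₀ k₁ e T : ℝ} {X Y K : ℝ → ℝ} (h : GrowSys k₀ k₁ e T X Y K) (he : 0 ≤ e)
    {m : ℝ} (hm1 : m ≤ 1) (hm2 : m ≤ k₀) (hm3 : 4 * e ≤ m) :
    ∀ t ∈ Icc (0 : ℝ) T, ∃ f' : ℝ, HasDerivAt (fun s => X s * Y s) f' t ∧
      m / 2 * (X t ^ 2 + Y t ^ 2) ≤ f' := by
  intro t ht
  obtain ⟨x', y', h1, h2, h3, h4⟩ := h.der t ht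
  refine ⟨x' * Y t + X t * y', h1.mul h2, ?_⟩
  have hk := h.klo t ht
  set a := |X t| with ha
  set b := |Y t| with hb
  have ha0 : 0 ≤ a := abs_nonneg _
  have hb0 : 0 ≤ b := abs_nonneg _
  have ha2 : a ^ 2 = X t ^ 2 := sq_abs _
  have hb2 : b ^ 2 = Y t ^ 2 := sq_abs _
  have e1 : -(e * (a + b) * b) ≤ (x' - Y t) * Y t := by
    have : |(x' - Y t) * Y t| ≤ e * (a + b) * b := by
      rw [abs_mul]
      exact mul_le_mul_of_nonneg_right h3 hb0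
    exact (abs_le.mp this).1
  have e2 : -(e * (a + b) * a) ≤ X t * (y' - K t * X t) := by
    have : |X t * (y' - K t * X t)| ≤ e * (a + b) * a := by
      rw [abs_mul, mul_comm]
      exact mul_le_mul_of_nonneg_right h4 ha0
    exact (abs_le.mp this).1
  have e3 : x' * Y t + X t * y' = Y t ^ 2 + K t * X t ^ 2 + (x' - Y t) * Y t
      + X t * (y' - K t * X t) := by ring
  have e4 : e * (a + b) * b + e * (a + b) * a ≤ 2 * e * (X t ^ 2 + Y t ^ 2) := by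
    rw [← ha2, ← hb2]
    nlinarith [mul_nonneg he (sq_nonneg (a - b))]
  have e5 : m * X t ^ 2 ≤ K t * X t ^ 2 :=
    mul_le_mul_of_nonneg_right (hm2.trans hk) (sq_nonneg _)
  have e6 : m * Y t ^ 2 ≤ Y t ^ 2 := by nlinarith [sq_nonneg (Y t)]
  have e7 : 2 * e * (X t ^ 2 + Y t ^ 2) ≤ m / 2 * (X t ^ 2 + Y t ^ 2) :=
    mul_le_mul_of_nonneg_right (by linarith) (by positivity)
  rw [e3]
  linarith

/-- the derivative of `X² + Y²` -/
theorem der_E {k₀ k₁ e T : ℝ} {X Y K : ℝ → ℝ} (h : GrowSys k₀ k₁ e T X Y K) (he : 0 ≤ e)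
    (hk0 : 0 ≤ k₀) {C : ℝ} (hC : 1 + k₁ + 4 * e ≤ C) :
    ∀ t ∈ Icc (0 : ℝ) T, ∃ f' : ℝ, HasDerivAt (fun s => X s ^ 2 + Y s ^ 2) f' t ∧
      |f'| ≤ C * (X t ^ 2 + Y t ^ 2) := by
  intro t ht
  obtain ⟨x', y', h1, h2, h3, h4⟩ := h.der t ht
  refine ⟨2 * X t * x' + 2 * Y t * y', ?_, ?_⟩
  · have h5 : HasDerivAt (fun s => X s ^ 2 + Y s ^ 2) _ t := (h1.pow 2).add (h2.pow 2)
    convert h5 using 1
    push_cast
    ring
  have hk := h.klo t ht
  have hk' := h.khi t ht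
  set a := |X t| with ha
  set b := |Y t| with hb
  have ha0 : 0 ≤ a := abs_nonneg _
  have hb0 : 0 ≤ b := abs_nonneg _
  have ha2 : a ^ 2 = X t ^ 2 := sq_abs _
  have hb2 : b ^ 2 = Y t ^ 2 := sq_abs _
  have e1 : |X t * (x' - Y t)| ≤ e * (a + b) * a := by
    rw [abs_mul, mul_comm]
    exact mul_le_mul_of_nonneg_right h3 ha0
  have e2 : |Y t * (y' - K t * X t)| ≤ e * (a + b) * b := by
    rw [abs_mul, mul_comm]
    exact mul_le_mul_of_nonneg_right h4 hb0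
  have e3 : 2 * X t * x' + 2 * Y t * y' = 2 * (X t * (x' - Y t)) + 2 * (Y t * (y' - K t * X t))
      + 2 * (1 + K t) * (X t * Y t) := by ring
  have e4 : |2 * (1 + K t) * (X t * Y t)| ≤ (1 + k₁) * (X t ^ 2 + Y t ^ 2) := by
    rw [abs_mul, abs_mul (X t), abs_of_nonneg (by linarith : (0 : ℝ) ≤ 2 * (1 + K t)), ← ha2, ← hb2]
    have : 2 * (1 + K t) * (a * b) ≤ 2 * (1 + k₁) * (a * b) :=
      mul_le_mul_of_nonneg_right (by linarith) (by positivity)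
    have h1k : 0 ≤ 1 + k₁ := by linarith
    nlinarith [mul_nonneg h1k (sq_nonneg (a - b))]
  have e5 : 2 * (e * (a + b) * a) + 2 * (e * (a + b) * b) ≤ 4 * e * (X t ^ 2 + Y t ^ 2) := by
    rw [← ha2, ← hb2]
    nlinarith [mul_nonneg he (sq_nonneg (a - b))]
  have e6 : (1 + k₁ + 4 * e) * (X t ^ 2 + Y t ^ 2) ≤ C * (X t ^ 2 + Y t ^ 2) :=
    mul_le_mul_of_nonneg_right hC (by positivity)
  rw [e3]
  calc |2 * (X t * (x' - Y t)) + 2 * (Y t * (y' - K t * X t)) + 2 * (1 + K t) * (X t * Y t)|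
      ≤ |2 * (X t * (x' - Y t))| + |2 * (Y t * (y' - K t * X t))|
        + |2 * (1 + K t) * (X t * Y t)| := by
        refine (abs_add_le _ _).trans ?_
        have := abs_add_le (2 * (X t * (x' - Y t))) (2 * (Y t * (y' - K t * X t)))
        linarith
    _ ≤ C * (X t ^ 2 + Y t ^ 2) := by
        rw [abs_mul 2 (X t * (x' - Y t)), abs_mul 2 (Y t * (y' - K t * X t)), abs_two]
        linarith

/-- the two-sided exponential bound for `X² + Y²` -/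
theorem E_bound {k₀ k₁ e T : ℝ} {X Y K : ℝ → ℝ} (h : GrowSys k₀ k₁ e T X Y K) (he : 0 ≤ e)
    (hk0 : 0 ≤ k₀) {C : ℝ} (hC : 1 + k₁ + 4 * e ≤ C) {t : ℝ} (ht : t ∈ Icc (0 : ℝ) T) :
    exp (-(C * t)) * (X 0 ^ 2 + Y 0 ^ 2) ≤ X t ^ 2 + Y t ^ 2 ∧
      X t ^ 2 + Y t ^ 2 ≤ exp (C * t) * (X 0 ^ 2 + Y 0 ^ 2) := by
  have hT : 0 ≤ T := ht.1.trans ht.2
  have h0 : (0 : ℝ) ∈ Icc (0 : ℝ) T := ⟨le_rfl, hT⟩
  have hder := der_E h he hk0 hC
  constructor
  · have hm : MonotoneOn (fun s => exp (C * s) * (X s ^ 2 + Y s ^ 2)) (Icc 0 T) := by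
      apply mono_of_der
      intro s hs
      obtain ⟨f', h1, h2⟩ := hder s hs
      have h3 : HasDerivAt (fun s : ℝ => exp (C * s)) (exp (C * s) * C) s := by
        have := ((hasDerivAt_id s).const_mul C).exp
        simpa using this
      refine ⟨_, h3.mul h1, ?_⟩
      have h4 := (abs_le.mp h2).1
      have h5 : 0 < exp (C * s) := exp_pos _
      have h6 : 0 ≤ exp (C * s) * (C * (X s ^ 2 + Y s ^ 2) + f') :=
        mul_nonneg h5.le (by linarith)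
      linarith
    have h1 := hm h0 ht ht.1
    simp only [mul_zero, exp_zero, one_mul] at h1
    have h2 : exp (-(C * t)) * (X 0 ^ 2 + Y 0 ^ 2)
        ≤ exp (-(C * t)) * (exp (C * t) * (X t ^ 2 + Y t ^ 2)) :=
      mul_le_mul_of_nonneg_left h1 (exp_pos _).le
    rw [← mul_assoc, ← exp_add, neg_add_cancel, exp_zero, one_mul] at h2
    exact h2
  · have hm : MonotoneOn (fun s => -(exp (-(C * s)) * (X s ^ 2 + Y s ^ 2))) (Icc 0 T) := by
      apply mono_of_der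
      intro s hs
      obtain ⟨f', h1, h2⟩ := hder s hs
      have h3 : HasDerivAt (fun s : ℝ => exp (-(C * s))) (exp (-(C * s)) * (-C)) s := by
        have := (((hasDerivAt_id s).const_mul C).neg).exp
        simpa using this
      refine ⟨_, (h3.mul h1).neg, ?_⟩
      have h4 := (abs_le.mp h2).2
      have h5 : 0 < exp (-(C * s)) := exp_pos _
      have h6 : 0 ≤ exp (-(C * s)) * (C * (X s ^ 2 + Y s ^ 2) - f') :=
        mul_nonneg h5.le (by linarith)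
      linarith
    have h1 := hm h0 ht ht.1
    simp only [mul_zero, exp_zero, one_mul, neg_zero] at h1
    have h1' : exp (-(C * t)) * (X t ^ 2 + Y t ^ 2) ≤ X 0 ^ 2 + Y 0 ^ 2 := by linarith
    have h2 : exp (C * t) * (exp (-(C * t)) * (X t ^ 2 + Y t ^ 2))
        ≤ exp (C * t) * (X 0 ^ 2 + Y 0 ^ 2) :=
      mul_le_mul_of_nonneg_left h1' (exp_pos _).le
    rw [← mul_assoc, ← exp_add, add_neg_cancel, exp_zero, one_mul] at h2
    exact h2

/-- `X Y` is monotone -/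
theorem f_mono {k₀ k₁ e T : ℝ} {X Y K : ℝ → ℝ} (h : GrowSys k₀ k₁ e T X Y K) (he : 0 ≤ e)
    {m : ℝ} (hm0 : 0 ≤ m) (hm1 : m ≤ 1) (hm2 : m ≤ k₀) (hm3 : 4 * e ≤ m) :
    MonotoneOn (fun s => X s * Y s) (Icc 0 T) := by
  apply mono_of_der
  intro s hs
  obtain ⟨f', h1, h2⟩ := der_f h he hm1 hm2 hm3 s hs
  exact ⟨f', h1, le_trans (by positivity) h2⟩

/-- exponential growth of `X Y` once it is nonnegative -/
theorem f_exp {k₀ k₁ e T : ℝ} {X Y K : ℝ → ℝ} (h : GrowSys k₀ k₁ e T X Y K) (he : 0 ≤ e)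
    {m : ℝ} (hm0 : 0 ≤ m) (hm1 : m ≤ 1) (hm2 : m ≤ k₀) (hm3 : 4 * e ≤ m)
    {t : ℝ} (ht : t ∈ Icc (0 : ℝ) T) : exp (m * t) * (X 0 * Y 0) ≤ X t * Y t := by
  have hT : 0 ≤ T := ht.1.trans ht.2
  have h0 : (0 : ℝ) ∈ Icc (0 : ℝ) T := ⟨le_rfl, hT⟩
  have hm : MonotoneOn (fun s => exp (-(m * s)) * (X s * Y s)) (Icc 0 T) := by
    apply mono_of_der
    intro s hs
    obtain ⟨f', h1, h2⟩ := der_f h he hm1 hm2 hm3 s hs
    have h3 : HasDerivAt (fun s : ℝ => exp (-(m * s))) (exp (-(m * s)) * (-m)) s := by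
      have := (((hasDerivAt_id s).const_mul m).neg).exp
      simpa using this
    refine ⟨_, h3.mul h1, ?_⟩
    have h5 : 0 < exp (-(m * s)) := exp_pos _
    have h7 : m * (X s * Y s) ≤ m / 2 * (X s ^ 2 + Y s ^ 2) := by
      nlinarith [mul_nonneg hm0 (sq_nonneg (X s - Y s))]
    have h6 : 0 ≤ exp (-(m * s)) * (f' - m * (X s * Y s)) :=
      mul_nonneg h5.le (by linarith)
    linarith
  have h1 := hm h0 ht ht.1
  simp only [mul_zero, exp_zero, one_mul, neg_zero] at h1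
  have h2 : exp (m * t) * (X 0 * Y 0) ≤ exp (m * t) * (exp (-(m * t)) * (X t * Y t)) :=
    mul_le_mul_of_nonneg_left h1 (exp_pos _).le
  rw [← mul_assoc (exp (m * t)) (exp (-(m * t))), ← exp_add, add_neg_cancel, exp_zero,
    one_mul] at h2
  exact h2

/-- the gain in `X Y` after time one -/
theorem f_one {k₀ k₁ e T : ℝ} {X Y K : ℝ → ℝ} (h : GrowSys k₀ k₁ e T X Y K) (he : 0 ≤ e)
    (hk0 : 0 ≤ k₀) {C : ℝ} (hC0 : 0 ≤ C) (hC : 1 + k₁ + 4 * e ≤ C)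
    {m : ℝ} (hm0 : 0 ≤ m) (hm1 : m ≤ 1) (hm2 : m ≤ k₀) (hm3 : 4 * e ≤ m) (hT : 1 ≤ T)
    (hf : 0 ≤ X 0 * Y 0) : m / 2 * exp (-C) * (X 0 ^ 2 + Y 0 ^ 2) ≤ X 1 * Y 1 := by
  have h' : GrowSys k₀ k₁ e 1 X Y K := by
    have hm : ∀ t ∈ Icc (0 : ℝ) 1, t ∈ Icc (0 : ℝ) T := fun t ht => ⟨ht.1, ht.2.trans hT⟩
    exact ⟨fun t ht => h.klo t (hm t ht), fun t ht => h.khi t (hm t ht),
      fun t ht => h.der t (hm t ht)⟩
  have hmn : MonotoneOn (fun s => X s * Y s - m / 2 * exp (-C) * (X 0 ^ 2 + Y 0 ^ 2) * s)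
      (Icc 0 1) := by
    apply mono_of_der
    intro s hs
    obtain ⟨f', h1, h2⟩ := der_f h' he hm1 hm2 hm3 s hs
    have h3 : HasDerivAt (fun s : ℝ => m / 2 * exp (-C) * (X 0 ^ 2 + Y 0 ^ 2) * s)
        (m / 2 * exp (-C) * (X 0 ^ 2 + Y 0 ^ 2)) s := by
      have := (hasDerivAt_id s).const_mul (m / 2 * exp (-C) * (X 0 ^ 2 + Y 0 ^ 2))
      simpa using this
    refine ⟨_, h1.sub h3, ?_⟩
    have h4 := (E_bound h' he hk0 hC hs).1
    have h5 : exp (-C) ≤ exp (-(C * s)) := by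
      apply exp_le_exp.mpr
      nlinarith [hs.2]
    have h6 : exp (-C) * (X 0 ^ 2 + Y 0 ^ 2) ≤ exp (-(C * s)) * (X 0 ^ 2 + Y 0 ^ 2) :=
      mul_le_mul_of_nonneg_right h5 (by positivity)
    have h7 : m / 2 * (exp (-C) * (X 0 ^ 2 + Y 0 ^ 2)) ≤ m / 2 * (X s ^ 2 + Y s ^ 2) :=
      mul_le_mul_of_nonneg_left (h6.trans h4) (by linarith)
    linarith
  have h1 := hmn (⟨le_rfl, zero_le_one⟩ : (0 : ℝ) ∈ Icc (0 : ℝ) 1)
    (⟨zero_le_one, le_rfl⟩ : (1 : ℝ) ∈ Icc (0 : ℝ) 1) zero_le_one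
  simp only [mul_zero, sub_zero, mul_one] at h1
  linarith

/-- forward growth -/
theorem fwd {k₀ k₁ e T : ℝ} {X Y K : ℝ → ℝ} (h : GrowSys k₀ k₁ e T X Y K) (he : 0 ≤ e)
    (hk0 : 0 ≤ k₀) {C : ℝ} (hC0 : 0 ≤ C) (hC : 1 + k₁ + 4 * e ≤ C)
    {m : ℝ} (hm0 : 0 < m) (hm1 : m ≤ 1) (hm2 : m ≤ k₀) (hm3 : 4 * e ≤ m)
    (hf : 0 ≤ X 0 * Y 0) :
    (∀ t ∈ Icc (0 : ℝ) T, 0 ≤ X t * Y t ∧
      m / 4 * exp (-(2 * C) - m) * exp (m * t) * (X 0 ^ 2 + Y 0 ^ 2) ≤ X t ^ 2 + Y t ^ 2) ∧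
    ∀ t ∈ Icc (1 : ℝ) T, m / 4 * exp (-(2 * C) - m) * (|X t| + |Y t|) ≤ |X t| := by
  have hfn : ∀ t ∈ Icc (0 : ℝ) T, 0 ≤ X t * Y t := by
    intro t ht
    have hT : 0 ≤ T := ht.1.trans ht.2
    exact hf.trans (f_mono h he hm0.le hm1 hm2 hm3 ⟨le_rfl, hT⟩ ht ht.1)
  constructor
  · intro t ht
    refine ⟨hfn t ht, ?_⟩
    set E0 := X 0 ^ 2 + Y 0 ^ 2 with hE0
    have hE0n : 0 ≤ E0 := by positivity
    rcases le_or_gt t 1 with h1 | h1
    · have h2 := (E_bound h he hk0 hC ht).1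
      have h3 : m / 4 * exp (-(2 * C) - m) * exp (m * t) ≤ exp (-(C * t)) := by
        have h4 : exp (-(2 * C) - m) * exp (m * t) ≤ exp (-(C * t)) := by
          rw [← exp_add]
          apply exp_le_exp.mpr
          nlinarith [mul_nonneg hC0 (by linarith [ht.1] : (0 : ℝ) ≤ 2 - t),
            mul_nonneg hm0.le (by linarith : (0 : ℝ) ≤ 1 - t)]
        have h5 : 0 ≤ exp (-(2 * C) - m) * exp (m * t) := by positivity
        calc m / 4 * exp (-(2 * C) - m) * exp (m * t)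
            = m / 4 * (exp (-(2 * C) - m) * exp (m * t)) := by ring
          _ ≤ 1 * (exp (-(2 * C) - m) * exp (m * t)) :=
              mul_le_mul_of_nonneg_right (by linarith) h5
          _ ≤ exp (-(C * t)) := by rw [one_mul]; exact h4
      exact (mul_le_mul_of_nonneg_right h3 hE0n).trans h2
    · have hT1 : 1 ≤ T := h1.le.trans ht.2
      have h2 := f_one h he hk0 hC0 hC hm0.le hm1 hm2 hm3 hT1 hf
      have h3 := f_exp (shift h (s := 1) (S := T - 1) zero_le_one (by linarith)) he hm0.le hm1 hm2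
        hm3 (t := t - 1) ⟨by linarith, by linarith [ht.2]⟩
      simp only [add_zero, add_sub_cancel] at h3
      have h4 : exp (m * (t - 1)) * (m / 2 * exp (-C) * E0) ≤ X t * Y t :=
        (mul_le_mul_of_nonneg_left h2 (exp_pos _).le).trans h3
      have h5 : 2 * (X t * Y t) ≤ X t ^ 2 + Y t ^ 2 := by nlinarith [sq_nonneg (X t - Y t)]
      have h6 : exp (-(2 * C) - m) * exp (m * t) ≤ exp (m * (t - 1)) * exp (-C) := by
        rw [← exp_add, ← exp_add]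
        apply exp_le_exp.mpr
        nlinarith
      have h7 : m / 4 * (exp (-(2 * C) - m) * exp (m * t)) * E0
          ≤ m * (exp (m * (t - 1)) * exp (-C)) * E0 := by
        apply mul_le_mul_of_nonneg_right _ hE0n
        have h8 : m * (exp (-(2 * C) - m) * exp (m * t)) ≤ m * (exp (m * (t - 1)) * exp (-C)) :=
          mul_le_mul_of_nonneg_left h6 hm0.le
        have h9 : 0 ≤ m * (exp (-(2 * C) - m) * exp (m * t)) := by positivity
        linarith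
      nlinarith
  · intro t ht
    have ht0 : t ∈ Icc (0 : ℝ) T := ⟨zero_le_one.trans ht.1, ht.2⟩
    have hs0 : t - 1 ∈ Icc (0 : ℝ) T := ⟨by linarith [ht.1], by linarith [ht.2]⟩
    have hsh := shift h (s := t - 1) (S := 1) (by linarith [ht.1]) (by linarith [ht.2])
    have h2 := f_one hsh he hk0 hC0 hC hm0.le hm1 hm2 hm3 le_rfl (by
      simpa using hfn _ hs0)
    have h3 := (E_bound hsh he hk0 hC (t := 1) ⟨zero_le_one, le_rfl⟩).2
    simp only [add_zero, sub_add_cancel, mul_one] at h2 h3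
    -- `X t Y t ≥ (m/2) e^{-2C} E t`
    have h4 : m / 2 * exp (-(2 * C)) * (X t ^ 2 + Y t ^ 2) ≤ X t * Y t := by
      refine le_trans ?_ h2
      have h5 : exp (-(2 * C)) * (X t ^ 2 + Y t ^ 2)
          ≤ exp (-(2 * C)) * (exp C * (X (t - 1) ^ 2 + Y (t - 1) ^ 2)) :=
        mul_le_mul_of_nonneg_left h3 (exp_pos _).le
      have h6 : exp (-(2 * C)) * (exp C * (X (t - 1) ^ 2 + Y (t - 1) ^ 2))
          = exp (-C) * (X (t - 1) ^ 2 + Y (t - 1) ^ 2) := by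
        rw [← mul_assoc, ← exp_add]
        congr 2
        ring
      rw [h6] at h5
      have h7 := mul_le_mul_of_nonneg_left h5 (by linarith : (0 : ℝ) ≤ m / 2)
      linarith
    set a := |X t| with ha
    set b := |Y t| with hb
    have ha0 : 0 ≤ a := abs_nonneg _
    have hb0 : 0 ≤ b := abs_nonneg _
    have ha2 : a ^ 2 = X t ^ 2 := sq_abs _
    have hb2 : b ^ 2 = Y t ^ 2 := sq_abs _
    have hab : X t * Y t ≤ a * b := by
      rw [ha, hb, ← abs_mul]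
      exact le_abs_self _
    rw [← ha2, ← hb2] at h4
    set c' := m / 2 * exp (-(2 * C)) with hc'
    have hc'0 : 0 < c' := by positivity
    have hc'1 : c' ≤ 1 := by
      have : exp (-(2 * C)) ≤ 1 := by
        rw [exp_le_one_iff]
        linarith
      nlinarith [exp_pos (-(2 * C))]
    have h5 : c' * b ≤ a := by
      rcases hb0.lt_or_eq with h6 | h6
      · have h7 : c' * b * b ≤ a * b := by nlinarith [mul_nonneg hc'0.le (sq_nonneg a)]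
        exact le_of_mul_le_mul_right h7 h6
      · rw [← h6]
        simpa using ha0
    have h6 : m / 4 * exp (-(2 * C) - m) ≤ c' / 2 := by
      have h7 : exp (-(2 * C) - m) ≤ exp (-(2 * C)) := exp_le_exp.mpr (by linarith)
      have h8 := mul_le_mul_of_nonneg_left h7 (by linarith : (0 : ℝ) ≤ m / 4)
      rw [hc']
      linarith
    calc m / 4 * exp (-(2 * C) - m) * (a + b) ≤ c' / 2 * (a + b) :=
          mul_le_mul_of_nonneg_right h6 (by positivity)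
      _ ≤ a := by nlinarith

end Grow

/-- **NC_GROW**: growth of approximate solutions of `X' = Y`, `Y' = K X`. -/
theorem grow (k₀ k₁ : ℝ) (hk₀ : 0 < k₀) :
    ∃ e₀ c₁ c₂ C : ℝ, 0 < e₀ ∧ 0 < c₁ ∧ 0 < c₂ ∧ c₂ ≤ 1 ∧ 0 ≤ C ∧
      ∀ (T : ℝ) (X Y K : ℝ → ℝ), GrowSys k₀ k₁ e₀ T X Y K →
        (∀ t ∈ Icc (0 : ℝ) T, exp (-(C * t)) * (X 0 ^ 2 + Y 0 ^ 2) ≤ X t ^ 2 + Y t ^ 2 ∧
          X t ^ 2 + Y t ^ 2 ≤ exp (C * t) * (X 0 ^ 2 + Y 0 ^ 2)) ∧
        (0 ≤ X 0 * Y 0 →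
          (∀ t ∈ Icc (0 : ℝ) T, 0 ≤ X t * Y t ∧
            c₂ * exp (c₁ * t) * (X 0 ^ 2 + Y 0 ^ 2) ≤ X t ^ 2 + Y t ^ 2) ∧
          ∀ t ∈ Icc (1 : ℝ) T, c₂ * (|X t| + |Y t|) ≤ |X t|) ∧
        (X T * Y T ≤ 0 →
          (∀ t ∈ Icc (0 : ℝ) T, X t * Y t ≤ 0 ∧
            c₂ * exp (c₁ * (T - t)) * (X T ^ 2 + Y T ^ 2) ≤ X t ^ 2 + Y t ^ 2) ∧
          ∀ t ∈ Icc (0 : ℝ) (T - 1), c₂ * (|X t| + |Y t|) ≤ |X t|) ∧
        (∀ s t : ℝ, 0 ≤ s → s ≤ t → t ≤ T → X s * Y s ≤ X t * Y t) := by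
  set m := min 1 k₀ with hm
  have hm0 : 0 < m := lt_min one_pos hk₀
  have hm1 : m ≤ 1 := min_le_left _ _
  have hm2 : m ≤ k₀ := min_le_right _ _
  set e := m / 4 with he
  have he0 : 0 < e := by positivity
  have hm3 : 4 * e ≤ m := by rw [he]; linarith
  set C := max 0 (1 + k₁ + 4 * e) with hC
  have hC0 : 0 ≤ C := le_max_left _ _
  have hC1 : 1 + k₁ + 4 * e ≤ C := le_max_right _ _
  refine ⟨e, m, m / 4 * exp (-(2 * C) - m), C, he0, hm0, by positivity, ?_, hC0, ?_⟩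
  · have h1 : exp (-(2 * C) - m) ≤ 1 := by
      rw [exp_le_one_iff]
      linarith
    have h2 := mul_le_mul_of_nonneg_left h1 (by linarith : (0 : ℝ) ≤ m / 4)
    linarith
  intro T X Y K h
  refine ⟨fun t ht => Grow.E_bound h he0.le hk₀.le hC1 ht,
    fun hf => Grow.fwd h he0.le hk₀.le hC0 hC1 hm0 hm1 hm2 hm3 hf, ?_, ?_⟩
  · intro hf
    have hr := Grow.fwd (Grow.reverse h) he0.le hk₀.le hC0 hC1 hm0 hm1 hm2 hm3 (by
      simp only [sub_zero]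
      nlinarith)
    constructor
    · intro t ht
      have h1 := hr.1 (T - t) ⟨by linarith [ht.2], by linarith [ht.1]⟩
      simp only [sub_zero, sub_sub_cancel, neg_sq] at h1
      exact ⟨by nlinarith [h1.1], h1.2⟩
    · intro t ht
      have h1 := hr.2 (T - t) ⟨by linarith [ht.2], by linarith [ht.1]⟩
      simp only [sub_sub_cancel, abs_neg] at h1
      exact h1
  · intro s t hs hst htT
    exact Grow.f_mono h he0.le hm0.le hm1 hm2 hm3 ⟨hs, hst.trans htT⟩ ⟨hs.trans hst, htT⟩ hst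

end NC

end QE
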