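import Pool.Agent.NCV.SumA

/-!
# Crossing pairs: the dynamical part (helper70)
-/

open MeasureTheory Filter Topology Set
open UpperHalfPlane hiding I
open scoped ContDiff MatrixGroups ENNReal

namespace QE

namespace NC

noncomputable section

variable {Γ : Subgroup SL(2, ℝ)} {Φ : ℝ → SL(2, ℝ) → SL(2, ℝ)}
  {x y τ : SL(2, ℝ) → SL(2, ℝ) → ℝ} {κ : SL(2, ℝ) → ℝ} {c r L k₀ k₁ : ℝ}

namespace PairSys

variable (S : PairSys Γ Φ x y τ κ c r L k₀ k₁)

include S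

theorem comm (s t : ℝ) (g : SL(2, ℝ)) : Φ s (Φ t g) = Φ t (Φ s g) := by
  rw [← S.add, ← S.add, add_comm]

/-- a derivative at `0` along the flow gives one at `t` -/
theorem shift_d {f : SL(2, ℝ) → SL(2, ℝ) → ℝ} {v w : SL(2, ℝ)} {t f' : ℝ}
    (h : HasDerivAt (fun s => f (Φ s (Φ t v)) (Φ s (Φ t w))) f' 0) :
    HasDerivAt (fun s => f (Φ s v) (Φ s w)) f' t := by
  have h1 : HasDerivAt (fun s => f (Φ s (Φ t v)) (Φ s (Φ t w))) f' (t - t) := by
    rwa [sub_self]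
  have h2 := HasDerivAt.comp_sub_const t t h1
  refine h2.congr_of_eventuallyEq (Eventually.of_forall fun s => ?_)
  beta_reduce
  rw [← S.add, ← S.add, sub_add_cancel]

theorem shift_m {f : SL(2, ℝ) → SL(2, ℝ) → ℝ} {v w : SL(2, ℝ)} {t f' : ℝ}
    (h : HasDerivAt (fun s => f v (Φ s (Φ t w))) f' 0) :
    HasDerivAt (fun s => f v (Φ s w)) f' t := by
  have h1 : HasDerivAt (fun s => f v (Φ s (Φ t w))) f' (t - t) := by
    rwa [sub_self]
  have h2 := HasDerivAt.comp_sub_const t t h1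
  refine h2.congr_of_eventuallyEq (Eventually.of_forall fun s => ?_)
  beta_reduce
  rw [← S.add, sub_add_cancel]

theorem c0 : 0 < c := by linarith [S.one_le]

omit S in
theorem dd_nonneg' (v w : SL(2, ℝ)) : 0 ≤ dd v w := by
  unfold dd nn
  positivity

/-- the distance on the rectangle -/
theorem dd_rect {v w : SL(2, ℝ)} {d t s : ℝ} (hd : dd v w ≤ d) (hdr : d ≤ r)
    (ht : |t| ≤ 1) (hs : |s| ≤ 1) (hsr : c * |s| ≤ r) :
    dd (Φ t v) (Φ s (Φ t w)) ≤ c ^ 3 * Real.exp L * (d + |s|) := by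
  have hc := S.c0
  have h1 := S.dmove w s hs
  have h2 := S.dtri v w (Φ s w) (hd.trans hdr) (h1.trans hsr)
  have h3 := S.dflow v (Φ s w) t
  rw [S.comm s t]
  have h4 : Real.exp (L * |t|) ≤ Real.exp L := by
    apply Real.exp_le_exp.2
    have := S.Lnn
    nlinarith
  have hd0 : 0 ≤ d := (PairSys.dd_nonneg' v w).trans hd
  have h5 : dd v (Φ s w) ≤ c ^ 2 * (d + |s|) := by
    calc dd v (Φ s w) ≤ c * (dd v w + dd w (Φ s w)) := h2
      _ ≤ c * (d + c * |s|) := by gcongr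
      _ ≤ c * (c * d + c * |s|) := by
          gcongr
          have := S.one_le
          nlinarith
      _ = c ^ 2 * (d + |s|) := by ring
  calc dd (Φ t v) (Φ t (Φ s w)) ≤ c * Real.exp (L * |t|) * dd v (Φ s w) := h3
    _ ≤ c * Real.exp L * (c ^ 2 * (d + |s|)) := by
        have := dd_nonneg' v (Φ s w)
        gcongr
    _ = c ^ 3 * Real.exp L * (d + |s|) := by ring

/-- **the area lemma** for pairs -/
theorem area {Y δ η : ℝ} (hY : 0 < Y) (hδ : 0 < δ) (hη : 0 < η) (hηδ : η ≤ δ)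
    (hδY : δ ≤ Y / (128 * (k₁ + 1) * c * (5 * c ^ 4 * Real.exp L)))
    (hYr : Y ≤ r / (8 * c * (5 * c ^ 4 * Real.exp L) ^ 2))
    {v w : SL(2, ℝ)} (hd : dd v w ≤ r) (hx : |x v w| ≤ δ) (hτ : |τ v w| ≤ δ)
    (hy1 : Y ≤ |y v w|) (hy2 : |y v w| ≤ 2 * Y) :
    ∃ t₀ s₀ : ℝ, |t₀| ≤ 4 * δ / Y ∧ |s₀| ≤ 4 * δ ∧ ∀ t s, |t - t₀| ≤ η / (4 * Y) →
      |s - s₀| ≤ η / 4 → |t| ≤ 8 * δ / Y ∧ |s| ≤ 8 * δ ∧ dd (Φ t v) (Φ s (Φ t w)) ≤ r ∧
        |x (Φ t v) (Φ s (Φ t w))| ≤ η ∧ |τ (Φ t v) (Φ s (Φ t w))| ≤ η ∧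
        Y / 2 ≤ |y (Φ t v) (Φ s (Φ t w))| ∧ |y (Φ t v) (Φ s (Φ t w))| ≤ 4 * Y := by
  have hc := S.c0
  have hc1 := S.one_le
  have hk₁ : 0 < k₁ := S.kpos.trans_le ((S.klo v).trans (S.khi v))
  have hE : 1 ≤ Real.exp L := Real.one_le_exp S.Lnn
  set K := 5 * c ^ 4 * Real.exp L with hK
  have hK5 : 5 ≤ K := by
    have h1 : 1 ≤ c ^ 4 := one_le_pow₀ hc1
    rw [hK]
    nlinarith
  have hK0 : 0 < K := by linarith
  have hcK : K ≤ c * K := by nlinarith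
  have hkK : 1 ≤ (k₁ + 1) * c * K := by
    have : 1 ≤ (k₁ + 1) * c := by nlinarith
    nlinarith
  -- `Y ≤ 1/8`, `K Y ≤ r`
  have hYr' : 8 * c * K ^ 2 * Y ≤ r := by
    rw [le_div_iff₀ (by positivity)] at hYr
    linarith
  have hr1 := S.rle
  have q1 : K * Y ≤ r := by
    have : K * Y ≤ 8 * c * K ^ 2 * Y := by
      have h1 : K ≤ 8 * c * K ^ 2 := by nlinarith
      gcongr
    linarith
  have q2 : c * (K * Y) ^ 2 ≤ Y / 8 := by
    have h1 : c * (K * Y) ^ 2 = (8 * c * K ^ 2 * Y) * (Y / 8) := by ring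
    rw [h1]
    have h2 : (8 * c * K ^ 2 * Y) * (Y / 8) ≤ 1 * (Y / 8) := by
      gcongr
      linarith
    linarith
  have q3 : c * (K * Y) ≤ 1 / 8 := by
    have h1 : 8 * (c * (K * Y)) ≤ 8 * c * K ^ 2 * Y := by
      have : 0 ≤ c * (K * Y) := by positivity
      nlinarith
    linarith
  have hδY' : 128 * ((k₁ + 1) * c * K) * δ ≤ Y := by
    rw [le_div_iff₀ (by positivity)] at hδY
    linarith
  have q4 : 128 * δ ≤ Y := by
    have : 128 * δ ≤ 128 * ((k₁ + 1) * c * K) * δ := by nlinarith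
    linarith
  have hY1 : Y ≤ 1 := by
    have : 5 * Y ≤ K * Y := by gcongr
    linarith
  have hδ1 : 128 * δ ≤ 1 := by linarith
  -- the distance on the rectangle
  have hdv : dd v w ≤ 4 * c * Y := by
    have h1 := S.dle v w hd
    have h2 : |x v w| + |y v w| + |τ v w| ≤ 4 * Y := by linarith
    calc dd v w ≤ c * (|x v w| + |y v w| + |τ v w|) := h1
      _ ≤ c * (4 * Y) := by gcongr
      _ = 4 * c * Y := by ring
  have hcr : 4 * c * Y ≤ r := by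
    have h1 : 4 * c ≤ K := by
      have h2 : c ≤ c ^ 4 := by
        calc c = c ^ 1 := (pow_one c).symm
          _ ≤ c ^ 4 := pow_le_pow_right₀ hc1 (by norm_num)
      rw [hK]
      nlinarith [pow_pos hc 4]
    calc 4 * c * Y ≤ K * Y := by gcongr
      _ ≤ r := q1
  have hrect : ∀ t s, |t| ≤ 8 * δ / Y → |s| ≤ 8 * δ → dd (Φ t v) (Φ s (Φ t w)) ≤ K * Y := by
    intro t s ht hs
    have ht1 : |t| ≤ 1 := by
      refine ht.trans ?_
      rw [div_le_one hY]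
      linarith
    have hs1 : |s| ≤ 1 := by linarith
    have hsr : c * |s| ≤ r := by
      calc c * |s| ≤ c * (8 * δ) := by gcongr
        _ ≤ c * (4 * Y) := mul_le_mul_of_nonneg_left (by linarith) hc.le
        _ = 4 * c * Y := by ring
        _ ≤ r := hcr
    refine (S.dd_rect hdv hcr ht1 hs1 hsr).trans ?_
    calc c ^ 3 * Real.exp L * (4 * c * Y + |s|) ≤ c ^ 3 * Real.exp L * (4 * c * Y + c * Y) := by
          gcongr
          calc |s| ≤ 8 * δ := hs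
            _ ≤ 1 * Y := by linarith
            _ ≤ c * Y := by gcongr
      _ = K * Y := by rw [hK]; ring
  have hrr : ∀ t s, |t| ≤ 8 * δ / Y → |s| ≤ 8 * δ → dd (Φ t v) (Φ s (Φ t w)) ≤ r :=
    fun t s ht hs => (hrect t s ht hs).trans q1
  have z0 : |(0 : ℝ)| ≤ 8 * δ / Y := by rw [abs_zero]; positivity
  have z1 : |(0 : ℝ)| ≤ 8 * δ := by rw [abs_zero]; positivity
  have hsq : ∀ t s, |t| ≤ 8 * δ / Y → |s| ≤ 8 * δ →
      c * dd (Φ t v) (Φ s (Φ t w)) ^ 2 ≤ Y / 8 := by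
    intro t s ht hs
    have h1 := hrect t s ht hs
    have h2 := PairSys.dd_nonneg' (Φ t v) (Φ s (Φ t w))
    calc c * dd (Φ t v) (Φ s (Φ t w)) ^ 2 ≤ c * (K * Y) ^ 2 := by gcongr
      _ ≤ Y / 8 := q2
  have hli : ∀ t s, |t| ≤ 8 * δ / Y → |s| ≤ 8 * δ →
      c * dd (Φ t v) (Φ s (Φ t w)) ≤ 1 / 8 := by
    intro t s ht hs
    have h1 := hrect t s ht hs
    calc c * dd (Φ t v) (Φ s (Φ t w)) ≤ c * (K * Y) := by gcongr
      _ ≤ 1 / 8 := q3
  -- `y` does not change much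
  have hyt : ∀ s t t', |s| ≤ 8 * δ → |t| ≤ 8 * δ / Y → |t'| ≤ 8 * δ / Y →
      |y (Φ t v) (Φ s (Φ t w)) - y (Φ t' v) (Φ s (Φ t' w))|
        ≤ (k₁ + 1) * c * (K * Y) * |t - t'| := by
    intro s t t' hs ht ht'
    have h1 := mvt (f := fun t => y (Φ t v) (Φ t (Φ s w))) (a := 0)
      (C := (k₁ + 1) * c * (K * Y)) (R := 8 * δ / Y) (fun u hu => ?_) ht ht'
    · simp only [mul_zero, sub_zero] at h1
      simpa only [S.comm s] using h1
    · have e := S.comm s u w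
      have h2 := hrect u s hu hs
      rw [e] at h2
      have h3 := h2.trans q1
      obtain ⟨y', hy', hb⟩ := S.yd _ _ h3
      refine ⟨y', S.shift_d (f := y) hy', ?_⟩
      rw [sub_zero]
      have h4 := S.xle _ _ h3
      have h5 := abs_add_le (y' - κ (Φ u v) * x (Φ u v) (Φ u (Φ s w)))
        (κ (Φ u v) * x (Φ u v) (Φ u (Φ s w)))
      rw [sub_add_cancel, abs_mul] at h5
      have h6 : |κ (Φ u v)| ≤ k₁ := by
        rw [abs_of_pos (S.kpos.trans_le (S.klo _))]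
        exact S.khi _
      have h7 := PairSys.dd_nonneg' (Φ u v) (Φ u (Φ s w))
      have h8 : |κ (Φ u v)| * |x (Φ u v) (Φ u (Φ s w))| ≤ k₁ * (c * (K * Y)) := by
        refine mul_le_mul h6 (h4.trans ?_) (abs_nonneg _) hk₁.le
        gcongr
      have h9 : c * dd (Φ u v) (Φ u (Φ s w)) ^ 2 ≤ c * (K * Y) := by
        have h10 : dd (Φ u v) (Φ u (Φ s w)) ^ 2 ≤ dd (Φ u v) (Φ u (Φ s w)) := by
          have h11 := mul_le_mul_of_nonneg_left (h3.trans hr1) h7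
          rwa [mul_one, ← sq] at h11
        gcongr
        exact h10.trans h2
      calc |y'| ≤ |y' - κ (Φ u v) * x (Φ u v) (Φ u (Φ s w))| +
            |κ (Φ u v)| * |x (Φ u v) (Φ u (Φ s w))| := h5
        _ ≤ c * (K * Y) + k₁ * (c * (K * Y)) := add_le_add (hb.trans h9) h8
        _ = (k₁ + 1) * c * (K * Y) := by ring
  have hys : ∀ t s s', |t| ≤ 8 * δ / Y → |s| ≤ 8 * δ → |s'| ≤ 8 * δ →
      |y (Φ t v) (Φ s (Φ t w)) - y (Φ t v) (Φ s' (Φ t w))| ≤ c * (K * Y) * |s - s'| := by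
    intro t s s' ht hs hs'
    have h1 := mvt (f := fun s => y (Φ t v) (Φ s (Φ t w))) (a := 0)
      (C := c * (K * Y)) (R := 8 * δ) (fun u hu => ?_) hs hs'
    · simpa only [mul_zero, sub_zero] using h1
    · obtain ⟨y', hy', hb⟩ := S.ym _ _ (hrr t u ht hu)
      refine ⟨y', S.shift_m (f := y) hy', ?_⟩
      rw [sub_zero]
      refine hb.trans ?_
      have := hrect t u ht hu
      gcongr
  have hy0 : ∀ t s, |t| ≤ 8 * δ / Y → |s| ≤ 8 * δ →
      |y (Φ t v) (Φ s (Φ t w)) - y v w| ≤ Y / 8 := by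
    intro t s ht hs
    have h1 := hyt s t 0 hs ht z0
    have h2 := hys 0 s 0 z0 hs z1
    simp only [S.zero] at h1 h2
    rw [sub_zero] at h1 h2
    have h3 := abs_add_le (y (Φ t v) (Φ s (Φ t w)) - y v (Φ s w)) (y v (Φ s w) - y v w)
    rw [sub_add_sub_cancel] at h3
    have h4 : (k₁ + 1) * c * (K * Y) * |t| ≤ Y / 16 := by
      calc (k₁ + 1) * c * (K * Y) * |t| ≤ (k₁ + 1) * c * (K * Y) * (8 * δ / Y) := by gcongr
        _ = (128 * ((k₁ + 1) * c * K) * δ) / 16 := by field_simp; ring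
        _ ≤ Y / 16 := by gcongr
    have h5 : c * (K * Y) * |s| ≤ Y / 16 := by
      calc c * (K * Y) * |s| ≤ 1 / 8 * (8 * δ) := by gcongr
        _ ≤ Y / 16 := by linarith
    linarith
  -- the four estimates
  have H1 : ∀ s t t', |s| ≤ 8 * δ → |t| ≤ 8 * δ / Y → |t'| ≤ 8 * δ / Y →
      |x (Φ t v) (Φ s (Φ t w)) - x (Φ t' v) (Φ s (Φ t' w)) - (t - t') * y v w|
        ≤ Y / 4 * |t - t'| := by
    intro s t t' hs ht ht'
    have h1 := mvt (f := fun t => x (Φ t v) (Φ t (Φ s w))) (a := y v w)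
      (C := Y / 4) (R := 8 * δ / Y) (fun u hu => ?_) ht ht'
    · simpa only [S.comm s] using h1
    · have e := S.comm s u w
      have h2 := hrr u s hu hs
      have h3 := hsq u s hu hs
      have h4 := hy0 u s hu hs
      rw [e] at h2 h3 h4
      obtain ⟨x', hx', hb⟩ := S.xd _ _ h2
      refine ⟨x', S.shift_d (f := x) hx', ?_⟩
      have h5 := abs_add_le (x' - y (Φ u v) (Φ u (Φ s w))) (y (Φ u v) (Φ u (Φ s w)) - y v w)
      rw [sub_add_sub_cancel] at h5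
      linarith
  have H2 : ∀ t s s', |t| ≤ 8 * δ / Y → |s| ≤ 8 * δ → |s'| ≤ 8 * δ →
      |x (Φ t v) (Φ s (Φ t w)) - x (Φ t v) (Φ s' (Φ t w))| ≤ 1 / 8 * |s - s'| := by
    intro t s s' ht hs hs'
    have h1 := mvt (f := fun s => x (Φ t v) (Φ s (Φ t w))) (a := 0)
      (C := 1 / 8) (R := 8 * δ) (fun u hu => ?_) hs hs'
    · simpa only [mul_zero, sub_zero] using h1
    · obtain ⟨y', hy', hb⟩ := S.xm _ _ (hrr t u ht hu)
      refine ⟨y', S.shift_m (f := x) hy', ?_⟩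
      rw [sub_zero]
      exact hb.trans (hli t u ht hu)
  have H3 : ∀ s t t', |s| ≤ 8 * δ → |t| ≤ 8 * δ / Y → |t'| ≤ 8 * δ / Y →
      |τ (Φ t v) (Φ s (Φ t w)) - τ (Φ t' v) (Φ s (Φ t' w))| ≤ Y / 8 * |t - t'| := by
    intro s t t' hs ht ht'
    have h1 := mvt (f := fun t => τ (Φ t v) (Φ t (Φ s w))) (a := 0)
      (C := Y / 8) (R := 8 * δ / Y) (fun u hu => ?_) ht ht'
    · simp only [mul_zero, sub_zero] at h1
      simpa only [S.comm s] using h1
    · have e := S.comm s u w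
      have h2 := hrr u s hu hs
      have h3 := hsq u s hu hs
      rw [e] at h2 h3
      obtain ⟨x', hx', hb⟩ := S.td _ _ h2
      refine ⟨x', S.shift_d (f := τ) hx', ?_⟩
      rw [sub_zero]
      linarith
  have H4 : ∀ t s s', |t| ≤ 8 * δ / Y → |s| ≤ 8 * δ → |s'| ≤ 8 * δ →
      |τ (Φ t v) (Φ s (Φ t w)) - τ (Φ t v) (Φ s' (Φ t w)) - (s - s')| ≤ 1 / 8 * |s - s'| := by
    intro t s s' ht hs hs'
    have h1 := mvt (f := fun s => τ (Φ t v) (Φ s (Φ t w))) (a := 1)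
      (C := 1 / 8) (R := 8 * δ) (fun u hu => ?_) hs hs'
    · simpa only [mul_one] using h1
    · obtain ⟨y', hy', hb⟩ := S.tm _ _ (hrr t u ht hu)
      exact ⟨y', S.shift_m (f := τ) hy', hb.trans (hli t u ht hu)⟩
  obtain ⟨t₀, s₀, ht₀, hs₀, hb⟩ := area_core (X := fun t s => x (Φ t v) (Φ s (Φ t w)))
    (T := fun t s => τ (Φ t v) (Φ s (Φ t w))) hY hδ hη hηδ hy1 hy2 H1 H2 H3 H4
    (by simpa only [S.zero] using hx) (by simpa only [S.zero] using hτ)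
  refine ⟨t₀, s₀, ht₀, hs₀, fun t s ht hs => ?_⟩
  obtain ⟨a1, a2, a3, a4⟩ := hb t s ht hs
  have a5 := hy0 t s a1 a2
  have a6 := abs_sub_abs_le_abs_sub (y (Φ t v) (Φ s (Φ t w))) (y v w)
  have a7 := abs_sub_abs_le_abs_sub (y v w) (y (Φ t v) (Φ s (Φ t w)))
  rw [abs_sub_comm] at a7
  exact ⟨a1, a2, hrr t s a1 a2, a3, a4, by linarith, by linarith⟩

end PairSys

end

end NC

end QE
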