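import Pool.Agent.NCV.Stmts2
import Pool.Agent.NCV.Grow
import Pool.Agent.NCV.SumB

/-!
# Closed surfaces of negative curvature: the covering (module NCV_COVER)
-/

open MeasureTheory Filter Topology Set
open UpperHalfPlane hiding I
open scoped ContDiff MatrixGroups ENNReal

namespace QE

namespace NC

noncomputable section

/-- the derivative of `X² + Y² + ε²` -/
theorem cv_der {X Y κ : ℝ → ℝ} {k₁ ε t x' y' : ℝ} (hk₁ : 0 ≤ k₁) (hκ : |κ t| ≤ k₁)
    (hx : HasDerivAt X x' t) (hy : HasDerivAt Y y' t) (h1 : |x' - Y t| ≤ ε)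
    (h2 : |y' - κ t * X t| ≤ ε) :
    ∃ g' : ℝ, HasDerivAt (fun s => X s ^ 2 + Y s ^ 2 + ε ^ 2) g' t ∧
      |g'| ≤ (2 + k₁) * (X t ^ 2 + Y t ^ 2 + ε ^ 2) := by
  refine ⟨2 * X t * x' + 2 * Y t * y', ?_, ?_⟩
  · have h5 : HasDerivAt (fun s => X s ^ 2 + Y s ^ 2 + ε ^ 2) _ t :=
      ((hx.pow 2).add (hy.pow 2)).add_const (ε ^ 2)
    convert h5 using 1
    push_cast
    ring
  have hε : 0 ≤ ε := (abs_nonneg _).trans h1
  set a := |X t| with ha
  set b := |Y t| with hb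
  have ha0 : 0 ≤ a := abs_nonneg _
  have hb0 : 0 ≤ b := abs_nonneg _
  have ha2 : a ^ 2 = X t ^ 2 := sq_abs _
  have hb2 : b ^ 2 = Y t ^ 2 := sq_abs _
  have e1 : |X t * (x' - Y t)| ≤ a * ε := by
    rw [abs_mul]; exact mul_le_mul_of_nonneg_left h1 ha0
  have e2 : |Y t * (y' - κ t * X t)| ≤ b * ε := by
    rw [abs_mul]; exact mul_le_mul_of_nonneg_left h2 hb0
  have e3 : 2 * X t * x' + 2 * Y t * y' = 2 * (X t * (x' - Y t)) + 2 * (Y t * (y' - κ t * X t))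
      + 2 * (1 + κ t) * (X t * Y t) := by ring
  have e4 : |2 * (1 + κ t) * (X t * Y t)| ≤ (1 + k₁) * (a ^ 2 + b ^ 2) := by
    rw [abs_mul, abs_mul (X t), abs_mul, abs_two]
    have h3 : |1 + κ t| ≤ 1 + k₁ := by
      refine (abs_add_le _ _).trans ?_
      rw [abs_one]; linarith
    have h4 : 2 * |1 + κ t| * (a * b) ≤ 2 * (1 + k₁) * (a * b) := by gcongr
    have h5 : 0 ≤ 1 + k₁ := by linarith
    nlinarith [mul_nonneg h5 (sq_nonneg (a - b))]
  rw [e3, ← ha2, ← hb2]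
  have e5 := abs_add_le (2 * (X t * (x' - Y t)) + 2 * (Y t * (y' - κ t * X t)))
    (2 * (1 + κ t) * (X t * Y t))
  have e6 := abs_add_le (2 * (X t * (x' - Y t))) (2 * (Y t * (y' - κ t * X t)))
  rw [abs_mul 2 (X t * (x' - Y t)), abs_mul 2 (Y t * (y' - κ t * X t)), abs_two] at e6
  nlinarith [sq_nonneg (a - ε), sq_nonneg (b - ε), mul_nonneg hk₁ (sq_nonneg ε),
    sq_nonneg (a - 2 * ε), sq_nonneg (b - 2 * ε), sq_nonneg (a + b - 2 * ε)]

/-- lower bound for `X² + Y² + ε²` -/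
theorem cv_low {X Y κ : ℝ → ℝ} {k₁ ε R : ℝ} (hk₁ : 0 ≤ k₁) (hκ : ∀ t, |κ t| ≤ k₁)
    (h : ∀ t, |t| ≤ R → ∃ x' y' : ℝ, HasDerivAt X x' t ∧ HasDerivAt Y y' t ∧
      |x' - Y t| ≤ ε ∧ |y' - κ t * X t| ≤ ε) {s t : ℝ} (hs : |s| ≤ R) (ht : |t| ≤ R) :
    Real.exp (-((2 + k₁) * (2 * R))) * (X s ^ 2 + Y s ^ 2 + ε ^ 2) ≤
      X t ^ 2 + Y t ^ 2 + ε ^ 2 := by
  set M := 2 + k₁ with hM
  have hM0 : 0 < M := by positivity
  set g : ℝ → ℝ := fun u => X u ^ 2 + Y u ^ 2 + ε ^ 2 with hg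
  have hg0 : ∀ u, 0 ≤ g u := fun u => by simp only [hg]; positivity
  have hder : ∀ u ∈ Icc (-R) R, ∃ g' : ℝ, HasDerivAt g g' u ∧ |g'| ≤ M * g u := by
    intro u hu
    obtain ⟨x', y', h1, h2, h3, h4⟩ := h u (abs_le.2 hu)
    exact cv_der hk₁ (hκ u) h1 h2 h3 h4
  have hm1 : MonotoneOn (fun u => Real.exp (M * u) * g u) (Icc (-R) R) := by
    have hd : ∀ u ∈ Icc (-R) R, ∃ p : ℝ, HasDerivAt (fun u => Real.exp (M * u) * g u) p u ∧
        0 ≤ p := by
      intro u hu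
      obtain ⟨g', h1, h2⟩ := hder u hu
      have h3 : HasDerivAt (fun s : ℝ => Real.exp (M * s)) (Real.exp (M * u) * M) u := by
        have := ((hasDerivAt_id u).const_mul M).exp
        simpa using this
      refine ⟨_, h3.mul h1, ?_⟩
      have h4 := (abs_le.mp h2).1
      have h6 : 0 ≤ Real.exp (M * u) * (M * g u + g') :=
        mul_nonneg (Real.exp_pos _).le (by linarith)
      linarith
    refine monotoneOn_of_deriv_nonneg (convex_Icc _ _) (fun u hu => ?_) (fun u hu => ?_)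
      (fun u hu => ?_)
    · obtain ⟨p, hp, -⟩ := hd u hu
      exact hp.continuousAt.continuousWithinAt
    · obtain ⟨p, hp, -⟩ := hd u (interior_subset hu)
      exact hp.differentiableAt.differentiableWithinAt
    · obtain ⟨p, hp, h0⟩ := hd u (interior_subset hu)
      rw [hp.deriv]
      exact h0
  have hm2 : MonotoneOn (fun u => -(Real.exp (-(M * u)) * g u)) (Icc (-R) R) := by
    have hd : ∀ u ∈ Icc (-R) R, ∃ p : ℝ, HasDerivAt (fun u => -(Real.exp (-(M * u)) * g u)) p u ∧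
        0 ≤ p := by
      intro u hu
      obtain ⟨g', h1, h2⟩ := hder u hu
      have h3 : HasDerivAt (fun s : ℝ => Real.exp (-(M * s))) (Real.exp (-(M * u)) * (-M)) u := by
        have := (((hasDerivAt_id u).const_mul M).neg).exp
        simpa using this
      refine ⟨_, (h3.mul h1).neg, ?_⟩
      have h4 := (abs_le.mp h2).2
      have h6 : 0 ≤ Real.exp (-(M * u)) * (M * g u - g') :=
        mul_nonneg (Real.exp_pos _).le (by linarith)
      linarith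
    refine monotoneOn_of_deriv_nonneg (convex_Icc _ _) (fun u hu => ?_) (fun u hu => ?_)
      (fun u hu => ?_)
    · obtain ⟨p, hp, -⟩ := hd u hu
      exact hp.continuousAt.continuousWithinAt
    · obtain ⟨p, hp, -⟩ := hd u (interior_subset hu)
      exact hp.differentiableAt.differentiableWithinAt
    · obtain ⟨p, hp, h0⟩ := hd u (interior_subset hu)
      rw [hp.deriv]
      exact h0
  have hs' := abs_le.1 hs
  have ht' := abs_le.1 ht
  show Real.exp (-(M * (2 * R))) * g s ≤ g t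
  rcases le_total s t with hst | hst
  · have h1 : Real.exp (M * s) * g s ≤ Real.exp (M * t) * g t := hm1 hs' ht' hst
    have h2 : Real.exp (-(M * (2 * R))) * g s ≤ Real.exp (-(M * t)) * (Real.exp (M * s) * g s) := by
      rw [← mul_assoc (Real.exp (-(M * t))), ← Real.exp_add]
      refine mul_le_mul_of_nonneg_right (Real.exp_le_exp.2 ?_) (hg0 s)
      nlinarith
    have h3 : Real.exp (-(M * t)) * (Real.exp (M * s) * g s) ≤
        Real.exp (-(M * t)) * (Real.exp (M * t) * g t) :=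
      mul_le_mul_of_nonneg_left h1 (Real.exp_pos _).le
    rw [← mul_assoc (Real.exp (-(M * t))) (Real.exp (M * t)), ← Real.exp_add, neg_add_cancel,
      Real.exp_zero, one_mul] at h3
    exact h2.trans h3
  · have h1' : -(Real.exp (-(M * t)) * g t) ≤ -(Real.exp (-(M * s)) * g s) := hm2 ht' hs' hst
    have h1 : Real.exp (-(M * s)) * g s ≤ Real.exp (-(M * t)) * g t := by linarith
    have h2 : Real.exp (-(M * (2 * R))) * g s ≤ Real.exp (M * t) * (Real.exp (-(M * s)) * g s) := by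
      rw [← mul_assoc (Real.exp (M * t)), ← Real.exp_add]
      refine mul_le_mul_of_nonneg_right (Real.exp_le_exp.2 ?_) (hg0 s)
      nlinarith
    have h3 : Real.exp (M * t) * (Real.exp (-(M * s)) * g s) ≤
        Real.exp (M * t) * (Real.exp (-(M * t)) * g t) :=
      mul_le_mul_of_nonneg_left h1 (Real.exp_pos _).le
    rw [← mul_assoc (Real.exp (M * t)) (Real.exp (-(M * t))), ← Real.exp_add, add_neg_cancel,
      Real.exp_zero, one_mul] at h3
    exact h2.trans h3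

/-- a continuous function without zeros on an interval has constant sign -/
theorem cv_sign {X : ℝ → ℝ} {R : ℝ} (hc : ContinuousOn X (Icc (-R) R))
    (h : ∀ t, |t| ≤ R → X t ≠ 0) :
    (∀ t, |t| ≤ R → 0 < X t) ∨ ∀ t, |t| ≤ R → X t < 0 := by
  by_cases h1 : ∀ t, |t| ≤ R → 0 < X t
  · exact Or.inl h1
  right
  push Not at h1
  obtain ⟨t, ht, hXt⟩ := h1
  intro s hs
  by_contra hcon
  have hs0 : 0 ≤ X s := not_lt.1 hcon
  have hu : uIcc t s ⊆ Icc (-R) R := uIcc_subset_Icc (abs_le.1 ht) (abs_le.1 hs)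
  have h2 := intermediate_value_uIcc (hc.mono hu)
  have h3 : (0 : ℝ) ∈ uIcc (X t) (X s) := by
    rw [uIcc_of_le (hXt.trans hs0)]
    exact ⟨hXt, hs0⟩
  obtain ⟨u, hu1, hu2⟩ := h2 h3
  exact h u (abs_le.2 (hu hu1)) hu2

theorem cv_sq (u v : ℝ) : (|u| + |v|) ^ 2 ≤ 2 * (u ^ 2 + v ^ 2) := by
  nlinarith [sq_nonneg (|u| - |v|), sq_abs u, sq_abs v]

theorem cv_sq' (u v : ℝ) : u ^ 2 + v ^ 2 ≤ (|u| + |v|) ^ 2 := by
  nlinarith [mul_nonneg (abs_nonneg u) (abs_nonneg v), sq_abs u, sq_abs v]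

theorem stmtCover : StmtCover := by
  intro Γ Φ x y τ κ c r L k₀ k₁ S A q hA hq hq1
  obtain ⟨e₀, c₁, c₂, C, he₀, hc₁, hc₂, hc₂1, hC, hG⟩ := grow k₀ k₁ S.kpos
  have hk₁ : 0 < k₁ := S.kpos.trans_le ((S.klo 1).trans (S.khi 1))
  have hc0 := S.c0
  -- the choice of `m`
  obtain ⟨m, hm2, hm⟩ : ∃ m : ℝ, 2 ≤ m ∧
      32 * (1 + A ^ 2) ≤ c₂ ^ 3 * Real.exp (c₁ * (m / 2)) * q ^ 2 := by
    refine ⟨2 + 2 / c₁ * (32 * (1 + A ^ 2) / (c₂ ^ 3 * q ^ 2)), ?_, ?_⟩
    · have : 0 ≤ 2 / c₁ * (32 * (1 + A ^ 2) / (c₂ ^ 3 * q ^ 2)) := by positivity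
      linarith
    · have h1 : 32 * (1 + A ^ 2) / (c₂ ^ 3 * q ^ 2) ≤
          c₁ * ((2 + 2 / c₁ * (32 * (1 + A ^ 2) / (c₂ ^ 3 * q ^ 2))) / 2) := by
        have e : c₁ * ((2 + 2 / c₁ * (32 * (1 + A ^ 2) / (c₂ ^ 3 * q ^ 2))) / 2) =
            c₁ + 32 * (1 + A ^ 2) / (c₂ ^ 3 * q ^ 2) := by
          field_simp
        rw [e]; linarith
      have h2 := Real.add_one_le_exp
        (c₁ * ((2 + 2 / c₁ * (32 * (1 + A ^ 2) / (c₂ ^ 3 * q ^ 2))) / 2))
      have h3 : 32 * (1 + A ^ 2) / (c₂ ^ 3 * q ^ 2) ≤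
          Real.exp (c₁ * ((2 + 2 / c₁ * (32 * (1 + A ^ 2) / (c₂ ^ 3 * q ^ 2))) / 2)) := by
        linarith
      rw [div_le_iff₀ (by positivity)] at h3
      calc 32 * (1 + A ^ 2) ≤ _ := h3
        _ = _ := by ring
  have hm0 : 0 < m := by linarith
  refine ⟨m, hm0, fun K => ?_⟩
  set T := ((K : ℝ) + 1) * m with hT
  have hK0 : (0 : ℝ) ≤ K := Nat.cast_nonneg K
  have hTm : m ≤ T := by rw [hT]; nlinarith
  have hT0 : 0 < T := hm0.trans_le hTm
  have hKT : (K : ℝ) * m ≤ T := by rw [hT]; nlinarith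
  set C₁ := c * Real.exp (L * T) * (c * (2 + A)) with hC₁
  have hC₁0 : 0 < C₁ := by positivity
  set b := Real.exp (-((2 + k₁) * (2 * T))) with hb
  have hb0 : 0 < b := Real.exp_pos _
  have hb1 : b ≤ 1 := by
    rw [hb, Real.exp_le_one_iff]
    have : 0 ≤ (2 + k₁) * (2 * T) := by positivity
    linarith
  set a := b * q / 2 with ha
  have ha0 : 0 < a := by positivity
  set δ₀ := min (r / C₁) (min (1 / (T * (c * C₁ ^ 2))) (min 1 e₀ * a / (c * C₁ ^ 2))) with hδ₀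
  have hrp := S.rpos
  refine ⟨max (1 + A) (1 / a), T, δ₀, ?_, hT0, by positivity, ?_⟩
  · exact le_max_of_le_left (by linarith)
  intro δ hδ hδδ v w hd hx hτ hy
  -- smallness of `δ`
  have d1 : C₁ * δ ≤ r := by
    have := (hδδ.trans_le (min_le_left _ _)).le
    rw [le_div_iff₀ hC₁0] at this
    linarith
  have d2 : T * (c * (C₁ * δ) ^ 2) ≤ δ := by
    have := (hδδ.trans_le ((min_le_right _ _).trans (min_le_left _ _))).le
    rw [le_div_iff₀ (by positivity)] at this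
    calc T * (c * (C₁ * δ) ^ 2) = (δ * (T * (c * C₁ ^ 2))) * δ := by ring
      _ ≤ 1 * δ := by gcongr
      _ = δ := one_mul _
  have d3 : c * (C₁ * δ) ^ 2 ≤ min 1 e₀ * a * δ := by
    have := (hδδ.trans_le ((min_le_right _ _).trans (min_le_right _ _))).le
    rw [le_div_iff₀ (by positivity)] at this
    calc c * (C₁ * δ) ^ 2 = (δ * (c * C₁ ^ 2)) * δ := by ring
      _ ≤ (min 1 e₀ * a) * δ := by gcongr
  set ε := c * (C₁ * δ) ^ 2 with hε
  have hε0 : 0 ≤ ε := by positivity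
  have d4 : ε ≤ a * δ := by
    refine d3.trans ?_
    have : min 1 e₀ * (a * δ) ≤ 1 * (a * δ) := by gcongr; exact min_le_left _ _
    linarith
  have d5 : ε ≤ e₀ * (a * δ) := by
    refine d3.trans ?_
    have : min 1 e₀ * (a * δ) ≤ e₀ * (a * δ) := by gcongr; exact min_le_right _ _
    linarith
  -- the distance
  have hdd : dd v w ≤ c * (2 + A) * δ := by
    calc dd v w ≤ c * (|x v w| + |y v w| + |τ v w|) := S.dle v w hd
      _ ≤ c * (δ + A * δ + δ) := by gcongr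
      _ = _ := by ring
  have hD : ∀ t, |t| ≤ T → dd (Φ t v) (Φ t w) ≤ C₁ * δ := by
    intro t ht
    have hL := S.Lnn
    have h0 := PairSys.dd_nonneg' v w
    calc dd (Φ t v) (Φ t w) ≤ c * Real.exp (L * |t|) * dd v w := S.dflow v w t
      _ ≤ c * Real.exp (L * T) * (c * (2 + A) * δ) := by gcongr
      _ = C₁ * δ := by rw [hC₁]; ring
  have hDr : ∀ t, |t| ≤ T → dd (Φ t v) (Φ t w) ≤ r := fun t ht => (hD t ht).trans d1
  have hDs : ∀ t, |t| ≤ T → c * dd (Φ t v) (Φ t w) ^ 2 ≤ ε := by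
    intro t ht
    have h0 := PairSys.dd_nonneg' (Φ t v) (Φ t w)
    have h1 := hD t ht
    rw [hε]
    gcongr
  set X : ℝ → ℝ := fun t => x (Φ t v) (Φ t w) with hX
  set Y : ℝ → ℝ := fun t => y (Φ t v) (Φ t w) with hY
  set κ' : ℝ → ℝ := fun t => κ (Φ t v) with hκ'
  have hκ : ∀ t, |κ' t| ≤ k₁ := fun t => by
    rw [abs_of_pos (S.kpos.trans_le (S.klo _))]
    exact S.khi _
  have hder : ∀ t, |t| ≤ T → ∃ x' y' : ℝ, HasDerivAt X x' t ∧ HasDerivAt Y y' t ∧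
      |x' - Y t| ≤ ε ∧ |y' - κ' t * X t| ≤ ε := by
    intro t ht
    obtain ⟨x', h1, h2⟩ := S.xd _ _ (hDr t ht)
    obtain ⟨y', h3, h4⟩ := S.yd _ _ (hDr t ht)
    exact ⟨x', y', S.shift_d (f := x) h1, S.shift_d (f := y) h3, h2.trans (hDs t ht),
      h4.trans (hDs t ht)⟩
  have z0 : |(0 : ℝ)| ≤ T := by rw [abs_zero]; exact hT0.le
  have hτt : ∀ t, |t| ≤ T → |τ (Φ t v) (Φ t w)| ≤ 2 * δ := by
    intro t ht
    have h1 := mvt (f := fun t => τ (Φ t v) (Φ t w)) (a := 0) (C := ε) (R := T) (fun u hu => ?_)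
      ht z0
    · simp only [mul_zero, sub_zero, S.zero] at h1
      have h2 := abs_add_le (τ (Φ t v) (Φ t w) - τ v w) (τ v w)
      rw [sub_add_cancel] at h2
      have h3 : ε * |t| ≤ δ := by
        calc ε * |t| ≤ ε * T := by gcongr
          _ = T * ε := mul_comm _ _
          _ ≤ δ := d2
      linarith
    · obtain ⟨t', h1, h2⟩ := S.td _ _ (hDr u hu)
      refine ⟨t', S.shift_d (f := τ) h1, ?_⟩
      rw [sub_zero]
      exact h2.trans (hDs u hu)
  have hmT : |m / 2| ≤ T := by rw [abs_of_pos (by positivity)]; linarith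
  have hmT' : |-(m / 2)| ≤ T := by rw [abs_neg]; exact hmT
  by_cases h1 : |X (m / 2)| + |Y (m / 2)| ≤ q * δ
  · exact Or.inl ⟨hDr _ hmT, h1, hτt _ hmT⟩
  by_cases h2 : |X (-(m / 2))| + |Y (-(m / 2))| ≤ q * δ
  · exact Or.inr (Or.inl ⟨hDr _ hmT', h2, hτt _ hmT'⟩)
  rw [not_le] at h1 h2
  right; right
  -- lower bounds for `X² + Y²`
  have hsq := cv_sq
  have hsq' := cv_sq'
  have hqδ : 0 < q * δ := by positivity
  have hE1 : (q * δ) ^ 2 / 2 ≤ X (m / 2) ^ 2 + Y (m / 2) ^ 2 := by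
    have h3 := hsq (X (m / 2)) (Y (m / 2))
    have h4 : (q * δ) ^ 2 ≤ (|X (m / 2)| + |Y (m / 2)|) ^ 2 :=
      pow_le_pow_left₀ hqδ.le h1.le 2
    linarith
  have hE2 : (q * δ) ^ 2 / 2 ≤ X (-(m / 2)) ^ 2 + Y (-(m / 2)) ^ 2 := by
    have h3 := hsq (X (-(m / 2))) (Y (-(m / 2)))
    have h4 : (q * δ) ^ 2 ≤ (|X (-(m / 2))| + |Y (-(m / 2))|) ^ 2 :=
      pow_le_pow_left₀ hqδ.le h2.le 2
    linarith
  have hN : ∀ t, |t| ≤ T → a * δ ≤ |X t| + |Y t| := by
    intro t ht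
    have h3 := cv_low hk₁.le hκ hder hmT ht
    have h4 : b * ((q * δ) ^ 2 / 2) ≤ b * (X (m / 2) ^ 2 + Y (m / 2) ^ 2 + ε ^ 2) := by
      gcongr
      have := sq_nonneg ε
      linarith
    have h5 : ε ^ 2 ≤ (a * δ) ^ 2 := pow_le_pow_left₀ hε0 d4 2
    have h6 : (a * δ) ^ 2 ≤ b * ((q * δ) ^ 2 / 4) := by
      have e1 : (a * δ) ^ 2 = b * (b * ((q * δ) ^ 2 / 4)) := by rw [ha]; ring
      rw [e1]
      have h7 : b * ((q * δ) ^ 2 / 4) ≤ 1 * ((q * δ) ^ 2 / 4) := by gcongr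
      rw [one_mul] at h7
      gcongr
    have h7 : (a * δ) ^ 2 ≤ X t ^ 2 + Y t ^ 2 := by
      have e2 : b * ((q * δ) ^ 2 / 2) = b * ((q * δ) ^ 2 / 4) + b * ((q * δ) ^ 2 / 4) := by ring
      linarith
    have h8 := h7.trans (hsq' (X t) (Y t))
    exact le_of_sq_le_sq h8 (by positivity)
  by_cases h3 : ∃ t, |t| ≤ T ∧ X t = 0
  · left
    have h4 := hN 0 z0
    simp only [hX, hY, S.zero] at h4
    have hA' : (1 + A) ≤ max (1 + A) (1 / a) := le_max_left _ _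
    refine ⟨hd, ?_, ?_, ?_, h3⟩
    · calc |τ v w| ≤ 1 * δ := by linarith
        _ ≤ (1 + A) * δ := by gcongr; linarith
        _ ≤ max (1 + A) (1 / a) * δ := by gcongr
    · refine le_trans ?_ h4
      rw [div_le_iff₀ (by positivity)]
      have h5 : 1 / a ≤ max (1 + A) (1 / a) := le_max_right _ _
      calc δ = a * δ * (1 / a) := by field_simp
        _ ≤ a * δ * max (1 + A) (1 / a) := by gcongr
    · calc |x v w| + |y v w| ≤ (1 + A) * δ := by linarith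
        _ ≤ max (1 + A) (1 / a) * δ := by gcongr
  push Not at h3
  right
  -- the growth system
  have hsys : ∀ s S', |s| ≤ T → |s + S'| ≤ T → 0 ≤ S' →
      GrowSys k₀ k₁ e₀ S' (fun t => X (s + t)) (fun t => Y (s + t)) (fun t => κ' (s + t)) := by
    intro s S' hs hS hS0
    have hin : ∀ t ∈ Icc (0 : ℝ) S', |s + t| ≤ T := by
      intro t ht
      have a1 := abs_le.1 hs
      have a2 := abs_le.1 hS
      exact abs_le.2 ⟨by linarith [ht.1], by linarith [ht.2]⟩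
    refine ⟨fun t _ => S.klo _, fun t _ => S.khi _, fun t ht => ?_⟩
    obtain ⟨x', y', a1, a2, a3, a4⟩ := hder _ (hin t ht)
    have a5 : ε ≤ e₀ * (|X (s + t)| + |Y (s + t)|) := by
      refine d5.trans ?_
      have := hN _ (hin t ht)
      gcongr
    exact ⟨x', y', HasDerivAt.comp_const_add s t a1, HasDerivAt.comp_const_add s t a2,
      a3.trans a5, a4.trans a5⟩
  have hX0 : X 0 = x v w := by simp only [hX, S.zero]
  have hY0 : Y 0 = y v w := by simp only [hY, S.zero]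
  have hE0 : X 0 ^ 2 + Y 0 ^ 2 ≤ (1 + A ^ 2) * δ ^ 2 := by
    rw [hX0, hY0]
    have a1 : x v w ^ 2 ≤ δ ^ 2 := by
      rw [← sq_abs]; exact pow_le_pow_left₀ (abs_nonneg _) hx 2
    have a2 : y v w ^ 2 ≤ (A * δ) ^ 2 := by
      rw [← sq_abs]; exact pow_le_pow_left₀ (abs_nonneg _) hy 2
    linarith [a1, a2, (by ring : (A * δ) ^ 2 = A ^ 2 * δ ^ 2)]
  have hexp : 16 * (1 + A ^ 2) ≤ c₂ * Real.exp (c₁ * (m / 2)) * (q ^ 2 / 2) := by
    have a1 : c₂ ^ 3 ≤ c₂ := by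
      calc c₂ ^ 3 = c₂ ^ 2 * c₂ := by ring
        _ ≤ 1 * c₂ := by gcongr; exact pow_le_one₀ hc₂.le hc₂1
        _ = c₂ := one_mul _
    have a2 : c₂ ^ 3 * Real.exp (c₁ * (m / 2)) * q ^ 2 ≤ c₂ * Real.exp (c₁ * (m / 2)) * q ^ 2 := by
      gcongr
    linarith
  -- the sign of `X Y` at `± m / 2`
  have hf1 : 0 ≤ X (m / 2) * Y (m / 2) := by
    by_contra hcon
    have hcon' := (not_le.1 hcon).le
    have g := hsys 0 (m / 2) z0 (by rw [zero_add]; exact hmT) (by positivity)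
    have g3 := ((hG _ _ _ _ g).2.2.1 (by rw [zero_add]; exact hcon')).1 0
      ⟨le_rfl, by positivity⟩
    simp only [zero_add, sub_zero] at g3
    have g4 := g3.2
    have g5 : c₂ * Real.exp (c₁ * (m / 2)) * ((q * δ) ^ 2 / 2) ≤
        c₂ * Real.exp (c₁ * (m / 2)) * (X (m / 2) ^ 2 + Y (m / 2) ^ 2) := by gcongr
    have g6 : c₂ * Real.exp (c₁ * (m / 2)) * ((q * δ) ^ 2 / 2) =
        (c₂ * Real.exp (c₁ * (m / 2)) * (q ^ 2 / 2)) * δ ^ 2 := by ring
    have g7 : 16 * (1 + A ^ 2) * δ ^ 2 ≤ (c₂ * Real.exp (c₁ * (m / 2)) * (q ^ 2 / 2)) * δ ^ 2 := by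
      gcongr
    have g8 : 0 < (1 + A ^ 2) * δ ^ 2 := by positivity
    linarith
  have hf2 : X (-(m / 2)) * Y (-(m / 2)) ≤ 0 := by
    by_contra hcon
    have hcon' := (not_le.1 hcon).le
    have g := hsys (-(m / 2)) (m / 2) hmT' (by rw [neg_add_cancel]; exact z0) (by positivity)
    have g3 := ((hG _ _ _ _ g).2.1 (by rw [add_zero]; exact hcon')).1 (m / 2)
      ⟨by positivity, le_rfl⟩
    simp only [neg_add_cancel, add_zero] at g3
    have g4 := g3.2
    have g5 : c₂ * Real.exp (c₁ * (m / 2)) * ((q * δ) ^ 2 / 2) ≤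
        c₂ * Real.exp (c₁ * (m / 2)) * (X (-(m / 2)) ^ 2 + Y (-(m / 2)) ^ 2) := by gcongr
    have g6 : c₂ * Real.exp (c₁ * (m / 2)) * ((q * δ) ^ 2 / 2) =
        (c₂ * Real.exp (c₁ * (m / 2)) * (q ^ 2 / 2)) * δ ^ 2 := by ring
    have g7 : 16 * (1 + A ^ 2) * δ ^ 2 ≤ (c₂ * Real.exp (c₁ * (m / 2)) * (q ^ 2 / 2)) * δ ^ 2 := by
      gcongr
    have g8 : 0 < (1 + A ^ 2) * δ ^ 2 := by positivity
    linarith
  -- the conclusion of the growth
  have hfin : ∀ s E' z : ℝ, m / 2 ≤ s → (q * δ) ^ 2 / 2 ≤ E' →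
      c₂ * Real.exp (c₁ * s) * E' ≤ X z ^ 2 + Y z ^ 2 → c₂ * (|X z| + |Y z|) ≤ |X z| →
      4 * δ ≤ |X z| := by
    intro s E' z hs hE' g1 g2
    have g3 : c₂ * Real.exp (c₁ * (m / 2)) * ((q * δ) ^ 2 / 2) ≤ c₂ * Real.exp (c₁ * s) * E' := by
      have : Real.exp (c₁ * (m / 2)) ≤ Real.exp (c₁ * s) := Real.exp_le_exp.2 (by gcongr)
      gcongr
    have g4 := hsq' (X z) (Y z)
    have g5 : (c₂ * (|X z| + |Y z|)) ^ 2 ≤ |X z| ^ 2 := pow_le_pow_left₀ (by positivity) g2 2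
    have g6 : (4 * δ) ^ 2 ≤ |X z| ^ 2 := by
      calc (4 * δ) ^ 2 = 16 * 1 * δ ^ 2 := by ring
        _ ≤ 16 * (1 + A ^ 2) * δ ^ 2 := by
            gcongr
            exact le_add_of_nonneg_right (sq_nonneg A)
        _ ≤ (c₂ ^ 3 * Real.exp (c₁ * (m / 2)) * q ^ 2 / 2) * δ ^ 2 := by gcongr; linarith
        _ = c₂ ^ 2 * (c₂ * Real.exp (c₁ * (m / 2)) * ((q * δ) ^ 2 / 2)) := by ring
        _ ≤ c₂ ^ 2 * (|X z| + |Y z|) ^ 2 := by gcongr; linarith
        _ = (c₂ * (|X z| + |Y z|)) ^ 2 := by ring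
        _ ≤ |X z| ^ 2 := g5
    exact le_of_sq_le_sq g6 (abs_nonneg _)
  have hbig : ∀ j : ℤ, j ≠ 0 → |j| ≤ (K : ℤ) → 4 * δ ≤ |X (j * m)| ∧ |(j : ℝ) * m| ≤ T := by
    intro j hj0 hjK
    have hjK' : |(j : ℝ)| ≤ K := by exact_mod_cast hjK
    have hjT : |(j : ℝ) * m| ≤ T := by
      rw [abs_mul, abs_of_pos hm0]
      exact (mul_le_mul_of_nonneg_right hjK' hm0.le).trans hKT
    refine ⟨?_, hjT⟩
    have hjT' := abs_le.1 hjT
    rcases lt_or_gt_of_ne hj0 with hj | hj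
    · -- `j < 0`
      have hj1 : (j : ℝ) ≤ -1 := by exact_mod_cast (by omega : j ≤ -1)
      have hjm : (j : ℝ) * m ≤ -m := by
        have := mul_le_mul_of_nonneg_right hj1 hm0.le
        rwa [neg_one_mul] at this
      have g := hsys (-T) (T - m / 2) (by rw [abs_neg, abs_of_pos hT0])
        (by rw [show -T + (T - m / 2) = -(m / 2) by ring]; exact hmT') (by linarith)
      have e1 : -T + (T - m / 2) = -(m / 2) := by ring
      have e2 : -T + (j * m + T) = j * m := by ring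
      have g3 := (hG _ _ _ _ g).2.2.1 (by rw [e1]; exact hf2)
      have g4 := g3.1 (j * m + T) ⟨by linarith, by linarith⟩
      have g5 := g3.2 (j * m + T) ⟨by linarith, by linarith⟩
      rw [e1, e2] at g4
      rw [e2] at g5
      exact hfin _ _ _ (by linarith) hE2 g4.2 g5
    · have hj1 : (1 : ℝ) ≤ j := by exact_mod_cast (by omega : 1 ≤ j)
      have hjm : m ≤ (j : ℝ) * m := le_mul_of_one_le_left hm0.le hj1
      have g := hsys (m / 2) (T - m / 2) hmT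
        (by rw [show m / 2 + (T - m / 2) = T by ring, abs_of_pos hT0]) (by linarith)
      have e2 : m / 2 + (j * m - m / 2) = j * m := by ring
      have g3 := (hG _ _ _ _ g).2.1 (by rw [add_zero]; exact hf1)
      have g4 := g3.1 (j * m - m / 2) ⟨by linarith, by linarith⟩
      have g5 := g3.2 (j * m - m / 2) ⟨by linarith, by linarith⟩
      rw [add_zero, e2] at g4
      rw [e2] at g5
      exact hfin _ _ _ (by linarith) hE1 g4.2 g5
  -- the sign of `X`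
  have hXc : ContinuousOn X (Icc (-T) T) := by
    intro t ht
    obtain ⟨x', y', a1, -⟩ := hder t (abs_le.2 ht)
    exact a1.continuousAt.continuousWithinAt
  rcases cv_sign hXc h3 with hs | hs
  · left
    refine ⟨hd, ?_, ?_, hτ, hy, fun j hj0 hjK => ?_⟩
    · have := hs 0 z0
      rw [hX0] at this
      rw [one_mul]; exact this.le
    · rw [one_mul]; exact (le_abs_self _).trans hx
    · obtain ⟨a1, a2⟩ := hbig j hj0 hjK
      rw [abs_of_pos (hs _ a2)] at a1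
      rw [one_mul]; exact a1
  · right
    refine ⟨hd, ?_, ?_, hτ, hy, fun j hj0 hjK => ?_⟩
    · have := hs 0 z0
      rw [hX0] at this
      linarith
    · have := neg_abs_le (x v w)
      linarith
    · obtain ⟨a1, a2⟩ := hbig j hj0 hjK
      rw [abs_of_neg (hs _ a2)] at a1
      have e : X (j * m) = x (Φ (j * m) v) (Φ (j * m) w) := rfl
      rw [e] at a1
      linarith

end

end NC

end QE
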