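import Pool.Agent.NCV.CrossB

/-!
# Module NC_CROSS: pairs of crossing geodesics
-/

open MeasureTheory Filter Topology Set
open UpperHalfPlane hiding I
open scoped ContDiff MatrixGroups ENNReal

namespace QE

namespace NC

noncomputable section

namespace Cr

variable {Γ : Subgroup SL(2, ℝ)} {D : Set ℍ} {Φ : ℝ → SL(2, ℝ) → SL(2, ℝ)}
  {x y τ : SL(2, ℝ) → SL(2, ℝ) → ℝ} {κ : SL(2, ℝ) → ℝ} {c r L k₀ k₁ : ℝ}

lemma flow_cont (S : PairSys Γ Φ x y τ κ c r L k₀ k₁) (t : ℝ) : Continuous (Φ t) :=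
  S.cont.comp (f := fun g : SL(2, ℝ) => (t, g)) (by fun_prop)

/-- the flow as a homeomorphism -/
def flowHomeo (S : PairSys Γ Φ x y τ κ c r L k₀ k₁) (t : ℝ) : SL(2, ℝ) ≃ₜ SL(2, ℝ) where
  toFun := Φ t
  invFun := Φ (-t)
  left_inv g := by rw [← S.add, neg_add_cancel, S.zero]
  right_inv g := by rw [← S.add, add_neg_cancel, S.zero]
  continuous_toFun := flow_cont S t
  continuous_invFun := flow_cont S (-t)

lemma dd_left (γ v w : SL(2, ℝ)) : dd (γ * v) (γ * w) = dd v w := by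
  unfold dd
  congr 1
  group

lemma cont_entry (i j : Fin 2) : Continuous fun g : SL(2, ℝ) => g i j := by
  have h : Continuous fun g : SL(2, ℝ) => (g : Matrix (Fin 2) (Fin 2) ℝ) := continuous_subtype_val
  exact h.matrix_elem i j

lemma nn_cont : Continuous nn := by
  unfold nn
  have h1 := cont_entry 0 0
  have h2 := cont_entry 0 1
  have h3 := cont_entry 1 0
  have h4 := cont_entry 1 1
  fun_prop

lemma dd_cont : Continuous fun p : SL(2, ℝ) × SL(2, ℝ) => dd p.1 p.2 :=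
  nn_cont.comp (continuous_fst.inv.mul continuous_snd)

lemma QQ_inv (S : PairSys Γ Φ x y τ κ c r L k₀ k₁) (a c₀ : ℝ) (l : ℕ) (γ : SL(2, ℝ)) (hγ : γ ∈ Γ)
    (v w : SL(2, ℝ)) : QQ x y τ r a c₀ l (γ * v) (γ * w) ↔ QQ x y τ r a c₀ l v w := by
  unfold QQ
  rw [dd_left, S.xi γ hγ, S.yi γ hγ, S.ti γ hγ]

variable [MeasurableSpace SL(2, ℝ)] [BorelSpace SL(2, ℝ)] {ν : Measure SL(2, ℝ)}

lemma QQ_meas (S : PairSys Γ Φ x y τ κ c r L k₀ k₁) (a c₀ : ℝ) (l : ℕ) :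
    MeasurableSet {p : SL(2, ℝ) × SL(2, ℝ) | QQ x y τ r a c₀ l p.1 p.2} := by
  have h1 := dd_cont
  have h2 := S.xc
  have h3 := S.yc
  have h4 := S.tc
  refine IsClosed.measurableSet ?_
  unfold QQ
  refine (isClosed_const).inter (((isClosed_le h1 continuous_const)).inter
    ((isClosed_le h2.abs continuous_const).inter ((isClosed_le h4.abs continuous_const).inter
    ((isClosed_le continuous_const h3.abs).inter (isClosed_le h3.abs continuous_const)))))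

lemma mp (S : PairSys Γ Φ x y τ κ c r L k₀ k₁) (W : MassSys Γ D Φ x τ r ν) (t : ℝ) :
    MeasurePreserving (Φ t) ν ν := ⟨(flow_cont S t).measurable, W.flow t⟩

lemma smulInv (W : MassSys Γ D Φ x τ r ν) : SMulInvariantMeasure Γ SL(2, ℝ) ν where
  measure_preimage_smul g s hs := by
    have h := W.left g g.2
    have hm : Measurable fun x : SL(2, ℝ) => (g : SL(2, ℝ)) * x :=
      (continuous_const_mul (g : SL(2, ℝ))).measurable
    conv_rhs => rw [← h, Measure.map_apply hm hs]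
    rfl

lemma set_inv [Countable Γ] (S : PairSys Γ Φ x y τ κ c r L k₀ k₁) (W : MassSys Γ D Φ x τ r ν)
    {f : SL(2, ℝ) → ℝ≥0∞} (hinv : ∀ γ ∈ Γ, ∀ g, f (γ * g) = f g) (s : ℝ) :
    ∫⁻ v in Berry.Fd D, f (Φ s v) ∂ν = ∫⁻ v in Berry.Fd D, f v ∂ν := by
  have := smulInv W
  have hemb : MeasurableEmbedding (Φ s) := (flowHomeo S s).measurableEmbedding
  have h1 := (mp S W s).setLIntegral_comp_preimage_emb hemb f (Φ (-s) ⁻¹' (Berry.Fd D))
  have e2 : Φ s ⁻¹' (Φ (-s) ⁻¹' (Berry.Fd D)) = Berry.Fd D := by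
    ext g
    simp only [Set.mem_preimage, ← S.add, neg_add_cancel, S.zero]
  rw [e2] at h1
  rw [h1]
  have hfund : IsFundamentalDomain Γ (Φ (-s) ⁻¹' (Berry.Fd D)) ν :=
    W.fund.preimage_of_equiv (mp S W (-s)).quasiMeasurePreserving (e := id)
      Function.bijective_id fun γ g => S.left γ γ.2 (-s) g
  exact hfund.setLIntegral_eq W.fund f fun γ g => hinv γ γ.2 g

lemma PM_flow [Countable Γ] (S : PairSys Γ Φ x y τ κ c r L k₀ k₁) (W : MassSys Γ D Φ x τ r ν)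
    {P : SL(2, ℝ) → SL(2, ℝ) → Prop}
    (hP : MeasurableSet {p : SL(2, ℝ) × SL(2, ℝ) | P p.1 p.2})
    (hinv : ∀ γ ∈ Γ, ∀ v w, P (γ * v) (γ * w) ↔ P v w) (s t : ℝ) :
    PM D ν (fun v w => P (Φ s v) (Φ t w)) = PM D ν P := by
  unfold PM
  have e1 : ∀ v, ν {w | P (Φ s v) (Φ t w)} = ν {w | P (Φ s v) w} := fun v => by
    have hm : MeasurableSet {w | P (Φ s v) w} := measurable_prodMk_left hP
    exact (mp S W t).measure_preimage hm.nullMeasurableSet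
  simp only [e1]
  refine set_inv S W (f := fun u => ν {w | P u w}) (fun γ hγ g => ?_) s
  have h := W.left γ hγ
  have hm : MeasurableSet {w | P (γ * g) w} := measurable_prodMk_left hP
  have hmm : Measurable fun x : SL(2, ℝ) => γ * x := (continuous_const_mul γ).measurable
  conv_lhs => rw [← h, Measure.map_apply hmm hm]
  congr 1
  ext w
  exact hinv γ hγ g w

lemma PM_cover [SFinite ν] {ι : Type} [Countable ι] {P : SL(2, ℝ) → SL(2, ℝ) → Prop}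
    {Q : ι → SL(2, ℝ) → SL(2, ℝ) → Prop}
    (hQ : ∀ i, MeasurableSet {p : SL(2, ℝ) × SL(2, ℝ) | Q i p.1 p.2})
    (hcov : ∀ v w, P v w → ∃ i, Q i v w) : PM D ν P ≤ ∑' i, PM D ν (Q i) := by
  have hm : ∀ i, Measurable (fun v => ν {w | Q i v w}) := fun i =>
    measurable_measure_prodMk_left (hQ i)
  unfold PM
  rw [← lintegral_tsum (fun i => (hm i).aemeasurable)]
  refine lintegral_mono fun v => ?_
  refine le_trans (measure_mono ?_) (measure_iUnion_le _)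
  intro w hw
  obtain ⟨i, hi⟩ := hcov v w hw
  exact mem_iUnion.2 ⟨i, hi⟩

/-- the index set of the covering -/
abbrev Ix (N J : ℕ) : Type := (Finset.Icc (-(N : ℤ)) N) × (Finset.Icc (-(J : ℤ)) J) × ℕ

omit [MeasurableSpace SL(2, ℝ)] [BorelSpace SL(2, ℝ)] in
lemma tsum_Ix (N J : ℕ) (f : ℕ → ℝ≥0∞) : ∑' i : Ix N J, f i.2.2 =
    ((Finset.Icc (-(N : ℤ)) N).card : ℝ≥0∞) *
      (((Finset.Icc (-(J : ℤ)) J).card : ℝ≥0∞) * ∑' m, f m) := by
  have e1 : ∑' i : Ix N J, f i.2.2 =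
      ∑' (_ : (Finset.Icc (-(N : ℤ)) N)), ∑' (_ : (Finset.Icc (-(J : ℤ)) J)), ∑' m, f m := by
    rw [ENNReal.tsum_prod']
    refine tsum_congr fun _ => ?_
    rw [ENNReal.tsum_prod']
  rw [e1, tsum_fintype, Finset.sum_const, Finset.card_univ, Fintype.card_coe,
    tsum_fintype, Finset.sum_const, Finset.card_univ, Fintype.card_coe,
    nsmul_eq_mul, nsmul_eq_mul]

end Cr

open Cr in
/-- MODULE NC_CROSS -/
theorem stmtCross (hS : StmtSum) : StmtCross := by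
  intro _ _ Γ _ D Φ x y τ κ c r L k₀ k₁ ν S W T A η hT hA hη
  have := W.sf
  obtain ⟨c₀, hc₀, l₀, a, ha, hsum⟩ := hS Γ D Φ x y τ κ c r L k₀ k₁ ν S W
  obtain ⟨s, h, b₂, δ₁, N, J, hs, hh, hb₂, hδ₁, hcov⟩ := cover S hc₀ hT hA
  obtain ⟨n₁, hn₁⟩ : ∃ n : ℕ, n = (Finset.Icc (-(N : ℤ)) N).card := ⟨_, rfl⟩
  obtain ⟨n₂, hn₂⟩ : ∃ n : ℕ, n = (Finset.Icc (-(J : ℤ)) J).card := ⟨_, rfl⟩
  obtain ⟨η', hη'⟩ : ∃ e : ℝ, e = η / (n₁ * n₂ * (2 * h) ^ 2 + 1) := ⟨_, rfl⟩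
  have hη'0 : 0 < η' := by rw [hη']; positivity
  -- the tail
  obtain ⟨l₁, hl₁, htail⟩ : ∃ l₁ : ℕ, l₀ ≤ l₁ ∧ (∑' m, a (m + l₁)) ≤ ENNReal.ofReal η' := by
    have h1 := ENNReal.tendsto_sum_nat_add a ha
    have h2 : ∀ᶠ i in atTop, (∑' m, a (m + i)) < ENNReal.ofReal η' :=
      h1.eventually (gt_mem_nhds (ENNReal.ofReal_pos.2 hη'0))
    obtain ⟨l₁, h3, h4⟩ := ((eventually_ge_atTop l₀).and h2).exists
    exact ⟨l₁, h3, h4.le⟩
  refine ⟨min δ₁ (1 / 2 ^ l₁ / b₂), lt_min hδ₁ (by positivity), fun δ hδ hδ' => ?_⟩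
  have hd1 : δ < δ₁ := hδ'.trans_le (min_le_left _ _)
  have hd2 : b₂ * δ < 1 / 2 ^ l₁ := by
    have := hδ'.trans_le (min_le_right _ _)
    rw [lt_div_iff₀ hb₂] at this
    linarith
  -- the covering
  set Q : Ix N J → SL(2, ℝ) → SL(2, ℝ) → Prop := fun i v w =>
    QQ x y τ r (2 * h * δ) c₀ (i.2.2 + l₁) (Φ ((i.1 : ℤ) * s) v)
      (Φ ((i.2.1 : ℤ) * (h * δ) + (i.1 : ℤ) * s) w) with hQdef
  have hQm : ∀ i, MeasurableSet {p : SL(2, ℝ) × SL(2, ℝ) | Q i p.1 p.2} := by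
    intro i
    have h1 : Measurable fun p : SL(2, ℝ) × SL(2, ℝ) =>
        (Φ ((i.1 : ℤ) * s) p.1, Φ ((i.2.1 : ℤ) * (h * δ) + (i.1 : ℤ) * s) p.2) :=
      (((flow_cont S _).comp continuous_fst).prodMk
        ((flow_cont S _).comp continuous_snd)).measurable
    exact h1 (QQ_meas S (2 * h * δ) c₀ (i.2.2 + l₁))
  have hcov' : ∀ v w, (dd v w ≤ r ∧ |τ v w| ≤ A * δ ∧ δ / A ≤ |x v w| + |y v w| ∧
        |x v w| + |y v w| ≤ A * δ ∧ ∃ t : ℝ, |t| ≤ T ∧ x (Φ t v) (Φ t w) = 0) → ∃ i, Q i v w := by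
    rintro v w ⟨h1, h2, h3, h4, h5⟩
    obtain ⟨k, hk, j, hj, l, hl, hq⟩ := hcov δ hδ hd1 v w h1 h2 h3 h4 h5
    have hll : l₁ ≤ l := by
      by_contra hc
      push Not at hc
      have h6 : (1 : ℝ) / 2 ^ l₁ ≤ 1 / 2 ^ l :=
        one_div_le_one_div_of_le (by positivity) (pow_le_pow_right₀ (by norm_num) hc.le)
      linarith
    refine ⟨(⟨k, hk⟩, ⟨j, hj⟩, l - l₁), ?_⟩
    show QQ x y τ r (2 * h * δ) c₀ (l - l₁ + l₁) (Φ (k * s) v) (Φ (j * (h * δ) + k * s) w)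
    rw [Nat.sub_add_cancel hll, S.add]
    exact hq
  refine (PM_cover hQm hcov').trans ?_
  -- each set
  have hone : ∀ i : Ix N J, PM D ν (Q i) ≤ a (i.2.2 + l₁) * ENNReal.ofReal ((2 * h * δ) ^ 2) := by
    intro i
    have e1 : PM D ν (Q i) = PM D ν (QQ x y τ r (2 * h * δ) c₀ (i.2.2 + l₁)) :=
      PM_flow S W (QQ_meas S _ _ _) (QQ_inv S _ _ _) _ _
    rw [e1]
    by_cases hc : 2 * h * δ ≤ c₀ / 2 ^ (i.2.2 + l₁)
    · refine le_trans ?_ (hsum (i.2.2 + l₁) (by omega) (2 * h * δ) (by positivity) hc)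
      unfold PM
      refine lintegral_mono fun v => measure_mono fun w hw => ?_
      exact hw.2
    · have e2 : PM D ν (QQ x y τ r (2 * h * δ) c₀ (i.2.2 + l₁)) = 0 := by
        unfold PM
        have : ∀ v : SL(2, ℝ), {w | QQ x y τ r (2 * h * δ) c₀ (i.2.2 + l₁) v w} = ∅ := by
          intro v
          ext w
          exact ⟨fun hw => (hc hw.1).elim, fun hw => hw.elim⟩
        simp only [this, measure_empty, lintegral_zero]
      rw [e2]
      exact zero_le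
  calc (∑' i, PM D ν (Q i)) ≤ ∑' i : Ix N J, a (i.2.2 + l₁) * ENNReal.ofReal ((2 * h * δ) ^ 2) :=
        ENNReal.tsum_le_tsum hone
    _ = n₁ * (n₂ * (∑' m, a (m + l₁))) * ENNReal.ofReal ((2 * h * δ) ^ 2) := by
        rw [ENNReal.tsum_mul_right, tsum_Ix N J (fun m => a (m + l₁)), ← hn₁, ← hn₂]
    _ ≤ n₁ * (n₂ * ENNReal.ofReal η') * ENNReal.ofReal ((2 * h * δ) ^ 2) := by gcongr
    _ = ENNReal.ofReal (n₁ * (n₂ * η') * (2 * h * δ) ^ 2) := by
        rw [ENNReal.ofReal_mul (by positivity), ENNReal.ofReal_mul (by positivity),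
          ENNReal.ofReal_mul (by positivity), ENNReal.ofReal_natCast, ENNReal.ofReal_natCast]
    _ ≤ ENNReal.ofReal (η * δ ^ 2) := by
        refine ENNReal.ofReal_le_ofReal ?_
        have e1 : (n₁ : ℝ) * (n₂ * η') * (2 * h * δ) ^ 2 =
            (n₁ * n₂ * (2 * h) ^ 2) * η' * δ ^ 2 := by ring
        rw [e1]
        refine mul_le_mul_of_nonneg_right ?_ (sq_nonneg _)
        rw [hη', mul_div_assoc', div_le_iff₀ (by positivity)]
        nlinarith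

end

end NC

end QE
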