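import Pool.Agent.NCV.Stmts

/-!
# Closed surfaces of negative curvature: the parts of `StmtDiag`
-/

open MeasureTheory Filter Topology Set
open UpperHalfPlane hiding I
open scoped ContDiff MatrixGroups ENNReal

namespace QE

namespace NC

noncomputable section

/-- pairs much closer than `δ` in the directions transversal to the flow -/
def Ty (x y τ : SL(2, ℝ) → SL(2, ℝ) → ℝ) (r q δ : ℝ) (v w : SL(2, ℝ)) : Prop :=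
  dd v w ≤ r ∧ |x v w| + |y v w| ≤ q * δ ∧ |τ v w| ≤ 2 * δ

/-- pairs at comparable distance which cross in a bounded time -/
def Cr (Φ : ℝ → SL(2, ℝ) → SL(2, ℝ)) (x y τ : SL(2, ℝ) → SL(2, ℝ) → ℝ) (r A T δ : ℝ)
    (v w : SL(2, ℝ)) : Prop :=
  dd v w ≤ r ∧ |τ v w| ≤ A * δ ∧ δ / A ≤ |x v w| + |y v w| ∧
    |x v w| + |y v w| ≤ A * δ ∧ ∃ t : ℝ, |t| ≤ T ∧ x (Φ t v) (Φ t w) = 0

/-- pairs which are `δ`-close at time `0`, on the side `σ`, and at distance `≥ 4 δ` on the same side at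
the times `j m`, `0 < |j| ≤ K` -/
def Wk (Φ : ℝ → SL(2, ℝ) → SL(2, ℝ)) (x y τ : SL(2, ℝ) → SL(2, ℝ) → ℝ) (r σ A m : ℝ) (K : ℕ)
    (δ : ℝ) (v w : SL(2, ℝ)) : Prop :=
  dd v w ≤ r ∧ 0 ≤ σ * x v w ∧ σ * x v w ≤ δ ∧ |τ v w| ≤ δ ∧ |y v w| ≤ A * δ ∧
    ∀ j : ℤ, j ≠ 0 → |j| ≤ (K : ℤ) → 4 * δ ≤ σ * x (Φ (j * m) v) (Φ (j * m) w)

/-- the mass of the pairs which are much closer than `δ` -/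
def StmtTiny : Prop :=
  ∀ [MeasurableSpace SL(2, ℝ)] [BorelSpace SL(2, ℝ)] (Γ : Subgroup SL(2, ℝ)) [Countable Γ]
    (D : Set ℍ) (Φ : ℝ → SL(2, ℝ) → SL(2, ℝ)) (x y τ : SL(2, ℝ) → SL(2, ℝ) → ℝ)
    (κ : SL(2, ℝ) → ℝ) (c r L k₀ k₁ : ℝ) (ν : Measure SL(2, ℝ)),
    PairSys Γ Φ x y τ κ c r L k₀ k₁ → MassSys Γ D Φ x τ r ν →
    ∃ C : ℝ, 0 ≤ C ∧ ∀ q : ℝ, 0 < q → q ≤ 1 → ∃ δ₀ : ℝ, 0 < δ₀ ∧ ∀ δ : ℝ, 0 < δ → δ < δ₀ →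
      PM D ν (Ty x y τ r q δ) ≤ ENNReal.ofReal (C * q * δ ^ 2)

/-- the mass of the pairs `Wk` -/
def StmtKstep : Prop :=
  ∀ [MeasurableSpace SL(2, ℝ)] [BorelSpace SL(2, ℝ)] (Γ : Subgroup SL(2, ℝ)) [Countable Γ]
    (D : Set ℍ) (Φ : ℝ → SL(2, ℝ) → SL(2, ℝ)) (x y τ : SL(2, ℝ) → SL(2, ℝ) → ℝ)
    (κ : SL(2, ℝ) → ℝ) (c r L k₀ k₁ : ℝ) (ν : Measure SL(2, ℝ)),
    PairSys Γ Φ x y τ κ c r L k₀ k₁ → MassSys Γ D Φ x τ r ν →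
    ∀ σ A m η : ℝ, (σ = 1 ∨ σ = -1) → 1 ≤ A → 0 < m → 0 < η → ∃ K : ℕ, ∃ δ₀ : ℝ, 0 < δ₀ ∧
      ∀ δ : ℝ, 0 < δ → δ < δ₀ → PM D ν (Wk Φ x y τ r σ A m K δ) ≤ ENNReal.ofReal (η * δ ^ 2)

/-- the covering -/
def StmtCover : Prop :=
  ∀ (Γ : Subgroup SL(2, ℝ)) (Φ : ℝ → SL(2, ℝ) → SL(2, ℝ))
    (x y τ : SL(2, ℝ) → SL(2, ℝ) → ℝ) (κ : SL(2, ℝ) → ℝ) (c r L k₀ k₁ : ℝ),
    PairSys Γ Φ x y τ κ c r L k₀ k₁ →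
    ∀ A q : ℝ, 1 ≤ A → 0 < q → q ≤ 1 → ∃ m : ℝ, 0 < m ∧ ∀ K : ℕ, ∃ A' T δ₀ : ℝ, 1 ≤ A' ∧
      0 < T ∧ 0 < δ₀ ∧ ∀ δ : ℝ, 0 < δ → δ < δ₀ → ∀ v w : SL(2, ℝ), dd v w ≤ r →
        |x v w| ≤ δ → |τ v w| ≤ δ → |y v w| ≤ A * δ →
        Ty x y τ r q δ (Φ (m / 2) v) (Φ (m / 2) w) ∨
        Ty x y τ r q δ (Φ (-(m / 2)) v) (Φ (-(m / 2)) w) ∨
        Cr Φ x y τ r A' T δ v w ∨
        Wk Φ x y τ r 1 A m K δ v w ∨ Wk Φ x y τ r (-1) A m K δ v w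

end

end NC

end QE
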