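import Pool.Agent.NCV.Tools
import Pool.Agent.NCV.Stmts2

/-!
# Closed surfaces of negative curvature: the diagonal part (module NCV_DFIN, helper39)
-/

open MeasureTheory Filter Topology Set
open UpperHalfPlane hiding I
open scoped ContDiff MatrixGroups ENNReal

namespace QE

namespace NC

noncomputable section

namespace DfinAux

variable [MeasurableSpace SL(2, ℝ)]

/-- subadditivity of the mass of pairs -/
theorem PM_or_le {D : Set ℍ} {ν : Measure SL(2, ℝ)} [SFinite ν]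
    {P Q : SL(2, ℝ) → SL(2, ℝ) → Prop}
    (hP : MeasurableSet {p : SL(2, ℝ) × SL(2, ℝ) | P p.1 p.2}) :
    PM D ν (fun v w => P v w ∨ Q v w) ≤ PM D ν P + PM D ν Q := by
  unfold PM
  rw [← lintegral_add_left (meas_mass hP)]
  refine lintegral_mono fun v => ?_
  have h : {w | P v w ∨ Q v w} = {w | P v w} ∪ {w | Q v w} := rfl
  show ν {w | P v w ∨ Q v w} ≤ ν {w | P v w} + ν {w | Q v w}
  rw [h]
  exact measure_union_le _ _

end DfinAux

open DfinAux

theorem stmtDiag (hT : StmtTiny) (hK : StmtKstep) (hCo : StmtCover) (hC : StmtCross) :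
    StmtDiag := by
  intro _ _ Γ _ D Φ x y τ κ c r L k₀ k₁ ν S M A η hA hη
  have hsf := M.sf
  obtain ⟨C, hC0, hT'⟩ := hT Γ D Φ x y τ κ c r L k₀ k₁ ν S M
  have hC1 : 0 < C + 1 := by linarith
  set q : ℝ := min 1 (η / (8 * (C + 1))) with hqdef
  have hq0 : 0 < q := lt_min one_pos (by positivity)
  have hq1 : q ≤ 1 := min_le_left _ _
  have hCq : C * q ≤ η / 8 := by
    have h1 : q ≤ η / (8 * (C + 1)) := min_le_right _ _
    calc C * q ≤ (C + 1) * (η / (8 * (C + 1))) := by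
          apply mul_le_mul (by linarith) h1 hq0.le hC1.le
      _ = η / 8 := by field_simp
  obtain ⟨δ1, hδ1, hT1⟩ := hT' q hq0 hq1
  obtain ⟨m, hm, hcov⟩ := hCo Γ Φ x y τ κ c r L k₀ k₁ S A q hA hq0 hq1
  obtain ⟨K1, δ2, hδ2, hK1⟩ := hK Γ D Φ x y τ κ c r L k₀ k₁ ν S M 1 A m (η / 8) (Or.inl rfl) hA hm
    (by positivity)
  obtain ⟨K2, δ3, hδ3, hK2⟩ := hK Γ D Φ x y τ κ c r L k₀ k₁ ν S M (-1) A m (η / 8) (Or.inr rfl)
    hA hm (by positivity)
  set K := max K1 K2 with hKdef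
  obtain ⟨A', T, δ4, hA', hT0, hδ4, hcov'⟩ := hcov K
  obtain ⟨δ5, hδ5, hC5⟩ := hC Γ D Φ x y τ κ c r L k₀ k₁ ν S M T A' (η / 8) hT0 hA' (by positivity)
  refine ⟨min (min δ1 δ2) (min δ3 (min δ4 δ5)), by positivity, ?_⟩
  intro δ hδ hlt
  have l1 : δ < δ1 := lt_of_lt_of_le hlt ((min_le_left _ _).trans (min_le_left _ _))
  have l2 : δ < δ2 := lt_of_lt_of_le hlt ((min_le_left _ _).trans (min_le_right _ _))
  have l3 : δ < δ3 := lt_of_lt_of_le hlt ((min_le_right _ _).trans (min_le_left _ _))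
  have l4 : δ < δ4 := lt_of_lt_of_le hlt
    ((min_le_right _ _).trans ((min_le_right _ _).trans (min_le_left _ _)))
  have l5 : δ < δ5 := lt_of_lt_of_le hlt
    ((min_le_right _ _).trans ((min_le_right _ _).trans (min_le_right _ _)))
  -- measurability
  have hTm : MeasurableSet {p : SL(2, ℝ) × SL(2, ℝ) | Ty x y τ r q δ p.1 p.2} := by
    refine (measSet_dd_le r).inter (MeasurableSet.inter ?_ (measSet_abs_le S.tc (2 * δ)))
    exact measurableSet_le ((meas_pair S.xc).abs.add (meas_pair S.yc).abs) measurable_const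
  have hTi : ∀ γ ∈ Γ, ∀ v w, Ty x y τ r q δ (γ * v) (γ * w) ↔ Ty x y τ r q δ v w := by
    intro γ hγ v w
    simp only [Ty, dd_left, S.xi γ hγ, S.yi γ hγ, S.ti γ hγ]
  have hflow : ∀ s : ℝ, Measurable fun p : SL(2, ℝ) × SL(2, ℝ) => (Φ s p.1, Φ s p.2) := fun s =>
    ((S.cont_flow s).measurable.comp measurable_fst).prodMk
      ((S.cont_flow s).measurable.comp measurable_snd)
  have hTm' : ∀ s : ℝ, MeasurableSet {p : SL(2, ℝ) × SL(2, ℝ) |
      Ty x y τ r q δ (Φ s p.1) (Φ s p.2)} := fun s => hflow s hTm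
  have hWm : ∀ σ : ℝ, MeasurableSet {p : SL(2, ℝ) × SL(2, ℝ) |
      Wk Φ x y τ r σ A m K δ p.1 p.2} := by
    intro σ
    have mx := meas_pair S.xc
    refine (measSet_dd_le r).inter (MeasurableSet.inter ?_ (MeasurableSet.inter ?_
      ((measSet_abs_le S.tc δ).inter ((measSet_abs_le S.yc (A * δ)).inter ?_))))
    · exact measurableSet_le measurable_const (mx.const_mul σ)
    · exact measurableSet_le (mx.const_mul σ) measurable_const
    · have h : {p : SL(2, ℝ) × SL(2, ℝ) | ∀ j : ℤ, j ≠ 0 → |j| ≤ (K : ℤ) →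
          4 * δ ≤ σ * x (Φ (j * m) p.1) (Φ (j * m) p.2)} =
          ⋂ j : ℤ, ⋂ _ : j ≠ 0, ⋂ _ : |j| ≤ (K : ℤ), {p : SL(2, ℝ) × SL(2, ℝ) |
            4 * δ ≤ σ * x (Φ (j * m) p.1) (Φ (j * m) p.2)} := by
        ext p
        simp only [Set.mem_iInter, Set.mem_ofPred_eq]
      show MeasurableSet {p : SL(2, ℝ) × SL(2, ℝ) | ∀ j : ℤ, j ≠ 0 → |j| ≤ (K : ℤ) →
          4 * δ ≤ σ * x (Φ (j * m) p.1) (Φ (j * m) p.2)}
      rw [h]
      refine MeasurableSet.iInter fun j => MeasurableSet.iInter fun _ =>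
        MeasurableSet.iInter fun _ => ?_
      exact measurableSet_le measurable_const ((mx.comp (hflow (j * m))).const_mul σ)
  -- the bounds
  have b1 : ∀ s : ℝ, PM D ν (fun v w => Ty x y τ r q δ (Φ s v) (Φ s w)) ≤
      ENNReal.ofReal (η / 8 * δ ^ 2) := by
    intro s
    rw [PM_flow_set S M hTm hTi s s]
    refine (hT1 δ hδ l1).trans (ENNReal.ofReal_le_ofReal ?_)
    exact mul_le_mul_of_nonneg_right hCq (sq_nonneg _)
  have b2 : PM D ν (Wk Φ x y τ r 1 A m K δ) ≤ ENNReal.ofReal (η / 8 * δ ^ 2) := by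
    refine le_trans (PM_mono ?_) (hK1 δ hδ l2)
    rintro v w ⟨h1, h2, h3, h4, h5, h6⟩
    refine ⟨h1, h2, h3, h4, h5, fun j hj hjK => h6 j hj (hjK.trans ?_)⟩
    exact_mod_cast le_max_left K1 K2
  have b3 : PM D ν (Wk Φ x y τ r (-1) A m K δ) ≤ ENNReal.ofReal (η / 8 * δ ^ 2) := by
    refine le_trans (PM_mono ?_) (hK2 δ hδ l3)
    rintro v w ⟨h1, h2, h3, h4, h5, h6⟩
    refine ⟨h1, h2, h3, h4, h5, fun j hj hjK => h6 j hj (hjK.trans ?_)⟩
    exact_mod_cast le_max_right K1 K2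
  have b4 : PM D ν (Cr Φ x y τ r A' T δ) ≤ ENNReal.ofReal (η / 8 * δ ^ 2) := hC5 δ hδ l5
  calc PM D ν (fun v w => dd v w ≤ r ∧ |x v w| ≤ δ ∧ |τ v w| ≤ δ ∧ |y v w| ≤ A * δ)
      ≤ PM D ν (fun v w => Ty x y τ r q δ (Φ (m / 2) v) (Φ (m / 2) w) ∨
        (Ty x y τ r q δ (Φ (-(m / 2)) v) (Φ (-(m / 2)) w) ∨
        (Wk Φ x y τ r 1 A m K δ v w ∨ (Wk Φ x y τ r (-1) A m K δ v w ∨
        Cr Φ x y τ r A' T δ v w)))) := by
        refine PM_mono ?_
        rintro v w ⟨h1, h2, h3, h4⟩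
        rcases hcov' δ hδ l4 v w h1 h2 h3 h4 with h | h | h | h | h
        · exact Or.inl h
        · exact Or.inr (Or.inl h)
        · exact Or.inr (Or.inr (Or.inr (Or.inr h)))
        · exact Or.inr (Or.inr (Or.inl h))
        · exact Or.inr (Or.inr (Or.inr (Or.inl h)))
    _ ≤ ENNReal.ofReal (η / 8 * δ ^ 2) + (ENNReal.ofReal (η / 8 * δ ^ 2) +
        (ENNReal.ofReal (η / 8 * δ ^ 2) + (ENNReal.ofReal (η / 8 * δ ^ 2) +
        ENNReal.ofReal (η / 8 * δ ^ 2)))) := by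
        refine (PM_or_le (hTm' (m / 2))).trans (add_le_add (b1 _) ?_)
        refine (PM_or_le (hTm' (-(m / 2)))).trans (add_le_add (b1 _) ?_)
        refine (PM_or_le (hWm 1)).trans (add_le_add b2 ?_)
        exact (PM_or_le (hWm (-1))).trans (add_le_add b3 b4)
    _ ≤ ENNReal.ofReal (η * δ ^ 2) := by
        have h0 : 0 ≤ η / 8 * δ ^ 2 := by positivity
        rw [← ENNReal.ofReal_add h0 h0, ← ENNReal.ofReal_add h0 (by positivity),
          ← ENNReal.ofReal_add h0 (by positivity), ← ENNReal.ofReal_add h0 (by positivity)]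
        apply ENNReal.ofReal_le_ofReal
        nlinarith [sq_nonneg δ, mul_pos hη (pow_pos hδ 2)]

end

end NC

end QE
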