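import Pool.Agent.NCV.Stmts

/-!
# Closed surfaces of negative curvature: the flow and the distance (helper75)
-/

open MeasureTheory Filter Topology Set
open UpperHalfPlane hiding I
open scoped ContDiff MatrixGroups ENNReal

namespace QE

namespace NC

noncomputable section

namespace Fl

/-! ### scalar estimates -/

/-- global Gronwall estimate for a scalar function -/
theorem gron {N N' : ℝ → ℝ} {K : ℝ} (hd : ∀ t, HasDerivAt N (N' t) t)
    (hb : ∀ t, |N' t| ≤ K * N t) (t : ℝ) : N t ≤ Real.exp (K * |t|) * N 0 := by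
  rcases le_total 0 t with ht | ht
  · have h1 : ∀ s, HasDerivAt (fun s => N s * Real.exp (-(K * s)))
        ((N' s - K * N s) * Real.exp (-(K * s))) s := by
      intro s
      have e0 : HasDerivAt (fun s : ℝ => K * s) (K * 1) s := (hasDerivAt_id s).const_mul K
      have e1 : HasDerivAt (fun s : ℝ => -(K * s)) (-(K * 1)) s := e0.neg
      have e2 := (hd s).mul e1.exp
      exact e2.congr_deriv (by ring)
    have h2 : Antitone (fun s => N s * Real.exp (-(K * s))) := by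
      apply antitone_of_deriv_nonpos (fun s => (h1 s).differentiableAt)
      intro s
      rw [(h1 s).deriv]
      have := (abs_le.1 (hb s)).2
      exact mul_nonpos_of_nonpos_of_nonneg (by linarith) (Real.exp_pos _).le
    have h3 := h2 ht
    simp only [mul_zero, neg_zero, Real.exp_zero, mul_one] at h3
    rw [abs_of_nonneg ht]
    have h4 : N t = Real.exp (K * t) * (N t * Real.exp (-(K * t))) := by
      rw [mul_comm (N t), ← mul_assoc, ← Real.exp_add]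
      simp
    rw [h4]
    exact mul_le_mul_of_nonneg_left h3 (Real.exp_pos _).le
  · have h1 : ∀ s, HasDerivAt (fun s => N s * Real.exp (K * s))
        ((N' s + K * N s) * Real.exp (K * s)) s := by
      intro s
      have e0 : HasDerivAt (fun s : ℝ => K * s) (K * 1) s := (hasDerivAt_id s).const_mul K
      have e2 := (hd s).mul e0.exp
      exact e2.congr_deriv (by ring)
    have h2 : Monotone (fun s => N s * Real.exp (K * s)) := by
      apply monotone_of_deriv_nonneg (fun s => (h1 s).differentiableAt)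
      intro s
      rw [(h1 s).deriv]
      have := (abs_le.1 (hb s)).1
      exact mul_nonneg (by linarith) (Real.exp_pos _).le
    have h3 := h2 ht
    simp only [mul_zero, Real.exp_zero, mul_one] at h3
    rw [abs_of_nonpos ht]
    have h4 : N t = Real.exp (K * -t) * (N t * Real.exp (K * t)) := by
      rw [mul_comm (N t), ← mul_assoc, ← Real.exp_add]
      simp
    rw [h4]
    exact mul_le_mul_of_nonneg_left h3 (Real.exp_pos _).le

theorem abs_mul_le {x y X Y : ℝ} (hx : |x| ≤ X) (hy : |y| ≤ Y) : |x * y| ≤ X * Y := by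
  rw [abs_mul]
  exact mul_le_mul hx hy (abs_nonneg _) (le_trans (abs_nonneg _) hx)

/-- the sum of the absolute values of four numbers -/
def S4 (a b c d : ℝ) : ℝ := |a| + |b| + |c| + |d|

theorem S4_nonneg (a b c d : ℝ) : 0 ≤ S4 a b c d := by
  unfold S4; positivity

theorem S4_sq (a b c d : ℝ) : S4 a b c d ^ 2 ≤ 4 * (a ^ 2 + b ^ 2 + c ^ 2 + d ^ 2) := by
  unfold S4
  have h1 := sq_abs a
  have h2 := sq_abs b
  have h3 := sq_abs c
  have h4 := sq_abs d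
  nlinarith [sq_nonneg (|a| - |b|), sq_nonneg (|a| - |c|), sq_nonneg (|a| - |d|),
    sq_nonneg (|b| - |c|), sq_nonneg (|b| - |d|), sq_nonneg (|c| - |d|)]

theorem sq_le_S4 (a b c d : ℝ) : a ^ 2 + b ^ 2 + c ^ 2 + d ^ 2 ≤ S4 a b c d ^ 2 := by
  unfold S4
  have h1 := sq_abs a
  have h2 := sq_abs b
  have h3 := sq_abs c
  have h4 := sq_abs d
  nlinarith [mul_nonneg (abs_nonneg a) (abs_nonneg b), mul_nonneg (abs_nonneg a) (abs_nonneg c),
    mul_nonneg (abs_nonneg a) (abs_nonneg d), mul_nonneg (abs_nonneg b) (abs_nonneg c),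
    mul_nonneg (abs_nonneg b) (abs_nonneg d), mul_nonneg (abs_nonneg c) (abs_nonneg d)]

/-- the derivative of the sum of squares -/
theorem sq_deriv {a b c d a' b' c' d' : ℝ → ℝ} (t : ℝ) (ha : HasDerivAt a (a' t) t)
    (hb : HasDerivAt b (b' t) t) (hc : HasDerivAt c (c' t) t) (hd : HasDerivAt d (d' t) t) :
    HasDerivAt (fun s => a s ^ 2 + b s ^ 2 + c s ^ 2 + d s ^ 2)
      (2 * (a t * a' t + b t * b' t + c t * c' t + d t * d' t)) t := by
  have := (((ha.pow 2).add (hb.pow 2)).add (hc.pow 2)).add (hd.pow 2)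
  exact this.congr_deriv (by push_cast; ring)

/-- if the derivatives are bounded by `C` times the sum of the absolute values, the square sum
satisfies the hypothesis of `gron` -/
theorem sq_bound {a b c d a' b' c' d' C : ℝ} (hC : 0 ≤ C) (ha : |a'| ≤ C * S4 a b c d)
    (hb : |b'| ≤ C * S4 a b c d) (hc : |c'| ≤ C * S4 a b c d) (hd : |d'| ≤ C * S4 a b c d) :
    |2 * (a * a' + b * b' + c * c' + d * d')| ≤ (8 * C) * (a ^ 2 + b ^ 2 + c ^ 2 + d ^ 2) := by
  have h0 := S4_nonneg a b c d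
  have h1 := abs_mul_le (le_refl |a|) ha
  have h2 := abs_mul_le (le_refl |b|) hb
  have h3 := abs_mul_le (le_refl |c|) hc
  have h4 := abs_mul_le (le_refl |d|) hd
  have h5 : |a * a' + b * b' + c * c' + d * d'| ≤ C * S4 a b c d ^ 2 := by
    calc |a * a' + b * b' + c * c' + d * d'|
        ≤ |a * a'| + |b * b'| + |c * c'| + |d * d'| := by
          refine (abs_add_le _ _).trans ?_
          gcongr
          refine (abs_add_le _ _).trans ?_
          gcongr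
          exact abs_add_le _ _
      _ ≤ |a| * (C * S4 a b c d) + |b| * (C * S4 a b c d) + |c| * (C * S4 a b c d) +
          |d| * (C * S4 a b c d) := by linarith
      _ = C * S4 a b c d ^ 2 := by unfold S4; ring
  have h6 := S4_sq a b c d
  rw [abs_mul, abs_of_pos (by norm_num : (0 : ℝ) < 2)]
  nlinarith [mul_le_mul_of_nonneg_left h6 hC]

theorem le_of_sq_le_sq_real {x y : ℝ} (h : x ^ 2 ≤ y ^ 2) (hy : 0 ≤ y) : x ≤ y :=
  le_of_not_gt fun h' => by nlinarith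

/-- the final form: four functions whose derivatives are bounded by `C` times their sum -/
theorem four {a b c d a' b' c' d' : ℝ → ℝ} {C : ℝ} (hC : 0 ≤ C)
    (ha : ∀ t, HasDerivAt a (a' t) t) (hb : ∀ t, HasDerivAt b (b' t) t)
    (hc : ∀ t, HasDerivAt c (c' t) t) (hd : ∀ t, HasDerivAt d (d' t) t)
    (ba : ∀ t, |a' t| ≤ C * S4 (a t) (b t) (c t) (d t))
    (bb : ∀ t, |b' t| ≤ C * S4 (a t) (b t) (c t) (d t))
    (bc : ∀ t, |c' t| ≤ C * S4 (a t) (b t) (c t) (d t))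
    (bd : ∀ t, |d' t| ≤ C * S4 (a t) (b t) (c t) (d t)) (t : ℝ) :
    S4 (a t) (b t) (c t) (d t) ≤ 2 * Real.exp (4 * C * |t|) * S4 (a 0) (b 0) (c 0) (d 0) := by
  have h1 := gron (K := 8 * C) (fun t => sq_deriv t (ha t) (hb t) (hc t) (hd t))
    (fun t => sq_bound hC (ba t) (bb t) (bc t) (bd t)) t
  have h2 := S4_sq (a t) (b t) (c t) (d t)
  have h3 := sq_le_S4 (a 0) (b 0) (c 0) (d 0)
  have h4 : Real.exp (8 * C * |t|) = Real.exp (4 * C * |t|) ^ 2 := by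
    rw [← Real.exp_nat_mul]; congr 1; push_cast; ring
  rw [h4] at h1
  have h5 : S4 (a t) (b t) (c t) (d t) ^ 2 ≤
      (2 * Real.exp (4 * C * |t|) * S4 (a 0) (b 0) (c 0) (d 0)) ^ 2 := by
    have := mul_le_mul_of_nonneg_left h3 (sq_nonneg (Real.exp (4 * C * |t|)))
    nlinarith
  exact le_of_sq_le_sq_real h5 (by
    have := S4_nonneg (a 0) (b 0) (c 0) (d 0)
    positivity)

/-! ### the entries -/

theorem ent00 (v w : SL(2, ℝ)) : (v⁻¹ * w) 0 0 = v 1 1 * w 0 0 - v 0 1 * w 1 0 := by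
  simp [Matrix.SpecialLinearGroup.coe_mul, Matrix.SpecialLinearGroup.coe_inv,
    Matrix.adjugate_fin_two, Matrix.mul_apply, Fin.sum_univ_two]
  ring

theorem ent01 (v w : SL(2, ℝ)) : (v⁻¹ * w) 0 1 = v 1 1 * w 0 1 - v 0 1 * w 1 1 := by
  simp [Matrix.SpecialLinearGroup.coe_mul, Matrix.SpecialLinearGroup.coe_inv,
    Matrix.adjugate_fin_two, Matrix.mul_apply, Fin.sum_univ_two]
  ring

theorem ent10 (v w : SL(2, ℝ)) : (v⁻¹ * w) 1 0 = -(v 1 0 * w 0 0) + v 0 0 * w 1 0 := by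
  simp [Matrix.SpecialLinearGroup.coe_mul, Matrix.SpecialLinearGroup.coe_inv,
    Matrix.adjugate_fin_two, Matrix.mul_apply, Fin.sum_univ_two]

theorem ent11 (v w : SL(2, ℝ)) : (v⁻¹ * w) 1 1 = -(v 1 0 * w 0 1) + v 0 0 * w 1 1 := by
  simp [Matrix.SpecialLinearGroup.coe_mul, Matrix.SpecialLinearGroup.coe_inv,
    Matrix.adjugate_fin_two, Matrix.mul_apply, Fin.sum_univ_two]

theorem dd_eq (v w : SL(2, ℝ)) : dd v w = S4 (v 1 1 * w 0 0 - v 0 1 * w 1 0 - 1)
    (v 1 1 * w 0 1 - v 0 1 * w 1 1) (-(v 1 0 * w 0 0) + v 0 0 * w 1 0)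
    (-(v 1 0 * w 0 1) + v 0 0 * w 1 1 - 1) := by
  unfold dd nn S4
  rw [ent00, ent01, ent10, ent11]

/-- the diagonal coefficient of `AA` -/
def ca (ρ : ℍ → ℝ) (g : SL(2, ℝ)) : ℝ := Real.exp (-ρ (g • UpperHalfPlane.I)) / 2

/-- the off-diagonal coefficient of `AA` -/
def cb (ρ : ℍ → ℝ) (g : SL(2, ℝ)) : ℝ := Real.exp (-ρ (g • UpperHalfPlane.I)) * Pr ρ g / 2

section

variable {ρ : ℍ → ℝ} {Φ : ℝ → SL(2, ℝ) → SL(2, ℝ)}

theorem der00 (hΦ : GFlow ρ Φ) (g : SL(2, ℝ)) (t : ℝ) : HasDerivAt (fun s => Φ s g 0 0)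
    (Φ t g 0 0 * ca ρ (Φ t g) + Φ t g 0 1 * cb ρ (Φ t g)) t := by
  have h := hΦ.deriv g t 0 0
  refine h.congr_deriv ?_
  simp [AA, ca, cb, Matrix.mul_apply, Fin.sum_univ_two]
  ring

theorem der01 (hΦ : GFlow ρ Φ) (g : SL(2, ℝ)) (t : ℝ) : HasDerivAt (fun s => Φ s g 0 1)
    (-(Φ t g 0 0 * cb ρ (Φ t g)) - Φ t g 0 1 * ca ρ (Φ t g)) t := by
  have h := hΦ.deriv g t 0 1
  refine h.congr_deriv ?_
  simp [AA, ca, cb, Matrix.mul_apply, Fin.sum_univ_two]
  ring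

theorem der10 (hΦ : GFlow ρ Φ) (g : SL(2, ℝ)) (t : ℝ) : HasDerivAt (fun s => Φ s g 1 0)
    (Φ t g 1 0 * ca ρ (Φ t g) + Φ t g 1 1 * cb ρ (Φ t g)) t := by
  have h := hΦ.deriv g t 1 0
  refine h.congr_deriv ?_
  simp [AA, ca, cb, Matrix.mul_apply, Fin.sum_univ_two]
  ring

theorem der11 (hΦ : GFlow ρ Φ) (g : SL(2, ℝ)) (t : ℝ) : HasDerivAt (fun s => Φ s g 1 1)
    (-(Φ t g 1 0 * cb ρ (Φ t g)) - Φ t g 1 1 * ca ρ (Φ t g)) t := by
  have h := hΦ.deriv g t 1 1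
  refine h.congr_deriv ?_
  simp [AA, ca, cb, Matrix.mul_apply, Fin.sum_univ_two]
  ring

end

theorem exp_lip {x y B : ℝ} (hx : x ≤ B) (hy : y ≤ B) :
    |Real.exp x - Real.exp y| ≤ Real.exp B * |x - y| := by
  wlog h : x ≤ y generalizing x y with H
  · have := H hy hx (le_of_not_ge h)
    rw [abs_sub_comm, abs_sub_comm x y]
    exact this
  have h1 : Real.exp x = Real.exp y * Real.exp (x - y) := by
    rw [← Real.exp_add]; congr 1; ring
  have h2 := Real.add_one_le_exp (x - y)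
  have h3 : Real.exp x ≤ Real.exp y := Real.exp_le_exp.2 h
  have h4 : Real.exp y ≤ Real.exp B := Real.exp_le_exp.2 hy
  rw [abs_sub_comm, abs_of_nonneg (by linarith), abs_sub_comm, abs_of_nonneg (by linarith)]
  have h5 : Real.exp y - Real.exp x = Real.exp y * (1 - Real.exp (x - y)) := by rw [h1]; ring
  rw [h5]
  have h6 : 1 - Real.exp (x - y) ≤ y - x := by linarith
  have h7 := Real.exp_pos y
  calc Real.exp y * (1 - Real.exp (x - y)) ≤ Real.exp y * (y - x) :=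
        mul_le_mul_of_nonneg_left h6 h7.le
    _ ≤ Real.exp B * (y - x) := mul_le_mul_of_nonneg_right h4 (by linarith)

/-- linear combinations -/
theorem lin5 {M C D a b c d x₁ x₂ x₃ x₄ y : ℝ} (ha : |a| ≤ M) (hb : |b| ≤ M)
    (hc : |c| ≤ M) (hd : |d| ≤ M) (h1 : |x₁| ≤ D) (h2 : |x₂| ≤ D) (h3 : |x₃| ≤ D)
    (h4 : |x₄| ≤ D) (hy : |y| ≤ C * D) :
    |x₁ * a + x₂ * b + x₃ * c + x₄ * d + y| ≤ (4 * M + C) * D := by
  have e1 := abs_mul_le h1 ha
  have e2 := abs_mul_le h2 hb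
  have e3 := abs_mul_le h3 hc
  have e4 := abs_mul_le h4 hd
  calc |x₁ * a + x₂ * b + x₃ * c + x₄ * d + y|
      ≤ |x₁ * a| + |x₂ * b| + |x₃ * c| + |x₄ * d| + |y| := by
        refine (abs_add_le _ _).trans ?_
        gcongr
        refine (abs_add_le _ _).trans ?_
        gcongr
        refine (abs_add_le _ _).trans ?_
        gcongr
        exact abs_add_le _ _
    _ ≤ D * M + D * M + D * M + D * M + C * D := by linarith
    _ = (4 * M + C) * D := by ring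

theorem le_S4_1 (a b c d : ℝ) : |a| ≤ S4 a b c d := by
  unfold S4; linarith [abs_nonneg a, abs_nonneg b, abs_nonneg c, abs_nonneg d]

theorem le_S4_2 (a b c d : ℝ) : |b| ≤ S4 a b c d := by
  unfold S4; linarith [abs_nonneg a, abs_nonneg b, abs_nonneg c, abs_nonneg d]

theorem le_S4_3 (a b c d : ℝ) : |c| ≤ S4 a b c d := by
  unfold S4; linarith [abs_nonneg a, abs_nonneg b, abs_nonneg c, abs_nonneg d]

theorem le_S4_4 (a b c d : ℝ) : |d| ≤ S4 a b c d := by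
  unfold S4; linarith [abs_nonneg a, abs_nonneg b, abs_nonneg c, abs_nonneg d]

section

variable {ρ : ℍ → ℝ} {Φ : ℝ → SL(2, ℝ) → SL(2, ℝ)}

/-- growth of the distance along the flow -/
theorem dflow (hΦ : GFlow ρ Φ) {M C : ℝ} (hM : 0 ≤ M) (hC : 0 ≤ C)
    (ha : ∀ g, |ca ρ g| ≤ M) (hb : ∀ g, |cb ρ g| ≤ M)
    (hda : ∀ v w, |ca ρ w - ca ρ v| ≤ C * dd v w) (hdb : ∀ v w, |cb ρ w - cb ρ v| ≤ C * dd v w)
    (v w : SL(2, ℝ)) (t : ℝ) :
    dd (Φ t v) (Φ t w) ≤ 2 * Real.exp (4 * (4 * M + C) * |t|) * dd v w := by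
  have hK : 0 ≤ 4 * M + C := by linarith
  have key := four (C := 4 * M + C)
    (a := fun s => Φ s v 1 1 * Φ s w 0 0 - Φ s v 0 1 * Φ s w 1 0 - 1)
    (b := fun s => Φ s v 1 1 * Φ s w 0 1 - Φ s v 0 1 * Φ s w 1 1)
    (c := fun s => -(Φ s v 1 0 * Φ s w 0 0) + Φ s v 0 0 * Φ s w 1 0)
    (d := fun s => -(Φ s v 1 0 * Φ s w 0 1) + Φ s v 0 0 * Φ s w 1 1 - 1)
    (a' := fun s => (Φ s v 1 1 * Φ s w 0 0 - Φ s v 0 1 * Φ s w 1 0 - 1) * ca ρ (Φ s w) +
      (Φ s v 1 1 * Φ s w 0 1 - Φ s v 0 1 * Φ s w 1 1) * cb ρ (Φ s w) +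
      (Φ s v 1 1 * Φ s w 0 0 - Φ s v 0 1 * Φ s w 1 0 - 1) * (-ca ρ (Φ s v)) +
      (-(Φ s v 1 0 * Φ s w 0 0) + Φ s v 0 0 * Φ s w 1 0) * cb ρ (Φ s v) +
      (ca ρ (Φ s w) - ca ρ (Φ s v)))
    (b' := fun s => (Φ s v 1 1 * Φ s w 0 0 - Φ s v 0 1 * Φ s w 1 0 - 1) * (-cb ρ (Φ s w)) +
      (Φ s v 1 1 * Φ s w 0 1 - Φ s v 0 1 * Φ s w 1 1) * (-ca ρ (Φ s w)) +
      (Φ s v 1 1 * Φ s w 0 1 - Φ s v 0 1 * Φ s w 1 1) * (-ca ρ (Φ s v)) +
      (-(Φ s v 1 0 * Φ s w 0 1) + Φ s v 0 0 * Φ s w 1 1 - 1) * cb ρ (Φ s v) +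
      -(cb ρ (Φ s w) - cb ρ (Φ s v)))
    (c' := fun s => (-(Φ s v 1 0 * Φ s w 0 0) + Φ s v 0 0 * Φ s w 1 0) * ca ρ (Φ s w) +
      (-(Φ s v 1 0 * Φ s w 0 1) + Φ s v 0 0 * Φ s w 1 1 - 1) * cb ρ (Φ s w) +
      (Φ s v 1 1 * Φ s w 0 0 - Φ s v 0 1 * Φ s w 1 0 - 1) * (-cb ρ (Φ s v)) +
      (-(Φ s v 1 0 * Φ s w 0 0) + Φ s v 0 0 * Φ s w 1 0) * ca ρ (Φ s v) +
      (cb ρ (Φ s w) - cb ρ (Φ s v)))
    (d' := fun s => (-(Φ s v 1 0 * Φ s w 0 0) + Φ s v 0 0 * Φ s w 1 0) * (-cb ρ (Φ s w)) +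
      (-(Φ s v 1 0 * Φ s w 0 1) + Φ s v 0 0 * Φ s w 1 1 - 1) * (-ca ρ (Φ s w)) +
      (Φ s v 1 1 * Φ s w 0 1 - Φ s v 0 1 * Φ s w 1 1) * (-cb ρ (Φ s v)) +
      (-(Φ s v 1 0 * Φ s w 0 1) + Φ s v 0 0 * Φ s w 1 1 - 1) * ca ρ (Φ s v) +
      -(ca ρ (Φ s w) - ca ρ (Φ s v)))
    hK
    (fun s => ((((der11 hΦ v s).mul (der00 hΦ w s)).sub
      ((der01 hΦ v s).mul (der10 hΦ w s))).sub_const 1).congr_deriv (by ring))
    (fun s => ((((der11 hΦ v s).mul (der01 hΦ w s)).sub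
      ((der01 hΦ v s).mul (der11 hΦ w s)))).congr_deriv (by ring))
    (fun s => ((((der10 hΦ v s).mul (der00 hΦ w s)).neg.add
      ((der00 hΦ v s).mul (der10 hΦ w s)))).congr_deriv (by ring))
    (fun s => ((((der10 hΦ v s).mul (der01 hΦ w s)).neg.add
      ((der00 hΦ v s).mul (der11 hΦ w s))).sub_const 1).congr_deriv (by ring))
    (fun s => lin5 (ha _) (hb _) (by rw [abs_neg]; exact ha _) (hb _) (le_S4_1 _ _ _ _)
      (le_S4_2 _ _ _ _) (le_S4_1 _ _ _ _) (le_S4_3 _ _ _ _)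
      (by rw [← dd_eq]; exact hda _ _))
    (fun s => lin5 (by rw [abs_neg]; exact hb _) (by rw [abs_neg]; exact ha _)
      (by rw [abs_neg]; exact ha _) (hb _) (le_S4_1 _ _ _ _)
      (le_S4_2 _ _ _ _) (le_S4_2 _ _ _ _) (le_S4_4 _ _ _ _)
      (by rw [← dd_eq, abs_neg]; exact hdb _ _))
    (fun s => lin5 (ha _) (hb _) (by rw [abs_neg]; exact hb _) (ha _) (le_S4_3 _ _ _ _)
      (le_S4_4 _ _ _ _) (le_S4_1 _ _ _ _) (le_S4_3 _ _ _ _)
      (by rw [← dd_eq]; exact hdb _ _))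
    (fun s => lin5 (by rw [abs_neg]; exact hb _) (by rw [abs_neg]; exact ha _)
      (by rw [abs_neg]; exact hb _) (ha _) (le_S4_3 _ _ _ _)
      (le_S4_4 _ _ _ _) (le_S4_2 _ _ _ _) (le_S4_4 _ _ _ _)
      (by rw [← dd_eq, abs_neg]; exact hda _ _)) t
  rw [dd_eq, dd_eq v w]
  simpa only [hΦ.zero] using key

theorem mvt {f f' : ℝ → ℝ} {C : ℝ} (hf : ∀ s, HasDerivAt f (f' s) s)
    (hb : ∀ s, |s| ≤ 1 → |f' s| ≤ C) {t : ℝ} (ht : |t| ≤ 1) : |f t - f 0| ≤ C * |t| := by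
  have h := Convex.norm_image_sub_le_of_norm_hasDerivWithin_le (f := f) (f' := f') (C := C)
    (s := Icc (-1 : ℝ) 1) (x := 0) (y := t) (fun x _ => (hf x).hasDerivWithinAt)
    (fun x hx => by
      rw [Real.norm_eq_abs]
      exact hb x (abs_le.2 hx)) (convex_Icc _ _) (by norm_num) (abs_le.1 ht)
  simpa using h

theorem lin2 {M D a b x₁ x₂ : ℝ} (hM : 0 ≤ M) (ha : |a| ≤ M) (hb : |b| ≤ M)
    (h : |x₁| + |x₂| ≤ D) : |x₁ * a + x₂ * b| ≤ M * D := by
  have e1 := abs_mul_le (le_refl |x₁|) ha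
  have e2 := abs_mul_le (le_refl |x₂|) hb
  calc |x₁ * a + x₂ * b| ≤ |x₁ * a| + |x₂ * b| := abs_add_le _ _
    _ ≤ |x₁| * M + |x₂| * M := by linarith
    _ = M * (|x₁| + |x₂|) := by ring
    _ ≤ M * D := mul_le_mul_of_nonneg_left h hM

/-- the distance of a point to its image under the flow -/
theorem dmove (hΦ : GFlow ρ Φ) {M : ℝ} (hM : 0 ≤ M)
    (ha : ∀ g, |ca ρ g| ≤ M) (hb : ∀ g, |cb ρ g| ≤ M) (v : SL(2, ℝ)) (t : ℝ) (ht : |t| ≤ 1) :
    dd v (Φ t v) ≤ 4 * (M * (4 * Real.exp (4 * M))) * |t| := by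
  set p : ℝ → ℝ := fun s => v 1 1 * Φ s v 0 0 - v 0 1 * Φ s v 1 0 with hp
  set q : ℝ → ℝ := fun s => v 1 1 * Φ s v 0 1 - v 0 1 * Φ s v 1 1 with hq
  set r : ℝ → ℝ := fun s => -(v 1 0 * Φ s v 0 0) + v 0 0 * Φ s v 1 0 with hr
  set u : ℝ → ℝ := fun s => -(v 1 0 * Φ s v 0 1) + v 0 0 * Φ s v 1 1 with hu
  have dp : ∀ s, HasDerivAt p (p s * ca ρ (Φ s v) + q s * cb ρ (Φ s v)) s := fun s =>
    (((der00 hΦ v s).const_mul _).sub ((der10 hΦ v s).const_mul _)).congr_deriv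
      (by simp only [hp, hq]; ring)
  have dq : ∀ s, HasDerivAt q (p s * (-cb ρ (Φ s v)) + q s * (-ca ρ (Φ s v))) s := fun s =>
    (((der01 hΦ v s).const_mul _).sub ((der11 hΦ v s).const_mul _)).congr_deriv
      (by simp only [hp, hq]; ring)
  have dr : ∀ s, HasDerivAt r (r s * ca ρ (Φ s v) + u s * cb ρ (Φ s v)) s := fun s =>
    (((der00 hΦ v s).const_mul _).neg.add ((der10 hΦ v s).const_mul _)).congr_deriv
      (by simp only [hr, hu]; ring)
  have du : ∀ s, HasDerivAt u (r s * (-cb ρ (Φ s v)) + u s * (-ca ρ (Φ s v))) s := fun s =>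
    (((der01 hΦ v s).const_mul _).neg.add ((der11 hΦ v s).const_mul _)).congr_deriv
      (by simp only [hr, hu]; ring)
  have na : ∀ g, |-ca ρ g| ≤ M := fun g => by rw [abs_neg]; exact ha g
  have nb : ∀ g, |-cb ρ g| ≤ M := fun g => by rw [abs_neg]; exact hb g
  have s12 : ∀ s, |p s| + |q s| ≤ S4 (p s) (q s) (r s) (u s) := fun s => by
    unfold S4; linarith [abs_nonneg (r s), abs_nonneg (u s)]
  have s34 : ∀ s, |r s| + |u s| ≤ S4 (p s) (q s) (r s) (u s) := fun s => by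
    unfold S4; linarith [abs_nonneg (p s), abs_nonneg (q s)]
  have bp : ∀ s, |p s * ca ρ (Φ s v) + q s * cb ρ (Φ s v)| ≤ M * S4 (p s) (q s) (r s) (u s) :=
    fun s => lin2 hM (ha _) (hb _) (s12 s)
  have bq : ∀ s, |p s * (-cb ρ (Φ s v)) + q s * (-ca ρ (Φ s v))| ≤
    M * S4 (p s) (q s) (r s) (u s) := fun s => lin2 hM (nb _) (na _) (s12 s)
  have br : ∀ s, |r s * ca ρ (Φ s v) + u s * cb ρ (Φ s v)| ≤ M * S4 (p s) (q s) (r s) (u s) :=
    fun s => lin2 hM (ha _) (hb _) (s34 s)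
  have bu : ∀ s, |r s * (-cb ρ (Φ s v)) + u s * (-ca ρ (Φ s v))| ≤
    M * S4 (p s) (q s) (r s) (u s) := fun s => lin2 hM (nb _) (na _) (s34 s)
  have hdet : v 0 0 * v 1 1 - v 0 1 * v 1 0 = 1 := by
    have := v.det_coe
    rwa [Matrix.det_fin_two] at this
  have p0 : p 0 = 1 := by simp only [hp, hΦ.zero]; linarith
  have q0 : q 0 = 0 := by simp only [hq, hΦ.zero]; ring
  have r0 : r 0 = 0 := by simp only [hr, hΦ.zero]; ring
  have u0 : u 0 = 1 := by simp only [hu, hΦ.zero]; linarith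
  have hS : ∀ s, |s| ≤ 1 → M * S4 (p s) (q s) (r s) (u s) ≤ M * (4 * Real.exp (4 * M)) := by
    intro s hs
    have h1 := four hM dp dq dr du bp bq br bu s
    have h2 : S4 (p 0) (q 0) (r 0) (u 0) = 2 := by
      rw [p0, q0, r0, u0]; unfold S4; norm_num
    rw [h2] at h1
    have h3 : Real.exp (4 * M * |s|) ≤ Real.exp (4 * M) := by
      apply Real.exp_le_exp.2
      nlinarith
    apply mul_le_mul_of_nonneg_left _ hM
    linarith
  have ep := mvt dp (fun s hs => (bp s).trans (hS s hs)) ht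
  have eq := mvt dq (fun s hs => (bq s).trans (hS s hs)) ht
  have er := mvt dr (fun s hs => (br s).trans (hS s hs)) ht
  have eu := mvt du (fun s hs => (bu s).trans (hS s hs)) ht
  rw [p0] at ep
  rw [q0, sub_zero] at eq
  rw [r0, sub_zero] at er
  rw [u0] at eu
  rw [dd_eq]
  change S4 (p t - 1) (q t) (r t) (u t - 1) ≤ _
  unfold S4
  linarith

end

end Fl

/-- the flow and the distance -/
theorem stmtFl (hLip : StmtLip) : StmtFl := by
  intro Γ ρ Φ hF hΦ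
  obtain ⟨-, -, -, -, -, B, L, hB, hL, bρ, bP, -, lρ, lP, -⟩ := hLip Γ ρ hF
  have hE : ∀ g : SL(2, ℝ), 0 < Real.exp (-ρ (g • UpperHalfPlane.I)) ∧
      Real.exp (-ρ (g • UpperHalfPlane.I)) ≤ Real.exp B := fun g =>
    ⟨Real.exp_pos _, Real.exp_le_exp.2 (by linarith [(abs_le.1 (bρ (g • UpperHalfPlane.I))).1])⟩
  have hEB : 0 < Real.exp B := Real.exp_pos B
  have hEL : ∀ v w : SL(2, ℝ), |Real.exp (-ρ (w • UpperHalfPlane.I)) -
      Real.exp (-ρ (v • UpperHalfPlane.I))| ≤ Real.exp B * (L * dd v w) := by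
    intro v w
    have h1 := Fl.exp_lip (x := -ρ (w • UpperHalfPlane.I)) (y := -ρ (v • UpperHalfPlane.I))
      (B := B) (by linarith [(abs_le.1 (bρ (w • UpperHalfPlane.I))).1])
      (by linarith [(abs_le.1 (bρ (v • UpperHalfPlane.I))).1])
    refine h1.trans (mul_le_mul_of_nonneg_left ?_ hEB.le)
    have h2 := lρ v w
    rw [abs_sub_comm] at h2
    have h3 : -ρ (w • UpperHalfPlane.I) - -ρ (v • UpperHalfPlane.I) =
      ρ (v • UpperHalfPlane.I) - ρ (w • UpperHalfPlane.I) := by ring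
    rw [h3]
    exact h2
  set M : ℝ := Real.exp B * (1 + B) with hMdef
  have hM : 0 ≤ M := by positivity
  have ha : ∀ g, |Fl.ca ρ g| ≤ M := by
    intro g
    have h1 := hE g
    unfold Fl.ca
    rw [abs_of_pos (by linarith)]
    have : Real.exp B ≤ M := by rw [hMdef]; nlinarith
    linarith
  have hb : ∀ g, |Fl.cb ρ g| ≤ M := by
    intro g
    have h1 := hE g
    unfold Fl.cb
    have h2 : |Real.exp (-ρ (g • UpperHalfPlane.I)) * Pr ρ g| ≤ Real.exp B * B :=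
      Fl.abs_mul_le (by rw [abs_of_pos h1.1]; exact h1.2) (bP g)
    rw [abs_div, abs_of_pos (by norm_num : (0 : ℝ) < 2)]
    have h3 : Real.exp B * B ≤ M := by rw [hMdef]; nlinarith
    have h4 := abs_nonneg (Real.exp (-ρ (g • UpperHalfPlane.I)) * Pr ρ g)
    linarith
  have hdd : ∀ v w, 0 ≤ dd v w := fun v w => by
    unfold dd nn; positivity
  have hda : ∀ v w, |Fl.ca ρ w - Fl.ca ρ v| ≤ (M * L) * dd v w := by
    intro v w
    unfold Fl.ca
    rw [← sub_div, abs_div, abs_of_pos (by norm_num : (0 : ℝ) < 2)]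
    have h1 := hEL v w
    have h2 : 0 ≤ Real.exp B * (L * dd v w) := by have := hdd v w; positivity
    have h3 : Real.exp B * (L * dd v w) ≤ M * L * dd v w := by
      rw [hMdef]
      have h4 : 0 ≤ Real.exp B * B * L * dd v w := by have := hdd v w; positivity
      nlinarith
    linarith
  have hdb : ∀ v w, |Fl.cb ρ w - Fl.cb ρ v| ≤ (M * L) * dd v w := by
    intro v w
    unfold Fl.cb
    rw [← sub_div, abs_div, abs_of_pos (by norm_num : (0 : ℝ) < 2)]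
    have h1 := hEL v w
    have h2 := lP v w
    have h3 := hdd v w
    have e1 : Real.exp (-ρ (w • UpperHalfPlane.I)) * Pr ρ w -
        Real.exp (-ρ (v • UpperHalfPlane.I)) * Pr ρ v =
        Real.exp (-ρ (w • UpperHalfPlane.I)) * (Pr ρ w - Pr ρ v) +
        (Real.exp (-ρ (w • UpperHalfPlane.I)) - Real.exp (-ρ (v • UpperHalfPlane.I))) *
          Pr ρ v := by ring
    have e2 := Fl.abs_mul_le (x := Real.exp (-ρ (w • UpperHalfPlane.I))) (X := Real.exp B)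
      (by rw [abs_of_pos (hE w).1]; exact (hE w).2) h2
    have e3 := Fl.abs_mul_le h1 (bP v)
    have e4 : |Real.exp (-ρ (w • UpperHalfPlane.I)) * Pr ρ w -
        Real.exp (-ρ (v • UpperHalfPlane.I)) * Pr ρ v| ≤
        Real.exp B * (L * dd v w) + Real.exp B * (L * dd v w) * B := by
      rw [e1]
      exact (abs_add_le _ _).trans (add_le_add e2 e3)
    have e5 : Real.exp B * (L * dd v w) + Real.exp B * (L * dd v w) * B = M * L * dd v w := by
      rw [hMdef]; ring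
    have e6 : 0 ≤ M * L * dd v w := by positivity
    linarith
  refine ⟨max 2 (4 * (M * (4 * Real.exp (4 * M)))), 4 * (4 * M + M * L), ?_, by positivity, ?_, ?_⟩
  · exact le_trans (by norm_num) (le_max_left _ _)
  · intro v w t
    have h := Fl.dflow hΦ hM (C := M * L) (by positivity) ha hb hda hdb v w t
    refine h.trans ?_
    have h1 : (2 : ℝ) ≤ max 2 (4 * (M * (4 * Real.exp (4 * M)))) := le_max_left _ _
    have h2 : 0 ≤ Real.exp (4 * (4 * M + M * L) * |t|) * dd v w :=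
      mul_nonneg (Real.exp_pos _).le (hdd v w)
    nlinarith
  · intro v t ht
    have h := Fl.dmove hΦ hM ha hb v t ht
    refine h.trans ?_
    exact mul_le_mul_of_nonneg_right (le_max_right _ _) (abs_nonneg t)

end

end NC

end QE
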