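import Pool.Agent.NCV.Stmts
import Pool.Agent.NCV.FlowGen

/-!
# Existence of the geodesic flow  (module NC_FLOW, helper53)
-/

open MeasureTheory Filter Topology Set Metric
open UpperHalfPlane hiding I
open scoped ContDiff MatrixGroups ENNReal NNReal

namespace QE

namespace NC

namespace FL

noncomputable section

attribute [local instance] Matrix.normedAddCommGroup Matrix.normedSpace

/-- 2 x 2 matrices, with the sup norm of the entries -/
abbrev M2 := Matrix (Fin 2) (Fin 2) ℝ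

lemma ent (M : M2) (i j : Fin 2) : |M i j| ≤ ‖M‖ := Matrix.norm_entry_le_entrywise_sup_norm M

lemma ent_sub (M N : M2) (i j : Fin 2) : |M i j - N i j| ≤ ‖M - N‖ := ent (M - N) i j

/-! ### bounded Lipschitz functions on a set -/

/-- bounded and Lipschitz on `S` -/
def LB (S : Set M2) (F : M2 → ℝ) : Prop :=
  ∃ C K : ℝ, 0 ≤ C ∧ 0 ≤ K ∧ (∀ x ∈ S, |F x| ≤ C) ∧ ∀ x ∈ S, ∀ y ∈ S, |F x - F y| ≤ K * ‖x - y‖

variable {S : Set M2} {F G : M2 → ℝ}

lemma LB.congr (hF : LB S F) (h : ∀ x ∈ S, G x = F x) : LB S G := by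
  obtain ⟨C, K, hC, hK, h1, h2⟩ := hF
  refine ⟨C, K, hC, hK, fun x hx => by rw [h x hx]; exact h1 x hx, fun x hx y hy => ?_⟩
  rw [h x hx, h y hy]
  exact h2 x hx y hy

lemma LB.mono {S' : Set M2} (hF : LB S F) (h : S' ⊆ S) : LB S' F := by
  obtain ⟨C, K, hC, hK, h1, h2⟩ := hF
  exact ⟨C, K, hC, hK, fun x hx => h1 x (h hx), fun x hx y hy => h2 x (h hx) y (h hy)⟩

lemma LB.const (c : ℝ) : LB S (fun _ => c) :=
  ⟨|c|, 0, abs_nonneg _, le_rfl, fun _ _ => le_rfl, fun x _ y _ => by simp⟩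

lemma LB.add (hF : LB S F) (hG : LB S G) : LB S (fun x => F x + G x) := by
  obtain ⟨C, K, hC, hK, h1, h2⟩ := hF
  obtain ⟨C', K', hC', hK', h1', h2'⟩ := hG
  refine ⟨C + C', K + K', by positivity, by positivity, fun x hx => ?_, fun x hx y hy => ?_⟩
  · exact (abs_add_le _ _).trans (add_le_add (h1 x hx) (h1' x hx))
  · rw [show F x + G x - (F y + G y) = (F x - F y) + (G x - G y) by ring, add_mul]
    exact (abs_add_le _ _).trans (add_le_add (h2 x hx y hy) (h2' x hx y hy))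

lemma LB.mul (hF : LB S F) (hG : LB S G) : LB S (fun x => F x * G x) := by
  obtain ⟨C, K, hC, hK, h1, h2⟩ := hF
  obtain ⟨C', K', hC', hK', h1', h2'⟩ := hG
  refine ⟨C * C', C * K' + K * C', by positivity, by positivity, fun x hx => ?_,
    fun x hx y hy => ?_⟩
  · rw [abs_mul]
    exact mul_le_mul (h1 x hx) (h1' x hx) (abs_nonneg _) hC
  · rw [show F x * G x - F y * G y = F x * (G x - G y) + (F x - F y) * G y by ring]
    refine (abs_add_le _ _).trans ?_
    rw [abs_mul, abs_mul, add_mul]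
    refine add_le_add ?_ ?_
    · rw [mul_assoc]
      exact mul_le_mul (h1 x hx) (h2' x hx y hy) (abs_nonneg _) hC
    · rw [mul_right_comm]
      exact mul_le_mul (h2 x hx y hy) (h1' y hy) (abs_nonneg _) (by positivity)

lemma LB.cmul (c : ℝ) (hF : LB S F) : LB S (fun x => c * F x) := (LB.const c).mul hF

lemma LB.neg (hF : LB S F) : LB S (fun x => -F x) :=
  (hF.cmul (-1)).congr fun x _ => by ring

lemma LB.sub (hF : LB S F) (hG : LB S G) : LB S (fun x => F x - G x) :=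
  (hF.add hG.neg).congr fun x _ => by ring

lemma LB.entry {R : ℝ} (hR : 0 ≤ R) (hS : ∀ x ∈ S, ‖x‖ ≤ R) (i j : Fin 2) :
    LB S (fun x => x i j) :=
  ⟨R, 1, hR, zero_le_one, fun x hx => (ent x i j).trans (hS x hx), fun x _ y _ => by
    rw [one_mul]; exact ent_sub x y i j⟩

lemma LB.comp (hF : LB S F) {g : ℝ → ℝ} {C' K' : ℝ} (hC' : 0 ≤ C') (hK' : 0 ≤ K')
    (h1 : ∀ x ∈ S, |g (F x)| ≤ C')
    (h2 : ∀ x ∈ S, ∀ y ∈ S, |g (F x) - g (F y)| ≤ K' * |F x - F y|) :
    LB S (fun x => g (F x)) := by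
  obtain ⟨C, K, hC, hK, h3, h4⟩ := hF
  refine ⟨C', K' * K, hC', by positivity, h1, fun x hx y hy => (h2 x hx y hy).trans ?_⟩
  rw [mul_assoc]
  exact mul_le_mul_of_nonneg_left (h4 x hx y hy) hK'

/-! ### normalisation of the determinant -/

/-- cut-off in the determinant -/
def th (s : ℝ) : ℝ := max 0 (min 1 (2 * s - 1))

lemma th_one : th 1 = 1 := by norm_num [th]

lemma th_zero {s : ℝ} (h : s < 1 / 2) : th s = 0 := by
  unfold th
  rw [max_eq_left]
  exact (min_le_right _ _).trans (by linarith)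

lemma th_nonneg (s : ℝ) : 0 ≤ th s := le_max_left _ _

lemma th_le (s : ℝ) : th s ≤ 1 := max_le zero_le_one (min_le_left _ _)

lemma th_lip (s t : ℝ) : |th s - th t| ≤ 2 * |s - t| := by
  unfold th
  rw [max_comm 0, max_comm 0]
  refine (abs_max_sub_max_le_abs _ _ _).trans ((abs_min_sub_min_le_max _ _ _ _).trans ?_)
  rw [sub_self, abs_zero, max_eq_right (abs_nonneg _),
    show 2 * s - 1 - (2 * t - 1) = 2 * (s - t) by ring, abs_mul, abs_of_pos (by norm_num)]

/-- normalisation -/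
def nrm (M : M2) : SL(2, ℝ) :=
  if h : 0 < M.det then
    ⟨(Real.sqrt M.det)⁻¹ • M, by
      rw [Matrix.det_smul, Fintype.card_fin, inv_pow, Real.sq_sqrt h.le]
      exact inv_mul_cancel₀ h.ne'⟩
  else 1

lemma nrm_apply {M : M2} (h : 0 < M.det) (i j : Fin 2) :
    nrm M i j = (Real.sqrt M.det)⁻¹ * M i j := by
  unfold nrm
  rw [dif_pos h]
  rfl

lemma nrm_coe (g : SL(2, ℝ)) : nrm (g : M2) = g := by
  ext i j
  have h : (g : M2).det = 1 := g.det_coe
  rw [nrm_apply (by rw [h]; exact one_pos), h, Real.sqrt_one, inv_one, one_mul]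

/-- the set of matrices which are bounded and have a determinant bounded below -/
def SR (R : ℝ) : Set M2 := {M | ‖M‖ ≤ R ∧ 1 / 2 ≤ M.det}

lemma LB.det {R : ℝ} (hR : 0 ≤ R) (hS : ∀ x ∈ S, ‖x‖ ≤ R) : LB S (fun x => x.det) :=
  (((LB.entry hR hS 0 0).mul (LB.entry hR hS 1 1)).sub
    ((LB.entry hR hS 0 1).mul (LB.entry hR hS 1 0))).congr fun x _ => Matrix.det_fin_two x

lemma inv_sqrt_lip {s t : ℝ} (hs : 1 / 2 ≤ s) (ht : 1 / 2 ≤ t) :
    |(Real.sqrt s)⁻¹ - (Real.sqrt t)⁻¹| ≤ 2 * |s - t| := by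
  obtain ⟨a, ha⟩ : ∃ a, a = Real.sqrt s := ⟨_, rfl⟩
  obtain ⟨b, hb⟩ : ∃ b, b = Real.sqrt t := ⟨_, rfl⟩
  have ha0 : 0 ≤ a := by rw [ha]; exact Real.sqrt_nonneg _
  have hb0 : 0 ≤ b := by rw [hb]; exact Real.sqrt_nonneg _
  have ha2 : a ^ 2 = s := by rw [ha]; exact Real.sq_sqrt (by linarith)
  have hb2 : b ^ 2 = t := by rw [hb]; exact Real.sq_sqrt (by linarith)
  have ha1 : 1 / 2 ≤ a := by nlinarith
  have hb1 : 1 / 2 ≤ b := by nlinarith
  have hab : 1 / 2 ≤ a * b := by nlinarith [mul_nonneg ha0 hb0, sq_nonneg (a - b)]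
  rw [← ha, ← hb, ← ha2, ← hb2, show a⁻¹ - b⁻¹ = (a * b)⁻¹ * (b - a) by field_simp,
    show a ^ 2 - b ^ 2 = (a + b) * (a - b) by ring, abs_mul, abs_mul, abs_sub_comm b a,
    ← mul_assoc]
  refine mul_le_mul_of_nonneg_right ?_ (abs_nonneg _)
  rw [abs_of_nonneg (by positivity), abs_of_nonneg (by positivity)]
  refine (inv_anti₀ (by norm_num) hab).trans ?_
  norm_num
  linarith

lemma inv_sqrt_le {s : ℝ} (hs : 1 / 2 ≤ s) : |(Real.sqrt s)⁻¹| ≤ 2 := by
  have h1 : 1 / 2 ≤ Real.sqrt s := Real.le_sqrt_of_sq_le (by norm_num; linarith)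
  rw [abs_of_nonneg (by positivity)]
  refine (inv_anti₀ (by norm_num) h1).trans ?_
  norm_num

lemma lb_nrm {R : ℝ} (hR : 0 ≤ R) (i j : Fin 2) : LB (SR R) (fun M => FL.nrm M i j) := by
  have hS : ∀ x ∈ SR R, ‖x‖ ≤ R := fun x hx => hx.1
  refine (((LB.det hR hS).comp (g := fun s => (Real.sqrt s)⁻¹) zero_le_two zero_le_two
    (fun x hx => inv_sqrt_le hx.2) (fun x hx y hy => inv_sqrt_lip hx.2 hy.2)).mul
    (LB.entry hR hS i j)).congr fun x hx => ?_
  exact nrm_apply (by have := hx.2; linarith) i j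

/-- the distance `dd` is controlled by the difference of the entries -/
lemma dd_le {m δ : ℝ} (v w : SL(2, ℝ)) (hm : ∀ i j, |v i j| ≤ m)
    (hδ : ∀ i j, |w i j - v i j| ≤ δ) : dd v w ≤ 8 * m * δ := by
  have hdet : v 0 0 * v 1 1 - v 0 1 * v 1 0 = 1 := by
    have := v.det_coe
    rwa [Matrix.det_fin_two] at this
  have e : ((v⁻¹ * w : SL(2, ℝ)) : M2) =
      !![v 1 1 * w 0 0 - v 0 1 * w 1 0, v 1 1 * w 0 1 - v 0 1 * w 1 1;
        -v 1 0 * w 0 0 + v 0 0 * w 1 0, -v 1 0 * w 0 1 + v 0 0 * w 1 1] := by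
    rw [Matrix.SpecialLinearGroup.coe_mul, Matrix.SpecialLinearGroup.coe_inv,
      Matrix.adjugate_fin_two]
    ext i j
    fin_cases i <;> fin_cases j <;> simp [Matrix.mul_apply, Fin.sum_univ_two] <;> ring
  have hm0 : 0 ≤ m := (abs_nonneg _).trans (hm 0 0)
  have hp : ∀ {a b c d : ℝ}, |a| ≤ m → |b| ≤ δ → |c| ≤ m → |d| ≤ δ → |a * b + c * d| ≤ 2 * m * δ := by
    intro a b c d h1 h2 h3 h4
    refine (abs_add_le _ _).trans ?_
    rw [abs_mul, abs_mul]
    have h5 := mul_le_mul h1 h2 (abs_nonneg _) hm0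
    have h6 := mul_le_mul h3 h4 (abs_nonneg _) hm0
    linarith
  unfold dd nn
  rw [e]
  simp only [Matrix.of_apply, Matrix.cons_val', Matrix.cons_val_zero, Matrix.cons_val_one,
    Matrix.cons_val_fin_one]
  have h00 : v 1 1 * w 0 0 - v 0 1 * w 1 0 - 1 =
      v 1 1 * (w 0 0 - v 0 0) + (-v 0 1) * (w 1 0 - v 1 0) := by linear_combination hdet
  have h01 : v 1 1 * w 0 1 - v 0 1 * w 1 1 =
      v 1 1 * (w 0 1 - v 0 1) + (-v 0 1) * (w 1 1 - v 1 1) := by ring
  have h10 : -v 1 0 * w 0 0 + v 0 0 * w 1 0 =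
      (-v 1 0) * (w 0 0 - v 0 0) + v 0 0 * (w 1 0 - v 1 0) := by ring
  have h11 : -v 1 0 * w 0 1 + v 0 0 * w 1 1 - 1 =
      (-v 1 0) * (w 0 1 - v 0 1) + v 0 0 * (w 1 1 - v 1 1) := by linear_combination hdet
  rw [h00, h01, h10, h11]
  have k1 := hp (hm 1 1) (hδ 0 0) (by rw [abs_neg]; exact hm 0 1) (hδ 1 0)
  have k2 := hp (hm 1 1) (hδ 0 1) (by rw [abs_neg]; exact hm 0 1) (hδ 1 1)
  have k3 := hp (by rw [abs_neg]; exact hm 1 0) (hδ 0 0) (hm 0 0) (hδ 1 0)
  have k4 := hp (by rw [abs_neg]; exact hm 1 0) (hδ 0 1) (hm 0 0) (hδ 1 1)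
  linarith

/-- functions of the frame which are Lipschitz for `dd`, composed with the normalisation -/
lemma lb_lift {R : ℝ} (hR : 0 ≤ R) {q : SL(2, ℝ) → ℝ} {B L : ℝ} (hB : 0 ≤ B) (hL : 0 ≤ L)
    (h1 : ∀ g, |q g| ≤ B) (h2 : ∀ v w, |q w - q v| ≤ L * dd v w) :
    LB (SR R) (fun M => q (FL.nrm M)) := by
  have h : ∀ i j : Fin 2, ∃ C K : ℝ, 0 ≤ C ∧ 0 ≤ K ∧ (∀ x ∈ SR R, |FL.nrm x i j| ≤ C) ∧
      ∀ x ∈ SR R, ∀ y ∈ SR R, |FL.nrm x i j - FL.nrm y i j| ≤ K * ‖x - y‖ := fun i j => lb_nrm hR i j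
  choose C K hC hK h3 h4 using h
  obtain ⟨m, hm⟩ : ∃ m, m = ∑ i, ∑ j, C i j := ⟨_, rfl⟩
  obtain ⟨k, hk⟩ : ∃ k, k = ∑ i, ∑ j, K i j := ⟨_, rfl⟩
  have hCm : ∀ i j, C i j ≤ m := by
    intro i j
    rw [hm]
    exact (Finset.single_le_sum (f := fun j => C i j) (fun j _ => hC i j) (Finset.mem_univ j)).trans
      (Finset.single_le_sum (f := fun i => ∑ j, C i j) (fun i _ => Finset.sum_nonneg
        fun j _ => hC i j) (Finset.mem_univ i))
  have hKk : ∀ i j, K i j ≤ k := by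
    intro i j
    rw [hk]
    exact (Finset.single_le_sum (f := fun j => K i j) (fun j _ => hK i j) (Finset.mem_univ j)).trans
      (Finset.single_le_sum (f := fun i => ∑ j, K i j) (fun i _ => Finset.sum_nonneg
        fun j _ => hK i j) (Finset.mem_univ i))
  have hm0 : 0 ≤ m := (hC 0 0).trans (hCm 0 0)
  have hk0 : 0 ≤ k := (hK 0 0).trans (hKk 0 0)
  refine ⟨B, L * (8 * m * k), hB, by positivity, fun x _ => h1 _, fun x hx y hy => ?_⟩
  refine (h2 _ _).trans ?_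
  rw [mul_assoc]
  refine mul_le_mul_of_nonneg_left ?_ hL
  rw [mul_assoc]
  refine dd_le (m := m) (δ := k * ‖x - y‖) _ _ (fun i j => (h3 i j y hy).trans (hCm i j))
    (fun i j => (h4 i j x hx y hy).trans ?_)
  exact mul_le_mul_of_nonneg_right (hKk i j) (norm_nonneg _)

/-! ### the field -/

/-- the geodesic field, extended to all matrices -/
def fld (ρ : ℍ → ℝ) (M : M2) : M2 := th M.det • (M * AA ρ (nrm M))

lemma fld_coe (ρ : ℍ → ℝ) (g : SL(2, ℝ)) : fld ρ (g : M2) = (g : M2) * AA ρ g := by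
  unfold fld
  rw [nrm_coe, g.det_coe, th_one, one_smul]

/-- what is needed of `ρ` -/
structure Lp (ρ : ℍ → ℝ) (B L : ℝ) : Prop where
  B0 : 0 ≤ B
  L0 : 0 ≤ L
  rb : ∀ z, |ρ z| ≤ B
  pb : ∀ g, |Pr ρ g| ≤ B
  rl : ∀ v w : SL(2, ℝ), |ρ (w • UpperHalfPlane.I) - ρ (v • UpperHalfPlane.I)| ≤ L * dd v w
  pl : ∀ v w : SL(2, ℝ), |Pr ρ w - Pr ρ v| ≤ L * dd v w

variable {ρ : ℍ → ℝ} {B L : ℝ}

lemma AA_apply (ρ : ℍ → ℝ) (g : SL(2, ℝ)) :
    AA ρ g 0 0 = Real.exp (-ρ (g • UpperHalfPlane.I)) * (1 / 2) ∧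
    AA ρ g 0 1 = Real.exp (-ρ (g • UpperHalfPlane.I)) * (-(Pr ρ g / 2)) ∧
    AA ρ g 1 0 = Real.exp (-ρ (g • UpperHalfPlane.I)) * (Pr ρ g / 2) ∧
    AA ρ g 1 1 = Real.exp (-ρ (g • UpperHalfPlane.I)) * (-(1 / 2)) := by
  unfold AA
  refine ⟨?_, ?_, ?_, ?_⟩ <;> simp [Matrix.smul_apply]

lemma exp_lip {B x y : ℝ} (hx : |x| ≤ B) (hy : |y| ≤ B) :
    |Real.exp (-x) - Real.exp (-y)| ≤ Real.exp B * |x - y| := by
  wlog h : x ≤ y generalizing x y
  · rw [abs_sub_comm, abs_sub_comm x y]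
    exact this hy hx (le_of_not_ge h)
  have h1 : Real.exp (-y) ≤ Real.exp (-x) := Real.exp_le_exp.2 (by linarith)
  have h2 : Real.exp (-x) ≤ Real.exp B := Real.exp_le_exp.2 (by linarith [(abs_le.1 hx).1])
  have h3 : 1 + (x - y) ≤ Real.exp (x - y) := by linarith [Real.add_one_le_exp (x - y)]
  have h4 : Real.exp (-y) = Real.exp (-x) * Real.exp (x - y) := by
    rw [← Real.exp_add]; congr 1; ring
  rw [abs_of_nonneg (by linarith), abs_of_nonpos (by linarith), h4]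
  have h5 := Real.exp_pos (-x)
  nlinarith

lemma lb_AA (h : Lp ρ B L) {R : ℝ} (hR : 0 ≤ R) (i j : Fin 2) :
    LB (SR R) (fun M => AA ρ (nrm M) i j) := by
  have h1 : LB (SR R) (fun M => Real.exp (-ρ (nrm M • UpperHalfPlane.I))) := by
    have h2 := lb_lift hR (q := fun g => ρ (g • UpperHalfPlane.I)) h.B0 h.L0 (fun g => h.rb _) h.rl
    refine h2.comp (g := fun s => Real.exp (-s)) (C' := Real.exp B) (K' := Real.exp B)
      (Real.exp_pos _).le (Real.exp_pos _).le (fun x _ => ?_) (fun x _ y _ => exp_lip (h.rb _) (h.rb _))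
    rw [abs_of_pos (Real.exp_pos _)]
    refine Real.exp_le_exp.2 ?_
    linarith [(abs_le.1 (h.rb (nrm x • UpperHalfPlane.I))).1]
  have h3 := lb_lift hR (q := Pr ρ) h.B0 h.L0 h.pb h.pl
  fin_cases i <;> fin_cases j
  · exact (h1.mul (LB.const (1 / 2))).congr fun x _ => (AA_apply ρ _).1
  · exact (h1.mul (h3.cmul (-(1 / 2)))).congr fun x _ => by
      refine (AA_apply ρ _).2.1.trans ?_
      ring
  · exact (h1.mul (h3.cmul (1 / 2))).congr fun x _ => by
      refine (AA_apply ρ _).2.2.1.trans ?_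
      ring
  · exact (h1.mul (LB.const (-(1 / 2)))).congr fun x _ => (AA_apply ρ _).2.2.2

lemma AA_le (h : Lp ρ B L) (g : SL(2, ℝ)) (i j : Fin 2) :
    |AA ρ g i j| ≤ Real.exp B * (1 + B) := by
  obtain ⟨h00, h01, h10, h11⟩ := AA_apply ρ g
  have h1 : Real.exp (-ρ (g • UpperHalfPlane.I)) ≤ Real.exp B := Real.exp_le_exp.2 (by
    linarith [(abs_le.1 (h.rb (g • UpperHalfPlane.I))).1])
  have h2 := Real.exp_pos (-ρ (g • UpperHalfPlane.I))
  have hB := h.B0
  have h3 : |Pr ρ g / 2| ≤ 1 + B := by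
    rw [abs_div, abs_of_pos (by norm_num : (0 : ℝ) < 2)]
    linarith [h.pb g]
  have h4 : |(1 / 2 : ℝ)| ≤ 1 + B := by rw [abs_of_pos (by norm_num)]; linarith
  fin_cases i <;> fin_cases j
  · refine (congrArg abs h00).trans_le ?_
    rw [abs_mul, abs_of_pos h2]
    exact mul_le_mul h1 h4 (abs_nonneg _) (Real.exp_pos _).le
  · refine (congrArg abs h01).trans_le ?_
    rw [abs_mul, abs_of_pos h2, abs_neg]
    exact mul_le_mul h1 h3 (abs_nonneg _) (Real.exp_pos _).le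
  · refine (congrArg abs h10).trans_le ?_
    rw [abs_mul, abs_of_pos h2]
    exact mul_le_mul h1 h3 (abs_nonneg _) (Real.exp_pos _).le
  · refine (congrArg abs h11).trans_le ?_
    rw [abs_mul, abs_of_pos h2, abs_neg]
    exact mul_le_mul h1 h4 (abs_nonneg _) (Real.exp_pos _).le

lemma fld_apply (ρ : ℍ → ℝ) (M : M2) (i j : Fin 2) :
    fld ρ M i j = th M.det * (M i 0 * AA ρ (nrm M) 0 j + M i 1 * AA ρ (nrm M) 1 j) := by
  unfold fld
  rw [Matrix.smul_apply, Matrix.mul_apply, Fin.sum_univ_two, smul_eq_mul]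

lemma fld_lin (h : Lp ρ B L) (M : M2) :
    ‖fld ρ M‖ ≤ (2 * (Real.exp B * (1 + B))) * ‖M‖ := by
  have hB := h.B0
  rw [Matrix.norm_le_iff (by positivity)]
  intro i j
  rw [Real.norm_eq_abs, fld_apply, abs_mul, abs_of_nonneg (th_nonneg _)]
  have h1 : |M i 0 * AA ρ (nrm M) 0 j + M i 1 * AA ρ (nrm M) 1 j| ≤
      (2 * (Real.exp B * (1 + B))) * ‖M‖ := by
    refine (abs_add_le _ _).trans ?_
    rw [abs_mul, abs_mul]
    have h2 := mul_le_mul (ent M i 0) (AA_le h (nrm M) 0 j) (abs_nonneg _) (norm_nonneg _)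
    have h3 := mul_le_mul (ent M i 1) (AA_le h (nrm M) 1 j) (abs_nonneg _) (norm_nonneg _)
    linarith
  calc th M.det * |M i 0 * AA ρ (nrm M) 0 j + M i 1 * AA ρ (nrm M) 1 j|
      ≤ 1 * |M i 0 * AA ρ (nrm M) 0 j + M i 1 * AA ρ (nrm M) 1 j| :=
        mul_le_mul_of_nonneg_right (th_le _) (abs_nonneg _)
    _ ≤ _ := by rw [one_mul]; exact h1

lemma fld_lip (h : Lp ρ B L) {R : ℝ} (hR : 0 ≤ R) :
    ∃ K : ℝ≥0, LipschitzOnWith K (fld ρ) (closedBall 0 R) := by
  have key : ∀ i j : Fin 2, ∃ K : ℝ, 0 ≤ K ∧ ∀ x ∈ closedBall (0 : M2) R,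
      ∀ y ∈ closedBall (0 : M2) R, |fld ρ x i j - fld ρ y i j| ≤ K * ‖x - y‖ := by
    intro i j
    have hS : ∀ x ∈ SR R, ‖x‖ ≤ R := fun x hx => hx.1
    have hG : LB (SR R) (fun M => M i 0 * AA ρ (nrm M) 0 j + M i 1 * AA ρ (nrm M) 1 j) :=
      ((LB.entry hR hS i 0).mul (lb_AA h hR 0 j)).add ((LB.entry hR hS i 1).mul (lb_AA h hR 1 j))
    have hT : LB (closedBall (0 : M2) R) (fun M => th M.det) :=
      (LB.det hR fun x hx => by rwa [mem_closedBall_zero_iff] at hx).comp zero_le_one zero_le_two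
        (fun x _ => by rw [abs_of_nonneg (th_nonneg _)]; exact th_le _)
        (fun x _ y _ => th_lip _ _)
    have hsub : SR R ⊆ closedBall (0 : M2) R := fun x hx => by
      rw [mem_closedBall_zero_iff]; exact hx.1
    obtain ⟨C, K, hC, hK, h1, h2⟩ := (hT.mono hsub).mul hG
    obtain ⟨C', K', hC', hK', h1', h2'⟩ := hG
    obtain ⟨C'', K'', hC'', hK'', h1'', h2''⟩ := hT
    have hz : ∀ x ∈ closedBall (0 : M2) R, x ∉ SR R → th x.det = 0 := by
      intro x hx hn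
      refine th_zero ?_
      by_contra hcon
      exact hn ⟨by rwa [mem_closedBall_zero_iff] at hx, le_of_not_gt hcon⟩
    have hone : ∀ x ∈ SR R, ∀ y ∈ closedBall (0 : M2) R, y ∉ SR R →
        |fld ρ x i j - fld ρ y i j| ≤ (K + C' * K'') * ‖x - y‖ := by
      intro x hx y hy hn
      have hy0 := hz y hy hn
      rw [fld_apply, fld_apply, hy0, zero_mul, sub_zero, abs_mul]
      have h3 : |th x.det - th y.det| ≤ K'' * ‖x - y‖ := h2'' x (hsub hx) y hy
      rw [hy0, sub_zero] at h3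
      have h4 := h1' x hx
      have h5 := mul_le_mul h3 h4 (abs_nonneg _) (by positivity)
      have h6 : 0 ≤ K * ‖x - y‖ := by positivity
      refine h5.trans ?_
      linarith
    refine ⟨K + C' * K'', by positivity, fun x hx y hy => ?_⟩
    by_cases hxS : x ∈ SR R
    · by_cases hyS : y ∈ SR R
      · rw [fld_apply, fld_apply]
        refine (h2 x hxS y hyS).trans ?_
        have h6 : 0 ≤ C' * K'' * ‖x - y‖ := by positivity
        linarith
      · exact hone x hxS y hy hyS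
    · by_cases hyS : y ∈ SR R
      · rw [abs_sub_comm, norm_sub_rev]
        exact hone y hyS x hx hxS
      · rw [fld_apply, fld_apply, hz x hx hxS, hz y hy hyS, zero_mul, zero_mul, sub_zero, abs_zero]
        positivity
  choose K hK hl using key
  obtain ⟨k, hk⟩ : ∃ k, k = ∑ i, ∑ j, K i j := ⟨_, rfl⟩
  have hKk : ∀ i j, K i j ≤ k := by
    intro i j
    rw [hk]
    exact (Finset.single_le_sum (f := fun j => K i j) (fun j _ => hK i j) (Finset.mem_univ j)).trans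
      (Finset.single_le_sum (f := fun i => ∑ j, K i j) (fun i _ => Finset.sum_nonneg
        fun j _ => hK i j) (Finset.mem_univ i))
  have hk0 : 0 ≤ k := (hK 0 0).trans (hKk 0 0)
  refine ⟨k.toNNReal, LipschitzOnWith.of_dist_le_mul fun x hx y hy => ?_⟩
  rw [Real.coe_toNNReal _ hk0, dist_eq_norm, dist_eq_norm, Matrix.norm_le_iff (by positivity)]
  intro i j
  refine (hl i j x hx y hy).trans ?_
  exact mul_le_mul_of_nonneg_right (hKk i j) (norm_nonneg _)

/-- clamping of the entries -/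
def clamp (R : ℝ) (M : M2) : M2 := Matrix.of fun i j => max (-R) (min R (M i j))

lemma fld_ok (h : Lp ρ B L) : FG.Fld (fld ρ) (2 * (Real.exp B * (1 + B))) clamp where
  nn := by have := h.B0; positivity
  lin := fld_lin h
  lip := fun R hR => fld_lip h hR
  Pl := by
    intro R _
    refine LipschitzWith.of_dist_le_mul fun x y => ?_
    rw [NNReal.coe_one, one_mul, dist_eq_norm, dist_eq_norm, Matrix.norm_le_iff (norm_nonneg _)]
    intro i j
    rw [Matrix.sub_apply, Real.norm_eq_abs]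
    unfold clamp
    rw [Matrix.of_apply, Matrix.of_apply, max_comm (-R), max_comm (-R)]
    refine (abs_max_sub_max_le_abs _ _ _).trans ((abs_min_sub_min_le_max _ _ _ _).trans ?_)
    rw [sub_self, abs_zero, max_eq_right (abs_nonneg _)]
    exact ent_sub x y i j
  Pid := by
    intro R x hx
    ext i j
    have h1 := (ent x i j).trans hx
    rw [abs_le] at h1
    unfold clamp
    rw [Matrix.of_apply, min_eq_right h1.2, max_eq_right h1.1]
  Pb := by
    intro R x hR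
    rw [Matrix.norm_le_iff hR]
    intro i j
    unfold clamp
    rw [Matrix.of_apply, Real.norm_eq_abs, abs_le]
    exact ⟨le_max_left _ _, max_le (by linarith) (min_le_left _ _)⟩
  Ple := by
    intro R x hR
    rw [Matrix.norm_le_iff (norm_nonneg _)]
    intro i j
    unfold clamp
    have h1 := ent x i j
    rw [abs_le] at h1
    have hx := norm_nonneg x
    rw [Matrix.of_apply, Real.norm_eq_abs, abs_le]
    refine ⟨?_, max_le (by linarith) ((min_le_right _ _).trans h1.2)⟩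
    rcases le_total R (x i j) with h2 | h2
    · rw [min_eq_left h2]
      exact le_max_of_le_right (by linarith)
    · rw [min_eq_right h2]
      exact le_max_of_le_right h1.1

/-- entrywise derivatives -/
lemma deriv_ent {γ : ℝ → M2} {γ' : M2} {t : ℝ} :
    HasDerivAt γ γ' t ↔ ∀ i j, HasDerivAt (fun s => γ s i j) (γ' i j) t := by
  constructor
  · intro h i j
    exact hasDerivAt_pi.1 (hasDerivAt_pi.1 h i) j
  · intro h
    exact hasDerivAt_pi.2 fun i => hasDerivAt_pi.2 fun j => h i j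

/-- the determinant is preserved -/
lemma det_const {γ : ℝ → M2} (hγ : ∀ t, HasDerivAt γ (fld ρ (γ t)) t) (t : ℝ) :
    (γ t).det = (γ 0).det := by
  have h1 : ∀ t, HasDerivAt (fun s => (γ s).det) 0 t := by
    intro t
    have h2 := fun i j => deriv_ent.1 (hγ t) i j
    have h3 := ((h2 0 0).mul (h2 1 1)).sub ((h2 0 1).mul (h2 1 0))
    have h4 : (fun s => (γ s).det) = fun s => γ s 0 0 * γ s 1 1 - γ s 0 1 * γ s 1 0 := by
      funext s
      exact Matrix.det_fin_two _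
    rw [h4]
    refine h3.congr_deriv ?_
    rw [fld_apply, fld_apply, fld_apply, fld_apply]
    obtain ⟨h00, h01, h10, h11⟩ := AA_apply ρ (nrm (γ t))
    rw [h00, h01, h10, h11]
    ring
  exact is_const_of_deriv_eq_zero (fun s => (h1 s).differentiableAt) (fun s => (h1 s).deriv) t 0

end

end FL

open FL in
/-- MODULE NC_FLOW: existence of the geodesic flow -/
theorem stmtFlow (hLip : StmtLip) : StmtFlow := by
  intro Γ ρ hΓ
  obtain ⟨hinv, hneg, -, -, -, B, L, hB, hL, hrb, hpb, -, hrl, hpl, -⟩ := hLip Γ ρ hΓ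
  let _i1 : NormedAddCommGroup M2 := Matrix.normedAddCommGroup
  let _i2 : NormedSpace ℝ M2 := Matrix.normedSpace
  obtain ⟨φ, h0, hd, hc, hu⟩ := FG.exists_flow (fld_ok ⟨hB, hL, hrb, hpb, hrl, hpl⟩)
  have hdet : ∀ (t : ℝ) (g : SL(2, ℝ)), (φ t (g : M2)).det = 1 := by
    intro t g
    rw [det_const (hd g) t, h0, g.det_coe]
  -- the flow
  obtain ⟨Φ, hΦ⟩ : ∃ Φ : ℝ → SL(2, ℝ) → SL(2, ℝ), ∀ t g, ((Φ t g : SL(2, ℝ)) : M2) = φ t (g : M2) :=
    ⟨fun t g => ⟨φ t (g : M2), hdet t g⟩, fun t g => rfl⟩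
  -- uniqueness
  have huniq : ∀ β : ℝ → SL(2, ℝ), (∀ t (i j : Fin 2), HasDerivAt (fun s => β s i j)
      (((β t : M2) * AA ρ (β t)) i j) t) → ∀ t, β t = Φ t (β 0) := by
    intro β hβ t
    apply Subtype.ext
    have h1 := hu (fun s => (β s : M2)) (fun s => by
      rw [fld_coe]
      exact deriv_ent.2 fun i j => hβ s i j) t
    exact h1.trans (hΦ t (β 0)).symm
  have hder : ∀ g t (i j : Fin 2), HasDerivAt (fun s => Φ s g i j)
      (((Φ t g : M2) * AA ρ (Φ t g)) i j) t := by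
    intro g t i j
    have h1 := deriv_ent.1 (hd g t) i j
    rw [← hΦ, fld_coe] at h1
    refine h1.congr_of_eventuallyEq (Filter.Eventually.of_forall fun s => ?_)
    exact congrFun (congrFun (hΦ s g) i) j
  have hzero : ∀ g, Φ 0 g = g := fun g => Subtype.ext ((hΦ 0 g).trans (h0 g))
  have hleft : ∀ γ : SL(2, ℝ), (∀ z, ρ (γ • z) = ρ z) → ∀ t g, Φ t (γ * g) = γ * Φ t g := by
    intro γ hγ t g
    have h1 := huniq (fun s => γ * Φ s g) (fun s i j => ?_) t
    · simp only [hzero] at h1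
      exact h1.symm
    · have h2 : AA ρ (γ * Φ s g) = AA ρ (Φ s g) := by
        unfold AA
        rw [(hinv γ hγ _).1, mul_smul, hγ]
      rw [h2]
      have h3 : ∀ r, (γ * Φ r g) i j = γ i 0 * Φ r g 0 j + γ i 1 * Φ r g 1 j := by
        intro r
        rw [Matrix.SpecialLinearGroup.coe_mul, Matrix.mul_apply, Fin.sum_univ_two]
      have h4 := ((hder g s 0 j).const_mul (γ i 0)).add ((hder g s 1 j).const_mul (γ i 1))
      refine (h4.congr_deriv ?_).congr_of_eventuallyEq (Filter.Eventually.of_forall h3)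
      have h5 : ((γ : M2) * ((Φ s g : M2) * AA ρ (Φ s g))) i j =
          γ i 0 * ((Φ s g : M2) * AA ρ (Φ s g)) 0 j +
            γ i 1 * ((Φ s g : M2) * AA ρ (Φ s g)) 1 j := by
        rw [Matrix.mul_apply, Fin.sum_univ_two]
      rw [Matrix.SpecialLinearGroup.coe_mul, Matrix.mul_assoc, h5]
  refine ⟨Φ, hzero, ?_, ?_, hder, hleft, ?_⟩
  · intro s t g
    have h1 := huniq (fun r => Φ (r + t) g) (fun r i j => ?_) s
    · simp only [zero_add] at h1
      exact h1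
    · have h2 := (hder g (r + t) i j).comp_add_const r t
      exact h2
  · have h1 : Continuous fun p : ℝ × SL(2, ℝ) => φ p.1 (p.2 : M2) :=
      hc.comp (continuous_fst.prodMk (continuous_subtype_val.comp continuous_snd))
    exact continuous_induced_rng.2 (h1.congr fun p => (hΦ p.1 p.2).symm)
  · intro t g
    have h1 := hleft (-1) (fun z => ?_) t g
    · rw [neg_one_mul, neg_one_mul] at h1
      exact h1
    · have h2 : (-1 : SL(2, ℝ)) • z = z := by
        have h3 : (-(1 : SL(2, ℝ))) • z = (1 : SL(2, ℝ)) • z := by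
          exact neg_smul_eq 1 z
        rw [h3, one_smul]
      rw [h2]

end NC

end QE
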