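import Pool.Agent.NCV.Stmts
import Pool.Agent.Lib_helper67.QE.FlowInv

/-!
Infinitesimal invariance of the measure `e^{2ρ} μ` under the geodesic field (helper72, NC_INF).
-/

open MeasureTheory Filter Topology Set
open UpperHalfPlane hiding I
open scoped ContDiff MatrixGroups ENNReal NNReal

namespace QE

namespace NC

noncomputable section

/-! ## reduction to Fourier components, for a general field -/

lemma rq_zero (q : ℂ × ℂ) : rq 0 q = q := by
  unfold rq
  refine Prod.ext ?_ ?_ <;> simp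

lemma rq_eq_smul (φ : ℝ) (q : ℂ × ℂ) : rq φ q = Complex.exp (φ * Complex.I) • q := by
  unfold rq
  refine Prod.ext ?_ ?_ <;> simp

/-- the derivative of a Fourier component -/
lemma fderiv_Hk (k : ℤ) {H : ℂ × ℂ → ℂ} (hH : ContDiff ℝ ∞ H) (q v : ℂ × ℂ) :
    fderiv ℝ (Hk k H) q v = ∫ φ in (0 : ℝ)..(2 * Real.pi),
      Complex.exp (-(k : ℂ) * φ * Complex.I) * fderiv ℝ H (rq φ q) (rq φ v) := by
  have hf := contDiff_fk k hH
  have hd : Differentiable ℝ H := hH.differentiable (by simp)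
  have h1 := (hasFDerivAt_param (hf.of_le (by simp)) 0 (2 * Real.pi) q).fderiv
  have h2 : fderiv ℝ (Hk k H) q v = (∫ t in (0:ℝ)..(2 * Real.pi), (fderiv ℝ (fun p : ℝ × (ℂ × ℂ) =>
      Complex.exp (-(k : ℂ) * p.1 * Complex.I) * H (rq p.1 p.2)) (t, q)).comp
        (ContinuousLinearMap.inr ℝ ℝ (ℂ × ℂ))) v := by
    rw [← h1]
    rfl
  rw [h2]
  have hint : IntervalIntegrable (fun t : ℝ => (fderiv ℝ (fun p : ℝ × (ℂ × ℂ) =>
      Complex.exp (-(k : ℂ) * p.1 * Complex.I) * H (rq p.1 p.2)) (t, q)).comp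
        (ContinuousLinearMap.inr ℝ ℝ (ℂ × ℂ))) volume 0 (2 * Real.pi) := by
    refine Continuous.intervalIntegrable ?_ _ _
    have hc := hf.continuous_fderiv (by simp)
    exact (hc.comp (continuous_id.prodMk continuous_const)).clm_comp_const _
  rw [ContinuousLinearMap.intervalIntegral_apply hint]
  refine intervalIntegral.integral_congr fun t _ => ?_
  simp only [ContinuousLinearMap.comp_apply]
  have h3 : HasFDerivAt (fun q' : ℂ × ℂ => (t, q')) (ContinuousLinearMap.inr ℝ ℝ (ℂ × ℂ)) q :=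
    hasFDerivAt_prodMk_right t q
  have h4 := ((hf.differentiable (by simp)) (t, q)).hasFDerivAt.comp q h3
  have h5 : HasFDerivAt (fun q' : ℂ × ℂ => Complex.exp (-(k : ℂ) * t * Complex.I) * H (rq t q'))
      ((fderiv ℝ (fun p : ℝ × (ℂ × ℂ) =>
      Complex.exp (-(k : ℂ) * p.1 * Complex.I) * H (rq p.1 p.2)) (t, q)).comp
        (ContinuousLinearMap.inr ℝ ℝ (ℂ × ℂ))) q := h4
  have hr : HasFDerivAt (fun q => rq t q) (rqL t) q := by
    have := (rqL t).hasFDerivAt (x := q)
    exact this.congr_of_eventuallyEq (Eventually.of_forall fun q => (rqL_apply t q).symm)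
  have h6 : HasFDerivAt (fun q' : ℂ × ℂ => H (rq t q')) ((fderiv ℝ H (rq t q)).comp (rqL t)) q :=
    (hd (rq t q)).hasFDerivAt.comp q hr
  have h7 := h5.unique (h6.const_mul (Complex.exp (-(k : ℂ) * t * Complex.I)))
  have h8 := congrArg (fun L : ℂ × ℂ →L[ℝ] ℂ => L v) h7
  simp only [_root_.smul_apply, smul_eq_mul, ContinuousLinearMap.comp_apply,
    rqL_apply] at h8
  exact h8

/-- the derivative of a Fourier component along the fibres -/
lemma fderiv_Hk_rot (k : ℤ) {H : ℂ × ℂ → ℂ} (hH : ContDiff ℝ ∞ H) (q : ℂ × ℂ) :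
    fderiv ℝ (Hk k H) q (Complex.I • q) = Complex.I * k * Hk k H q := by
  have hKd : Differentiable ℝ (Hk k H) := (Hk_smooth _ hH).differentiable (by simp)
  have he : HasDerivAt (fun ψ : ℝ => Complex.exp (ψ * Complex.I)) Complex.I 0 := by
    have h1 : HasDerivAt (fun ψ : ℝ => (ψ : ℂ) * Complex.I) (1 * Complex.I) 0 :=
      (Complex.ofRealCLM.hasDerivAt).mul_const Complex.I
    have := h1.cexp
    simpa using this
  have h1 : HasDerivAt (fun ψ : ℝ => rq ψ q) (Complex.I • q) 0 := by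
    have := he.smul_const q
    simpa only [rq_eq_smul] using this
  have h2 : HasDerivAt (fun ψ : ℝ => Hk k H (rq ψ q)) (fderiv ℝ (Hk k H) q (Complex.I • q)) 0 := by
    have h3 : HasFDerivAt (Hk k H) (fderiv ℝ (Hk k H) q) ((fun ψ : ℝ => rq ψ q) 0) := by
      simp only [rq_zero]
      exact (hKd q).hasFDerivAt
    exact h3.comp_hasDerivAt 0 h1
  have h3 : HasDerivAt (fun ψ : ℝ => Hk k H (rq ψ q)) (Complex.I * k * Hk k H q) 0 := by
    have h4 : HasDerivAt (fun ψ : ℝ => (k : ℂ) * (ψ : ℂ) * Complex.I) ((k : ℂ) * 1 * Complex.I) 0 :=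
      ((Complex.ofRealCLM.hasDerivAt).const_mul (k : ℂ)).mul_const Complex.I
    have h5 := h4.cexp.mul_const (Hk k H q)
    simp only [Hk_rq]
    refine h5.congr_deriv ?_
    simp only [Complex.ofReal_zero, mul_zero, zero_mul, Complex.exp_zero]
    ring
  exact h2.unique h3

/-- reduction to the Fourier components -/
theorem field_of_Hk [MeasurableSpace SL(2, ℝ)] [BorelSpace SL(2, ℝ)] {μ : Measure SL(2, ℝ)} [IsFiniteMeasureOnCompacts μ]
    {W : SL(2, ℝ) → ℂ × ℂ} (hW : Continuous W) {H : ℂ × ℂ → ℂ}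
    (hH : ContDiff ℝ ∞ H) (hc : HasCompactSupport H)
    (hk : ∀ k : ℤ, ∫ g, fderiv ℝ (Hk k H) (iota g) (W g) ∂μ = 0) :
    ∫ g, fderiv ℝ H (iota g) (W g) ∂μ = 0 := by
  obtain ⟨R, hR⟩ : ∃ R : ℝ, ∀ q, q ∈ tsupport H → ‖q‖ ≤ R := by
    obtain ⟨R, hR⟩ := (IsCompact.isBounded hc).exists_norm_le
    exact ⟨R, hR⟩
  set C : Set SL(2, ℝ) := iota ⁻¹' Metric.closedBall 0 R with hC
  have hCc : IsCompact C := iota_compact (isCompact_closedBall 0 R)
  set D : ℝ → SL(2, ℝ) → ℂ := fun φ g => fderiv ℝ H (rq φ (iota g)) (rq φ (W g)) with hD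
  have hout : ∀ (φ : ℝ) (g : SL(2, ℝ)), g ∉ C → D φ g = 0 := by
    intro φ g hg
    have h1 : rq φ (iota g) ∉ tsupport H := by
      intro h
      apply hg
      have := hR _ h
      rw [norm_rq] at this
      simpa [hC] using this
    have h2 : fderiv ℝ H (rq φ (iota g)) = 0 := by
      by_contra h
      exact h1 (support_fderiv_subset ℝ h)
    simp only [hD]
    rw [h2]; rfl
  set τ : ℝ → ℂ := fun φ => ∫ g, D φ g ∂μ with hτ
  have hfc : Continuous (fderiv ℝ H) := hH.continuous_fderiv (by simp)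
  have hcont : Continuous (Function.uncurry D) := by
    have h1 : Continuous fun p : ℝ × SL(2, ℝ) => rq p.1 (iota p.2) :=
      continuous_rq_comp continuous_fst (iota_continuous.comp continuous_snd)
    have h2 : Continuous fun p : ℝ × SL(2, ℝ) => rq p.1 (W p.2) :=
      continuous_rq_comp continuous_fst (hW.comp continuous_snd)
    exact (hfc.comp h1).clm_apply h2
  have hτc : Continuous τ := by
    have h1 := continuous_parametric_integral_of_continuous (μ := μ) hcont hCc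
    refine h1.congr fun φ => ?_
    exact setIntegral_eq_integral_of_forall_compl_eq_zero fun g hg => hout φ g hg
  have hτp : Function.Periodic τ (2 * Real.pi) := by
    intro φ
    simp only [hτ, hD, rq_two_pi]
  have hz : ∀ k : ℤ, ∫ φ in (0 : ℝ)..(2 * Real.pi),
      Complex.exp (-(k : ℂ) * φ * Complex.I) * τ φ = 0 := by
    intro k
    have hsw := integral_swap (μ := μ) hCc (a := 0) (b := 2 * Real.pi)
      (f := fun (φ : ℝ) (g : SL(2, ℝ)) => Complex.exp (-(k : ℂ) * φ * Complex.I) * D φ g) ?_ ?_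
    · have e1 : ∀ g : SL(2, ℝ), ∫ φ in (0 : ℝ)..(2 * Real.pi),
          Complex.exp (-(k : ℂ) * φ * Complex.I) * D φ g =
          fderiv ℝ (Hk k H) (iota g) (W g) := fun g => (fderiv_Hk k hH (iota g) (W g)).symm
      simp only [e1, hk k, integral_const_mul] at hsw
      exact hsw.symm
    · have h1 : Continuous fun p : ℝ × SL(2, ℝ) =>
          Complex.exp (-(k : ℂ) * (p.1 : ℂ) * Complex.I) := by fun_prop
      exact h1.mul hcont
    · intro φ _ g hg
      simp only [hout φ g hg, mul_zero]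
  have h0 := fourier_unique hτc hτp hz 0
  simpa only [hτ, hD, rq_zero] using h0

/-! ## smoothness -/

section fac

variable {Γ : Subgroup SL(2, ℝ)} {ρ : ℍ → ℝ}

lemma ro_coe (ρ : ℍ → ℝ) (z : ℍ) : ro ρ (z : ℂ) = ρ z := by
  unfold ro
  rw [ofComplex_apply]

lemma Fac.cont (h : Fac Γ ρ) : Continuous ρ := by
  have h1 : Continuous fun z : ℍ => ro ρ (z : ℂ) :=
    h.smooth.continuousOn.comp_continuous UpperHalfPlane.continuous_coe fun z => z.im_pos
  simpa only [ro_coe] using h1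

lemma Fac.hasFDerivAt (h : Fac Γ ρ) {z : ℂ} (hz : z ∈ UH) :
    HasFDerivAt (ro ρ) (fderiv ℝ (ro ρ) z) z :=
  ((h.smooth.contDiffAt (isOpen_UH_FI.mem_nhds hz)).differentiableAt (by simp)).hasFDerivAt

lemma Fac.contPr (h : Fac Γ ρ) : Continuous (Pr ρ) := by
  have h1 : ContinuousOn (fderiv ℝ (ro ρ)) UH :=
    (h.smooth.fderiv_of_isOpen isOpen_UH_FI (m := ∞) (by simp)).continuousOn
  have hproj : Continuous fun g : SL(2, ℝ) => g • UpperHalfPlane.I :=
    continuous_id.smul continuous_const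
  have h2 : Continuous fun g : SL(2, ℝ) =>
      fderiv ℝ (ro ρ) ((g • UpperHalfPlane.I : ℍ) : ℂ) :=
    h1.comp_continuous (UpperHalfPlane.continuous_coe.comp hproj) fun g =>
      (g • UpperHalfPlane.I : ℍ).im_pos
  have h3 : Continuous fun g : SL(2, ℝ) => (iota g).2 := continuous_snd.comp iota_continuous
  have h4 : Continuous fun g : SL(2, ℝ) => 1 / den g Complex.I ^ 2 := by
    simp only [← iota_snd]
    exact continuous_const.div (h3.pow 2) fun g => pow_ne_zero 2 (iota_snd_ne g)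
  exact h2.clm_apply h4

/-- the factor `e^{2ρ}` as a complex function -/
def E2 (ρ : ℍ → ℝ) (z : ℂ) : ℂ := ((Real.exp (2 * ro ρ z) : ℝ) : ℂ)

lemma Fac.smooth_E2 (h : Fac Γ ρ) : ContDiffOn ℝ ∞ (E2 ρ) UH :=
  Complex.ofRealCLM.contDiff.comp_contDiffOn ((contDiffOn_const.mul h.smooth).exp)

lemma Fac.smooth_aR (h : Fac Γ ρ) : ContDiffOn ℝ ∞ (aR ρ) UH := by
  have h1 : ContDiffOn ℝ ∞ (fun z : ℂ => z.im) UH := Complex.imCLM.contDiff.contDiffOn
  exact Complex.ofRealCLM.contDiff.comp_contDiffOn (h1.mul h.smooth.neg.exp)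

/-- the coefficient of `om ^ (m + 1)` -/
def TA (ρ : ℍ → ℝ) (m : ℤ) (ζ : ℂ → ℂ) (z : ℂ) : ℂ :=
  -Complex.I * (E2 ρ z * (aR ρ z * dzb ζ z + m * dzb (aR ρ) z * ζ z))

/-- the coefficient of `om ^ (m - 1)` -/
def TB (ρ : ℍ → ℝ) (m : ℤ) (ζ : ℂ → ℂ) (z : ℂ) : ℂ :=
  Complex.I * (E2 ρ z * (aR ρ z * dz ζ z - m * dz (aR ρ) z * ζ z))

lemma TA_test (h : Fac Γ ρ) (m : ℤ) {ζ : ℂ → ℂ} (hζ : Test UH ζ) : Test UH (TA ρ m ζ) := by
  have h1 := (hζ.dzb.mul isOpen_UH_FI (h.smooth_E2.mul h.smooth_aR))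
  have h2 := (hζ.mul isOpen_UH_FI (h.smooth_E2.mul (contDiffOn_dzb isOpen_UH_FI h.smooth_aR)))
  have h3 := (h1.add (h2.smul (m : ℂ))).smul (-Complex.I)
  have e : TA ρ m ζ = fun z => -Complex.I * ((dzb ζ z * (E2 ρ z * aR ρ z)) +
      (m : ℂ) * (ζ z * (E2 ρ z * dzb (aR ρ) z))) := by
    funext z
    unfold TA
    ring
  rw [e]
  exact h3

lemma TB_test (h : Fac Γ ρ) (m : ℤ) {ζ : ℂ → ℂ} (hζ : Test UH ζ) : Test UH (TB ρ m ζ) := by
  have h1 := (hζ.dz.mul isOpen_UH_FI (h.smooth_E2.mul h.smooth_aR))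
  have h2 := (hζ.mul isOpen_UH_FI (h.smooth_E2.mul (contDiffOn_dz isOpen_UH_FI h.smooth_aR)))
  have h3 := (h1.add (h2.smul (-(m : ℂ)))).smul Complex.I
  have e : TB ρ m ζ = fun z => Complex.I * ((dz ζ z * (E2 ρ z * aR ρ z)) +
      (-(m : ℂ)) * (ζ z * (E2 ρ z * dz (aR ρ) z))) := by
    funext z
    unfold TB
    ring
  rw [e]
  exact h3

lemma fderiv_aR (h : Fac Γ ρ) {z : ℂ} (hz : z ∈ UH) (v : ℂ) :
    fderiv ℝ (aR ρ) z v = ((Real.exp (-(ro ρ z)) * (v.im - z.im * fderiv ℝ (ro ρ) z v) : ℝ) : ℂ) := by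
  have h1 : HasFDerivAt (fun z : ℂ => z.im) Complex.imCLM z := Complex.imCLM.hasFDerivAt
  have h2 := (h.hasFDerivAt hz).neg.exp
  have h3 := h1.mul h2
  have h4 := (Complex.ofRealCLM.hasFDerivAt).comp z h3
  have h5 : HasFDerivAt (aR ρ) _ z := h4
  rw [h5.fderiv]
  simp only [ContinuousLinearMap.comp_apply, Complex.ofRealCLM_apply]
  congr 1
  simp
  ring

lemma dz_aR (h : Fac Γ ρ) {z : ℂ} (hz : z ∈ UH) :
    dz (aR ρ) z = (Real.exp (-(ro ρ z)) : ℝ) * (-(Complex.I / 2) - z.im *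
      ((fderiv ℝ (ro ρ) z 1 : ℝ) - Complex.I * (fderiv ℝ (ro ρ) z Complex.I : ℝ)) / 2) := by
  unfold dz
  rw [fderiv_aR h hz, fderiv_aR h hz]
  simp only [Complex.one_im, Complex.I_im]
  push_cast
  ring

lemma dzb_aR (h : Fac Γ ρ) {z : ℂ} (hz : z ∈ UH) :
    dzb (aR ρ) z = (Real.exp (-(ro ρ z)) : ℝ) * (Complex.I / 2 - z.im *
      ((fderiv ℝ (ro ρ) z 1 : ℝ) + Complex.I * (fderiv ℝ (ro ρ) z Complex.I : ℝ)) / 2) := by
  unfold dzb
  rw [fderiv_aR h hz, fderiv_aR h hz]
  simp only [Complex.one_im, Complex.I_im]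
  push_cast
  ring

/-- `P ρ` in terms of the Wirtinger derivatives -/
lemma Pr_eq (ρ : ℍ → ℝ) (g : SL(2, ℝ)) :
    ((Pr ρ g : ℝ) : ℂ) = (((g • UpperHalfPlane.I : ℍ) : ℂ).im : ℂ) *
      (((fderiv ℝ (ro ρ) ((g • UpperHalfPlane.I : ℍ) : ℂ) 1 : ℝ) -
        Complex.I * (fderiv ℝ (ro ρ) ((g • UpperHalfPlane.I : ℍ) : ℂ) Complex.I : ℝ)) / 2 *
          (om g)⁻¹ +
      ((fderiv ℝ (ro ρ) ((g • UpperHalfPlane.I : ℍ) : ℂ) 1 : ℝ) +
        Complex.I * (fderiv ℝ (ro ρ) ((g • UpperHalfPlane.I : ℍ) : ℂ) Complex.I : ℝ)) / 2 *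
          om g) := by
  set z : ℂ := ((g • UpperHalfPlane.I : ℍ) : ℂ) with hz
  set j := (iota g).2 with hj
  have hj0 : j ≠ 0 := iota_snd_ne g
  have hjc : (starRingEnd ℂ) j ≠ 0 := by rwa [Ne, map_eq_zero]
  have him := im_smul_I g
  rw [← hj, ← hz] at him
  have hden : den g Complex.I = j := (iota_snd g).symm
  set v : ℂ := 1 / j ^ 2 with hv
  have hv1 : v = (z.im : ℂ) * (om g)⁻¹ := by
    unfold om
    rw [hv, ← hj]
    field_simp
    linear_combination -(1 : ℂ) * him
  have hv2 : (starRingEnd ℂ) v = (z.im : ℂ) * om g := by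
    rw [hv1, map_mul, Complex.conj_ofReal]
    congr 1
    unfold om
    rw [map_inv₀, map_div₀, Complex.conj_conj, inv_div]
  have hPr : Pr ρ g = v.re * fderiv ℝ (ro ρ) z 1 + v.im * fderiv ℝ (ro ρ) z Complex.I := by
    unfold Pr
    rw [hden, ← hv, ← hz]
    have h : v = (v.re : ℝ) • (1 : ℂ) + (v.im : ℝ) • Complex.I := by simp
    conv_lhs => rw [h]
    rw [map_add, map_smul, map_smul, smul_eq_mul, smul_eq_mul]
  have hre : (v.re : ℂ) = (v + (starRingEnd ℂ) v) / 2 := by
    rw [Complex.add_conj]; push_cast; ring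
  have hIm : (v.im : ℂ) = (v - (starRingEnd ℂ) v) / (2 * Complex.I) := by
    rw [Complex.sub_conj]
    have : Complex.I ≠ 0 := Complex.I_ne_zero
    field_simp
    push_cast
    ring
  rw [hPr]
  push_cast
  rw [hre, hIm, hv2, hv1]
  have hI : Complex.I ≠ 0 := Complex.I_ne_zero
  field_simp
  ring_nf
  rw [Complex.I_sq]
  ring

/-- the geodesic field with the density `e^{2ρ}` -/
def Wf (ρ : ℍ → ℝ) (g : SL(2, ℝ)) : ℂ × ℂ := Real.exp (2 * ρ (g • UpperHalfPlane.I)) • XV ρ g

lemma Wf_cont (h : Fac Γ ρ) : Continuous (Wf ρ) := by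
  have hproj : Continuous fun g : SL(2, ℝ) => g • UpperHalfPlane.I :=
    continuous_id.smul continuous_const
  have h1 : Continuous fun g : SL(2, ℝ) => ρ (g • UpperHalfPlane.I) := h.cont.comp hproj
  have h2 : Continuous fun g : SL(2, ℝ) => Vq (iota g) := continuous_Vq.comp iota_continuous
  have h3 : Continuous fun g : SL(2, ℝ) => Complex.I • iota g := by
    exact Continuous.smul (f := fun _ : SL(2, ℝ) => Complex.I) continuous_const iota_continuous
  unfold Wf XV
  exact (Real.continuous_exp.comp (continuous_const.mul h1)).smul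
    ((Real.continuous_exp.comp h1.neg).smul (h2.add ((h.contPr.div_const 2).smul h3)))

lemma Pr_neg (ρ : ℍ → ℝ) (g : SL(2, ℝ)) : Pr ρ (-g) = Pr ρ g := by
  have hsm : (-g) • UpperHalfPlane.I = g • UpperHalfPlane.I := by
    apply UpperHalfPlane.ext
    rw [smul_I_eq, smul_I_eq, iota_neg]
    simp
  unfold Pr
  rw [hsm, ← iota_snd, ← iota_snd, iota_neg]
  simp

lemma Wf_neg (ρ : ℍ → ℝ) (g : SL(2, ℝ)) : Wf ρ (-g) = -Wf ρ g := by
  have hsm : (-g) • UpperHalfPlane.I = g • UpperHalfPlane.I := by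
    apply UpperHalfPlane.ext
    rw [smul_I_eq, smul_I_eq, iota_neg]
    simp
  have h5 : Vq (-iota g) = -Vq (iota g) := by
    unfold Vq
    refine Prod.ext ?_ ?_ <;> simp [neg_div]
  unfold Wf XV
  rw [hsm, Pr_neg, iota_neg, h5, smul_neg, smul_neg, ← neg_add, smul_neg, smul_neg]

/-- the derivative of an even component along the geodesic field -/
lemma field_even (h : Fac Γ ρ) (m : ℤ) {H : ℂ × ℂ → ℂ} (hH : ContDiff ℝ ∞ H)
    (ht : Test UH (zet (Hk (2 * m) H))) (g : SL(2, ℝ)) :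
    fderiv ℝ (Hk (2 * m) H) (iota g) (Wf ρ g) =
      om g ^ (m + 1) * TA ρ m (zet (Hk (2 * m) H)) ((g • UpperHalfPlane.I : ℍ) : ℂ) +
      om g ^ (m - 1) * TB ρ m (zet (Hk (2 * m) H)) ((g • UpperHalfPlane.I : ℍ) : ℂ) := by
  have hxx := XX_even m hH ht g
  unfold XX at hxx
  have hrot := fderiv_Hk_rot (2 * m) hH (iota g)
  rw [Hk_even] at hrot
  unfold Wf XV
  rw [map_smul, map_smul, map_add, map_smul, hxx, hrot]
  set z : ℂ := ((g • UpperHalfPlane.I : ℍ) : ℂ) with hz
  have hzU : z ∈ UH := (g • UpperHalfPlane.I : ℍ).im_pos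
  have hro : ρ (g • UpperHalfPlane.I) = ro ρ z := (ro_coe ρ _).symm
  rw [hro]
  simp only [Complex.real_smul]
  have hP := Pr_eq ρ g
  rw [← hz] at hP
  have ho := om_ne g
  unfold cA cB TA TB E2 aR
  have hdz := dz_aR h hzU
  have hdzb := dzb_aR h hzU
  unfold aR at hdz hdzb
  rw [hdz, hdzb]
  push_cast at hP ⊢
  rw [hP, zpow_add_one₀ ho, zpow_sub_one₀ ho]
  generalize Complex.exp (2 * (ro ρ z : ℂ)) = e2
  generalize Complex.exp (-(ro ρ z : ℂ)) = e1
  linear_combination (om g ^ m * om g * e2 * e1 * m * zet (Hk (2 * m) H) z / 2 -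
    om g ^ m * (om g)⁻¹ * e2 * e1 * m * zet (Hk (2 * m) H) z / 2) * Complex.I_sq

end fac

/-- **infinitesimal invariance** -/
theorem stmtInf : StmtInf := by
  intro _ _ Γ ρ u μ _ hF hu hneg hcoef H hH hc
  have e0 : ∫ g, fderiv ℝ H (iota g) (XV ρ g) ∂(nuR ρ μ) =
      ∫ g, fderiv ℝ H (iota g) (Wf ρ g) ∂μ := by
    have hproj : Continuous fun g : SL(2, ℝ) => g • UpperHalfPlane.I :=
      continuous_id.smul continuous_const
    have hcn : Continuous fun g : SL(2, ℝ) =>
        ENNReal.ofReal (Real.exp (2 * ρ (g • UpperHalfPlane.I))) :=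
      ENNReal.continuous_ofReal.comp
        (Real.continuous_exp.comp (continuous_const.mul (hF.cont.comp hproj)))
    unfold nuR
    rw [integral_withDensity_eq_integral_toReal_smul hcn.measurable
      (ae_of_all _ fun g => ENNReal.ofReal_lt_top)]
    refine integral_congr_ae (ae_of_all _ fun g => ?_)
    simp only
    rw [ENNReal.toReal_ofReal (Real.exp_pos _).le]
    unfold Wf
    rw [map_smul]
  rw [e0]
  refine field_of_Hk (Wf_cont hF) hH hc fun k => ?_
  obtain ⟨R, hR0, hR⟩ : ∃ R : ℝ, 0 < R ∧ ∀ q, R < ‖q‖ → H q = 0 := by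
    obtain ⟨R, hR⟩ := (IsCompact.isBounded hc).exists_norm_le
    refine ⟨max R 1, lt_max_of_lt_right one_pos, fun q hq => ?_⟩
    apply image_eq_zero_of_notMem_tsupport
    intro h
    exact absurd (hR q h) (not_le.2 (lt_of_le_of_lt (le_max_left _ _) hq))
  rcases Int.even_or_odd' k with ⟨m, rfl | rfl⟩
  · -- even components
    have ht : Test UH (zet (Hk (2 * m) H)) :=
      zet_test (Hk_smooth _ hH) hR0 fun q hq => Hk_zero_of hR _ hq
    set ζ := zet (Hk (2 * m) H) with hζ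
    have hA := TA_test hF m ht
    have hB := TB_test hF m ht
    have cont : ∀ {f : ℂ → ℂ}, Test UH f → Continuous fun z : ℍ => f z := fun h =>
      h.smooth.continuous.comp UpperHalfPlane.continuous_coe
    have hdirc : Continuous fun g : SL(2, ℝ) => dirG g := by
      have h1 : Continuous fun g : SL(2, ℝ) => (iota g).2 := continuous_snd.comp iota_continuous
      simp only [dirG_eq]
      exact continuous_const.mul ((Complex.continuous_conj.comp h1).div h1 iota_snd_ne)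
    have hproj : Continuous fun g : SL(2, ℝ) => g • UpperHalfPlane.I :=
      continuous_id.smul continuous_const
    have integ : ∀ {f : ℂ → ℂ}, Test UH f → ∀ k : ℤ, Integrable (fun g : SL(2, ℝ) =>
        f ((g • UpperHalfPlane.I : ℍ) : ℂ) * (starRingEnd ℂ) (dirG g ^ k)) μ := by
      intro f hf k
      refine Continuous.integrable_of_hasCompactSupport ?_ ?_
      · refine ((cont hf).comp hproj).mul (Complex.continuous_conj.comp ?_)
        refine hdirc.zpow₀ k fun g => Or.inl ?_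
        intro h
        have := norm_dirG_FI g
        rw [h, norm_zero] at this
        exact zero_ne_one this
      · have hK : IsCompact ((fun g : SL(2, ℝ) => g • UpperHalfPlane.I) ⁻¹'
            tsupport fun z : ℍ => f z) :=
          isProperMap_smul_I.isCompact_preimage hf.compact_H
        refine HasCompactSupport.intro hK fun g hg => ?_
        have : f ((g • UpperHalfPlane.I : ℍ) : ℂ) = 0 :=
          image_eq_zero_of_notMem_tsupport (f := fun z : ℍ => f z) hg
        rw [this, zero_mul]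
    have e1 : ∀ g : SL(2, ℝ), fderiv ℝ (Hk (2 * m) H) (iota g) (Wf ρ g) =
        Complex.I ^ (m + 1) * (TA ρ m ζ ((g • UpperHalfPlane.I : ℍ) : ℂ) *
          (starRingEnd ℂ) (dirG g ^ (m + 1))) + Complex.I ^ (m - 1) *
          (TB ρ m ζ ((g • UpperHalfPlane.I : ℍ) : ℂ) * (starRingEnd ℂ) (dirG g ^ (m - 1))) := by
      intro g
      rw [field_even hF m hH ht, om_pow, om_pow]
      ring
    simp only [e1]
    rw [integral_add ((integ hA _).const_mul _) ((integ hB _).const_mul _), integral_const_mul,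
      integral_const_mul, hcoef (m + 1) (fun z => TA ρ m ζ z) (cont hA) hA.compact_H,
      hcoef (m - 1) (fun z => TB ρ m ζ z) (cont hB) hB.compact_H,
      integral_uhp (fun z => TA ρ m ζ z * u (m + 1) z),
      integral_uhp (fun z => TB ρ m ζ z * u (m - 1) z)]
    have hI : Complex.I ^ (m + 1) = Complex.I ^ m * Complex.I := zpow_add_one₀ Complex.I_ne_zero m
    have hI' : Complex.I ^ (m - 1) = Complex.I ^ m * (-Complex.I) := by
      rw [zpow_sub_one₀ Complex.I_ne_zero, Complex.inv_I]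
    rw [hI, hI', mul_assoc, mul_assoc, ← mul_add, ← integral_const_mul, ← integral_const_mul,
      ← integral_add ((integrable_test hA (hu.loc _)).const_mul _)
        ((integrable_test hB (hu.loc _)).const_mul _)]
    have htr := hu.transport m ζ ht
    have e2 : ∫ z in UH, (Complex.I * (TA ρ m ζ z * u (m + 1) z / (z.im : ℂ) ^ 2) +
        -Complex.I * (TB ρ m ζ z * u (m - 1) z / (z.im : ℂ) ^ 2)) =
        ∫ z, ((aR ρ z * dz ζ z - m * dz (aR ρ) z * ζ z) * u (m - 1) z
      + (aR ρ z * dzb ζ z + m * dzb (aR ρ) z * ζ z) * u (m + 1) z) * gR ρ z := by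
      have e3 : ∫ z in UH, ((aR ρ z * dz ζ z - m * dz (aR ρ) z * ζ z) * u (m - 1) z
          + (aR ρ z * dzb ζ z + m * dzb (aR ρ) z * ζ z) * u (m + 1) z) * gR ρ z =
          ∫ z, ((aR ρ z * dz ζ z - m * dz (aR ρ) z * ζ z) * u (m - 1) z
          + (aR ρ z * dzb ζ z + m * dzb (aR ρ) z * ζ z) * u (m + 1) z) * gR ρ z := by
        refine setIntegral_eq_integral_of_forall_compl_eq_zero fun z hz => ?_
        have hz' : z ∉ tsupport ζ := fun h => hz (ht.sub h)
        have f1 : ζ z = 0 := image_eq_zero_of_notMem_tsupport hz'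
        have f2 : dz ζ z = 0 :=
          image_eq_zero_of_notMem_tsupport fun h => hz' (tsupport_dz_subset ζ h)
        have f3 : dzb ζ z = 0 :=
          image_eq_zero_of_notMem_tsupport fun h => hz' (tsupport_dzb_subset ζ h)
        rw [f1, f2, f3]; ring
      rw [← e3]
      refine setIntegral_congr_fun isOpen_UH_FI.measurableSet fun z _ => ?_
      unfold TA TB E2 gR
      push_cast
      linear_combination (-(Complex.exp (2 * (ro ρ z : ℂ))) * (aR ρ z * dzb ζ z +
        m * dzb (aR ρ) z * ζ z) * u (m + 1) z / (z.im : ℂ) ^ 2 -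
        Complex.exp (2 * (ro ρ z : ℂ)) * (aR ρ z * dz ζ z - m * dz (aR ρ) z * ζ z) *
          u (m - 1) z / (z.im : ℂ) ^ 2) * Complex.I_sq
    rw [e2, htr, mul_zero]
  · -- odd components
    set K := Hk (2 * m + 1) H with hK
    have hodd : ∀ q, K (-q) = -K q := Hk_neg ⟨m, rfl⟩ H
    have hKd : Differentiable ℝ K := (Hk_smooth _ hH).differentiable (by simp)
    have hXX : ∀ g : SL(2, ℝ), fderiv ℝ K (iota (-g)) (Wf ρ (-g)) =
        -fderiv ℝ K (iota g) (Wf ρ g) := by
      intro g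
      set q := iota g with hq
      have h1 : HasFDerivAt (fun q => K (-q)) (-(fderiv ℝ K (-q))) q := by
        have := (hKd (-q)).hasFDerivAt.comp q (hasFDerivAt_id q).neg
        refine this.congr_fderiv ?_
        ext v <;> simp
      have h2 : HasFDerivAt (fun q => K (-q)) (-(fderiv ℝ K q)) q := by
        have := (hKd q).hasFDerivAt.neg
        exact this.congr_of_eventuallyEq (Eventually.of_forall fun q => hodd q)
      have h3 := h1.unique h2
      have h4 : fderiv ℝ K (-q) = fderiv ℝ K q := neg_injective h3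
      rw [iota_neg, ← hq, h4, Wf_neg, map_neg]
    have hme : MeasurableEmbedding fun g : SL(2, ℝ) => -g := negH.measurableEmbedding
    have h1 : ∫ g, fderiv ℝ K (iota g) (Wf ρ g) ∂μ = -∫ g, fderiv ℝ K (iota g) (Wf ρ g) ∂μ := by
      conv_lhs => rw [← hneg]
      rw [hme.integral_map, integral_congr_ae (ae_of_all _ hXX)]
      exact integral_neg _
    have h2 : (2 : ℂ) * ∫ g, fderiv ℝ K (iota g) (Wf ρ g) ∂μ = 0 := by
      linear_combination h1
    exact (mul_eq_zero.1 h2).resolve_left two_ne_zero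

end

end NC

end QE
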