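import Pool.Agent.NCV.InvB

/-!
# Infinitesimal invariance implies invariance (module NC_INV, helper38)
-/

open MeasureTheory Filter Topology Set
open UpperHalfPlane hiding I
open scoped ContDiff MatrixGroups ENNReal NNReal

namespace QE

namespace NC

namespace Inv

noncomputable section

variable {ρ : ℍ → ℝ} {Φ : ℝ → SL(2, ℝ) → SL(2, ℝ)}

theorem mk_deriv {a b : ℝ → ℝ} {a' b' t : ℝ} (ha : HasDerivAt a a' t) (hb : HasDerivAt b b' t) :
    HasDerivAt (fun s => (⟨a s, b s⟩ : ℂ)) ⟨a', b'⟩ t := by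
  have h := (ha.ofReal_comp).add ((hb.ofReal_comp).mul_const Complex.I)
  have e1 : (fun s => (⟨a s, b s⟩ : ℂ)) = fun s => ((a s : ℝ) : ℂ) + ((b s : ℝ) : ℂ) * Complex.I :=
    funext fun s => Complex.mk_eq_add_mul_I _ _
  rw [e1, Complex.mk_eq_add_mul_I]
  exact h

/-- the flow in linear coordinates -/
theorem iota_deriv (hΦ : GFlow ρ Φ) (g : SL(2, ℝ)) (t : ℝ) :
    HasDerivAt (fun s => iota (Φ s g)) (XV ρ (Φ t g)) t := by
  have h1 := (mk_deriv (Fl.der01 hΦ g t) (Fl.der00 hΦ g t)).prodMk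
    (mk_deriv (Fl.der11 hΦ g t) (Fl.der10 hΦ g t))
  refine h1.congr_deriv ?_
  unfold XV Vq iota Fl.ca Fl.cb
  generalize Real.exp (-ρ (Φ t g • UpperHalfPlane.I)) = E
  generalize Pr ρ (Φ t g) = P
  refine Prod.ext (Complex.ext ?_ ?_) (Complex.ext ?_ ?_)
  · simp
    ring
  · simp
    ring
  · simp
    ring
  · simp
    ring

theorem XV_cont (h1 : Continuous ρ) (h2 : Continuous (Pr ρ)) : Continuous (XV ρ) := by
  have h3 : Continuous fun g : SL(2, ℝ) => g • UpperHalfPlane.I := continuous_id.smul continuous_const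
  have h4 : Continuous fun g : SL(2, ℝ) => Real.exp (-ρ (g • UpperHalfPlane.I)) :=
    Real.continuous_exp.comp (h1.comp h3).neg
  have h5 : Continuous fun g : SL(2, ℝ) => Vq (iota g) := continuous_Vq.comp iota_continuous
  have h6 : Continuous fun g : SL(2, ℝ) => (Pr ρ g / 2) • (Complex.I • iota g) :=
    (h2.div_const 2).smul (iota_continuous.const_smul Complex.I)
  exact h4.smul (h5.add h6)

theorem sc_deriv (l : ℝ) {c : ℝ → ℂ × ℂ} {w : ℂ × ℂ} {t : ℝ} (h : HasDerivAt c w t) :
    HasDerivAt (fun s => sc l (c s)) (sc l w) t := by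
  have h1 : HasDerivAt (fun s => (c s).1) w.1 t :=
    (ContinuousLinearMap.fst ℝ ℂ ℂ).hasFDerivAt.comp_hasDerivAt t h
  have h2 : HasDerivAt (fun s => (c s).2) w.2 t :=
    (ContinuousLinearMap.snd ℝ ℂ ℂ).hasFDerivAt.comp_hasDerivAt t h
  exact (h1.const_smul l).prodMk h2

variable [MeasurableSpace SL(2, ℝ)] [BorelSpace SL(2, ℝ)]

/-- **the integral of the derivative of a Lipschitz function along the flow vanishes** -/
theorem int_zero {ν : Measure SL(2, ℝ)} [IsFiniteMeasureOnCompacts ν]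
    (h1 : Continuous ρ) (h2 : Continuous (Pr ρ)) (hΦ : GFlow ρ Φ)
    (hν : ∀ H : ℂ × ℂ → ℂ, ContDiff ℝ ∞ H → HasCompactSupport H →
      ∫ g, fderiv ℝ H (iota g) (XV ρ g) ∂ν = 0)
    {f Y : SL(2, ℝ) → ℂ} {R M C : ℝ} (hR : 0 ≤ R) (hM : 0 ≤ M) (hC : 0 ≤ C)
    (b1 : ∀ g, R < ‖iota g‖ → f g = 0) (b2 : ∀ v w, ‖f v - f w‖ ≤ C * ‖iota v - iota w‖)
    (b3 : ∀ g, ‖f g‖ ≤ M) (hY : Continuous Y)
    (hd : ∀ g, HasDerivAt (fun s => f (Φ s g)) (Y g) 0) : ∫ g, Y g ∂ν = 0 := by
  obtain ⟨K, hK⟩ := ext_lip hR hM hC b1 b2 b3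
  have hX := XV_cont h1 h2
  set W : ℂ × ℂ → ℂ × ℂ := fun q => chi (dt q) • sc (dt q) (XV ρ (pj q)) with hW
  set Z : ℂ × ℂ → ℂ := fun q => chi (dt q) • (eta (dt q) • Y (pj q)) with hZ
  have hχ : Continuous fun q : ℂ × ℂ => chi (dt q) := continuous_chi.comp continuous_dt
  have hη : Continuous fun q : ℂ × ℂ => eta (dt q) := continuous_eta.comp continuous_dt
  have cW : Continuous W := by
    refine cont_cut hχ (fun q hq => chi_zero hq) ?_
    have h5 : ContinuousOn (fun q => XV ρ (pj q)) {q | 0 < dt q} :=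
      hX.comp_continuousOn continuousOn_pj
    have h6 : ContinuousOn (fun q => (XV ρ (pj q)).1) {q | 0 < dt q} :=
      continuous_fst.comp_continuousOn h5
    have h7 : ContinuousOn (fun q => (XV ρ (pj q)).2) {q | 0 < dt q} :=
      continuous_snd.comp_continuousOn h5
    exact (continuous_dt.continuousOn.smul h6).prodMk h7
  have cZ : Continuous Z := by
    refine cont_cut hχ (fun q hq => chi_zero hq) ?_
    exact hη.continuousOn.smul (hY.comp_continuousOn continuousOn_pj)
  have hline : ∀ q, HasLineDerivAt ℝ (ext f) (Z q) q (W q) := by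
    intro q
    by_cases h : 0 < dt q
    · have e1 : HasDerivAt (fun s => sc (dt q) (iota (Φ s (pj q)))) (sc (dt q) (XV ρ (pj q))) 0 := by
        have := sc_deriv (dt q) (iota_deriv hΦ (pj q) 0)
        rwa [hΦ.zero] at this
      have e2 : HasDerivAt (fun s => ext f (sc (dt q) (iota (Φ s (pj q)))))
          (eta (dt q) • Y (pj q)) 0 := by
        have e3 : (fun s => ext f (sc (dt q) (iota (Φ s (pj q))))) =
            fun s => eta (dt q) • f (Φ s (pj q)) := by
          funext s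
          unfold ext
          rw [dt_sc, dt_iota, mul_one, pj_sc_iota h]
        rw [e3]
        exact (hd (pj q)).const_smul (eta (dt q))
      have e4 := line_of_curve hK e1 e2
      simp only [hΦ.zero, sc_iota_pj h] at e4
      exact e4.smul (chi (dt q))
    · have h0 : chi (dt q) = 0 := chi_zero (by linarith)
      simp only [hW, hZ, h0, zero_smul]
      unfold HasLineDerivAt
      simp only [smul_zero, add_zero]
      exact hasDerivAt_const _ _
  set μ : Measure (ℂ × ℂ) := Measure.addHaar with hμ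
  have hWi : ∀ g, W (iota g) = XV ρ g := by
    intro g
    simp only [hW]
    rw [dt_iota, chi_one, one_smul, sc_one, pj_iota]
  have hZi : ∀ g, Z (iota g) = Y g := by
    intro g
    simp only [hZ]
    rw [dt_iota, chi_one, one_smul, eta_one, one_smul, pj_iota]
  have hsupp : HasCompactSupport (ext f) := by
    refine HasCompactSupport.intro (isCompact_closedBall (0 : ℂ × ℂ) (2 * R)) fun q hq => ?_
    rw [mem_closedBall_zero_iff, not_le] at hq
    exact ext_supp b1 hq
  have hz : ∀ n, ∫ g, fderiv ℝ (Fried.mol μ (ext f) n) (iota g) (XV ρ g) ∂ν = 0 := fun n =>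
    hν _ (Fried.mol_smooth hK.continuous n) (Fried.mol_supp hsupp n)
  set S : Set SL(2, ℝ) := iota ⁻¹' Metric.closedBall (0 : ℂ × ℂ) (2 * R + 1) with hS
  have hSc : IsCompact S := iota_compact (isCompact_closedBall _ _)
  have hlim : Tendsto (fun n => ∫ g, fderiv ℝ (Fried.mol μ (ext f) n) (iota g) (XV ρ g) ∂ν) atTop
      (𝓝 (∫ g, Y g ∂ν)) := by
    refine tendsto_integral_of_dominated_convergence (S.indicator fun g => K * ‖XV ρ g‖) ?_ ?_ ?_ ?_
    · intro n
      have h5 : Continuous (fderiv ℝ (Fried.mol μ (ext f) n)) :=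
        (Fried.mol_smooth hK.continuous n).continuous_fderiv (by simp)
      exact ((h5.comp iota_continuous).clm_apply hX).aestronglyMeasurable
    · refine (integrable_indicator_iff hSc.isClosed.measurableSet).2 ?_
      exact (continuous_const.mul hX.norm).continuousOn.integrableOn_compact hSc
    · intro n
      refine ae_of_all _ fun g => ?_
      by_cases hg : g ∈ S
      · rw [indicator_of_mem hg]
        refine (ContinuousLinearMap.le_opNorm _ _).trans ?_
        exact mul_le_mul_of_nonneg_right (Fried.mol_fderiv hK n _) (norm_nonneg _)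
      · rw [indicator_of_notMem hg]
        have hg' : 2 * R + 1 < ‖iota g‖ := by
          by_contra hc
          push Not at hc
          exact hg (mem_closedBall_zero_iff.2 hc)
        rw [Fried.mol_zero (fun q hq => ext_supp b1 hq) n hg']
        simp
    · refine ae_of_all _ fun g => ?_
      have := Fried.mol_tendsto (μ := μ) hK cW cZ hline (iota g)
      rwa [hWi, hZi] at this
  simp only [hz] at hlim
  exact (tendsto_nhds_unique hlim tendsto_const_nhds)

omit [MeasurableSpace SL(2, ℝ)] [BorelSpace SL(2, ℝ)] in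
theorem dd_le (v w : SL(2, ℝ)) {R : ℝ} (hR : ∀ i j, |v i j| ≤ R) :
    dd v w ≤ 8 * R * ‖iota v - iota w‖ := by
  have hR0 : 0 ≤ R := (abs_nonneg _).trans (hR 0 0)
  set N := ‖iota v - iota w‖ with hN
  have a0 : ∀ i, |w i 0 - v i 0| ≤ N := by
    intro i
    rw [abs_sub_comm]
    fin_cases i
    · exact (Complex.abs_im_le_norm ((iota v - iota w).1)).trans (norm_fst_le _)
    · exact (Complex.abs_im_le_norm ((iota v - iota w).2)).trans (norm_snd_le _)
  have a1 : ∀ i, |w i 1 - v i 1| ≤ N := by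
    intro i
    rw [abs_sub_comm]
    fin_cases i
    · exact (Complex.abs_re_le_norm ((iota v - iota w).1)).trans (norm_fst_le _)
    · exact (Complex.abs_re_le_norm ((iota v - iota w).2)).trans (norm_snd_le _)
  have hdet : v 0 0 * v 1 1 - v 0 1 * v 1 0 = 1 := by
    have h := v.2
    rw [Matrix.det_fin_two] at h
    exact h
  have hm : ∀ {x y : ℝ}, |x| ≤ R → |y| ≤ N → |x * y| ≤ R * N := by
    intro x y hx hy
    rw [abs_mul]
    exact mul_le_mul hx hy (abs_nonneg _) hR0
  have e : dd v w = |v 1 1 * w 0 0 - v 0 1 * w 1 0 - 1| + |v 1 1 * w 0 1 - v 0 1 * w 1 1| +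
      |-(v 1 0 * w 0 0) + v 0 0 * w 1 0| + |-(v 1 0 * w 0 1) + v 0 0 * w 1 1 - 1| := by
    unfold dd nn
    rw [Fl.ent00, Fl.ent01, Fl.ent10, Fl.ent11]
  have b1 : |v 1 1 * w 0 0 - v 0 1 * w 1 0 - 1| ≤ 2 * (R * N) := by
    have : v 1 1 * w 0 0 - v 0 1 * w 1 0 - 1 =
        v 1 1 * (w 0 0 - v 0 0) - v 0 1 * (w 1 0 - v 1 0) := by linear_combination hdet
    rw [this]
    refine (abs_sub _ _).trans ?_
    linarith [hm (hR 1 1) (a0 0), hm (hR 0 1) (a0 1)]
  have b2 : |v 1 1 * w 0 1 - v 0 1 * w 1 1| ≤ 2 * (R * N) := by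
    have : v 1 1 * w 0 1 - v 0 1 * w 1 1 =
        v 1 1 * (w 0 1 - v 0 1) - v 0 1 * (w 1 1 - v 1 1) := by ring
    rw [this]
    refine (abs_sub _ _).trans ?_
    linarith [hm (hR 1 1) (a1 0), hm (hR 0 1) (a1 1)]
  have b3 : |-(v 1 0 * w 0 0) + v 0 0 * w 1 0| ≤ 2 * (R * N) := by
    have : -(v 1 0 * w 0 0) + v 0 0 * w 1 0 =
        v 0 0 * (w 1 0 - v 1 0) - v 1 0 * (w 0 0 - v 0 0) := by ring
    rw [this]
    refine (abs_sub _ _).trans ?_
    linarith [hm (hR 0 0) (a0 1), hm (hR 1 0) (a0 0)]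
  have b4 : |-(v 1 0 * w 0 1) + v 0 0 * w 1 1 - 1| ≤ 2 * (R * N) := by
    have : -(v 1 0 * w 0 1) + v 0 0 * w 1 1 - 1 =
        v 0 0 * (w 1 1 - v 1 1) - v 1 0 * (w 0 1 - v 0 1) := by linear_combination hdet
    rw [this]
    refine (abs_sub _ _).trans ?_
    linarith [hm (hR 0 0) (a1 1), hm (hR 1 0) (a1 0)]
  rw [e]
  linarith

end

end Inv

open _root_.QE.NC.Inv in
/-- **infinitesimal invariance implies invariance** -/
theorem stmtInv (hLip : StmtLip) (hFl : StmtFl) : StmtInv := by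
  intro _ _ Γ ρ Φ ν _ hF hΦ hν t
  obtain ⟨-, -, hρc, hPc, -, -⟩ := hLip Γ ρ hF
  obtain ⟨c, L, hc1, hL, hPF⟩ := hFl Γ ρ Φ hF hΦ
  have hX := XV_cont hρc hPc
  have hcont : ∀ s, Continuous (Φ s) := fun s => hΦ.cont.comp (continuous_const.prodMk continuous_id)
  have hinv1 : ∀ s g, Φ (-s) (Φ s g) = g := fun s g => by rw [← hΦ.add, neg_add_cancel, hΦ.zero]
  have hinv2 : ∀ s g, Φ s (Φ (-s) g) = g := fun s g => by rw [← hΦ.add, add_neg_cancel, hΦ.zero]
  let e : SL(2, ℝ) ≃ₜ SL(2, ℝ) :=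
    { toFun := Φ t
      invFun := Φ (-t)
      left_inv := hinv1 t
      right_inv := hinv2 t
      continuous_toFun := hcont t
      continuous_invFun := hcont (-t) }
  have hme : MeasurableEmbedding (Φ t) := e.measurableEmbedding
  have : IsFiniteMeasureOnCompacts (Measure.map (Φ t) ν) := by
    refine ⟨fun K hK => ?_⟩
    rw [hme.map_apply]
    exact (e.isCompact_preimage.2 hK).measure_lt_top
  refine measure_ext_iota fun H hH hc => ?_
  rw [hme.integral_map]
  have hHd : Differentiable ℝ H := hH.differentiable (by simp)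
  have hHf : Continuous (fderiv ℝ H) := hH.continuous_fderiv (by simp)
  -- the derivative along the flow
  have hder : ∀ (g : SL(2, ℝ)) (s : ℝ), HasDerivAt (fun r => H (iota (Φ r g)))
      (fderiv ℝ H (iota (Φ s g)) (XV ρ (Φ s g))) s := fun g s =>
    (hHd (iota (Φ s g))).hasFDerivAt.comp_hasDerivAt s (iota_deriv hΦ g s)
  have hYc : Continuous (Function.uncurry fun (s : ℝ) (g : SL(2, ℝ)) =>
      fderiv ℝ H (iota (Φ s g)) (XV ρ (Φ s g))) :=
    (hHf.comp (iota_continuous.comp hΦ.cont)).clm_apply (hX.comp hΦ.cont)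
  obtain ⟨M, hM⟩ := hH.continuous.bounded_above_of_compact_support hc
  have hM0 : 0 ≤ M := (norm_nonneg _).trans (hM 0)
  obtain ⟨KH, hKH⟩ := hH.lipschitzWith_of_hasCompactSupport hc (by simp)
  -- all times
  have hzero : ∀ s, ∫ g, fderiv ℝ H (iota (Φ s g)) (XV ρ (Φ s g)) ∂ν = 0 := by
    intro s
    -- bounds of the support
    have hk : IsCompact (iota ⁻¹' tsupport H) := iota_compact hc
    obtain ⟨R₁, hR₁⟩ := (hk.image iota_continuous).isBounded.exists_norm_le
    obtain ⟨R₂, hR₂⟩ := ((hk.image (hcont (-s))).image iota_continuous).isBounded.exists_norm_le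
    set R : ℝ := max (max R₁ R₂) 0 with hRdef
    have hR0 : 0 ≤ R := le_max_right _ _
    have hs1 : ∀ g, H (iota (Φ s g)) ≠ 0 → ‖iota (Φ s g)‖ ≤ R ∧ ‖iota g‖ ≤ R := by
      intro g hg
      have h5 : Φ s g ∈ iota ⁻¹' tsupport H := subset_tsupport _ hg
      refine ⟨(hR₁ _ ⟨_, h5, rfl⟩).trans ((le_max_left _ _).trans (le_max_left _ _)), ?_⟩
      refine (hR₂ _ ⟨_, ⟨_, h5, rfl⟩, ?_⟩).trans ((le_max_right _ _).trans (le_max_left _ _))
      rw [hinv1]
    set A : ℝ := c * Real.exp (L * |s|) with hA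
    have hA0 : 0 ≤ A := by positivity
    set C : ℝ := KH * (R * (A * (8 * R))) with hC
    have hC0 : 0 ≤ C := by positivity
    have key : ∀ v w, H (iota (Φ s v)) ≠ 0 →
        ‖H (iota (Φ s v)) - H (iota (Φ s w))‖ ≤ C * ‖iota v - iota w‖ := by
      intro v w hv
      obtain ⟨k1, k2⟩ := hs1 v hv
      have e1 := hKH.dist_le_mul (iota (Φ s v)) (iota (Φ s w))
      rw [dist_eq_norm, dist_eq_norm, norm_sub_rev (iota (Φ s v))] at e1
      have e2 := LipAux.norm_iota_sub (Φ s v) (Φ s w) (LipAux.entry_le _ k1)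
      have e3 := hPF.dflow v w s
      have e4 := dd_le v w (LipAux.entry_le _ k2)
      have e5 : dd (Φ s v) (Φ s w) ≤ A * (8 * R * ‖iota v - iota w‖) :=
        e3.trans (mul_le_mul_of_nonneg_left e4 hA0)
      calc _ ≤ (KH : ℝ) * ‖iota (Φ s w) - iota (Φ s v)‖ := e1
        _ ≤ KH * (R * (A * (8 * R * ‖iota v - iota w‖))) :=
            mul_le_mul_of_nonneg_left (e2.trans (mul_le_mul_of_nonneg_left e5 hR0)) KH.coe_nonneg
        _ = C * ‖iota v - iota w‖ := by rw [hC]; ring
    refine int_zero (f := fun g => H (iota (Φ s g))) hρc hPc hΦ hν hR0 hM0 hC0 ?_ ?_ ?_ ?_ ?_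
    · intro g hg
      by_contra hne
      exact absurd (hs1 g hne).2 (not_le.2 hg)
    · intro v w
      by_cases hv : H (iota (Φ s v)) = 0
      · by_cases hw : H (iota (Φ s w)) = 0
        · simp only [hv, hw, sub_zero, norm_zero]; positivity
        · rw [norm_sub_rev (H (iota (Φ s v))), norm_sub_rev (iota v)]
          exact key w v hw
      · exact key v w hv
    · exact fun g => hM _
    · exact hYc.comp (continuous_const.prodMk continuous_id)
    · intro g
      have h5 := hder g s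
      have h6 : HasDerivAt (fun r : ℝ => s + r) 1 0 := (hasDerivAt_id (0 : ℝ)).const_add s
      have h7 : HasDerivAt (fun r => H (iota (Φ r g)))
          (fderiv ℝ H (iota (Φ s g)) (XV ρ (Φ s g))) ((fun r : ℝ => s + r) 0) := by
        simpa using h5
      have h8 := h7.scomp (0 : ℝ) h6
      rw [one_smul] at h8
      refine h8.congr_of_eventuallyEq (Eventually.of_forall fun r => ?_)
      show H (iota (Φ s (Φ r g))) = H (iota (Φ (s + r) g))
      rw [hΦ.add]
  -- Fubini
  set KK : Set SL(2, ℝ) := (fun p : ℝ × SL(2, ℝ) => Φ (-p.1) p.2) '' (uIcc 0 t ×ˢ (iota ⁻¹' tsupport H))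
    with hKK
  have hKKc : IsCompact KK := by
    refine (isCompact_uIcc.prod (iota_compact hc)).image ?_
    exact hΦ.cont.comp (continuous_fst.neg.prodMk continuous_snd)
  have hout : ∀ r ∈ uIcc 0 t, ∀ g ∉ KK, fderiv ℝ H (iota (Φ r g)) (XV ρ (Φ r g)) = 0 := by
    intro r hr g hg
    have h5 : iota (Φ r g) ∉ tsupport H := by
      intro h
      refine hg ⟨(r, Φ r g), ⟨hr, h⟩, ?_⟩
      simp only [hinv1]
    have h6 : fderiv ℝ H (iota (Φ r g)) = 0 := by
      by_contra h
      exact h5 (support_fderiv_subset ℝ h)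
    rw [h6]; rfl
  have hswap := integral_swap (μ := ν) hKKc hYc hout
  simp only [hzero, intervalIntegral.integral_zero] at hswap
  have hftc : ∀ g : SL(2, ℝ), ∫ r in (0 : ℝ)..t, fderiv ℝ H (iota (Φ r g)) (XV ρ (Φ r g)) =
      H (iota (Φ t g)) - H (iota g) := by
    intro g
    have h5 := intervalIntegral.integral_eq_sub_of_hasDerivAt (a := 0) (b := t)
      (fun r _ => hder g r)
      ((hYc.comp (continuous_id.prodMk continuous_const)).intervalIntegrable _ _)
    rw [h5, hΦ.zero]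
  simp only [hftc] at hswap
  have i1 : Integrable (fun g => H (iota (Φ t g))) ν := by
    refine Continuous.integrable_of_hasCompactSupport
      (hH.continuous.comp (iota_continuous.comp (hcont t))) ?_
    refine HasCompactSupport.intro (K := Φ (-t) '' (iota ⁻¹' tsupport H))
      ((iota_compact hc).image (hcont _)) fun g hg => ?_
    by_contra h
    exact hg ⟨Φ t g, subset_tsupport _ h, hinv1 t g⟩
  have i2 : Integrable (fun g => H (iota g)) ν := integrable_iota hH.continuous hc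
  have e2 := integral_sub i1 i2
  rw [hswap] at e2
  exact sub_eq_zero.1 e2.symm

end NC

end QE
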