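import Pool.Agent.NCV.Stmts

/-!
# Closed surfaces of negative curvature: tools for the mass of pairs (module NC_TOOLS, helper88)

For `G = SL(2, ℝ)`, a flow `Φ` and a measure `ν` as in `PairSys`, `MassSys`: the flow invariance of
the integrals over pairs modulo `Γ`, the change of the base point, the triple estimate, the averaging
argument, and measurability lemmas.
-/

open MeasureTheory Filter Topology Set
open UpperHalfPlane hiding I
open scoped ContDiff MatrixGroups ENNReal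

namespace QE

namespace NC

noncomputable section

/-! ### continuity of the distance -/

theorem continuous_entry (i j : Fin 2) : Continuous fun g : SL(2, ℝ) => g i j :=
  (continuous_apply_apply i j).comp continuous_subtype_val

theorem continuous_nn : Continuous nn := by
  unfold nn
  exact ((((continuous_entry 0 0).sub continuous_const).abs.add (continuous_entry 0 1).abs).add
    (continuous_entry 1 0).abs).add ((continuous_entry 1 1).sub continuous_const).abs

theorem continuous_dd : Continuous fun p : SL(2, ℝ) × SL(2, ℝ) => dd p.1 p.2 := by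
  unfold dd
  exact continuous_nn.comp (continuous_fst.inv.mul continuous_snd)

theorem dd_left (γ v w : SL(2, ℝ)) : dd (γ * v) (γ * w) = dd v w := by
  unfold dd
  rw [show (γ * v)⁻¹ * (γ * w) = v⁻¹ * w by group]

theorem dd_self (v : SL(2, ℝ)) : dd v v = 0 := by
  simp [dd, nn]

theorem dd_nonneg (v w : SL(2, ℝ)) : 0 ≤ dd v w := by
  unfold dd nn
  positivity

/-! ### the flow as a homeomorphism -/

section flow

variable {Γ : Subgroup SL(2, ℝ)} {Φ : ℝ → SL(2, ℝ) → SL(2, ℝ)}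
  {x y τ : SL(2, ℝ) → SL(2, ℝ) → ℝ} {κ : SL(2, ℝ) → ℝ} {c r L k₀ k₁ : ℝ}

theorem PairSys.cont_flow (hP : PairSys Γ Φ x y τ κ c r L k₀ k₁) (s : ℝ) : Continuous (Φ s) :=
  hP.cont.comp (continuous_const.prodMk continuous_id)

theorem PairSys.neg_flow (hP : PairSys Γ Φ x y τ κ c r L k₀ k₁) (s : ℝ) (g : SL(2, ℝ)) :
    Φ (-s) (Φ s g) = g := by
  rw [← hP.add, neg_add_cancel, hP.zero]

theorem PairSys.flow_neg (hP : PairSys Γ Φ x y τ κ c r L k₀ k₁) (s : ℝ) (g : SL(2, ℝ)) :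
    Φ s (Φ (-s) g) = g := by
  rw [← hP.add, add_neg_cancel, hP.zero]

/-- the time `s` map as a homeomorphism -/
def PairSys.homeo (hP : PairSys Γ Φ x y τ κ c r L k₀ k₁) (s : ℝ) : SL(2, ℝ) ≃ₜ SL(2, ℝ) where
  toFun := Φ s
  invFun := Φ (-s)
  left_inv := hP.neg_flow s
  right_inv := hP.flow_neg s
  continuous_toFun := hP.cont_flow s
  continuous_invFun := hP.cont_flow (-s)

end flow

variable [MeasurableSpace SL(2, ℝ)] [BorelSpace SL(2, ℝ)]
variable {Γ : Subgroup SL(2, ℝ)} {D : Set ℍ} {Φ : ℝ → SL(2, ℝ) → SL(2, ℝ)}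
  {x y τ : SL(2, ℝ) → SL(2, ℝ) → ℝ} {κ : SL(2, ℝ) → ℝ} {c r L k₀ k₁ : ℝ}
  {ν : Measure SL(2, ℝ)}

/-! ### measurability -/

/-- continuous functions of pairs are measurable -/
theorem meas_pair {f : SL(2, ℝ) × SL(2, ℝ) → ℝ} (hf : Continuous f) : Measurable f :=
  hf.measurable

theorem meas_dd : Measurable fun p : SL(2, ℝ) × SL(2, ℝ) => dd p.1 p.2 :=
  continuous_dd.measurable

theorem measSet_dd_le (a : ℝ) : MeasurableSet {p : SL(2, ℝ) × SL(2, ℝ) | dd p.1 p.2 ≤ a} :=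
  measurableSet_le meas_dd measurable_const

theorem measSet_abs_le {f : SL(2, ℝ) × SL(2, ℝ) → ℝ} (hf : Continuous f) (a : ℝ) :
    MeasurableSet {p : SL(2, ℝ) × SL(2, ℝ) | |f p| ≤ a} :=
  measurableSet_le hf.abs.measurable measurable_const

theorem measSet_le_abs {f : SL(2, ℝ) × SL(2, ℝ) → ℝ} (hf : Continuous f) (a : ℝ) :
    MeasurableSet {p : SL(2, ℝ) × SL(2, ℝ) | a ≤ |f p|} :=
  measurableSet_le measurable_const hf.abs.measurable

omit [BorelSpace SL(2, ℝ)] in
/-- the mass of the second points of a measurable set of pairs is measurable -/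
theorem meas_mass [SFinite ν] {P : SL(2, ℝ) → SL(2, ℝ) → Prop}
    (hP : MeasurableSet {p : SL(2, ℝ) × SL(2, ℝ) | P p.1 p.2}) :
    Measurable fun v : SL(2, ℝ) => ν {w | P v w} :=
  measurable_measure_prodMk_left hP

omit [BorelSpace SL(2, ℝ)] in
theorem measSet_snd {P : SL(2, ℝ) → SL(2, ℝ) → Prop}
    (hP : MeasurableSet {p : SL(2, ℝ) × SL(2, ℝ) | P p.1 p.2}) (v : SL(2, ℝ)) :
    MeasurableSet {w | P v w} :=
  (measurable_const.prodMk measurable_id) hP

omit [BorelSpace SL(2, ℝ)] in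
theorem measSet_fst {P : SL(2, ℝ) → SL(2, ℝ) → Prop}
    (hP : MeasurableSet {p : SL(2, ℝ) × SL(2, ℝ) | P p.1 p.2}) (w : SL(2, ℝ)) :
    MeasurableSet {v | P v w} :=
  (measurable_id.prodMk measurable_const) hP

theorem measSet_Bx_pair (hx : Continuous fun p : SL(2, ℝ) × SL(2, ℝ) => x p.1 p.2)
    (hτ : Continuous fun p : SL(2, ℝ) × SL(2, ℝ) => τ p.1 p.2) (r δ : ℝ) :
    MeasurableSet {p : SL(2, ℝ) × SL(2, ℝ) | p.2 ∈ Bx x τ r δ p.1} :=
  (measSet_dd_le r).inter ((measSet_abs_le hx δ).inter (measSet_abs_le hτ δ))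

/-! ### invariance -/

namespace MassSys

variable {xx' tt' : SL(2, ℝ) → SL(2, ℝ) → ℝ}

theorem smulInv (hM : MassSys Γ D Φ x τ r ν) : SMulInvariantMeasure Γ SL(2, ℝ) ν where
  measure_preimage_smul g s hs := by
    have h := hM.left g g.2
    have hm : Measurable fun x : SL(2, ℝ) => (g : SL(2, ℝ)) * x :=
      (continuous_const_mul (g : SL(2, ℝ))).measurable
    conv_rhs => rw [← h, Measure.map_apply hm hs]
    rfl

/-- the mass of an invariant family of sets is invariant -/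
theorem mass_inv (hM : MassSys Γ D Φ x τ r ν) {P : SL(2, ℝ) → SL(2, ℝ) → Prop}
    (hP : MeasurableSet {p : SL(2, ℝ) × SL(2, ℝ) | P p.1 p.2})
    (hinv : ∀ γ ∈ Γ, ∀ v w, P (γ * v) (γ * w) ↔ P v w) {γ : SL(2, ℝ)} (hγ : γ ∈ Γ)
    (v : SL(2, ℝ)) : ν {w | P (γ * v) w} = ν {w | P v w} := by
  have h := hM.left γ hγ
  have hm : Measurable fun x : SL(2, ℝ) => γ * x := (continuous_const_mul γ).measurable
  conv_lhs => rw [← h, Measure.map_apply hm (measSet_snd hP _)]
  congr 1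
  ext w
  exact hinv γ hγ v w

/-- the integral over the second point of an invariant function is invariant -/
theorem lint_inv (hM : MassSys Γ D Φ x τ r ν) {F : SL(2, ℝ) → SL(2, ℝ) → ℝ≥0∞}
    (hinv : ∀ γ ∈ Γ, ∀ v w, F (γ * v) (γ * w) = F v w) {γ : SL(2, ℝ)} (hγ : γ ∈ Γ)
    (v : SL(2, ℝ)) : ∫⁻ w, F (γ * v) w ∂ν = ∫⁻ w, F v w ∂ν := by
  have hemb : MeasurableEmbedding fun x : SL(2, ℝ) => γ * x :=
    (Homeomorph.mulLeft γ).measurableEmbedding
  have hmp : MeasurePreserving (fun x : SL(2, ℝ) => γ * x) ν ν :=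
    ⟨(continuous_const_mul γ).measurable, hM.left γ hγ⟩
  rw [← hmp.lintegral_comp_emb hemb fun w => F (γ * v) w]
  exact lintegral_congr fun w => hinv γ hγ v w

/-- change of the base point -/
theorem base_change [Countable Γ] (hM : MassSys Γ D Φ x τ r ν)
    {F : SL(2, ℝ) → SL(2, ℝ) → ℝ≥0∞} (hF : Measurable (Function.uncurry F))
    (hinv : ∀ γ ∈ Γ, ∀ v w, F (γ * v) (γ * w) = F v w) :
    ∫⁻ v in Berry.Fd D, ∫⁻ w, F v w ∂ν ∂ν = ∫⁻ w in Berry.Fd D, ∫⁻ v, F v w ∂ν ∂ν := by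
  have := hM.smulInv
  have := hM.sf
  exact base_change_gen hM.fund hM.fund hF fun γ v w => hinv γ γ.2 v w

end MassSys

/-- the mass of pairs is symmetric -/
theorem PM_symm [Countable Γ] (hM : MassSys Γ D Φ x τ r ν) {P : SL(2, ℝ) → SL(2, ℝ) → Prop}
    (hP : MeasurableSet {p : SL(2, ℝ) × SL(2, ℝ) | P p.1 p.2})
    (hinv : ∀ γ ∈ Γ, ∀ v w, P (γ * v) (γ * w) ↔ P v w) :
    PM D ν P = PM D ν fun v w => P w v := by
  classical
  have := hM.sf
  have e1 : ∀ v, ν {w | P v w} = ∫⁻ w, (if P v w then 1 else 0) ∂ν := by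
    intro v
    rw [← lintegral_indicator_one (measSet_snd hP v)]
    rfl
  have e2 : ∀ w, ν {v | P v w} = ∫⁻ v, (if P v w then 1 else 0) ∂ν := by
    intro w
    rw [← lintegral_indicator_one (measSet_fst hP w)]
    rfl
  unfold PM
  simp only [e1, e2]
  refine hM.base_change (F := fun v w => if P v w then 1 else 0) ?_ ?_
  · exact Measurable.ite hP measurable_const measurable_const
  · intro γ hγ v w
    simp only [hinv γ hγ v w]

omit [BorelSpace SL(2, ℝ)] in
theorem PM_mono {P Q : SL(2, ℝ) → SL(2, ℝ) → Prop} (h : ∀ v w, P v w → Q v w) :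
    PM D ν P ≤ PM D ν Q :=
  lintegral_mono fun v => measure_mono fun w hw => h v w hw

theorem mp_flow (hP : PairSys Γ Φ x y τ κ c r L k₀ k₁) (hM : MassSys Γ D Φ x τ r ν) (s : ℝ) :
    MeasurePreserving (Φ s) ν ν :=
  ⟨(hP.cont_flow s).measurable, hM.flow s⟩

theorem emb_flow (hP : PairSys Γ Φ x y τ κ c r L k₀ k₁) (s : ℝ) :
    MeasurableEmbedding (Φ s) :=
  (hP.homeo s).measurableEmbedding

/-- **Flow invariance of the integrals over the fundamental domain.** -/
theorem setLIntegral_flow [Countable Γ] (hP : PairSys Γ Φ x y τ κ c r L k₀ k₁)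
    (hM : MassSys Γ D Φ x τ r ν) {f : SL(2, ℝ) → ℝ≥0∞}
    (hinv : ∀ γ ∈ Γ, ∀ g, f (γ * g) = f g) (s : ℝ) :
    ∫⁻ v in Berry.Fd D, f (Φ s v) ∂ν = ∫⁻ v in Berry.Fd D, f v ∂ν := by
  have := hM.smulInv
  have hfund : IsFundamentalDomain Γ ((Φ (-s)) ⁻¹' (Berry.Fd D)) ν :=
    hM.fund.preimage_of_equiv (mp_flow hP hM (-s)).quasiMeasurePreserving (e := id)
      Function.bijective_id fun γ g => by
      show Φ (-s) ((γ : SL(2, ℝ)) * g) = (γ : SL(2, ℝ)) * Φ (-s) g
      exact hP.left γ γ.2 (-s) g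
  have h1 := (mp_flow hP hM s).setLIntegral_comp_preimage_emb (emb_flow hP s) f
    ((Φ (-s)) ⁻¹' (Berry.Fd D))
  have e2 : (Φ s) ⁻¹' ((Φ (-s)) ⁻¹' (Berry.Fd D)) = Berry.Fd D := by
    ext g
    simp only [Set.mem_preimage, hP.neg_flow]
  rw [e2] at h1
  rw [h1]
  exact hfund.setLIntegral_eq hM.fund f fun γ g => hinv γ γ.2 g

/-- **Flow invariance of the integrals over pairs.** -/
theorem PM_flow [Countable Γ] (hP : PairSys Γ Φ x y τ κ c r L k₀ k₁)
    (hM : MassSys Γ D Φ x τ r ν) {F : SL(2, ℝ) → SL(2, ℝ) → ℝ≥0∞}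
    (hinv : ∀ γ ∈ Γ, ∀ v w, F (γ * v) (γ * w) = F v w) (s t : ℝ) :
    ∫⁻ v in Berry.Fd D, ∫⁻ w, F (Φ s v) (Φ t w) ∂ν ∂ν =
      ∫⁻ v in Berry.Fd D, ∫⁻ w, F v w ∂ν ∂ν := by
  have e1 : ∀ v, ∫⁻ w, F (Φ s v) (Φ t w) ∂ν = ∫⁻ w, F (Φ s v) w ∂ν := fun v =>
    (mp_flow hP hM t).lintegral_comp_emb (emb_flow hP t) fun w => F (Φ s v) w
  simp only [e1]
  exact setLIntegral_flow hP hM (f := fun v => ∫⁻ w, F v w ∂ν)
    (fun γ hγ v => hM.lint_inv hinv hγ v) s

/-- flow invariance of the mass of a set of pairs -/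
theorem PM_flow_set [Countable Γ] (hP : PairSys Γ Φ x y τ κ c r L k₀ k₁)
    (hM : MassSys Γ D Φ x τ r ν) {P : SL(2, ℝ) → SL(2, ℝ) → Prop}
    (hPm : MeasurableSet {p : SL(2, ℝ) × SL(2, ℝ) | P p.1 p.2})
    (hinv : ∀ γ ∈ Γ, ∀ v w, P (γ * v) (γ * w) ↔ P v w) (s t : ℝ) :
    PM D ν (fun v w => P (Φ s v) (Φ t w)) = PM D ν P := by
  classical
  have hPm' : MeasurableSet {p : SL(2, ℝ) × SL(2, ℝ) | P (Φ s p.1) (Φ t p.2)} :=
    (((hP.cont_flow s).measurable.comp measurable_fst).prodMk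
      ((hP.cont_flow t).measurable.comp measurable_snd)) hPm
  have e1 : ∀ v, ν {w | P v w} = ∫⁻ w, (if P v w then 1 else 0) ∂ν := by
    intro v
    rw [← lintegral_indicator_one (measSet_snd hPm v)]
    rfl
  have e2 : ∀ v, ν {w | P (Φ s v) (Φ t w)} = ∫⁻ w, (if P (Φ s v) (Φ t w) then 1 else 0) ∂ν := by
    intro v
    rw [← lintegral_indicator_one
      (measSet_snd (P := fun v w => P (Φ s v) (Φ t w)) hPm' v)]
    rfl
  unfold PM
  simp only [e1, e2]
  refine PM_flow hP hM (F := fun v w => if P v w then 1 else 0) ?_ s t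
  intro γ hγ v w
  simp only [hinv γ hγ v w]

/-- **the triple estimate** -/
theorem triple [Countable Γ] (hM : MassSys Γ D Φ x τ r ν)
    {X Y Z W : SL(2, ℝ) → SL(2, ℝ) → Prop}
    (hX : MeasurableSet {p : SL(2, ℝ) × SL(2, ℝ) | X p.1 p.2})
    (hY : MeasurableSet {p : SL(2, ℝ) × SL(2, ℝ) | Y p.1 p.2})
    (hZ : MeasurableSet {p : SL(2, ℝ) × SL(2, ℝ) | Z p.1 p.2})
    (hW : MeasurableSet {p : SL(2, ℝ) × SL(2, ℝ) | W p.1 p.2})
    (iX : ∀ γ ∈ Γ, ∀ v w, X (γ * v) (γ * w) ↔ X v w)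
    (iY : ∀ γ ∈ Γ, ∀ v w, Y (γ * v) (γ * w) ↔ Y v w)
    (iZ : ∀ γ ∈ Γ, ∀ v w, Z (γ * v) (γ * w) ↔ Z v w)
    (hXZ : ∀ v v₀ w, X v w → X v₀ w → Z v₀ v)
    (hXY : ∀ v w w', X v w → Y v w' → W w w') (l : ℝ≥0∞) :
    ∫⁻ v in Berry.Fd D, (if ν {w | Z v w} ≤ l then ν {w | X v w} * ν {w | Y v w} else 0) ∂ν ≤
      l * PM D ν W := by
  classical
  have := hM.sf
  have mX := meas_mass (ν := ν) hX
  have mY := meas_mass (ν := ν) hY
  have mZ := meas_mass (ν := ν) hZ
  have mW := meas_mass (ν := ν) hW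
  set F : SL(2, ℝ) → SL(2, ℝ) → ℝ≥0∞ := fun v w =>
    if ν {w | Z v w} ≤ l ∧ X v w then ν {w | Y v w} else 0 with hF
  have hS : MeasurableSet {z : SL(2, ℝ) × SL(2, ℝ) | ν {w | Z z.1 w} ≤ l ∧ X z.1 z.2} :=
    (measurableSet_le (mZ.comp measurable_fst) measurable_const).inter hX
  have hFm : Measurable (Function.uncurry F) :=
    Measurable.ite hS (mY.comp measurable_fst) measurable_const
  have e1 : ∀ v, (if ν {w | Z v w} ≤ l then ν {w | X v w} * ν {w | Y v w} else 0) =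
      ∫⁻ w, F v w ∂ν := by
    intro v
    by_cases h : ν {w | Z v w} ≤ l
    · rw [if_pos h]
      have : ∀ w, F v w = ({w | X v w}).indicator (fun _ => ν {w | Y v w}) w := by
        intro w
        simp only [hF, h, true_and, indicator, mem_ofPred_eq]
      simp only [this]
      rw [lintegral_indicator (measSet_snd hX v), setLIntegral_const, mul_comm]
    · rw [if_neg h]
      have : ∀ w, F v w = 0 := by
        intro w
        simp only [hF, h, false_and, if_false]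
      simp [this]
  simp only [e1]
  rw [hM.base_change hFm]
  · unfold PM
    rw [← lintegral_const_mul _ mW]
    apply lintegral_mono
    intro w
    -- the set of admissible `v`
    set V : Set SL(2, ℝ) := {v | ν {w | Z v w} ≤ l ∧ X v w} with hV
    have hVm : MeasurableSet V :=
      (measurableSet_le mZ measurable_const).inter (measSet_fst hX w)
    have hb : ∀ v, F v w ≤ V.indicator (fun _ => ν {w' | W w w'}) v := by
      intro v
      by_cases h : v ∈ V
      · rw [indicator_of_mem h]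
        have h' : ν {w | Z v w} ≤ l ∧ X v w := h
        simp only [hF, if_pos h']
        apply measure_mono
        intro w' hw'
        exact hXY v w w' h'.2 hw'
      · have h' : ¬ (ν {w | Z v w} ≤ l ∧ X v w) := h
        simp only [hF, if_neg h']
        exact zero_le
    have hVl : ν V ≤ l := by
      rcases V.eq_empty_or_nonempty with h | ⟨v₀, hv₀⟩
      · rw [h]
        simp
      · refine le_trans (measure_mono ?_) hv₀.1
        intro v hv
        exact hXZ v v₀ w hv.2 hv₀.2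
    calc ∫⁻ v, F v w ∂ν ≤ ∫⁻ v, V.indicator (fun _ => ν {w' | W w w'}) v ∂ν :=
          lintegral_mono hb
      _ = ν {w' | W w w'} * ν V := by
          rw [lintegral_indicator hVm, setLIntegral_const]
      _ ≤ ν {w' | W w w'} * l := by gcongr
      _ = l * ν {w' | W w w'} := mul_comm _ _
  · intro γ hγ v w
    have h1 := hM.mass_inv hZ iZ hγ v
    have h2 := hM.mass_inv hY iY hγ v
    simp only [hF, h1, h2, iX γ hγ v w]

/-- **the averaging argument** -/
theorem averaging [Countable Γ] (hP : PairSys Γ Φ x y τ κ c r L k₀ k₁)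
    (hM : MassSys Γ D Φ x τ r ν) {f : SL(2, ℝ) → ℝ≥0∞}
    (hf : Measurable f) (hinv : ∀ γ ∈ Γ, ∀ g, f (γ * g) = f g) {B : ℝ≥0∞} (hB : B ≠ ⊤)
    (hfB : ∀ g, f g ≤ B) {ρ : ℝ≥0∞} (n : ℕ) (σ : ℝ)
    (ho : ∀ k : ℕ, 0 < k → k < n → ∫⁻ g in Berry.Fd D, f g * f (Φ (k * σ) g) ∂ν ≤ ρ)
    (hfin : ∫⁻ g in Berry.Fd D, f g ∂ν ≠ ⊤) :
    n * B * ∫⁻ g in Berry.Fd D, f g ∂ν ≤ n ^ 2 * ρ + B ^ 2 * ν (Berry.Fd D) := by
  set I := ∫⁻ g in Berry.Fd D, f g ∂ν with hI
  have hfs : ∀ s : ℝ, Measurable fun g => f (Φ s g) := by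
    intro s
    exact hf.comp (hP.cont_flow s).measurable
  have hsh : ∀ s : ℝ, ∫⁻ g in Berry.Fd D, f (Φ s g) ∂ν = I :=
    fun s => setLIntegral_flow hP hM hinv s
  -- correlations
  have hcorr : ∀ i j : ℕ, i < n → j < n → i < j →
      ∫⁻ g in Berry.Fd D, f (Φ (i * σ) g) * f (Φ (j * σ) g) ∂ν ≤ ρ := by
    intro i j _ hj hij
    have h1 := setLIntegral_flow hP hM (f := fun g => f g * f (Φ ((j - i : ℕ) * σ) g))
      (fun γ hγ g => by
        simp only [hP.left γ hγ, hinv γ hγ]) (i * σ)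
    have h2 : ∀ g : SL(2, ℝ), Φ ((j - i : ℕ) * σ) (Φ (i * σ) g) = Φ (j * σ) g := by
      intro g
      rw [← hP.add]
      congr 1
      rw [Nat.cast_sub hij.le]
      ring
    simp only [h2] at h1
    rw [h1]
    exact ho (j - i) (by omega) (by omega)
  have hall : ∀ i ∈ Finset.range n, ∀ j ∈ Finset.range n,
      ∫⁻ g in Berry.Fd D, f (Φ (i * σ) g) * f (Φ (j * σ) g) ∂ν ≤
        ρ + if i = j then B * I else 0 := by
    intro i hi j hj
    rw [Finset.mem_range] at hi hj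
    rcases lt_trichotomy i j with h | h | h
    · exact (hcorr i j hi hj h).trans le_self_add
    · subst h
      rw [if_pos rfl]
      calc ∫⁻ g in Berry.Fd D, f (Φ (i * σ) g) * f (Φ (i * σ) g) ∂ν
          ≤ ∫⁻ g in Berry.Fd D, B * f (Φ (i * σ) g) ∂ν := by
            apply lintegral_mono
            intro g
            exact mul_le_mul' (hfB _) le_rfl
        _ = B * I := by rw [lintegral_const_mul _ (hfs _), hsh]
        _ ≤ _ := le_add_self
    · have h2 := hcorr j i hj hi h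
      refine le_trans (le_of_eq ?_) (h2.trans le_self_add)
      apply lintegral_congr
      intro g
      exact mul_comm _ _
  set G : SL(2, ℝ) → ℝ≥0∞ := fun g => ∑ i ∈ Finset.range n, f (Φ (i * σ) g) with hG
  have hGm : Measurable G := Finset.measurable_fun_sum _ fun i _ => hfs _
  have hG1 : ∫⁻ g in Berry.Fd D, G g ∂ν = n * I := by
    rw [lintegral_finsetSum _ fun i _ => hfs _]
    simp only [hsh, Finset.sum_const, Finset.card_range, nsmul_eq_mul]
  have hG2 : ∫⁻ g in Berry.Fd D, G g ^ 2 ∂ν ≤ n ^ 2 * ρ + n * (B * I) := by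
    have e : ∀ g, G g ^ 2 = ∑ i ∈ Finset.range n, ∑ j ∈ Finset.range n,
        f (Φ (i * σ) g) * f (Φ (j * σ) g) := by
      intro g
      rw [sq, hG, Finset.sum_mul_sum]
    simp only [e]
    rw [lintegral_finsetSum]
    swap
    · intro i _
      exact Finset.measurable_fun_sum _ fun j _ => (hfs _).mul (hfs _)
    calc ∑ i ∈ Finset.range n, ∫⁻ g in Berry.Fd D, ∑ j ∈ Finset.range n,
          f (Φ (i * σ) g) * f (Φ (j * σ) g) ∂ν
        = ∑ i ∈ Finset.range n, ∑ j ∈ Finset.range n, ∫⁻ g in Berry.Fd D,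
          f (Φ (i * σ) g) * f (Φ (j * σ) g) ∂ν := by
          apply Finset.sum_congr rfl
          intro i _
          exact lintegral_finsetSum _ fun j _ => (hfs _).mul (hfs _)
      _ ≤ ∑ i ∈ Finset.range n, ∑ j ∈ Finset.range n, (ρ + if i = j then B * I else 0) :=
          Finset.sum_le_sum fun i hi => Finset.sum_le_sum fun j hj => hall i hi j hj
      _ = n ^ 2 * ρ + n * (B * I) := by
          simp only [Finset.sum_add_distrib, Finset.sum_const, Finset.card_range, nsmul_eq_mul,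
            Finset.sum_ite_eq, Finset.mem_range]
          rw [Finset.sum_ite, Finset.sum_const_zero, add_zero, Finset.sum_const, nsmul_eq_mul]
          have : (Finset.filter (fun i => i < n) (Finset.range n)).card = n := by
            rw [Finset.filter_true_of_mem fun i hi => Finset.mem_range.1 hi, Finset.card_range]
          rw [this]
          ring
  have hpt : ∀ g, 2 * B * G g ≤ G g ^ 2 + B ^ 2 := by
    intro g
    generalize G g = x
    rcases eq_or_ne x ⊤ with h | h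
    · rw [h]
      simp
    · lift x to NNReal using h
      lift B to NNReal using hB
      norm_cast
      have := two_mul_le_add_sq (x : ℝ) (B : ℝ)
      rw [← NNReal.coe_le_coe]
      push_cast
      nlinarith
  have h1 : 2 * B * (n * I) ≤ n ^ 2 * ρ + n * (B * I) + B ^ 2 * ν (Berry.Fd D) := by
    calc 2 * B * (n * I) = ∫⁻ g in Berry.Fd D, 2 * B * G g ∂ν := by
          rw [lintegral_const_mul _ hGm, hG1]
      _ ≤ ∫⁻ g in Berry.Fd D, (G g ^ 2 + B ^ 2) ∂ν := lintegral_mono hpt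
      _ = ∫⁻ g in Berry.Fd D, G g ^ 2 ∂ν + B ^ 2 * ν (Berry.Fd D) := by
          rw [lintegral_add_right _ measurable_const, setLIntegral_const]
      _ ≤ _ := by gcongr
  have h2 : (n * B * I) + (n * B * I) ≤
      (n * B * I) + (n ^ 2 * ρ + B ^ 2 * ν (Berry.Fd D)) := by
    calc (n * B * I) + (n * B * I) = 2 * B * (n * I) := by ring
      _ ≤ _ := h1
      _ = _ := by ring
  have hne : n * B * I ≠ ⊤ :=
    ENNReal.mul_ne_top (ENNReal.mul_ne_top (ENNReal.natCast_ne_top n) hB) hfin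
  exact (ENNReal.add_le_add_iff_left hne).1 h2

end

end NC

end QE
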