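import Pool.Agent.NCV.Stmts2
import Pool.Agent.NCV.Tools
import Pool.Agent.NCV.SumB

/-!
# The mass of the pairs `Wk` (module NCV_KSTEP, helper30)
-/

open MeasureTheory Filter Topology Set
open UpperHalfPlane hiding I
open scoped ContDiff MatrixGroups ENNReal

namespace QE

namespace NC

noncomputable section

namespace Kst30

variable {Γ : Subgroup SL(2, ℝ)} {Φ : ℝ → SL(2, ℝ) → SL(2, ℝ)}
  {x y τ : SL(2, ℝ) → SL(2, ℝ) → ℝ} {κ : SL(2, ℝ) → ℝ} {c r L k₀ k₁ : ℝ}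

theorem abs_of_sign {σ a δ : ℝ} (hσ : σ = 1 ∨ σ = -1) (h0 : 0 ≤ σ * a) (h1 : σ * a ≤ δ) :
    |a| ≤ δ := by
  rcases hσ with h | h
  · rw [h, one_mul] at h0 h1
    rw [abs_of_nonneg h0]
    exact h1
  · rw [h, neg_one_mul] at h0 h1
    rw [abs_of_nonpos (by linarith)]
    exact h1

/-- the distance of the points of a pair -/
theorem dd_Wk (S : PairSys Γ Φ x y τ κ c r L k₀ k₁) {σ A m δ : ℝ} (hσ : σ = 1 ∨ σ = -1) {K : ℕ}
    {v w : SL(2, ℝ)} (h : Wk Φ x y τ r σ A m K δ v w) : dd v w ≤ c * (A + 2) * δ := by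
  obtain ⟨h1, h2, h3, h4, h5, -⟩ := h
  have hx := abs_of_sign hσ h2 h3
  have hc : 0 ≤ c := zero_le_one.trans S.one_le
  calc dd v w ≤ c * (|x v w| + |y v w| + |τ v w|) := S.dle v w h1
    _ ≤ c * (δ + A * δ + δ) := by gcongr
    _ = c * (A + 2) * δ := by ring

/-- two pairs with the same second point -/
theorem Z_of (S : PairSys Γ Φ x y τ κ c r L k₀ k₁) {σ A m δ : ℝ} (hσ : σ = 1 ∨ σ = -1)
    (hA : 1 ≤ A) (hδ : 0 < δ) {K : ℕ} (hr : 2 * c ^ 3 * (A + 2) * δ ≤ r) {v v₀ w : SL(2, ℝ)}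
    (h : Wk Φ x y τ r σ A m K δ v w) (h' : Wk Φ x y τ r σ A m K δ v₀ w) :
    v ∈ Bx x τ r (2 * c ^ 3 * (A + 2) * δ) v₀ := by
  have hc1 := S.one_le
  have hc : 0 < c := zero_lt_one.trans_le hc1
  have d1 := dd_Wk S hσ h
  have d2 := dd_Wk S hσ h'
  have h1 := h.1
  have h2 := h'.1
  have d3 : dd v₀ v ≤ 2 * c ^ 2 * (A + 2) * δ := by
    have h3 := S.dtri v₀ w v h2 (by rw [S.dsymm]; exact h1)
    rw [S.dsymm v w] at h3
    calc dd v₀ v ≤ c * (dd v₀ w + dd v w) := h3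
      _ ≤ c * (c * (A + 2) * δ + c * (A + 2) * δ) := by gcongr
      _ = 2 * c ^ 2 * (A + 2) * δ := by ring
  have hA2 : 0 < A + 2 := by linarith
  have hc23 : 2 * c ^ 2 * (A + 2) * δ ≤ 2 * c ^ 3 * (A + 2) * δ := by
    have : c ^ 2 ≤ c ^ 3 := pow_le_pow_right₀ hc1 (by norm_num)
    gcongr
  have d4 : dd v₀ v ≤ r := d3.trans (hc23.trans hr)
  have e : c * (2 * c ^ 2 * (A + 2) * δ) = 2 * c ^ 3 * (A + 2) * δ := by ring
  refine ⟨d4, ?_, ?_⟩
  · calc |x v₀ v| ≤ c * dd v₀ v := S.xle v₀ v d4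
      _ ≤ c * (2 * c ^ 2 * (A + 2) * δ) := by gcongr
      _ = _ := e
  · calc |τ v₀ v| ≤ c * dd v₀ v := S.tle v₀ v d4
      _ ≤ c * (2 * c ^ 2 * (A + 2) * δ) := by gcongr
      _ = _ := e

/-- **the crossing** -/
theorem cross_of (S : PairSys Γ Φ x y τ κ c r L k₀ k₁) {σ A m δ E : ℝ} (hσ : σ = 1 ∨ σ = -1)
    (hA : 1 ≤ A) (hm : 0 < m) (hδ : 0 < δ) {k K : ℕ} (hk : 0 < k) (hkK : k ≤ K)
    (hE : E = c ^ 2 * Real.exp (L * (K * m)) * (A + 2)) (h1 : 4 * c * E ^ 2 * δ ≤ 1)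
    (h2 : 2 * c * E * δ ≤ r) {v w w' : SL(2, ℝ)} (hX : Wk Φ x y τ r σ A m K δ v w)
    (hY : Wk Φ x y τ r σ A m K δ (Φ (k * m) v) (Φ (k * m) w')) :
    Cr Φ x y τ r (4 * c ^ 2 * E) (K * m) δ w w' := by
  have hc1 := S.one_le
  have hc : 0 < c := zero_lt_one.trans_le hc1
  have hA2 : 0 < A + 2 := by linarith
  have hK : (k : ℝ) * m ≤ K * m := by
    have : (k : ℝ) ≤ K := by exact_mod_cast hkK
    gcongr
  have hkm : 0 < (k : ℝ) * m := by
    have : (0 : ℝ) < k := by exact_mod_cast hk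
    positivity
  have hLK : 1 ≤ Real.exp (L * (K * m)) :=
    Real.one_le_exp (mul_nonneg S.Lnn (hkm.le.trans hK))
  have hE0 : 0 < E := by
    rw [hE]; positivity
  have hcE : c ≤ E := by
    rw [hE]
    calc c = c * 1 * 1 := by ring
      _ ≤ c ^ 2 * Real.exp (L * (K * m)) * (A + 2) := by
        have : c ≤ c ^ 2 := by nlinarith
        gcongr
        linarith
  have hE1 : 1 ≤ E := hc1.trans hcE
  -- the distances
  have hsmall : c * (A + 2) * δ ≤ E * δ := by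
    rw [hE]
    have : c * (A + 2) ≤ c ^ 2 * Real.exp (L * (K * m)) * (A + 2) := by
      calc c * (A + 2) = c * 1 * (A + 2) := by ring
        _ ≤ c ^ 2 * Real.exp (L * (K * m)) * (A + 2) := by
          have : c ≤ c ^ 2 := by nlinarith
          gcongr
    gcongr
  have hEr : E * δ ≤ r := by
    refine le_trans ?_ h2
    have : E * δ * 1 ≤ E * δ * (2 * c) := by
      apply mul_le_mul_of_nonneg_left _ (by positivity)
      linarith
    linarith
  have hflow : ∀ (a b : SL(2, ℝ)) (t : ℝ), |t| ≤ K * m → dd a b ≤ c * (A + 2) * δ →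
      dd (Φ t a) (Φ t b) ≤ E * δ := by
    intro a b t ht hab
    calc dd (Φ t a) (Φ t b) ≤ c * Real.exp (L * |t|) * dd a b := S.dflow a b t
      _ ≤ c * Real.exp (L * (K * m)) * (c * (A + 2) * δ) := by
        have hL := S.Lnn
        have hd := dd_nonneg a b
        gcongr
      _ = E * δ := by rw [hE]; ring
  have habs1 : |(k : ℝ) * m| ≤ K * m := by rw [abs_of_pos hkm]; exact hK
  have habs2 : |-((k : ℝ) * m)| ≤ K * m := by rw [abs_neg]; exact habs1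
  have dX := dd_Wk S hσ hX
  have dY := dd_Wk S hσ hY
  have d1 : dd v w ≤ E * δ := dX.trans hsmall
  have d2 : dd (Φ (k * m) v) (Φ (k * m) w') ≤ E * δ := dY.trans hsmall
  have d3 : dd v w' ≤ E * δ := by
    have h3 := hflow _ _ (-((k : ℝ) * m)) habs2 dY
    rwa [← S.add, ← S.add, neg_add_cancel, S.zero, S.zero] at h3
  have d4 : dd (Φ (k * m) v) (Φ (k * m) w) ≤ E * δ := hflow _ _ _ habs1 dX
  -- the values of `x`
  obtain ⟨-, x1, x2, -, -, x3⟩ := hX
  obtain ⟨-, y1, y2, -, -, y3⟩ := hY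
  have hj : ∀ j : ℤ, |j| = (k : ℤ) → j ≠ 0 := by
    intro j hj h0
    rw [h0, abs_zero] at hj
    omega
  have x4 : 4 * δ ≤ σ * x (Φ (k * m) v) (Φ (k * m) w) := by
    have h3 := x3 (k : ℤ) (by omega) (by rw [abs_of_nonneg (by omega)]; exact_mod_cast hkK)
    rwa [Int.cast_natCast] at h3
  have y4 : 4 * δ ≤ σ * x v w' := by
    have h3 := y3 (-(k : ℤ)) (by omega)
      (by rw [abs_neg, abs_of_nonneg (by omega)]; exact_mod_cast hkK)
    rw [Int.cast_neg, Int.cast_natCast, neg_mul] at h3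
    rwa [← S.add, ← S.add, neg_add_cancel, S.zero, S.zero] at h3
  have hσσ : |σ| = 1 := by
    rcases hσ with h | h
    · rw [h, abs_one]
    · rw [h, abs_neg, abs_one]
  have herr : ∀ a b : ℝ, 0 ≤ a → 0 ≤ b → a ≤ E * δ → b ≤ E * δ → c * (a + b) ^ 2 ≤ δ := by
    intro a b ha hb ha' hb'
    calc c * (a + b) ^ 2 ≤ c * (E * δ + E * δ) ^ 2 := by gcongr
      _ = (4 * c * E ^ 2 * δ) * δ := by ring
      _ ≤ 1 * δ := by gcongr
      _ = δ := one_mul δ
  -- at time `0`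
  have z0 : 2 * δ ≤ σ * x w w' := by
    have h3 := S.xcc v w w' (d1.trans hEr) (d3.trans hEr)
    have h4 := h3.trans (herr _ _ (dd_nonneg _ _) (dd_nonneg _ _) d1 d3)
    have h5 : |σ * (x v w' - x v w - x w w')| ≤ δ := by
      rw [abs_mul, hσσ, one_mul]; exact h4
    have h6 := (abs_le.1 h5).2
    have h7 : σ * (x v w' - x v w - x w w') = σ * x v w' - σ * x v w - σ * x w w' := by ring
    rw [h7] at h6
    linarith
  -- at time `k m`
  have z1 : σ * x (Φ (k * m) w) (Φ (k * m) w') ≤ -(2 * δ) := by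
    have h3 := S.xcc (Φ (k * m) v) (Φ (k * m) w) (Φ (k * m) w') (d4.trans hEr) (d2.trans hEr)
    have h4 := h3.trans (herr _ _ (dd_nonneg _ _) (dd_nonneg _ _) d4 d2)
    have h5 : |σ * (x (Φ (k * m) v) (Φ (k * m) w') - x (Φ (k * m) v) (Φ (k * m) w)
        - x (Φ (k * m) w) (Φ (k * m) w'))| ≤ δ := by
      rw [abs_mul, hσσ, one_mul]; exact h4
    have h6 := (abs_le.1 h5).1
    have h7 : σ * (x (Φ (k * m) v) (Φ (k * m) w') - x (Φ (k * m) v) (Φ (k * m) w)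
        - x (Φ (k * m) w) (Φ (k * m) w')) = σ * x (Φ (k * m) v) (Φ (k * m) w')
        - σ * x (Φ (k * m) v) (Φ (k * m) w) - σ * x (Φ (k * m) w) (Φ (k * m) w') := by ring
    rw [h7] at h6
    linarith
  -- the distance of `w` and `w'`
  have dw : dd w w' ≤ 2 * c * E * δ := by
    have h3 := S.dtri w v w' (by rw [S.dsymm]; exact d1.trans hEr) (d3.trans hEr)
    rw [S.dsymm v w] at h3
    calc dd w w' ≤ c * (dd v w + dd v w') := h3
      _ ≤ c * (E * δ + E * δ) := by gcongr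
      _ = 2 * c * E * δ := by ring
  have dwr : dd w w' ≤ r := dw.trans h2
  have xw := S.xle w w' dwr
  have yw := S.yle w w' dwr
  have tw := S.tle w w' dwr
  have hcd : c * dd w w' ≤ 2 * c ^ 2 * E * δ := by
    calc c * dd w w' ≤ c * (2 * c * E * δ) := by gcongr
      _ = 2 * c ^ 2 * E * δ := by ring
  have hA' : 1 ≤ 4 * c ^ 2 * E := by
    have hc2 : 1 ≤ c ^ 2 := one_le_pow₀ hc1
    nlinarith
  have hpos : 0 ≤ 2 * c ^ 2 * E * δ := by positivity
  refine ⟨dwr, ?_, ?_, ?_, ?_⟩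
  · calc |τ w w'| ≤ 2 * c ^ 2 * E * δ := tw.trans hcd
      _ ≤ 4 * c ^ 2 * E * δ := by linarith
  · have h3 : δ / (4 * c ^ 2 * E) ≤ δ := div_le_self hδ.le hA'
    have h4 : 2 * δ ≤ |x w w'| := by
      calc 2 * δ ≤ σ * x w w' := z0
        _ ≤ |σ * x w w'| := le_abs_self _
        _ = |x w w'| := by rw [abs_mul, hσσ, one_mul]
    have h5 := abs_nonneg (y w w')
    linarith
  · calc |x w w'| + |y w w'| ≤ 2 * c ^ 2 * E * δ + 2 * c ^ 2 * E * δ :=
          add_le_add (xw.trans hcd) (yw.trans hcd)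
      _ = 4 * c ^ 2 * E * δ := by ring
  · -- the intermediate value theorem
    have hcont : Continuous fun t : ℝ => σ * x (Φ t w) (Φ t w') := by
      have h3 : Continuous fun t : ℝ => (Φ t w, Φ t w') :=
        (S.cont.comp (continuous_id.prodMk continuous_const)).prodMk
          (S.cont.comp (continuous_id.prodMk continuous_const))
      exact continuous_const.mul (S.xc.comp h3)
    have h3 := intermediate_value_Icc' (a := 0) (b := (k : ℝ) * m) hkm.le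
      (f := fun t : ℝ => σ * x (Φ t w) (Φ t w')) hcont.continuousOn
    have h4 : (0 : ℝ) ∈ Icc (σ * x (Φ (k * m) w) (Φ (k * m) w')) (σ * x (Φ 0 w) (Φ 0 w')) := by
      rw [S.zero, S.zero]
      exact ⟨by linarith, by linarith⟩
    obtain ⟨t, ht, ht0⟩ := h3 h4
    refine ⟨t, ?_, ?_⟩
    · rw [abs_of_nonneg ht.1]
      exact ht.2.trans hK
    · have ht0' : σ * x (Φ t w) (Φ t w') = 0 := ht0
      rcases mul_eq_zero.1 ht0' with h5 | h5
      · exfalso
        rw [h5, abs_zero] at hσσ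
        exact zero_ne_one hσσ
      · exact h5

/-! ### measurability and invariance -/

theorem cont_flow2 (S : PairSys Γ Φ x y τ κ c r L k₀ k₁) (s : ℝ) :
    Continuous fun p : SL(2, ℝ) × SL(2, ℝ) => (Φ s p.1, Φ s p.2) :=
  ((S.cont_flow s).comp continuous_fst).prodMk ((S.cont_flow s).comp continuous_snd)

theorem closed_Wk (S : PairSys Γ Φ x y τ κ c r L k₀ k₁) (σ A m : ℝ) (K : ℕ) (δ : ℝ) :
    IsClosed {p : SL(2, ℝ) × SL(2, ℝ) | Wk Φ x y τ r σ A m K δ p.1 p.2} := by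
  have h1 : IsClosed {p : SL(2, ℝ) × SL(2, ℝ) | dd p.1 p.2 ≤ r} :=
    isClosed_le continuous_dd continuous_const
  have h2 : IsClosed {p : SL(2, ℝ) × SL(2, ℝ) | 0 ≤ σ * x p.1 p.2} :=
    isClosed_le continuous_const (continuous_const.mul S.xc)
  have h3 : IsClosed {p : SL(2, ℝ) × SL(2, ℝ) | σ * x p.1 p.2 ≤ δ} :=
    isClosed_le (continuous_const.mul S.xc) continuous_const
  have h4 : IsClosed {p : SL(2, ℝ) × SL(2, ℝ) | |τ p.1 p.2| ≤ δ} :=
    isClosed_le S.tc.abs continuous_const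
  have h5 : IsClosed {p : SL(2, ℝ) × SL(2, ℝ) | |y p.1 p.2| ≤ A * δ} :=
    isClosed_le S.yc.abs continuous_const
  have h6 : IsClosed {p : SL(2, ℝ) × SL(2, ℝ) | ∀ j : ℤ, j ≠ 0 → |j| ≤ (K : ℤ) →
      4 * δ ≤ σ * x (Φ (j * m) p.1) (Φ (j * m) p.2)} := by
    have e : {p : SL(2, ℝ) × SL(2, ℝ) | ∀ j : ℤ, j ≠ 0 → |j| ≤ (K : ℤ) →
        4 * δ ≤ σ * x (Φ (j * m) p.1) (Φ (j * m) p.2)} =
        ⋂ j : ℤ, ⋂ _ : j ≠ 0, ⋂ _ : |j| ≤ (K : ℤ),
          {p : SL(2, ℝ) × SL(2, ℝ) | 4 * δ ≤ σ * x (Φ (j * m) p.1) (Φ (j * m) p.2)} := by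
      ext p
      simp only [mem_iInter, mem_ofPred_eq]
    rw [e]
    refine isClosed_iInter fun j => isClosed_iInter fun _ => isClosed_iInter fun _ => ?_
    exact isClosed_le continuous_const
      (continuous_const.mul (S.xc.comp (cont_flow2 S (j * m))))
  exact h1.inter (h2.inter (h3.inter (h4.inter (h5.inter h6))))

theorem closed_Cr (S : PairSys Γ Φ x y τ κ c r L k₀ k₁) (A T δ : ℝ) :
    IsClosed {p : SL(2, ℝ) × SL(2, ℝ) | Cr Φ x y τ r A T δ p.1 p.2} := by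
  have h1 : IsClosed {p : SL(2, ℝ) × SL(2, ℝ) | dd p.1 p.2 ≤ r} :=
    isClosed_le continuous_dd continuous_const
  have h4 : IsClosed {p : SL(2, ℝ) × SL(2, ℝ) | |τ p.1 p.2| ≤ A * δ} :=
    isClosed_le S.tc.abs continuous_const
  have h5 : IsClosed {p : SL(2, ℝ) × SL(2, ℝ) | δ / A ≤ |x p.1 p.2| + |y p.1 p.2|} :=
    isClosed_le continuous_const (S.xc.abs.add S.yc.abs)
  have h6 : IsClosed {p : SL(2, ℝ) × SL(2, ℝ) | |x p.1 p.2| + |y p.1 p.2| ≤ A * δ} :=
    isClosed_le (S.xc.abs.add S.yc.abs) continuous_const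
  have h7 : IsClosed {p : SL(2, ℝ) × SL(2, ℝ) | ∃ t : ℝ, |t| ≤ T ∧
      x (Φ t p.1) (Φ t p.2) = 0} := by
    have hcl : IsClosed {q : Icc (-T) T × (SL(2, ℝ) × SL(2, ℝ)) |
        x (Φ q.1 q.2.1) (Φ q.1 q.2.2) = 0} := by
      refine isClosed_eq ?_ continuous_const
      have a1 : Continuous fun q : Icc (-T) T × (SL(2, ℝ) × SL(2, ℝ)) => (q.1 : ℝ) :=
        continuous_subtype_val.comp continuous_fst
      have a2 : Continuous fun q : Icc (-T) T × (SL(2, ℝ) × SL(2, ℝ)) => q.2.1 :=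
        continuous_fst.comp continuous_snd
      have a3 : Continuous fun q : Icc (-T) T × (SL(2, ℝ) × SL(2, ℝ)) => q.2.2 :=
        continuous_snd.comp continuous_snd
      exact S.xc.comp ((S.cont.comp (a1.prodMk a2)).prodMk (S.cont.comp (a1.prodMk a3)))
    have h8 := isClosedMap_snd_of_compactSpace (X := Icc (-T) T) (Y := SL(2, ℝ) × SL(2, ℝ))
      _ hcl
    have e : {p : SL(2, ℝ) × SL(2, ℝ) | ∃ t : ℝ, |t| ≤ T ∧ x (Φ t p.1) (Φ t p.2) = 0} =
        Prod.snd '' {q : Icc (-T) T × (SL(2, ℝ) × SL(2, ℝ)) |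
          x (Φ q.1 q.2.1) (Φ q.1 q.2.2) = 0} := ?_
    · rw [e]
      exact h8
    ext p
    simp only [mem_ofPred_eq, mem_image, Prod.exists]
    constructor
    · rintro ⟨t, ht, h9⟩
      exact ⟨⟨t, abs_le.1 ht⟩, p.1, p.2, h9, rfl⟩
    · rintro ⟨t, a, b, h9, h10⟩
      refine ⟨t, abs_le.2 t.2, ?_⟩
      rw [← h10]
      exact h9
  exact h1.inter (h4.inter (h5.inter (h6.inter h7)))

theorem inv_Wk (S : PairSys Γ Φ x y τ κ c r L k₀ k₁) (σ A m : ℝ) (K : ℕ) (δ : ℝ)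
    {γ : SL(2, ℝ)} (hγ : γ ∈ Γ) (v w : SL(2, ℝ)) :
    Wk Φ x y τ r σ A m K δ (γ * v) (γ * w) ↔ Wk Φ x y τ r σ A m K δ v w := by
  unfold Wk
  simp only [dd_left, S.xi γ hγ, S.yi γ hγ, S.ti γ hγ, S.left γ hγ]

end Kst30

open Kst30

theorem stmtKstep (hC : StmtCross) : StmtKstep := by
  intro _ _ Γ _ D Φ x y τ κ c r L k₀ k₁ ν S M σ A m η hσ hA hm hη
  have hsf := M.sf
  have hc1 := S.one_le
  have hc : 0 < c := zero_lt_one.trans_le hc1
  have hA2 : 0 < A + 2 := by linarith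
  have hr := S.rpos
  set B : ℝ := 2 * c ^ 3 * (A + 2) with hB
  have hB0 : 0 < B := by positivity
  have hB1 : 1 ≤ B := by
    have h1 : 1 ≤ c ^ 3 := one_le_pow₀ hc1
    nlinarith
  obtain ⟨R, hR, hui⟩ := M.ui (η / (2 * B ^ 2)) (by positivity)
  -- the number of steps
  set V : ℝ≥0∞ := ν (Berry.Fd D) with hV
  have hVt : V ≠ ⊤ := M.fin
  have hV0 : 0 ≤ V.toReal := ENNReal.toReal_nonneg
  set n : ℕ := ⌈4 * (R * B ^ 2) * V.toReal / η⌉₊ + 1 with hn
  have hnpos : 0 < n := by rw [hn]; omega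
  have hn0 : (0 : ℝ) < n := by exact_mod_cast hnpos
  have hnm : 4 * (R * B ^ 2) * V.toReal ≤ η * n := by
    have h1 : 4 * (R * B ^ 2) * V.toReal / η ≤ n := by
      rw [hn]
      push_cast
      linarith [Nat.le_ceil (4 * (R * B ^ 2) * V.toReal / η)]
    rw [div_le_iff₀ hη] at h1
    linarith
  set E : ℝ := c ^ 2 * Real.exp (L * (n * m)) * (A + 2) with hE
  have hE0 : 0 < E := by positivity
  have hnm0 : 0 < (n : ℝ) * m := by positivity
  have hA' : 1 ≤ 4 * c ^ 2 * E := by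
    have h1 : 1 ≤ c ^ 2 := one_le_pow₀ hc1
    have h2 : 1 ≤ Real.exp (L * (n * m)) := Real.one_le_exp (mul_nonneg S.Lnn hnm0.le)
    have h3 : 1 ≤ E := by
      rw [hE]
      calc (1 : ℝ) = 1 * 1 * 1 := by ring
        _ ≤ c ^ 2 * Real.exp (L * (n * m)) * (A + 2) := by
          gcongr
          linarith
    nlinarith
  obtain ⟨d₀, hd₀, hcr⟩ := hC Γ D Φ x y τ κ c r L k₀ k₁ ν S M (n * m) (4 * c ^ 2 * E)
    (η / (4 * n)) hnm0 hA' (by positivity)
  refine ⟨n, min d₀ (min (1 / B) (min (r / B) (min (1 / (4 * c * E ^ 2)) (r / (2 * c * E))))),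
    by positivity, fun δ hδ hδ0 => ?_⟩
  have b0 : δ < d₀ := hδ0.trans_le (min_le_left _ _)
  have b1 : B * δ ≤ 1 := by
    have := hδ0.le.trans ((min_le_right _ _).trans (min_le_left _ _))
    rw [le_div_iff₀ hB0] at this
    linarith
  have b2 : B * δ ≤ r := by
    have := hδ0.le.trans ((min_le_right _ _).trans ((min_le_right _ _).trans (min_le_left _ _)))
    rw [le_div_iff₀ hB0] at this
    linarith
  have b3 : 4 * c * E ^ 2 * δ ≤ 1 := by
    have := hδ0.le.trans ((min_le_right _ _).trans ((min_le_right _ _).trans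
      ((min_le_right _ _).trans (min_le_left _ _))))
    rw [le_div_iff₀ (by positivity)] at this
    linarith
  have b4 : 2 * c * E * δ ≤ r := by
    have := hδ0.le.trans ((min_le_right _ _).trans ((min_le_right _ _).trans
      ((min_le_right _ _).trans (min_le_right _ _))))
    rw [le_div_iff₀ (by positivity)] at this
    linarith
  have hBδ : 0 < B * δ := by positivity
  -- the sets
  have hXm : MeasurableSet {p : SL(2, ℝ) × SL(2, ℝ) | Wk Φ x y τ r σ A m n δ p.1 p.2} :=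
    (closed_Wk S σ A m n δ).measurableSet
  have hZm := measSet_Bx_pair S.xc S.tc r (B * δ)
  have hWm : MeasurableSet {p : SL(2, ℝ) × SL(2, ℝ) |
      Cr Φ x y τ r (4 * c ^ 2 * E) (n * m) δ p.1 p.2} :=
    (closed_Cr S (4 * c ^ 2 * E) (n * m) δ).measurableSet
  have iX : ∀ γ ∈ Γ, ∀ v w, Wk Φ x y τ r σ A m n δ (γ * v) (γ * w) ↔
      Wk Φ x y τ r σ A m n δ v w := fun γ hγ v w => inv_Wk S σ A m n δ hγ v w
  have iZ : ∀ γ ∈ Γ, ∀ v w, (γ * w ∈ Bx x τ r (B * δ) (γ * v)) ↔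
      (w ∈ Bx x τ r (B * δ) v) := by
    intro γ hγ v w
    unfold Bx
    simp only [Set.mem_ofPred_eq]
    rw [dd_left, S.xi γ hγ, S.ti γ hγ]
  -- the function
  set l : ℝ≥0∞ := ENNReal.ofReal (R * (B * δ) ^ 2) with hl
  have hl0 : l ≠ 0 := (ENNReal.ofReal_pos.2 (by positivity)).ne'
  have hlt : l ≠ ⊤ := ENNReal.ofReal_ne_top
  set f : SL(2, ℝ) → ℝ≥0∞ := fun v =>
    if ν (Bx x τ r (B * δ) v) ≤ l then ν {w | Wk Φ x y τ r σ A m n δ v w} else 0 with hf
  have mX := meas_mass (ν := ν) (P := Wk Φ x y τ r σ A m n δ) hXm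
  have mZ : Measurable fun v : SL(2, ℝ) => ν (Bx x τ r (B * δ) v) :=
    meas_mass (ν := ν) (P := fun v w => w ∈ Bx x τ r (B * δ) v) hZm
  have hfm : Measurable f :=
    Measurable.ite (measurableSet_le mZ measurable_const) mX measurable_const
  have hXB : ∀ v : SL(2, ℝ), ν {w | Wk Φ x y τ r σ A m n δ v w} ≤ ν (Bx x τ r (B * δ) v) := by
    intro v
    apply measure_mono
    rintro w ⟨h1, h2, h3, h4, -, -⟩
    have h5 : δ ≤ B * δ := by nlinarith
    exact ⟨h1, (abs_of_sign hσ h2 h3).trans h5, h4.trans h5⟩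
  have hfl : ∀ g, f g ≤ l := by
    intro g
    simp only [hf]
    split_ifs with h
    · exact (hXB g).trans h
    · exact zero_le
  have hZinv : ∀ γ ∈ Γ, ∀ g, ν (Bx x τ r (B * δ) (γ * g)) = ν (Bx x τ r (B * δ) g) :=
    fun γ hγ g => M.mass_inv (P := fun v w => w ∈ Bx x τ r (B * δ) v) hZm iZ hγ g
  have hfinv : ∀ γ ∈ Γ, ∀ g, f (γ * g) = f g := by
    intro γ hγ g
    simp only [hf, hZinv γ hγ g, M.mass_inv hXm iX hγ g]
  set I₁ := ∫⁻ g in Berry.Fd D, f g ∂ν with hI₁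
  have hI₁t : I₁ ≠ ⊤ := by
    refine ne_top_of_le_ne_top (ENNReal.mul_ne_top hlt hVt) ?_
    calc I₁ ≤ ∫⁻ g in Berry.Fd D, l ∂ν := lintegral_mono hfl
      _ = l * V := by rw [setLIntegral_const]
  -- correlations
  set P : ℝ≥0∞ := PM D ν (Cr Φ x y τ r (4 * c ^ 2 * E) (n * m) δ) with hP
  have hPb : P ≤ ENNReal.ofReal (η / (4 * n) * δ ^ 2) := hcr δ hδ b0
  have hcor : ∀ k : ℕ, 0 < k → k < n →
      ∫⁻ g in Berry.Fd D, f g * f (Φ (k * m) g) ∂ν ≤ l * P := by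
    intro k hk hkn
    have hYm : MeasurableSet {p : SL(2, ℝ) × SL(2, ℝ) |
        Wk Φ x y τ r σ A m n δ (Φ (k * m) p.1) (Φ (k * m) p.2)} :=
      (cont_flow2 S (k * m)).measurable hXm
    have h1 := triple (ν := ν) M (X := Wk Φ x y τ r σ A m n δ)
      (Y := fun v w => Wk Φ x y τ r σ A m n δ (Φ (k * m) v) (Φ (k * m) w))
      (Z := fun v w => w ∈ Bx x τ r (B * δ) v)
      (W := Cr Φ x y τ r (4 * c ^ 2 * E) (n * m) δ) hXm hYm hZm hWm iX
      (fun γ hγ v w => by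
        simp only [S.left γ hγ]
        exact iX γ hγ _ _) iZ
      (fun v v₀ w h h' => Z_of S hσ hA hδ b2 h h')
      (fun v w w' h h' => cross_of S hσ hA hm hδ hk hkn.le hE b3 b4 h h') l
    refine le_trans (lintegral_mono fun v => ?_) h1
    have h2 : ν {w | Wk Φ x y τ r σ A m n δ (Φ (k * m) v) (Φ (k * m) w)} =
        ν {w | Wk Φ x y τ r σ A m n δ (Φ (k * m) v) w} :=
      (mp_flow S M (k * m)).measure_preimage (measSet_snd hXm _).nullMeasurableSet
    have h3 : f (Φ (k * m) v) ≤ ν {w | Wk Φ x y τ r σ A m n δ (Φ (k * m) v) w} := by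
      simp only [hf]
      split_ifs
      · exact le_rfl
      · exact zero_le
    show f v * f (Φ (k * m) v) ≤ if ν {w | w ∈ Bx x τ r (B * δ) v} ≤ l then
      ν {w | Wk Φ x y τ r σ A m n δ v w} *
        ν {w | Wk Φ x y τ r σ A m n δ (Φ (k * m) v) (Φ (k * m) w)} else 0
    rw [h2]
    by_cases h4 : ν (Bx x τ r (B * δ) v) ≤ l
    · have h5 : ν {w | w ∈ Bx x τ r (B * δ) v} ≤ l := h4
      have h6 : f v = ν {w | Wk Φ x y τ r σ A m n δ v w} := by simp only [hf, if_pos h4]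
      rw [if_pos h5, h6]
      gcongr
    · have h5 : ¬ ν {w | w ∈ Bx x τ r (B * δ) v} ≤ l := h4
      have h6 : f v = 0 := by simp only [hf, if_neg h4]
      rw [if_neg h5, h6, zero_mul]
  have hav := averaging S M hfm hfinv hlt hfl n m hcor hI₁t
  -- the main part
  have hmain : I₁ ≤ ENNReal.ofReal (η / 4 * δ ^ 2 + η / 4 * δ ^ 2) := by
    have h1 : (n * l) * I₁ ≤ (n * l) * ENNReal.ofReal (η / 4 * δ ^ 2 + η / 4 * δ ^ 2) := by
      refine hav.trans ?_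
      have h2 : (n : ℝ≥0∞) ^ 2 * (l * P) ≤ n * l * ENNReal.ofReal (η / 4 * δ ^ 2) := by
        have h3 : (n : ℝ≥0∞) * P ≤ ENNReal.ofReal (η / 4 * δ ^ 2) := by
          calc (n : ℝ≥0∞) * P ≤ ENNReal.ofReal n * ENNReal.ofReal (η / (4 * n) * δ ^ 2) := by
                rw [ENNReal.ofReal_natCast]
                gcongr
            _ = ENNReal.ofReal (η / 4 * δ ^ 2) := by
                rw [← ENNReal.ofReal_mul hn0.le]
                congr 1
                field_simp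
        calc (n : ℝ≥0∞) ^ 2 * (l * P) = n * l * (n * P) := by ring
          _ ≤ _ := by gcongr
      have h4 : l ^ 2 * V ≤ n * l * ENNReal.ofReal (η / 4 * δ ^ 2) := by
        have h5 : l * V ≤ n * ENNReal.ofReal (η / 4 * δ ^ 2) := by
          rw [← ENNReal.ofReal_toReal hVt, hl, ← ENNReal.ofReal_mul (by positivity),
            ← ENNReal.ofReal_natCast, ← ENNReal.ofReal_mul hn0.le]
          apply ENNReal.ofReal_le_ofReal
          have h6 : 4 * (R * B ^ 2) * V.toReal * δ ^ 2 ≤ η * n * δ ^ 2 := by gcongr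
          nlinarith
        calc l ^ 2 * V = l * (l * V) := by ring
          _ ≤ l * (n * ENNReal.ofReal (η / 4 * δ ^ 2)) := by gcongr
          _ = _ := by ring
      calc (n : ℝ≥0∞) ^ 2 * (l * P) + l ^ 2 * V
          ≤ n * l * ENNReal.ofReal (η / 4 * δ ^ 2) + n * l * ENNReal.ofReal (η / 4 * δ ^ 2) :=
            add_le_add h2 h4
        _ = _ := by rw [← mul_add, ENNReal.ofReal_add (by positivity) (by positivity)]
    have hne : (n : ℝ≥0∞) * l ≠ 0 := mul_ne_zero (by exact_mod_cast hnpos.ne') hl0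
    have hnt : (n : ℝ≥0∞) * l ≠ ⊤ := ENNReal.mul_ne_top (ENNReal.natCast_ne_top n) hlt
    exact (ENNReal.mul_le_mul_iff_right hne hnt).1 h1
  -- the exceptional part
  have hexc := hui (B * δ) hBδ b1
  have hexc2 : ENNReal.ofReal (η / (2 * B ^ 2) * (B * δ) ^ 2) = ENNReal.ofReal (η / 2 * δ ^ 2) := by
    congr 1
    field_simp
  rw [hexc2] at hexc
  -- conclusion
  have hsplit : ∀ v : SL(2, ℝ), ν {w | Wk Φ x y τ r σ A m n δ v w} ≤ f v +
      (if ν (Bx x τ r (B * δ) v) ≤ ENNReal.ofReal (R * (B * δ) ^ 2) then 0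
        else ν (Bx x τ r (B * δ) v)) := by
    intro v
    by_cases h : ν (Bx x τ r (B * δ) v) ≤ l
    · have h' : ν (Bx x τ r (B * δ) v) ≤ ENNReal.ofReal (R * (B * δ) ^ 2) := h
      rw [if_pos h']
      simp only [hf, if_pos h, add_zero, le_refl]
    · have h' : ¬ ν (Bx x τ r (B * δ) v) ≤ ENNReal.ofReal (R * (B * δ) ^ 2) := h
      rw [if_neg h']
      simp only [hf, if_neg h, zero_add]
      exact hXB v
  show ∫⁻ v in Berry.Fd D, ν {w | Wk Φ x y τ r σ A m n δ v w} ∂ν ≤ ENNReal.ofReal (η * δ ^ 2)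
  calc ∫⁻ v in Berry.Fd D, ν {w | Wk Φ x y τ r σ A m n δ v w} ∂ν
      ≤ ∫⁻ v in Berry.Fd D, (f v +
        (if ν (Bx x τ r (B * δ) v) ≤ ENNReal.ofReal (R * (B * δ) ^ 2) then 0
          else ν (Bx x τ r (B * δ) v))) ∂ν := lintegral_mono hsplit
    _ = I₁ + _ := lintegral_add_left hfm _
    _ ≤ ENNReal.ofReal (η / 4 * δ ^ 2 + η / 4 * δ ^ 2) + ENNReal.ofReal (η / 2 * δ ^ 2) :=
        add_le_add hmain hexc
    _ = ENNReal.ofReal (η * δ ^ 2) := by
        rw [← ENNReal.ofReal_add (by positivity) (by positivity)]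
        congr 1
        ring

end

end NC

end QE
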