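import Pool.Agent.NCV.Stmts
import Pool.Agent.Lib_helper67.QE.HypLimits

/-!
# Module LIM: the weak limits of the products of jets for a conformal metric form a `LimFamR`  (helper76)

Adaptation of helper67's HypTransport and HypLimits to a general real weight `a`.
-/

open MeasureTheory Filter Topology Complex
open UpperHalfPlane hiding I
open scoped ContDiff MatrixGroups

set_option linter.unusedSectionVars false

namespace QE

namespace NC

noncomputable section

namespace LimM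

/-- the coefficient of `LL` in the commutator -/
def bw (a : ℂ → ℂ) (z : ℂ) : ℂ := -(2 * I) * dzb a z

/-- the coefficient of `LLb` in the commutator -/
def bc (a : ℂ → ℂ) (z : ℂ) : ℂ := 2 * I * dz a z

variable {h : ℕ → ℝ} {φ : ℕ → ℂ → ℂ} {a g : ℂ → ℂ}

theorem dA {f : ℂ → ℂ} (hf : ContDiffOn ℝ ∞ f UH) {z : ℂ} (hz : z ∈ UH) :
    DifferentiableAt ℝ f z :=
  (hf.contDiffAt (isOpen_UH.mem_nhds hz)).differentiableAt (by simp)

theorem bw_smooth (ha : ContDiffOn ℝ ∞ a UH) : ContDiffOn ℝ ∞ (bw a) UH :=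
  contDiffOn_const.mul (contDiffOn_dzb isOpen_UH ha)

theorem bc_smooth (ha : ContDiffOn ℝ ∞ a UH) : ContDiffOn ℝ ∞ (bc a) UH :=
  contDiffOn_const.mul (contDiffOn_dz isOpen_UH ha)

/-- the commutator of the two operators -/
theorem comm_exact (ha : ContDiffOn ℝ ∞ a UH) {u : ℕ → ℂ → ℂ} (hu : SmoothSeq UH u) (n : ℕ) (z : ℂ)
    (hz : z ∈ UH) :
    LLb h a (LL h a u) n z = LL h a (LLb h a u) n z
      + (h n : ℂ) * (bw a z * LL h a u n z + bc a z * LLb h a u n z) := by
  have hda : DifferentiableAt ℝ a z := dA ha hz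
  have s1 : DifferentiableAt ℝ (dz (u n)) z := (SmoothSeq.dz isOpen_UH hu).dAt isOpen_UH n hz
  have s2 : DifferentiableAt ℝ (dzb (u n)) z := (SmoothSeq.dzb isOpen_UH hu).dAt isOpen_UH n hz
  have e1 : dzb (LL h a u n) z
      = -(2 * I * h n) * (dzb a z * dz (u n) z + a z * dzb (dz (u n)) z) := by
    unfold LL
    have : (fun z => -(2 * I * (h n : ℂ)) * a z * dz (u n) z)
        = fun z => -(2 * I * (h n : ℂ)) * (a z * dz (u n) z) := by funext w; ring
    rw [this, dzb_const_mul _ (hda.fun_mul s1), dzb_mul hda s1]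
  have e2 : dz (LLb h a u n) z
      = -(2 * I * h n) * (dz a z * dzb (u n) z + a z * dz (dzb (u n)) z) := by
    unfold LLb
    have : (fun z => -(2 * I * (h n : ℂ)) * a z * dzb (u n) z)
        = fun z => -(2 * I * (h n : ℂ)) * (a z * dzb (u n) z) := by funext w; ring
    rw [this, dz_const_mul _ (hda.fun_mul s2), dz_mul hda s2]
  have e3 : LLb h a (LL h a u) n z = -(2 * I * h n) * a z * dzb (LL h a u n) z := rfl
  have e4 : LL h a (LLb h a u) n z = -(2 * I * h n) * a z * dz (LLb h a u n) z := rfl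
  have e5 : LL h a u n z = -(2 * I * h n) * a z * dz (u n) z := rfl
  have e6 : LLb h a u n z = -(2 * I * h n) * a z * dzb (u n) z := rfl
  rw [e3, e4, e1, e2, e5, e6, dz_dzb_comm (((hu n).contDiffAt
    (isOpen_UH.mem_nhds hz)).of_le (WithTop.coe_le_coe.2 le_top))]
  unfold bw bc
  ring

section S

variable (S : Setup UH g a h φ)

include S

/-- `L̄ E_1 = φ + h b E_1` -/
theorem LLb_one_exact (n : ℕ) (z : ℂ) (hz : z ∈ UH) :
    LLb h a (jet h a φ 1) n z = jet h a φ 0 n z + (h n : ℂ) * (bw a z * jet h a φ 1 n z) := by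
  have hda : DifferentiableAt ℝ a z := dA S.ha hz
  have s1 : DifferentiableAt ℝ (dz (φ n)) z :=
    (SmoothSeq.dz isOpen_UH S.tame.smooth).dAt isOpen_UH n hz
  have e1 : dzb (LL h a φ n) z
      = -(2 * I * h n) * (dzb a z * dz (φ n) z + a z * dzb (dz (φ n)) z) := by
    unfold LL
    have : (fun z => -(2 * I * (h n : ℂ)) * a z * dz (φ n) z)
        = fun z => -(2 * I * (h n : ℂ)) * (a z * dz (φ n) z) := by funext w; ring
    rw [this, dzb_const_mul _ (hda.fun_mul s1), dzb_mul hda s1]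
  have e3 : LLb h a (jet h a φ 1) n z
      = -(2 * I * h n) * a z * dzb (LL h a φ n) z := rfl
  have e5 : jet h a φ 1 n z = -(2 * I * h n) * a z * dz (φ n) z := rfl
  have e6 : jet h a φ 0 n z = φ n z := rfl
  have hI : I ^ 2 = -1 := I_sq
  have hc : dz (dzb (φ n)) z = dzb (dz (φ n)) z := dz_dzb_comm (((S.tame.smooth n).contDiffAt
    (isOpen_UH.mem_nhds hz)).of_le (WithTop.coe_le_coe.2 le_top))
  have hag := S.ag z hz
  have heig := S.eig n z hz
  rw [hc] at heig
  rw [e3, e1, e5, e6]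
  unfold bw
  linear_combination (4 * (h n : ℂ) ^ 2 * a z ^ 2 * dzb (dz (φ n)) z) * hI
    - a z ^ 2 * heig + φ n z * hag

/-- the second order expansion of `L̄ E_{m+1}` -/
theorem LLb_exp (m : ℕ) : Near2 UH h (LLb h a (jet h a φ (m + 1))) (jet h a φ m)
    (fun n z => ((m : ℂ) + 1) * (bw a z * jet h a φ (m + 1) n z)
      + (m : ℂ) * (bc a z * jet h a φ (m - 1) n z)) := by
  have hU := isOpen_UH
  have hB := bw_smooth S.ha
  have hC := bc_smooth S.ha
  induction m with
  | zero =>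
    refine ⟨_, Tame.zero isOpen_UH, fun n z hz => ?_⟩
    rw [LLb_one_exact S n z hz]
    simp
  | succ m ih =>
    obtain ⟨w, hw, hw'⟩ := ih
    have t1 := (hw.LL isOpen_UH S.hlim S.ha)
    have j1 := S.tame_jet (m + 1)
    have j2 := S.tame_jet (m - 1)
    have hbz : ContDiffOn ℝ ∞ (fun z => a z * dz (bw a) z) UH :=
      S.ha.mul (contDiffOn_dz hU hB)
    have hcz : ContDiffOn ℝ ∞ (fun z => a z * dz (bc a) z) UH :=
      S.ha.mul (contDiffOn_dz hU hC)
    -- derivatives of the coefficients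
    have t2 := (j1.fn_mul hU S.hlim hbz).smul hU (-(2 * I) * ((m : ℂ) + 1))
    have t3 := (j2.fn_mul hU S.hlim hcz).smul hU (-(2 * I) * (m : ℂ))
    -- the error of `L̄ e_{m+1}` in the second term
    have t4 := (((j1.fn_mul hU S.hlim hB).smul hU ((m : ℂ) + 1)).add hU
      ((j2.fn_mul hU S.hlim hC).smul hU (m : ℂ))).fn_mul hU S.hlim hC
    have hbdh : ∀ᶠ n in atTop, ‖((h n : ℝ) : ℂ)‖ ≤ 1 := hbd S.hlim
    have t5 := (hw.fn_mul hU S.hlim hC).const_mul hU hbdh
    refine ⟨_, (((t1.add hU t2).add hU t3).add hU t4).add hU t5, fun n z hz => ?_⟩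
    have s0 : SmoothSeq UH (jet h a φ (m + 1)) := (S.tame_jet (m + 1)).smooth
    have e0 := comm_exact (h := h) S.ha s0 n z hz
    have e1 : jet h a φ (m + 1 + 1) = LL h a (jet h a φ (m + 1)) := rfl
    have d1 : DifferentiableAt ℝ (jet h a φ m n) z := (S.tame_jet m).smooth.dAt isOpen_UH n hz
    have d2 : DifferentiableAt ℝ (jet h a φ (m + 1) n) z := s0.dAt isOpen_UH n hz
    have d3 : DifferentiableAt ℝ (jet h a φ (m - 1) n) z :=
      (S.tame_jet (m - 1)).smooth.dAt isOpen_UH n hz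
    have d4 : DifferentiableAt ℝ (w n) z := hw.smooth.dAt isOpen_UH n hz
    have dB : DifferentiableAt ℝ (bw a) z := dA hB hz
    have dC : DifferentiableAt ℝ (bc a) z := dA hC hz
    have x1 := (dB.fun_mul d2).const_mul ((m : ℂ) + 1)
    have x2 := (dC.fun_mul d3).const_mul (m : ℂ)
    have e2 : dz (LLb h a (jet h a φ (m + 1)) n) z = dz (jet h a φ m n) z
        + (h n : ℂ) * (((m : ℂ) + 1) * (dz (bw a) z * jet h a φ (m + 1) n z
            + bw a z * dz (jet h a φ (m + 1) n) z)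
          + (m : ℂ) * (dz (bc a) z * jet h a φ (m - 1) n z
            + bc a z * dz (jet h a φ (m - 1) n) z)) + (h n : ℂ) ^ 2 * dz (w n) z := by
      rw [dz_congr_on isOpen_UH (hw' n) hz]
      rw [dz_add (d1.fun_add ((x1.fun_add x2).const_mul _))
        (d4.const_mul _), dz_add d1 ((x1.fun_add x2).const_mul _),
        dz_const_mul _ (x1.fun_add x2), dz_const_mul _ d4,
        dz_add x1 x2, dz_const_mul _ (dB.fun_mul d2), dz_const_mul _ (dC.fun_mul d3),
        dz_mul dB d2, dz_mul dC d3]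
    have e3 : LL h a (LLb h a (jet h a φ (m + 1))) n z
        = -(2 * I * h n) * a z * dz (LLb h a (jet h a φ (m + 1)) n) z := rfl
    have e4 : ∀ k, jet h a φ (k + 1) n z
        = -(2 * I * h n) * a z * dz (jet h a φ k n) z := fun k => rfl
    have e5 : LL h a w n z = -(2 * I * h n) * a z * dz (w n) z := rfl
    have e6 : (m : ℂ) * (-(2 * I * h n) * a z * dz (jet h a φ (m - 1) n) z)
        = (m : ℂ) * jet h a φ m n z := by
      rcases Nat.eq_zero_or_pos m with h0 | h0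
      · rw [h0]; simp
      · obtain ⟨k, rfl⟩ : ∃ k, m = k + 1 := ⟨m - 1, by omega⟩
        rw [Nat.add_sub_cancel, e4 k]
    have e7 := hw' n z hz
    have e8 : (m + 1 - 1 : ℕ) = m := by omega
    rw [e1, e0, e3, e2, e8]
    have e9 := e4 m
    have e10 := e4 (m + 1)
    have e11 : LL h a (jet h a φ (m + 1)) n z = jet h a φ (m + 1 + 1) n z := rfl
    rw [e5]
    push_cast
    linear_combination (-1 : ℂ) * e9 - (h n : ℂ) * ((m : ℂ) + 1) * bw a z * e10
      + (h n : ℂ) * bc a z * e6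
      + (h n : ℂ) * bc a z * e7 - (h n : ℂ) * ((m : ℂ) + 1) * bw a z * e11

/-- the derivative of a product of two jets, exactly -/
theorem LL_prod_exact (j m : ℕ) (n : ℕ) (z : ℂ) (hz : z ∈ UH) :
    -(2 * I * h n) * a z * dz (fun z => jet h a φ j n z * jet h a φ m n z) z
      = jet h a φ (j + 1) n z * jet h a φ m n z + jet h a φ j n z * jet h a φ (m + 1) n z := by
  have d1 : DifferentiableAt ℝ (jet h a φ j n) z := (S.tame_jet j).smooth.dAt isOpen_UH n hz
  have d2 : DifferentiableAt ℝ (jet h a φ m n) z := (S.tame_jet m).smooth.dAt isOpen_UH n hz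
  have e4 : ∀ k, jet h a φ (k + 1) n z
      = -(2 * I * h n) * a z * dz (jet h a φ k n) z := fun k => rfl
  rw [dz_mul d1 d2, e4 j, e4 m]
  ring

theorem LLb_prod_exact (j m : ℕ) (n : ℕ) (z : ℂ) (hz : z ∈ UH) :
    -(2 * I * h n) * a z * dzb (fun z => jet h a φ j n z * jet h a φ m n z) z
      = LLb h a (jet h a φ j) n z * jet h a φ m n z
        + jet h a φ j n z * LLb h a (jet h a φ m) n z := by
  have d1 : DifferentiableAt ℝ (jet h a φ j n) z := (S.tame_jet j).smooth.dAt isOpen_UH n hz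
  have d2 : DifferentiableAt ℝ (jet h a φ m n) z := (S.tame_jet m).smooth.dAt isOpen_UH n hz
  have e3 : ∀ k, LLb h a (jet h a φ k) n z
      = -(2 * I * h n) * a z * dzb (jet h a φ k n) z := fun k => rfl
  rw [dzb_mul d1 d2, e3 j, e3 m]
  ring

theorem a_ne {z : ℂ} (hz : z ∈ UH) : a z ≠ 0 := by
  intro h0
  have := S.ag z hz
  rw [h0] at this
  simp at this

theorem smooth_inv : ContDiffOn ℝ ∞ (fun z => (a z)⁻¹) UH :=
  S.ha.inv fun _ hz => a_ne S hz

theorem g_eq {z : ℂ} (hz : z ∈ UH) : g z = ((a z)⁻¹) ^ 2 := by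
  have h1 := S.ag z hz
  have h2 := a_ne S hz
  field_simp
  linear_combination h1

/-- the derivatives of `ζ / a` -/
theorem dz_div {ζ : ℂ → ℂ} (hζ : Test UH ζ) {z : ℂ} (hz : z ∈ UH) :
    dz (fun z => ζ z * (a z)⁻¹) z
      = dz ζ z * (a z)⁻¹ - dz a z * (ζ z * ((a z)⁻¹) ^ 2) := by
  have hζ1 : Test UH (fun z => ζ z * (a z)⁻¹) := hζ.mul isOpen_UH (smooth_inv S)
  have hd := hζ1.smooth.differentiable (by simp) z
  have h2 : dz ζ z = dz (fun z => (ζ z * (a z)⁻¹) * a z) z := by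
    refine dz_congr_on isOpen_UH (fun w hw => ?_) hz
    rw [mul_assoc, inv_mul_cancel₀ (a_ne S hw), mul_one]
  have h3 : dz (fun z => (ζ z * (a z)⁻¹) * a z) z
      = dz (fun z => ζ z * (a z)⁻¹) z * a z + (ζ z * (a z)⁻¹) * dz a z :=
    dz_mul hd (dA S.ha hz)
  rw [h3] at h2
  have ha := a_ne S hz
  rw [h2]
  field_simp
  ring

theorem dzb_div {ζ : ℂ → ℂ} (hζ : Test UH ζ) {z : ℂ} (hz : z ∈ UH) :
    dzb (fun z => ζ z * (a z)⁻¹) z
      = dzb ζ z * (a z)⁻¹ - dzb a z * (ζ z * ((a z)⁻¹) ^ 2) := by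
  have hζ1 : Test UH (fun z => ζ z * (a z)⁻¹) := hζ.mul isOpen_UH (smooth_inv S)
  have hd := hζ1.smooth.differentiable (by simp) z
  have h2 : dzb ζ z = dzb (fun z => (ζ z * (a z)⁻¹) * a z) z := by
    refine dzb_congr_on isOpen_UH (fun w hw => ?_) hz
    rw [mul_assoc, inv_mul_cancel₀ (a_ne S hw), mul_one]
  have h3 : dzb (fun z => (ζ z * (a z)⁻¹) * a z) z
      = dzb (fun z => ζ z * (a z)⁻¹) z * a z + (ζ z * (a z)⁻¹) * dzb a z :=
    dzb_mul hd (dA S.ha hz)
  rw [h3] at h2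
  have ha := a_ne S hz
  rw [h2]
  field_simp
  ring

/-- the test functions `ζ b / a²` and so on -/
theorem tst {ζ f : ℂ → ℂ} (hζ : Test UH ζ) (hf : ContDiffOn ℝ ∞ f UH) :
    Test UH (fun z => ζ z * (((a z)⁻¹) ^ 2 * f z)) :=
  hζ.mul isOpen_UH (((smooth_inv S).pow 2).mul hf)

/-- the integrated identity behind the transport equation -/
theorem transport_id (m : ℕ) : ∃ w, Tame UH h w ∧ ∀ n, ∀ ζ, Test UH ζ →
    2 * I * (∫ z, dz (fun z => ζ z * (a z)⁻¹) z * (jet h a φ 0 n z * jet h a φ m n z))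
      - 2 * I * (∫ z, dzb (fun z => ζ z * (a z)⁻¹) z
          * (jet h a φ 1 n z * jet h a φ (m + 1) n z))
      = -((m : ℂ) + 2) * (∫ z, (ζ z * (((a z)⁻¹) ^ 2 * bw a z))
          * (jet h a φ 1 n z * jet h a φ (m + 1) n z))
        - (m : ℂ) * (∫ z, (ζ z * (((a z)⁻¹) ^ 2 * bc a z))
          * (jet h a φ 1 n z * jet h a φ (m - 1) n z))
        - (h n : ℂ) * (∫ z, (ζ z * ((a z)⁻¹) ^ 2) * (jet h a φ 1 n z * w n z)) := by
  obtain ⟨w, hw, hw'⟩ := LLb_exp S m
  refine ⟨w, hw, fun n ζ hζ => ?_⟩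
  have hζ1 : Test UH (fun z => ζ z * (a z)⁻¹) := hζ.mul isOpen_UH (smooth_inv S)
  have hζ2 : Test UH (fun z => ζ z * ((a z)⁻¹) ^ 2) :=
    hζ.mul isOpen_UH ((smooth_inv S).pow 2)
  have hζB := tst S hζ (bw_smooth S.ha)
  have hζC := tst S hζ (bc_smooth S.ha)
  have sA : ContDiffOn ℝ ∞ (fun z => jet h a φ 0 n z * jet h a φ m n z) UH :=
    ((S.tame_jet 0).smooth n).mul ((S.tame_jet m).smooth n)
  have sB : ContDiffOn ℝ ∞ (fun z => jet h a φ 1 n z * jet h a φ (m + 1) n z) UH :=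
    ((S.tame_jet 1).smooth n).mul ((S.tame_jet (m + 1)).smooth n)
  have sD : ContDiffOn ℝ ∞ (fun z => jet h a φ 1 n z * jet h a φ (m - 1) n z) UH :=
    ((S.tame_jet 1).smooth n).mul ((S.tame_jet (m - 1)).smooth n)
  have sE : ContDiffOn ℝ ∞ (fun z => jet h a φ 1 n z * w n z) UH :=
    ((S.tame_jet 1).smooth n).mul (hw.smooth n)
  have i1 := integral_mul_dz isOpen_UH hζ1 sA
  have i2 := integral_mul_dzb isOpen_UH hζ1 sB
  have g1 := hζB.int isOpen_UH sB
  have g2 := hζC.int isOpen_UH sD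
  have g3 := hζ2.int isOpen_UH sE
  have g4 := hζ1.int isOpen_UH (contDiffOn_dz isOpen_UH sA)
  have g5 := hζ1.int isOpen_UH (contDiffOn_dzb isOpen_UH sB)
  have hn : (h n : ℂ) ≠ 0 := by exact_mod_cast (S.hpos n).ne'
  -- pointwise identity
  have pw : ∀ z, -(2 * I) * ((ζ z * (a z)⁻¹)
        * dz (fun z => jet h a φ 0 n z * jet h a φ m n z) z)
      + 2 * I * ((ζ z * (a z)⁻¹)
        * dzb (fun z => jet h a φ 1 n z * jet h a φ (m + 1) n z) z)
      = -((m : ℂ) + 2) * ((ζ z * (((a z)⁻¹) ^ 2 * bw a z))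
          * (jet h a φ 1 n z * jet h a φ (m + 1) n z))
        + -(m : ℂ) * ((ζ z * (((a z)⁻¹) ^ 2 * bc a z))
          * (jet h a φ 1 n z * jet h a φ (m - 1) n z))
        + -(h n : ℂ) * ((ζ z * ((a z)⁻¹) ^ 2) * (jet h a φ 1 n z * w n z)) := by
    intro z
    by_cases hz : z ∈ UH
    · have p1 := LL_prod_exact S 0 m n z hz
      have p2 := LLb_prod_exact S 1 (m + 1) n z hz
      rw [LLb_one_exact S n z hz, hw' n z hz] at p2
      have ha := a_ne S hz
      set A' := dz (fun z => jet h a φ 0 n z * jet h a φ m n z) z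
      set B' := dzb (fun z => jet h a φ 1 n z * jet h a φ (m + 1) n z) z
      have q1 : -(2 * I) * A' = (jet h a φ (0 + 1) n z * jet h a φ m n z
          + jet h a φ 0 n z * jet h a φ (m + 1) n z) * ((h n : ℂ)⁻¹ * (a z)⁻¹) := by
        rw [← p1]; field_simp
      have q2 : 2 * I * B' = -(((jet h a φ 0 n z + (h n : ℂ) * (bw a z * jet h a φ 1 n z))
          * jet h a φ (m + 1) n z + jet h a φ 1 n z * (jet h a φ m n z + (h n : ℂ)
            * (((m : ℂ) + 1) * (bw a z * jet h a φ (m + 1) n z)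
              + (m : ℂ) * (bc a z * jet h a φ (m - 1) n z))
            + (h n : ℂ) ^ 2 * w n z)) * ((h n : ℂ)⁻¹ * (a z)⁻¹)) := by
        rw [← p2]; field_simp
      have e : -(2 * I) * ((ζ z * (a z)⁻¹) * A')
          + 2 * I * ((ζ z * (a z)⁻¹) * B')
          = (ζ z * (a z)⁻¹) * (-(2 * I) * A' + 2 * I * B') := by ring
      rw [e, q1, q2]
      field_simp
      ring
    · have h0 := (hζ.zero_of_notMem hz).1
      rw [h0]; ring
  have t1 : ∫ z, (-(2 * I) * ((ζ z * (a z)⁻¹)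
        * dz (fun z => jet h a φ 0 n z * jet h a φ m n z) z)
      + 2 * I * ((ζ z * (a z)⁻¹)
        * dzb (fun z => jet h a φ 1 n z * jet h a φ (m + 1) n z) z))
      = ∫ z, (-((m : ℂ) + 2) * ((ζ z * (((a z)⁻¹) ^ 2 * bw a z))
            * (jet h a φ 1 n z * jet h a φ (m + 1) n z))
        + -(m : ℂ) * ((ζ z * (((a z)⁻¹) ^ 2 * bc a z))
            * (jet h a φ 1 n z * jet h a φ (m - 1) n z))
        + -(h n : ℂ) * ((ζ z * ((a z)⁻¹) ^ 2) * (jet h a φ 1 n z * w n z))) :=
    integral_congr_ae (Filter.Eventually.of_forall pw)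
  have t2 : ∫ z, (-(2 * I) * ((ζ z * (a z)⁻¹)
        * dz (fun z => jet h a φ 0 n z * jet h a φ m n z) z)
      + 2 * I * ((ζ z * (a z)⁻¹)
        * dzb (fun z => jet h a φ 1 n z * jet h a φ (m + 1) n z) z))
      = -(2 * I) * (∫ z, (ζ z * (a z)⁻¹)
        * dz (fun z => jet h a φ 0 n z * jet h a φ m n z) z)
      + 2 * I * (∫ z, (ζ z * (a z)⁻¹)
        * dzb (fun z => jet h a φ 1 n z * jet h a φ (m + 1) n z) z) := by
    rw [integral_add (g4.const_mul _) (g5.const_mul _), integral_const_mul, integral_const_mul]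
  have t3 : ∫ z, (-((m : ℂ) + 2) * ((ζ z * (((a z)⁻¹) ^ 2 * bw a z))
            * (jet h a φ 1 n z * jet h a φ (m + 1) n z))
        + -(m : ℂ) * ((ζ z * (((a z)⁻¹) ^ 2 * bc a z))
            * (jet h a φ 1 n z * jet h a φ (m - 1) n z))
        + -(h n : ℂ) * ((ζ z * ((a z)⁻¹) ^ 2) * (jet h a φ 1 n z * w n z)))
      = -((m : ℂ) + 2) * (∫ z, (ζ z * (((a z)⁻¹) ^ 2 * bw a z))
            * (jet h a φ 1 n z * jet h a φ (m + 1) n z))
        + -(m : ℂ) * (∫ z, (ζ z * (((a z)⁻¹) ^ 2 * bc a z))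
            * (jet h a φ 1 n z * jet h a φ (m - 1) n z))
        + -(h n : ℂ) * (∫ z, (ζ z * ((a z)⁻¹) ^ 2) * (jet h a φ 1 n z * w n z)) := by
    have g12 : Integrable (fun z => -((m : ℂ) + 2) * ((ζ z * (((a z)⁻¹) ^ 2 * bw a z))
            * (jet h a φ 1 n z * jet h a φ (m + 1) n z))
        + -(m : ℂ) * ((ζ z * (((a z)⁻¹) ^ 2 * bc a z))
            * (jet h a φ 1 n z * jet h a φ (m - 1) n z))) :=
      (g1.const_mul _).add (g2.const_mul _)
    rw [integral_add g12 (g3.const_mul _),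
      integral_add (g1.const_mul _) (g2.const_mul _), integral_const_mul, integral_const_mul,
      integral_const_mul]
  rw [t2, t3] at t1
  rw [i1, i2] at t1
  linear_combination t1

variable {u : ℤ → ℂ → ℂ} (hl : ∀ k, LocL2 UH (u k)) (hw : JLim UH h a φ u)

include hl hw

/-- the transport equation for positive `k` -/
theorem transport_pos (m : ℕ) {ζ : ℂ → ℂ} (hζ : Test UH ζ) :
    ∫ z, ((a z * dz ζ z - ((m + 1 : ℤ) : ℂ) * dz a z * ζ z) * u ((m + 1 : ℤ) - 1) z
      + (a z * dzb ζ z + ((m + 1 : ℤ) : ℂ) * dzb a z * ζ z) * u ((m + 1 : ℤ) + 1) z)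
        * g z = 0 := by
  obtain ⟨w, hwt, hid⟩ := transport_id S m
  have hζ1 : Test UH (fun z => ζ z * (a z)⁻¹) := hζ.mul isOpen_UH (smooth_inv S)
  have hζ2 : Test UH (fun z => ζ z * ((a z)⁻¹) ^ 2) :=
    hζ.mul isOpen_UH ((smooth_inv S).pow 2)
  have hζB := tst S hζ (bw_smooth S.ha)
  have hζC := tst S hζ (bc_smooth S.ha)
  -- the limits
  have tA : Tendsto (fun n => ∫ z, dz (fun z => ζ z * (a z)⁻¹) z
      * (jet h a φ 0 n z * jet h a φ m n z)) atTop
      (𝓝 (∫ z, dz (fun z => ζ z * (a z)⁻¹) z * u (m : ℤ) z)) :=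
    (S.lim_zero hl hw (m : ℤ)).test hζ1.dz
  have wB : WLim UH (fun n z => jet h a φ 1 n z * jet h a φ (m + 1) n z)
      (fun z => -u ((m : ℤ) + 2) z) := by
    have := hw 1 ((m + 1 : ℕ) : ℤ)
    refine this.congr_right fun z _ => ?_
    have e : (1 : ℤ) + ((m + 1 : ℕ) : ℤ) = (m : ℤ) + 2 := by push_cast; ring
    rw [e]; simp
  have tB := wB.test hζ1.dzb
  have tC := wB.test hζB
  have tD : Tendsto (fun n => (m : ℂ) * ∫ z, (ζ z * (((a z)⁻¹) ^ 2 * bc a z))
      * (jet h a φ 1 n z * jet h a φ (m - 1) n z)) atTop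
      (𝓝 ((m : ℂ) * ∫ z, (ζ z * (((a z)⁻¹) ^ 2 * bc a z)) * -u (m : ℤ) z)) := by
    rcases Nat.eq_zero_or_pos m with h0 | h0
    · rw [h0]; simp
    · have wD : WLim UH (fun n z => jet h a φ 1 n z * jet h a φ (m - 1) n z)
          (fun z => -u (m : ℤ) z) := by
        have := hw 1 ((m - 1 : ℕ) : ℤ)
        refine this.congr_right fun z _ => ?_
        have e : (1 : ℤ) + ((m - 1 : ℕ) : ℤ) = (m : ℤ) := by omega
        rw [e]; simp
      exact (wD.test hζC).const_mul _
  have tE := tendsto_h_int S.hlim (S.tame_jet 1) hwt hζ2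
  have lim1 := (tA.const_mul (2 * I)).sub (tB.const_mul (2 * I))
  have lim2 := ((tC.const_mul (-((m : ℂ) + 2))).sub tD).sub tE
  have heq := tendsto_nhds_unique (lim1.congr fun n => hid n ζ hζ) lim2
  -- integrability
  have j1 := hζ1.dz.int_LocL2 (hl (m : ℤ))
  have j2 := hζ1.dzb.int_LocL2 (hl ((m : ℤ) + 2))
  have j3 := hζB.int_LocL2 (hl ((m : ℤ) + 2))
  have j4 := hζC.int_LocL2 (hl (m : ℤ))
  have n1 : ∀ f g : ℂ → ℂ, ∫ z, f z * -g z = -∫ z, f z * g z := by
    intro f g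
    rw [← integral_neg]
    exact integral_congr_ae (Filter.Eventually.of_forall fun z => by beta_reduce; ring)
  rw [n1, n1, n1] at heq
  have e1 : ((m + 1 : ℤ) - 1) = (m : ℤ) := by ring
  have e2 : ((m + 1 : ℤ) + 1) = (m : ℤ) + 2 := by ring
  rw [e1, e2]
  have hI : I ^ 2 = -1 := I_sq
  have pw : ∀ z : ℂ, ((a z * dz ζ z - ((m + 1 : ℤ) : ℂ) * dz a z * ζ z) * u (m : ℤ) z
      + (a z * dzb ζ z + ((m + 1 : ℤ) : ℂ) * dzb a z * ζ z) * u ((m : ℤ) + 2) z)
        * g z
      = (dz (fun z => ζ z * (a z)⁻¹) z * u (m : ℤ) z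
        + dzb (fun z => ζ z * (a z)⁻¹) z * u ((m : ℤ) + 2) z)
        + (I / 2 * (m : ℂ) * ((ζ z * (((a z)⁻¹) ^ 2 * bc a z)) * u (m : ℤ) z)
        + I / 2 * ((m : ℂ) + 2) * ((ζ z * (((a z)⁻¹) ^ 2 * bw a z)) * u ((m : ℤ) + 2) z)) := by
    intro z
    by_cases hz : z ∈ UH
    · rw [dz_div S hζ hz, dzb_div S hζ hz, g_eq S hz]
      have ha := a_ne S hz
      unfold bw bc
      have ea : a z * (a z)⁻¹ = 1 := mul_inv_cancel₀ ha
      push_cast
      linear_combination ((a z)⁻¹ * (dz ζ z * u (m : ℤ) z + dzb ζ z * u ((m : ℤ) + 2) z)) * ea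
        + (-(m : ℂ) * ζ z * ((a z)⁻¹) ^ 2 * dz a z * u (m : ℤ) z
          + ((m : ℂ) + 2) * ζ z * ((a z)⁻¹) ^ 2 * dzb a z * u ((m : ℤ) + 2) z) * hI
    · obtain ⟨h0, h1, h2⟩ := hζ.zero_of_notMem hz
      obtain ⟨_, h3, h4⟩ := hζ1.zero_of_notMem hz
      rw [h0, h1, h2, h3, h4]; ring
  have t1 : ∫ z : ℂ, ((a z * dz ζ z - ((m + 1 : ℤ) : ℂ) * dz a z * ζ z) * u (m : ℤ) z
      + (a z * dzb ζ z + ((m + 1 : ℤ) : ℂ) * dzb a z * ζ z) * u ((m : ℤ) + 2) z)
        * g z
      = ((∫ z, dz (fun z => ζ z * (a z)⁻¹) z * u (m : ℤ) z)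
        + ∫ z, dzb (fun z => ζ z * (a z)⁻¹) z * u ((m : ℤ) + 2) z)
        + (I / 2 * (m : ℂ) * (∫ z, (ζ z * (((a z)⁻¹) ^ 2 * bc a z)) * u (m : ℤ) z)
        + I / 2 * ((m : ℂ) + 2)
          * (∫ z, (ζ z * (((a z)⁻¹) ^ 2 * bw a z)) * u ((m : ℤ) + 2) z)) := by
    have j12 : Integrable (fun z => dz (fun z => ζ z * (a z)⁻¹) z * u (m : ℤ) z
        + dzb (fun z => ζ z * (a z)⁻¹) z * u ((m : ℤ) + 2) z) := j1.add j2
    have j34 : Integrable (fun z => I / 2 * (m : ℂ) * ((ζ z * (((a z)⁻¹) ^ 2 * bc a z))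
          * u (m : ℤ) z)
        + I / 2 * ((m : ℂ) + 2)
          * ((ζ z * (((a z)⁻¹) ^ 2 * bw a z)) * u ((m : ℤ) + 2) z)) :=
      (j4.const_mul _).add (j3.const_mul _)
    rw [integral_congr_ae (Filter.Eventually.of_forall pw),
      integral_add j12 j34, integral_add j1 j2,
      integral_add (j4.const_mul _) (j3.const_mul _), integral_const_mul, integral_const_mul]
  rw [t1]
  linear_combination (-(I / 2)) * heq
    + ((∫ z, dz (fun z => ζ z * (a z)⁻¹) z * u (m : ℤ) z)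
      + ∫ z, dzb (fun z => ζ z * (a z)⁻¹) z * u ((m : ℤ) + 2) z) * hI

/-- the transport equation: the limit measure is invariant under the geodesic flow -/
theorem limit_transport (k : ℤ) {ζ : ℂ → ℂ} (hζ : Test UH ζ) :
    ∫ z, ((a z * dz ζ z - (k : ℂ) * dz a z * ζ z) * u (k - 1) z
      + (a z * dzb ζ z + (k : ℂ) * dzb a z * ζ z) * u (k + 1) z)
        * g z = 0 := by
  rcases Int.even_or_odd k with hk | hk
  · -- the functions `u (k - 1)` and `u (k + 1)` vanish
    have h1 : Odd (k - 1) := by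
      obtain ⟨r, rfl⟩ := hk
      exact ⟨r - 1, by ring⟩
    have h2 : Odd (k + 1) := by
      obtain ⟨r, rfl⟩ := hk
      exact ⟨r, by ring⟩
    have h3 := (ae_restrict_iff' isOpen_UH.measurableSet).1 (S.lim_odd hl hw (k - 1) h1)
    have h4 := (ae_restrict_iff' isOpen_UH.measurableSet).1 (S.lim_odd hl hw (k + 1) h2)
    rw [← integral_zero ℂ ℂ (μ := volume)]
    refine integral_congr_ae ?_
    filter_upwards [h3, h4] with z h3 h4
    by_cases hz : z ∈ UH
    · rw [h3 hz, h4 hz]; simp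
    · obtain ⟨h0, h1, h2⟩ := hζ.zero_of_notMem hz
      rw [h0, h1, h2]; simp
  · rcases le_or_gt 1 k with h1 | h1
    · obtain ⟨m, rfl⟩ : ∃ m : ℕ, k = (m : ℤ) + 1 := ⟨(k - 1).toNat, by omega⟩
      exact transport_pos S hl hw m hζ
    · have hk0 : k ≤ -1 := by
        obtain ⟨r, rfl⟩ := hk
        omega
      obtain ⟨m, hm⟩ : ∃ m : ℕ, -k = (m : ℤ) + 1 := ⟨(-k - 1).toNat, by omega⟩
      have hp := transport_pos S hl hw m hζ.conj
      rw [← hm] at hp
      have hc := congrArg (starRingEnd ℂ) hp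
      rw [map_zero, ← integral_conj] at hc
      rw [← hc]
      refine integral_congr_ae ?_
      have h3 := (ae_restrict_iff' isOpen_UH.measurableSet).1 (S.lim_conj hl hw (k - 1))
      have h4 := (ae_restrict_iff' isOpen_UH.measurableSet).1 (S.lim_conj hl hw (k + 1))
      filter_upwards [h3, h4] with z h3 h4
      by_cases hz : z ∈ UH
      · have hd := hζ.smooth.differentiable (by simp) z
        have hda : DifferentiableAt ℝ a z := dA S.ha hz
        have e1 : -k + 1 = -(k - 1) := by ring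
        have e2 : -k - 1 = -(k + 1) := by ring
        have ar := S.areal z hz
        have c1 : (starRingEnd ℂ) (dz a z) = dzb a z := by
          have q := dzb_conj hda
          rw [← q]
          exact dzb_congr_on isOpen_UH (fun w hw => S.areal w hw) hz
        have c2 : (starRingEnd ℂ) (dzb a z) = dz a z := by
          rw [← c1, Complex.conj_conj]
        have c3 : (starRingEnd ℂ) (g z) = g z := by
          rw [g_eq S hz, map_pow, map_inv₀, ar]
        rw [dz_conj hd, dzb_conj hd, e1, e2, h3 hz, h4 hz]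
        simp only [map_add, map_sub, map_mul, Complex.conj_conj, map_intCast, ar, c1, c2, c3]
        push_cast
        ring
      · obtain ⟨h0, h1, h2⟩ := hζ.zero_of_notMem hz
        obtain ⟨h0', h1', h2'⟩ := hζ.conj.zero_of_notMem hz
        rw [h0, h1, h2, h1', h2']; simp

end S

/-! ### equivariance of the jets -/

theorem jet_equiv (S : Setup UH g a h φ) (γ : SL(2, ℝ))
    (ham : ∀ z ∈ UH, a z * (1 / den γ z ^ 2) = a (mob γ z) * phase γ z)
    (hg : ∀ n, ∀ z ∈ UH, φ n (mob γ z) = φ n z) (m : ℕ) :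
    ∃ w : ℕ → ℂ → ℂ, Tame UH h w ∧ ∀ n, ∀ z ∈ UH,
      jet h a φ m n z = phase γ z ^ m * jet h a φ m n (mob γ z) + (h n : ℂ) * w n z := by
  have hU := isOpen_UH
  have hh := S.hlim
  induction m with
  | zero =>
    refine ⟨_, Tame.zero hU, fun n z hz => ?_⟩
    show φ n z = _ * φ n (mob γ z) + _
    rw [hg n z hz]; ring
  | succ m ih =>
    obtain ⟨w, hw, he⟩ := ih
    have hj := fun m => S.tame_jet m
    have hph := contDiffOn_phase γ
    have hphi : ContDiffOn ℝ ∞ (fun z => (phase γ z)⁻¹ ^ m) UH :=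
      (hph.inv fun z hz => phase_ne_zero γ hz).pow m
    -- the composition is tame
    have hG : Tame UH h (fun n z => jet h a φ m n (mob γ z)) := by
      have t1 := (((hw.const_mul hU (c := fun n => (h n : ℂ)) (B := 1) (hbd hh)).smul hU (-1)))
      refine (((hj m).add hU t1).fn_mul hU hh hphi).congr hU fun n z hz => ?_
      rw [he n z hz]
      have h1 : (phase γ z)⁻¹ ^ m * phase γ z ^ m = 1 := by
        rw [← mul_pow, inv_mul_cancel₀ (phase_ne_zero γ hz), one_pow]
      linear_combination (jet h a φ m n (mob γ z)) * h1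
    have hpm : ContDiffOn ℝ ∞ (fun z => phase γ z ^ m) UH := hph.pow m
    have hb : ContDiffOn ℝ ∞ (fun z => a z * dz (fun z => phase γ z ^ m) z) UH :=
      S.ha.mul (contDiffOn_dz hU hpm)
    refine ⟨_, ((hG.fn_mul hU hh hb).smul hU (-(2 * I))).add hU (hw.LL hU hh S.ha),
      fun n z hz => ?_⟩
    have e0 : jet h a φ (m + 1) n z = -(2 * I * h n) * a z * dz (jet h a φ m n) z := rfl
    have e0' : jet h a φ (m + 1) n (mob γ z)
        = -(2 * I * h n) * a (mob γ z) * dz (jet h a φ m n) (mob γ z) := rfl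
    have e1 : LL h a w n z = -(2 * I * h n) * a z * dz (w n) z := rfl
    have d1 : DifferentiableAt ℝ (fun z => phase γ z ^ m) z :=
      (hpm.contDiffAt (hU.mem_nhds hz)).differentiableAt (by simp)
    have d2 := hG.smooth.dAt hU n hz
    have d3 := hw.smooth.dAt hU n hz
    have d4 := (hj m).smooth.dAt hU n (mob_mem γ z)
    rw [e0, e0', e1, dz_congr_on hU (he n) hz, dz_add (d1.fun_mul d2) (d3.const_mul _),
      dz_mul d1 d2, dz_const_mul _ d3, dz_comp_mob γ hz d4]
    have h2 := ham z hz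
    linear_combination (-(2 * I * h n) * phase γ z ^ m * dz (jet h a φ m n) (mob γ z)) * h2

theorem E_equiv (S : Setup UH g a h φ) (γ : SL(2, ℝ))
    (ham : ∀ z ∈ UH, a z * (1 / den γ z ^ 2) = a (mob γ z) * phase γ z)
    (hg : ∀ n, ∀ z ∈ UH, φ n (mob γ z) = φ n z) (k : ℤ) :
    ∃ w : ℕ → ℂ → ℂ, Tame UH h w ∧ ∀ n, ∀ z ∈ UH,
      E h a φ k n z = phase γ z ^ k * E h a φ k n (mob γ z) + (h n : ℂ) * w n z := by
  have hU := isOpen_UH
  cases k with
  | ofNat m =>
    obtain ⟨w, hw, he⟩ := jet_equiv S γ ham hg m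
    refine ⟨w, hw, fun n z hz => ?_⟩
    have := he n z hz
    rw [Int.ofNat_eq_natCast, zpow_natCast]
    exact this
  | negSucc m =>
    obtain ⟨w, hw, he⟩ := jet_equiv S γ ham hg (m + 1)
    refine ⟨_, (hw.conj hU).smul hU ((-1) ^ (m + 1)), fun n z hz => ?_⟩
    show (-1) ^ (m + 1) * (starRingEnd ℂ) (jet h a φ (m + 1) n z)
      = phase γ z ^ (Int.negSucc m) * ((-1) ^ (m + 1)
        * (starRingEnd ℂ) (jet h a φ (m + 1) n (mob γ z))) + _
    rw [he n z hz, map_add, map_mul, map_mul, map_pow, conj_phase γ hz, conj_ofReal,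
      zpow_negSucc, inv_pow]
    ring

/-- **Equivariance of the weak limits.** -/
theorem limit_equiv (S : Setup UH g a h φ) {k : ℤ} {v : ℂ → ℂ} (hv : LocL2 UH v)
    (hw : WLim UH (fun n z => E h a φ 0 n z * E h a φ k n z) v) (γ : SL(2, ℝ))
    (ham : ∀ z ∈ UH, a z * (1 / den γ z ^ 2) = a (mob γ z) * phase γ z)
    (hg : ∀ n, ∀ z ∈ UH, φ n (mob γ z) = φ n z) :
    ∀ᵐ z ∂((volume : Measure ℂ).restrict UH), v z = phase γ z ^ k * v (mob γ z) := by
  have hU := isOpen_UH
  obtain ⟨w, hwt, he⟩ := E_equiv S γ ham hg k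
  have hph : ContDiffOn ℝ ∞ (fun z => phase γ z ^ k) UH := by
    cases k with
    | ofNat m =>
      have := (contDiffOn_phase γ).pow m
      simpa only [Int.ofNat_eq_natCast, zpow_natCast] using this
    | negSucc m =>
      have h1 : ContDiffOn ℝ ∞ (fun z => (phase γ z ^ (m + 1))⁻¹) UH :=
        ((contDiffOn_phase γ).pow (m + 1)).inv fun z hz =>
        pow_ne_zero _ (phase_ne_zero γ hz)
      exact h1.congr fun z _ => zpow_negSucc _ _
  have hint : ∀ {θ : ℂ → ℂ}, Test UH θ → Integrable (fun z => θ z * v (mob γ z)) := by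
    intro θ hθ
    exact hθ.int_of_intOn (Mob.integrable_comp γ hv hθ.supp hθ.sub)
  -- the integrals against test functions
  have key : ∀ {ζ : ℂ → ℂ}, Test UH ζ →
      ∫ z, ζ z * v z = ∫ z, ζ z * phase γ z ^ k * v (mob γ z) := by
    intro ζ hζ
    have hθ : Test UH (fun z => ζ z * phase γ z ^ k) := hζ.mul hU hph
    obtain ⟨K', hK', hKU', ρ, hρ, hT⟩ := Mob.transpose γ hθ
    have L1 := hw.test hζ
    have L2 := hw K' hK' hKU' ρ hρ
    have L3 := tendsto_h_int S.hlim (S.tame_E 0) hwt hζ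
    have L4 := L2.add L3
    rw [← hT, add_zero] at L4
    refine tendsto_nhds_unique L1 (L4.congr fun n => ?_)
    rw [← hT (fun z => E h a φ 0 n z * E h a φ k n z), ← integral_const_mul]
    have i1 : Integrable (fun z => ζ z * phase γ z ^ k
        * (E h a φ 0 n (mob γ z) * E h a φ k n (mob γ z))) := by
      have hc : ContinuousOn (fun z => E h a φ 0 n (mob γ z) * E h a φ k n (mob γ z)) UH :=
        (S.smooth_EE 0 k n).continuousOn.comp (continuousOn_mob γ) fun z _ => mob_mem γ z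
      exact hθ.integrable_mul hU hc
    have i2 : Integrable (fun z => (h n : ℂ) * (ζ z * (E h a φ 0 n z * w n z))) :=
      (hζ.int hU (((S.tame_E 0).smooth.mul hwt.smooth) n)).const_mul _
    rw [← integral_add i1 i2]
    refine integral_congr_ae (Eventually.of_forall fun z => ?_)
    beta_reduce
    by_cases hz : z ∈ UH
    · have e0 : E h a φ 0 n (mob γ z) = E h a φ 0 n z := hg n z hz
      rw [e0, he n z hz]
      ring
    · have h0 : ζ z = 0 := image_eq_zero_of_notMem_tsupport fun hh => hz (hζ.sub hh)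
      rw [h0]; ring
  have hloc : LocallyIntegrableOn (fun z => v z - phase γ z ^ k * v (mob γ z)) UH := by
    rw [locallyIntegrableOn_iff hU.isLocallyClosed]
    intro K hKU hK
    have h1 : IntegrableOn v K := hv.intOn hK hKU
    have h2 := (Mob.integrable_comp γ hv hK hKU).continuousOn_mul
      (hph.continuousOn.mono hKU) hK
    exact h1.sub h2
  have hae := hU.ae_eq_zero_of_integral_contDiff_smul_eq_zero (μ := volume) hloc
    fun g hg1 hg2 hg3 => by
      have hζ : Test UH (fun z => (g z : ℂ)) := by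
        refine ⟨ofRealCLM.contDiff.comp hg1, hg2.comp_left ofReal_zero, ?_⟩
        refine (closure_mono ?_).trans hg3
        intro z hz
        simp only [Function.mem_support] at hz ⊢
        intro h0; exact hz (by rw [h0, ofReal_zero])
      have h1 := key hζ
      have h2 : Integrable (fun z => (g z : ℂ) * v z) := hζ.int_LocL2 hv
      have h3 : Integrable (fun z => (g z : ℂ) * phase γ z ^ k * v (mob γ z)) :=
        hint (hζ.mul hU hph)
      have h4 := integral_sub h2 h3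
      rw [h1, sub_self] at h4
      rw [← h4]
      refine integral_congr_ae (Eventually.of_forall fun z => ?_)
      beta_reduce
      rw [Complex.real_smul]
      ring
  rw [ae_restrict_iff' hU.measurableSet]
  filter_upwards [hae] with z hz hzU
  exact sub_eq_zero.1 (hz hzU)

/-- the weight `e^{-ρ} y` and Möbius transformations -/
theorem aR_mob {ρ : ℍ → ℝ} {γ : SL(2, ℝ)} (hρ : ∀ z, ρ (γ • z) = ρ z) {z : ℂ} (hz : z ∈ UH) :
    aR ρ z * (1 / den γ z ^ 2) = aR ρ (mob γ z) * phase γ z := by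
  have h1 := Mob.aH_mob γ hz
  unfold aH at h1
  have h2 : ro ρ (mob γ z) = ro ρ z := by
    unfold ro
    rw [ofComplex_mob, hρ]
  unfold aR
  rw [h2]
  push_cast
  linear_combination (Complex.exp (-(ro ρ z : ℂ))) * h1

end LimM

theorem stmtLim : StmtLim := by
  intro Γ ρ h φ u hF S hum hu hw hg
  exact
    { meas := hum
      loc := hu
      real := S.lim_real hu hw
      bound := S.lim_bound hu hw
      conj := S.lim_conj hu hw
      odd := S.lim_odd hu hw
      pos := fun N w hw1 => S.lim_pos hu hw N w hw1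
      equiv := fun γ hγ k => LimM.limit_equiv S (hu k) (S.lim_zero hu hw k) γ
        (fun z hz => LimM.aR_mob (hF.inv γ hγ) hz) (hg γ hγ)
      transport := fun k _ hζ => LimM.limit_transport S hu hw k hζ }

end

end NC

end QE
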