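import Pool.Agent.NCV.Stmts

/-!
# Bounds and Lipschitz estimates of `ρ`, `P ρ`, `H ρ` on the frames (helper74)
-/

open MeasureTheory Filter Topology Set
open UpperHalfPlane hiding I
open scoped ContDiff MatrixGroups ENNReal

namespace QE

namespace NC

noncomputable section

namespace LipAux

/-- the open set containing the pairs of rows -/
def RowSet : Set (ℂ × ℂ) := {q | q.2 ≠ 0} ∩ (fun q => q.1 / q.2) ⁻¹' UH

theorem isOpen_RowSet : IsOpen RowSet := by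
  have h : ContinuousOn (fun q : ℂ × ℂ => q.1 / q.2) {q | q.2 ≠ 0} :=
    continuous_fst.continuousOn.div continuous_snd.continuousOn fun q hq => hq
  have ho : IsOpen {q : ℂ × ℂ | q.2 ≠ 0} := isOpen_ne_fun continuous_snd continuous_const
  exact h.isOpen_inter_preimage ho isOpen_UH

theorem iota_mem (g : SL(2, ℝ)) : iota g ∈ RowSet := by
  refine ⟨iota_snd_ne g, ?_⟩
  show (iota g).1 / (iota g).2 ∈ UH
  rw [← smul_I_eq]
  exact coe_mem_UH _

theorem dd_nonneg (v w : SL(2, ℝ)) : 0 ≤ dd v w := by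
  unfold dd nn; positivity

theorem dd_mul_left (γ v w : SL(2, ℝ)) : dd (γ * v) (γ * w) = dd v w := by
  unfold dd
  congr 1
  group

theorem norm_iota_sub (v w : SL(2, ℝ)) {R : ℝ} (hR : ∀ i j, |v i j| ≤ R) :
    ‖iota w - iota v‖ ≤ R * dd v w := by
  set h : SL(2, ℝ) := v⁻¹ * w with hh
  have hw : w = v * h := by rw [hh]; group
  have e : ∀ i j, w i j = v i 0 * h 0 j + v i 1 * h 1 j := by
    intro i j
    conv_lhs => rw [hw]
    show ((v * h : SL(2, ℝ)) : Matrix (Fin 2) (Fin 2) ℝ) i j = _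
    rw [Matrix.SpecialLinearGroup.coe_mul, Matrix.mul_apply, Fin.sum_univ_two]
  have hd : dd v w = |h 0 0 - 1| + |h 0 1| + |h 1 0| + |h 1 1 - 1| := rfl
  have hR0 : 0 ≤ R := (abs_nonneg _).trans (hR 0 0)
  have b0 : ∀ i, |w i 0 - v i 0| ≤ R * |h 0 0 - 1| + R * |h 1 0| := by
    intro i
    have h1 : w i 0 - v i 0 = v i 0 * (h 0 0 - 1) + v i 1 * h 1 0 := by rw [e]; ring
    rw [h1]
    refine (abs_add_le _ _).trans ?_
    rw [abs_mul, abs_mul]
    gcongr <;> exact hR _ _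
  have b1 : ∀ i, |w i 1 - v i 1| ≤ R * |h 0 1| + R * |h 1 1 - 1| := by
    intro i
    have h1 : w i 1 - v i 1 = v i 0 * h 0 1 + v i 1 * (h 1 1 - 1) := by rw [e]; ring
    rw [h1]
    refine (abs_add_le _ _).trans ?_
    rw [abs_mul, abs_mul]
    gcongr <;> exact hR _ _
  have c : ∀ i, ‖((⟨w i 1, w i 0⟩ : ℂ) - ⟨v i 1, v i 0⟩)‖ ≤ R * dd v w := by
    intro i
    refine (Complex.norm_le_abs_re_add_abs_im _).trans ?_
    simp only [Complex.sub_re, Complex.sub_im]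
    have h0 := b0 i
    have h1 := b1 i
    rw [hd]
    linarith
  exact max_le (c 0) (c 1)

theorem entry_le (v : SL(2, ℝ)) {R : ℝ} (hR : ‖iota v‖ ≤ R) : ∀ i j, |v i j| ≤ R := by
  have h1 : ‖(iota v).1‖ ≤ R := (norm_fst_le _).trans hR
  have h2 : ‖(iota v).2‖ ≤ R := (norm_snd_le _).trans hR
  have a := (Complex.abs_re_le_norm _).trans h1
  have b := (Complex.abs_im_le_norm _).trans h1
  have c := (Complex.abs_re_le_norm _).trans h2
  have d := (Complex.abs_im_le_norm _).trans h2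
  intro i j
  fin_cases i <;> fin_cases j
  · exact b
  · exact a
  · exact d
  · exact c

theorem main {Γ : Subgroup SL(2, ℝ)} {K : Set ℍ} (hK : IsCompact K)
    (hKc : ∀ z, ∃ γ ∈ Γ, γ • z ∈ K) {F : SL(2, ℝ) → ℝ} {f : ℂ × ℂ → ℝ}
    (hf : ContDiffOn ℝ 1 f RowSet) (hF : ∀ g, F g = f (iota g))
    (hinv : ∀ γ ∈ Γ, ∀ g, F (γ * g) = F g) :
    Continuous F ∧ ∃ B L : ℝ, 0 ≤ B ∧ 0 ≤ L ∧ (∀ g, |F g| ≤ B) ∧
      ∀ v w, |F w - F v| ≤ L * dd v w := by
  have hFe : F = fun g => f (iota g) := funext hF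
  refine ⟨?_, ?_⟩
  · rw [hFe]
    exact hf.continuousOn.comp_continuous iota_continuous iota_mem
  have hKi : IsCompact ((fun g : SL(2, ℝ) => g • UpperHalfPlane.I) ⁻¹' K) :=
    isProperMap_smul_I.isCompact_preimage hK
  set K' := (fun g : SL(2, ℝ) => g • UpperHalfPlane.I) ⁻¹' K with hK'
  have hC : IsCompact (iota '' K') := hKi.image iota_continuous
  have hCW : iota '' K' ⊆ RowSet := by rintro _ ⟨g, -, rfl⟩; exact iota_mem g
  obtain ⟨δ, hδ, hδW⟩ := hC.exists_cthickening_subset_open isOpen_RowSet hCW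
  have hT : IsCompact (Metric.cthickening δ (iota '' K')) := hC.cthickening
  obtain ⟨M, hM⟩ := hT.exists_bound_of_continuousOn
    ((hf.continuousOn_fderiv_of_isOpen isOpen_RowSet le_rfl).mono hδW)
  obtain ⟨B, hB⟩ := hC.exists_bound_of_continuousOn (f := f) (hf.continuousOn.mono hCW)
  obtain ⟨R, hR⟩ := hC.exists_bound_of_continuousOn (f := fun q : ℂ × ℂ => q) continuousOn_id
  have hfund : ∀ g : SL(2, ℝ), ∃ γ ∈ Γ, γ * g ∈ K' := by
    intro g
    obtain ⟨γ, hγ, h⟩ := hKc (g • UpperHalfPlane.I)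
    refine ⟨γ, hγ, ?_⟩
    show (γ * g) • UpperHalfPlane.I ∈ K
    rw [mul_smul]
    exact h
  have hb : ∀ g, |F g| ≤ max B 0 := by
    intro g
    obtain ⟨γ, hγ, h⟩ := hfund g
    rw [← hinv γ hγ g, hF]
    exact (hB _ ⟨_, h, rfl⟩).trans (le_max_left _ _)
  refine ⟨max B 0, max M 0 * max R 0 + 2 * max B 0 * max R 0 / δ, le_max_right _ _, ?_, hb, ?_⟩
  · have h1 : 0 ≤ max M 0 := le_max_right _ _
    have h2 : 0 ≤ max R 0 := le_max_right _ _
    have h3 : 0 ≤ max B 0 := le_max_right _ _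
    positivity
  intro v w
  obtain ⟨γ, hγ, hv⟩ := hfund v
  rw [← hinv γ hγ v, ← hinv γ hγ w, ← dd_mul_left γ v w]
  generalize γ * v = v' at hv
  generalize γ * w = w'
  have h1 : 0 ≤ max M 0 := le_max_right _ _
  have h2 : 0 ≤ max R 0 := le_max_right _ _
  have h3 : 0 ≤ max B 0 := le_max_right _ _
  have hd := dd_nonneg v' w'
  have hvC : iota v' ∈ iota '' K' := ⟨v', hv, rfl⟩
  have hn : ‖iota w' - iota v'‖ ≤ max R 0 * dd v' w' :=
    norm_iota_sub v' w' (entry_le v' ((hR _ hvC).trans (le_max_left _ _)))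
  by_cases hs : max R 0 * dd v' w' ≤ δ
  · have hcb : Metric.closedBall (iota v') δ ⊆ Metric.cthickening δ (iota '' K') :=
      Metric.closedBall_subset_cthickening hvC δ
    have key := Convex.norm_image_sub_le_of_norm_fderiv_le (𝕜 := ℝ) (f := f)
      (s := Metric.closedBall (iota v') δ) (C := max M 0) (x := iota v') (y := iota w')
      (fun q hq => (hf.differentiableOn (by simp)).differentiableAt
        (isOpen_RowSet.mem_nhds (hδW (hcb hq))))
      (fun q hq => (hM q (hcb hq)).trans (le_max_left _ _))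
      (convex_closedBall _ _) (Metric.mem_closedBall_self hδ.le)
      (by rw [Metric.mem_closedBall, dist_eq_norm]; exact hn.trans hs)
    rw [← hF, ← hF, Real.norm_eq_abs] at key
    refine key.trans ?_
    have h4 : max M 0 * ‖iota w' - iota v'‖ ≤ max M 0 * (max R 0 * dd v' w') := by gcongr
    have h5 : 0 ≤ 2 * max B 0 * max R 0 / δ * dd v' w' := by positivity
    linarith
  · push Not at hs
    have h4 : |F w' - F v'| ≤ 2 * max B 0 := by
      have a := hb w'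
      have b := hb v'
      have c := abs_sub (F w') (F v')
      linarith
    refine h4.trans ?_
    have h5 : 2 * max B 0 ≤ 2 * max B 0 * max R 0 / δ * dd v' w' := by
      have h6 : 2 * max B 0 * max R 0 / δ * dd v' w'
          = 2 * max B 0 * ((max R 0 * dd v' w') / δ) := by ring
      rw [h6]
      have h7 : 1 ≤ (max R 0 * dd v' w') / δ := by
        rw [le_div_iff₀ hδ]; linarith
      nlinarith
    have h8 : 0 ≤ max M 0 * max R 0 * dd v' w' := by positivity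
    linarith

variable {Γ : Subgroup SL(2, ℝ)} {ρ : ℍ → ℝ}

theorem ro_coe (ρ : ℍ → ℝ) (z : ℍ) : ro ρ (z : ℂ) = ρ z := by
  unfold ro; rw [ofComplex_apply]

theorem contDiffOn_quot : ContDiffOn ℝ ∞ (fun q : ℂ × ℂ => q.1 / q.2) RowSet := by
  have h : ContDiffOn ℝ ∞ (fun q : ℂ × ℂ => q.1 * q.2⁻¹) RowSet :=
    contDiff_fst.contDiffOn.mul (contDiff_snd.contDiffOn.inv fun q hq => hq.1)
  exact h.congr fun q _ => div_eq_mul_inv _ _

theorem contDiffOn_sq (c : ℂ) : ContDiffOn ℝ ∞ (fun q : ℂ × ℂ => c / q.2 ^ 2) RowSet := by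
  have h : ContDiffOn ℝ ∞ (fun q : ℂ × ℂ => c * (q.2 ^ 2)⁻¹) RowSet :=
    contDiffOn_const.mul ((contDiff_snd.pow 2).contDiffOn.inv fun q hq => pow_ne_zero 2 hq.1)
  exact h.congr fun q _ => div_eq_mul_inv _ _

theorem contDiffOn_f1 (h : Fac Γ ρ) : ContDiffOn ℝ ∞ (fun q : ℂ × ℂ => ro ρ (q.1 / q.2)) RowSet :=
  h.smooth.comp contDiffOn_quot fun q hq => hq.2

theorem contDiffOn_f2 (h : Fac Γ ρ) (c : ℂ) :
    ContDiffOn ℝ ∞ (fun q : ℂ × ℂ => fderiv ℝ (ro ρ) (q.1 / q.2) (c / q.2 ^ 2)) RowSet := by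
  have h1 : ContDiffOn ℝ ∞ (fderiv ℝ (ro ρ)) UH :=
    h.smooth.fderiv_of_isOpen isOpen_UH (by simp)
  exact (h1.comp contDiffOn_quot fun q hq => hq.2).clm_apply (contDiffOn_sq c)

/-- `P ρ` (`c = 1`) and `H ρ` (`c = I`) -/
def QQ (ρ : ℍ → ℝ) (c : ℂ) (g : SL(2, ℝ)) : ℝ :=
  fderiv ℝ (ro ρ) ((g • UpperHalfPlane.I : ℍ) : ℂ) (c / den g Complex.I ^ 2)

theorem QQ_iota (ρ : ℍ → ℝ) (c : ℂ) (g : SL(2, ℝ)) :
    QQ ρ c g = (fun q : ℂ × ℂ => fderiv ℝ (ro ρ) (q.1 / q.2) (c / q.2 ^ 2)) (iota g) := by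
  show _ = fderiv ℝ (ro ρ) ((iota g).1 / (iota g).2) (c / (iota g).2 ^ 2)
  rw [← smul_I_eq, iota_snd]
  rfl

theorem ro_mob {γ : SL(2, ℝ)} (h : ∀ z, ρ (γ • z) = ρ z) (z : ℂ) : ro ρ (mob γ z) = ro ρ z := by
  unfold ro
  rw [ofComplex_mob, h]

theorem QQ_mul (hf : Fac Γ ρ) (c : ℂ) {γ : SL(2, ℝ)} (h : ∀ z, ρ (γ • z) = ρ z) (g : SL(2, ℝ)) :
    QQ ρ c (γ * g) = QQ ρ c g := by
  have hz : ((g • UpperHalfPlane.I : ℍ) : ℂ) ∈ UH := coe_mem_UH _
  have he : (fun z => ro ρ (mob γ z)) = ro ρ := funext fun z => ro_mob h z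
  have hd : DifferentiableAt ℝ (ro ρ) (mob γ ((g • UpperHalfPlane.I : ℍ) : ℂ)) :=
    (hf.smooth.differentiableOn (by simp)).differentiableAt (isOpen_UH.mem_nhds (mob_mem _ _))
  unfold QQ
  rw [mul_smul, ← mob_coe, den_mul γ g I_mem_UH, mob_I]
  conv_rhs => rw [← he]
  have e : (fun w => ro ρ (mob γ w)) = ro ρ ∘ mob γ := rfl
  rw [e, fderiv_comp _ hd (differentiableAt_mob γ hz), ContinuousLinearMap.comp_apply,
    fderiv_mob γ hz]
  congr 1
  rw [mul_pow, div_mul_div_comm, one_mul]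

theorem QQ_neg (ρ : ℍ → ℝ) (c : ℂ) (g : SL(2, ℝ)) : QQ ρ c (-g) = QQ ρ c g := by
  unfold QQ
  rw [neg_smul_eq, den_neg, neg_sq]

theorem exists_smul_I (z : ℍ) : ∃ g : SL(2, ℝ), g • UpperHalfPlane.I = z :=
  MulAction.exists_smul_eq SL(2, ℝ) UpperHalfPlane.I z

end LipAux

open LipAux

theorem stmtLip : StmtLip := by
  intro Γ ρ hf
  obtain ⟨K, hK, hKc⟩ := hf.cpt
  have hP : ∀ g, Pr ρ g = QQ ρ 1 g := fun g => rfl
  have hH : ∀ g, Hr ρ g = QQ ρ Complex.I g := fun g => rfl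
  have c1 : ContDiffOn ℝ 1 (fun q : ℂ × ℂ => ro ρ (q.1 / q.2)) RowSet :=
    (contDiffOn_f1 hf).of_le (by simp)
  have c2 : ∀ c, ContDiffOn ℝ 1 (fun q : ℂ × ℂ => fderiv ℝ (ro ρ) (q.1 / q.2) (c / q.2 ^ 2)) RowSet :=
    fun c => (contDiffOn_f2 hf c).of_le (by simp)
  obtain ⟨k1, B1, L1, hB1, hL1, b1, l1⟩ := main hK hKc (F := fun g => ρ (g • UpperHalfPlane.I)) c1
    (fun g => by
      show _ = ro ρ ((iota g).1 / (iota g).2)
      rw [← smul_I_eq, ro_coe])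
    (fun γ hγ g => by
      show ρ ((γ * g) • UpperHalfPlane.I) = _
      rw [mul_smul, hf.inv γ hγ])
  obtain ⟨k2, B2, L2, hB2, hL2, b2, l2⟩ := main hK hKc (F := QQ ρ 1) (c2 1) (QQ_iota ρ 1)
    (fun γ hγ g => QQ_mul hf 1 (hf.inv γ hγ) g)
  obtain ⟨k3, B3, L3, hB3, hL3, b3, l3⟩ := main hK hKc (F := QQ ρ Complex.I) (c2 Complex.I)
    (QQ_iota ρ Complex.I) (fun γ hγ g => QQ_mul hf Complex.I (hf.inv γ hγ) g)
  refine ⟨fun γ hγ g => ⟨QQ_mul hf 1 hγ g, QQ_mul hf Complex.I hγ g⟩,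
    fun g => ⟨QQ_neg ρ 1 g, QQ_neg ρ Complex.I g⟩, ?_, k2, k3, max B1 (max B2 B3),
    max L1 (max L2 L3), le_max_of_le_left hB1, le_max_of_le_left hL1, ?_, ?_, ?_, ?_, ?_, ?_⟩
  · have h : ρ = fun z : ℍ => ro ρ (z : ℂ) := funext fun z => (ro_coe ρ z).symm
    rw [h]
    exact hf.smooth.continuousOn.comp_continuous UpperHalfPlane.continuous_coe coe_mem_UH
  · intro z
    obtain ⟨g, rfl⟩ := exists_smul_I z
    exact (b1 g).trans (le_max_left _ _)
  · exact fun g => (b2 g).trans ((le_max_left _ _).trans (le_max_right _ _))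
  · exact fun g => (b3 g).trans ((le_max_right _ _).trans (le_max_right _ _))
  · exact fun v w => (l1 v w).trans (mul_le_mul_of_nonneg_right (le_max_left _ _) (dd_nonneg v w))
  · exact fun v w => (l2 v w).trans (mul_le_mul_of_nonneg_right
      ((le_max_left _ _).trans (le_max_right _ _)) (dd_nonneg v w))
  · exact fun v w => (l3 v w).trans (mul_le_mul_of_nonneg_right
      ((le_max_right _ _).trans (le_max_right _ _)) (dd_nonneg v w))

end

end NC

end QE
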