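import Pool.Agent.NCV.Stmts
import Pool.Agent.Lib_helper67.QE.Timelike

/-!
# Closed surfaces of negative curvature: the measure (module NC_MASS, helper14)

The measure `nuR ρ μ = e^{2ρ} μ` satisfies `MassSys` (quadratic bound and uniform integrability of the
masses of boxes).
-/

open MeasureTheory Filter Topology Set
open UpperHalfPlane hiding I
open scoped ContDiff MatrixGroups ENNReal

namespace QE

namespace NC

noncomputable section

variable [MeasurableSpace SL(2, ℝ)] [BorelSpace SL(2, ℝ)]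
variable {Γ : Subgroup SL(2, ℝ)} {D : Set ℍ} {μ : Measure SL(2, ℝ)} {p : ℍ → ℝ} {ρ : ℍ → ℝ}

omit [MeasurableSpace SL(2, ℝ)] [BorelSpace SL(2, ℝ)] in
/-- a measure with invariant density is invariant -/
theorem map_withDensity_of_inv {X : Type*} [MeasurableSpace X] {μ : Measure X} {T : X → X}
    {f : X → ℝ≥0∞} (hT : Measurable T) (hμ : Measure.map T μ = μ) (hf : Measurable f)
    (hfT : ∀ x, f (T x) = f x) : Measure.map T (μ.withDensity f) = μ.withDensity f := by
  ext S hS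
  rw [Measure.map_apply hT hS, withDensity_apply _ (hT hS), withDensity_apply _ hS]
  conv_rhs => rw [← hμ, setLIntegral_map hS hf hT]
  simp only [hfT]

/-- `e^{2ρ} μ` is again a measure with square integrable projection -/
theorem flowMeas0_nuR (hμ : FlowMeas0 Γ D μ p) (hρ : Measurable ρ)
    (hinv : ∀ γ ∈ Γ, ∀ z, ρ (γ • z) = ρ z) {B : ℝ} (hB : ∀ z, |ρ z| ≤ B) :
    FlowMeas0 Γ D (nuR ρ μ) (fun z => Real.exp (2 * ρ z) * p z) := by
  have hE : Measurable fun z : ℍ => ENNReal.ofReal (Real.exp (2 * ρ z)) :=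
    ((hρ.const_mul 2).exp).ennreal_ofReal
  have hf : Measurable fun g : SL(2, ℝ) =>
      ENNReal.ofReal (Real.exp (2 * ρ (g • UpperHalfPlane.I))) := hE.comp Berry.proj_measurable
  refine ⟨?_, ?_, ?_, ?_, ?_, ?_, ?_⟩
  · intro γ hγ
    refine map_withDensity_of_inv (continuous_const_mul γ).measurable (hμ.left γ hγ) hf ?_
    intro g
    have : (γ * g) • UpperHalfPlane.I = γ • (g • UpperHalfPlane.I) := mul_smul γ g _
    rw [this, hinv γ hγ]
  · refine map_withDensity_of_inv neg_cont.measurable hμ.neg hf ?_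
    intro g
    have : (-g) • UpperHalfPlane.I = g • UpperHalfPlane.I := by
      apply UpperHalfPlane.ext
      rw [smul_I_coe, smul_I_coe]
      simp only [Matrix.SpecialLinearGroup.coe_neg, Matrix.neg_apply, neg_mul_neg, neg_sq]
    rw [this]
  · exact ((hρ.const_mul 2).exp).mul hμ.pmeas
  · intro z
    exact mul_nonneg (Real.exp_pos _).le (hμ.pnonneg z)
  · intro γ hγ z
    simp only [hinv γ hγ, hμ.pinv γ hγ]
  · have h1 : IntegrableOn (fun z => Real.exp (4 * B) * p z ^ 2) D (volume : Measure ℍ) :=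
      hμ.psq.const_mul _
    refine h1.mono' ?_ ?_
    · exact ((((hρ.const_mul 2).exp).mul hμ.pmeas).pow_const 2).aestronglyMeasurable
    · refine ae_of_all _ fun z => ?_
      rw [Real.norm_of_nonneg (sq_nonneg _), mul_pow]
      refine mul_le_mul_of_nonneg_right ?_ (sq_nonneg _)
      rw [← Real.exp_nat_mul]
      refine Real.exp_le_exp.2 ?_
      have := (abs_le.1 (hB z)).2
      push_cast
      linarith
  · intro S hS
    unfold nuR
    rw [withDensity_apply _ (Berry.proj_measurable hS)]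
    have h := hμ.lintegral_proj hE hS
    unfold Berry.Fd at h
    rw [h]
    refine lintegral_congr fun z => ?_
    rw [mul_comm, ← ENNReal.ofReal_mul (Real.exp_pos _).le]

/-- the set of the elements which move `i` by about less than `d` -/
def Bl (d : ℝ) : Set SL(2, ℝ) := {g | (g 0 0 - g 1 1) ^ 2 + (g 0 1 + g 1 0) ^ 2 < d ^ 2}

omit [MeasurableSpace SL(2, ℝ)] [BorelSpace SL(2, ℝ)] in
/-- boxes are contained in balls of bounded radius -/
theorem Bx_subset_two {r δ : ℝ} (hr : r ≤ 1) (v : SL(2, ℝ)) :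
    Bx (xx ρ) (tt ρ) r δ v ⊆ (fun w => v⁻¹ * w) ⁻¹' Bl 2 := by
  rintro w ⟨h1, -, -⟩
  simp only [dd, nn] at h1
  simp only [Bl, mem_preimage, mem_ofPred_eq]
  generalize (v⁻¹ * w) = g at *
  have a1 := abs_nonneg (g 0 0 - 1)
  have a2 := abs_nonneg (g 0 1)
  have a3 := abs_nonneg (g 1 0)
  have a4 := abs_nonneg (g 1 1 - 1)
  have e1 : |g 0 0 - g 1 1| ≤ |g 0 0 - 1| + |g 1 1 - 1| := by
    have := abs_sub (g 0 0 - 1) (g 1 1 - 1)
    have e : g 0 0 - 1 - (g 1 1 - 1) = g 0 0 - g 1 1 := by ring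
    rwa [e] at this
  have e2 : |g 0 1 + g 1 0| ≤ |g 0 1| + |g 1 0| := abs_add_le _ _
  have e3 : |g 0 0 - g 1 1| ≤ 1 := by linarith
  have e4 : |g 0 1 + g 1 0| ≤ 1 := by linarith
  have e5 : (g 0 0 - g 1 1) ^ 2 ≤ 1 := by
    rw [← sq_abs]
    exact pow_le_one₀ (abs_nonneg _) e3
  have e6 : (g 0 1 + g 1 0) ^ 2 ≤ 1 := by
    rw [← sq_abs]
    exact pow_le_one₀ (abs_nonneg _) e4
  linarith

omit [MeasurableSpace SL(2, ℝ)] [BorelSpace SL(2, ℝ)] in
/-- boxes are contained in balls of a comparable radius -/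
theorem Bx_subset {B : ℝ} (hB : ∀ z, |ρ z| ≤ B) {r δ : ℝ} (hδ : 0 < δ) (v : SL(2, ℝ)) :
    Bx (xx ρ) (tt ρ) r δ v ⊆ (fun w => v⁻¹ * w) ⁻¹' Bl (2 * Real.exp B * δ) := by
  rintro w ⟨-, h2, h3⟩
  simp only [xx, tt] at h2 h3
  simp only [Bl, mem_preimage, mem_ofPred_eq]
  generalize (v⁻¹ * w) = g at *
  have h0 := (abs_le.1 (hB (v • UpperHalfPlane.I))).1
  generalize ρ (v • UpperHalfPlane.I) = s at *
  have hs := Real.exp_pos s
  have hB' : 1 ≤ Real.exp B * Real.exp s := by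
    rw [← Real.exp_add]
    exact Real.one_le_exp (by linarith)
  have key : ∀ a : ℝ, |Real.exp s * a| ≤ δ → a ^ 2 ≤ (Real.exp B * δ) ^ 2 := by
    intro a ha
    rw [← sq_abs a]
    refine pow_le_pow_left₀ (abs_nonneg _) ?_ 2
    rw [abs_mul, abs_of_pos hs] at ha
    calc |a| = 1 * |a| := (one_mul _).symm
      _ ≤ (Real.exp B * Real.exp s) * |a| := by gcongr
      _ = Real.exp B * (Real.exp s * |a|) := by ring
      _ ≤ Real.exp B * δ := by gcongr
  have k1 := key _ h2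
  have k2 := key _ h3
  have hp : 0 < Real.exp B * δ := by positivity
  nlinarith [sq_pos_of_pos hp]

omit [MeasurableSpace SL(2, ℝ)] [BorelSpace SL(2, ℝ)] in
/-- tails of integrable functions -/
theorem tail_lintegral {X : Type*} [MeasurableSpace X] {m : Measure X} {F : X → ℝ≥0∞}
    (hF : Measurable F) (hfin : ∫⁻ x, F x ∂m ≠ ⊤) {ε : ℝ} (hε : 0 < ε) :
    ∃ n : ℕ, ∫⁻ x, (if F x ≤ n then 0 else F x) ∂m ≤ ENNReal.ofReal ε := by
  have hlim : Tendsto (fun n : ℕ => ∫⁻ x, (if F x ≤ n then 0 else F x) ∂m) atTop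
      (𝓝 (∫⁻ _, 0 ∂m)) := by
    refine tendsto_lintegral_of_dominated_convergence F (fun n => ?_) (fun n => ?_) hfin ?_
    · exact Measurable.ite (measurableSet_le hF measurable_const) measurable_const hF
    · refine ae_of_all _ fun z => ?_
      simp only
      split_ifs
      · exact zero_le
      · exact le_rfl
    · filter_upwards [ae_lt_top hF hfin] with x hx
      refine tendsto_const_nhds.congr' ?_
      obtain ⟨N, hN⟩ := ENNReal.exists_nat_gt hx.ne
      filter_upwards [eventually_ge_atTop N] with n hn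
      rw [if_pos]
      refine hN.le.trans ?_
      exact_mod_cast hn
  rw [lintegral_zero] at hlim
  have h2 : ∀ᶠ n : ℕ in atTop, ∫⁻ x, (if F x ≤ n then 0 else F x) ∂m < ENNReal.ofReal ε :=
    hlim.eventually_lt_const (ENNReal.ofReal_pos.2 hε)
  obtain ⟨n, hn⟩ := h2.exists
  exact ⟨n, hn.le⟩

/-- the exceptional points for small balls -/
theorem exc_small [Countable Γ] (hμ : FlowMeas0 Γ D μ p)
    (hD : IsFundamentalDomain Γ D (volume : Measure ℍ)) (hDm : MeasurableSet D) {η : ℝ}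
    (hη : 0 < η) : ∃ M : ℝ, 0 < M ∧ ∀ d : ℝ, 0 < d → d ≤ 1 →
      ∫⁻ v in Berry.Fd D, (if μ ((fun w => v⁻¹ * w) ⁻¹' Bl d) ≤ ENNReal.ofReal (M * d ^ 2) then 0
        else μ ((fun w => v⁻¹ * w) ⁻¹' Bl d)) ∂μ ≤ ENNReal.ofReal (η * d ^ 2) := by
  set A : ℝ≥0∞ := ∫⁻ z in D, ENNReal.ofReal (p z) ^ 2 with hA
  have hAt : A ≠ ⊤ := by
    have h := hμ.psq_ne_top
    have e : ∀ z, ENNReal.ofReal (p z) ^ 2 = ENNReal.ofReal (p z ^ 2) :=
      fun z => (ENNReal.ofReal_pow (hμ.pnonneg z) 2).symm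
    rw [hA]
    simp only [e]
    exact h
  set l : ℝ := η / (400 * (A.toReal + 1)) with hl
  have hA0 : 0 ≤ A.toReal := ENNReal.toReal_nonneg
  have hl0 : 0 < l := by positivity
  obtain ⟨R, hR, hRt⟩ := hμ.tail (ε := η * l / 400) (by positivity)
  have hR0 : (0 : ℝ) < R := by exact_mod_cast hR
  refine ⟨200 * R, by positivity, fun d hd hd1 => ?_⟩
  set q : ℍ → ℝ≥0∞ := fun z => ENNReal.ofReal (p z - R) with hq
  have hqm : Measurable q := (hμ.pmeas.sub_const _).ennreal_ofReal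
  have hqi : ∀ γ ∈ Γ, ∀ z, q (γ • z) = q z := by
    intro γ hγ z
    simp only [hq, hμ.pinv γ hγ z]
  set Φ : ℍ → ℝ≥0∞ := fun z => ∫⁻ w in Metric.ball z d, q w with hΦ
  have hΦm : Measurable Φ := ball_meas hqm _
  have hmass : ∀ v : SL(2, ℝ), μ ((fun w => v⁻¹ * w) ⁻¹' Bl d) ≤
      ENNReal.ofReal (100 * R * d ^ 2) + Φ (v • UpperHalfPlane.I) := by
    intro v
    refine (hμ.mass_le v hd).trans ?_
    calc ∫⁻ z in Metric.ball (v • UpperHalfPlane.I) d, ENNReal.ofReal (p z)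
        ≤ ∫⁻ z in Metric.ball (v • UpperHalfPlane.I) d, (ENNReal.ofReal R + q z) := by
          apply lintegral_mono
          intro z
          simp only [hq]
          calc ENNReal.ofReal (p z) = ENNReal.ofReal (R + (p z - R)) := by
                congr 1
                ring
            _ ≤ _ := ENNReal.ofReal_add_le
      _ = ENNReal.ofReal R * volume (Metric.ball (v • UpperHalfPlane.I) d) +
            Φ (v • UpperHalfPlane.I) := by
          rw [lintegral_add_left measurable_const, setLIntegral_const]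
      _ ≤ ENNReal.ofReal R * ENNReal.ofReal (100 * d ^ 2) + Φ (v • UpperHalfPlane.I) := by
          gcongr
          exact vol_ball_le _ hd.le hd1
      _ = _ := by
          rw [← ENNReal.ofReal_mul hR0.le]
          congr 2
          ring
  have hpt : ∀ v : SL(2, ℝ), (if μ ((fun w => v⁻¹ * w) ⁻¹' Bl d) ≤
      ENNReal.ofReal (200 * R * d ^ 2) then 0 else μ ((fun w => v⁻¹ * w) ⁻¹' Bl d)) ≤
      2 * Φ (v • UpperHalfPlane.I) := by
    intro v
    have hm := hmass v
    generalize μ ((fun w => v⁻¹ * w) ⁻¹' Bl d) = m at *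
    have e2 : ENNReal.ofReal (200 * R * d ^ 2) =
        ENNReal.ofReal (100 * R * d ^ 2) + ENNReal.ofReal (100 * R * d ^ 2) := by
      rw [← ENNReal.ofReal_add (by positivity) (by positivity)]
      congr 1
      ring
    rw [e2, two_mul]
    generalize Φ (v • UpperHalfPlane.I) = φ at *
    generalize ENNReal.ofReal (100 * R * d ^ 2) = b₀ at *
    split_ifs with h
    · exact zero_le
    · push Not at h
      rcases le_total b₀ φ with h1 | h1
      · exact hm.trans (by gcongr)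
      · exact absurd (lt_of_lt_of_le h (hm.trans (by gcongr))) (lt_irrefl _)
  calc _ ≤ ∫⁻ v in Berry.Fd D, 2 * Φ (v • UpperHalfPlane.I) ∂μ := lintegral_mono hpt
    _ = 2 * ∫⁻ z in D, ENNReal.ofReal (p z) * Φ z := by
        rw [lintegral_const_mul' _ _ (by norm_num)]
        congr 1
        exact hμ.lintegral_proj hΦm hDm
    _ ≤ 2 * (ENNReal.ofReal (100 * d ^ 2) *
          (ENNReal.ofReal l * ∫⁻ z in D, ENNReal.ofReal (p z) ^ 2) +
          ENNReal.ofReal (100 * d ^ 2) * ((ENNReal.ofReal l)⁻¹ * ∫⁻ z in D, q z ^ 2)) := by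
        gcongr
        exact bilin hD hμ.pm hqm hqi hd.le hd1 (ENNReal.ofReal l)
          (ENNReal.ofReal_pos.2 hl0).ne' ENNReal.ofReal_ne_top
    _ ≤ 2 * (ENNReal.ofReal (η / 4 * d ^ 2) + ENNReal.ofReal (η / 4 * d ^ 2)) := by
        gcongr
        · rw [← hA, ← ENNReal.ofReal_toReal hAt, ← ENNReal.ofReal_mul hl0.le,
            ← ENNReal.ofReal_mul (by positivity)]
          apply ENNReal.ofReal_le_ofReal
          have h1 : l * A.toReal ≤ η / 400 := by
            rw [hl, div_mul_eq_mul_div, div_le_div_iff₀ (by positivity) (by positivity)]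
            nlinarith
          nlinarith [mul_le_mul_of_nonneg_right h1 (sq_nonneg d)]
        · calc ENNReal.ofReal (100 * d ^ 2) * ((ENNReal.ofReal l)⁻¹ * ∫⁻ z in D, q z ^ 2)
              ≤ ENNReal.ofReal (100 * d ^ 2) * (ENNReal.ofReal l⁻¹ *
                ENNReal.ofReal (η * l / 400)) := by
                rw [ENNReal.ofReal_inv_of_pos hl0]
                gcongr
            _ = ENNReal.ofReal (η / 4 * d ^ 2) := by
                rw [← ENNReal.ofReal_mul (by positivity), ← ENNReal.ofReal_mul (by positivity)]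
                congr 1
                field_simp
                ring
    _ = ENNReal.ofReal (η * d ^ 2) := by
        rw [show (2 : ℝ≥0∞) = ENNReal.ofReal 2 by simp, ← ENNReal.ofReal_add (by positivity)
          (by positivity), ← ENNReal.ofReal_mul (by positivity)]
        congr 1
        ring

omit [MeasurableSpace SL(2, ℝ)] [BorelSpace SL(2, ℝ)] in
theorem ite_le_ite {a b s t : ℝ≥0∞} (hab : a ≤ b) (hst : s ≤ t) :
    (if a ≤ t then 0 else a) ≤ (if b ≤ s then 0 else b) := by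
  by_cases h : b ≤ s
  · rw [if_pos (hab.trans (h.trans hst))]
    exact zero_le
  · rw [if_neg h]
    split_ifs
    · exact zero_le
    · exact hab

/-- the quadratic bound -/
theorem box_bound [Countable Γ] (hμ : FlowMeas0 Γ D μ p)
    (hD : IsFundamentalDomain Γ D (volume : Measure ℍ)) (hDm : MeasurableSet D) {B : ℝ}
    (hB : ∀ z, |ρ z| ≤ B) {r : ℝ} (hr : r ≤ 1) :
    ∃ C : ℝ, 0 ≤ C ∧ ∀ δ : ℝ, 0 < δ → δ ≤ 1 →
      ∫⁻ v in Berry.Fd D, μ (Bx (xx ρ) (tt ρ) r δ v) ∂μ ≤ ENNReal.ofReal (C * δ ^ 2) := by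
  obtain ⟨C, hC, hb⟩ := hμ.pair_bound hD hDm
  set K : ℝ := 2 * Real.exp B with hK
  have hK0 : 0 < K := by positivity
  refine ⟨4 * C * K ^ 2, by positivity, fun δ hδ hδ1 => ?_⟩
  rcases le_total (K * δ) 1 with h | h
  · have h1 := hb (K * δ) (by positivity) (by linarith)
    refine le_trans (lintegral_mono fun v => measure_mono (Bx_subset hB hδ v)) (h1.trans ?_)
    refine ENNReal.ofReal_le_ofReal ?_
    nlinarith [mul_nonneg hC (sq_nonneg (K * δ))]
  · have h1 := hb 2 (by positivity) (by norm_num)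
    refine le_trans (lintegral_mono fun v => measure_mono (Bx_subset_two hr v)) (h1.trans ?_)
    refine ENNReal.ofReal_le_ofReal ?_
    have h2 : 1 ≤ (K * δ) ^ 2 := one_le_pow₀ h
    nlinarith [mul_le_mul_of_nonneg_left h2 hC]

/-- uniform integrability -/
theorem box_ui [Countable Γ] [SFinite μ] (hμ : FlowMeas0 Γ D μ p)
    (hD : IsFundamentalDomain Γ D (volume : Measure ℍ)) (hDm : MeasurableSet D) {B : ℝ}
    (hB : ∀ z, |ρ z| ≤ B) {r : ℝ} (hr : r ≤ 1) (η : ℝ) (hη : 0 < η) :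
    ∃ M : ℝ, 0 < M ∧ ∀ δ : ℝ, 0 < δ → δ ≤ 1 →
      ∫⁻ v in Berry.Fd D, (if μ (Bx (xx ρ) (tt ρ) r δ v) ≤ ENNReal.ofReal (M * δ ^ 2) then 0
        else μ (Bx (xx ρ) (tt ρ) r δ v)) ∂μ ≤ ENNReal.ofReal (η * δ ^ 2) := by
  obtain ⟨C, hC, hb⟩ := hμ.pair_bound hD hDm
  set K : ℝ := 2 * Real.exp B with hK
  have hK0 : 0 < K := by positivity
  obtain ⟨M₁, hM₁, h1⟩ := exc_small hμ hD hDm (η := η / K ^ 2) (by positivity)
  have hF : Measurable fun v : SL(2, ℝ) => μ ((fun w => v⁻¹ * w) ⁻¹' Bl 2) := mass_meas (ball_meas' 2)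
  have hfin : ∫⁻ v in Berry.Fd D, μ ((fun w => v⁻¹ * w) ⁻¹' Bl 2) ∂μ ≠ ⊤ :=
    ne_top_of_le_ne_top ENNReal.ofReal_ne_top (hb 2 (by norm_num) (by norm_num))
  obtain ⟨n, hn⟩ := tail_lintegral hF hfin (ε := η / K ^ 2) (by positivity)
  refine ⟨max (M₁ * K ^ 2) (n * K ^ 2), lt_of_lt_of_le (by positivity) (le_max_left _ _),
    fun δ hδ hδ1 => ?_⟩
  rcases le_total (K * δ) 1 with h | h
  · refine le_trans (lintegral_mono fun v => ?_) ((h1 (K * δ) (by positivity) h).trans_eq ?_)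
    · have hsub : μ (Bx (xx ρ) (tt ρ) r δ v) ≤ μ ((fun w => v⁻¹ * w) ⁻¹' Bl (K * δ)) :=
        measure_mono (Bx_subset hB hδ v)
      have hM : ENNReal.ofReal (M₁ * (K * δ) ^ 2) ≤
          ENNReal.ofReal (max (M₁ * K ^ 2) (n * K ^ 2) * δ ^ 2) := by
        refine ENNReal.ofReal_le_ofReal ?_
        have := mul_le_mul_of_nonneg_right (le_max_left (M₁ * K ^ 2) (n * K ^ 2)) (sq_nonneg δ)
        calc M₁ * (K * δ) ^ 2 = M₁ * K ^ 2 * δ ^ 2 := by ring
          _ ≤ _ := this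
      exact ite_le_ite hsub hM
    · congr 1
      field_simp
  · refine le_trans (lintegral_mono fun v => ?_) (hn.trans ?_)
    · have hsub : μ (Bx (xx ρ) (tt ρ) r δ v) ≤ μ ((fun w => v⁻¹ * w) ⁻¹' Bl 2) :=
        measure_mono (Bx_subset_two hr v)
      have hM : (n : ℝ≥0∞) ≤ ENNReal.ofReal (max (M₁ * K ^ 2) (n * K ^ 2) * δ ^ 2) := by
        rw [← ENNReal.ofReal_natCast]
        refine ENNReal.ofReal_le_ofReal ?_
        have h4 := mul_le_mul_of_nonneg_right (le_max_right (M₁ * K ^ 2) (n * K ^ 2)) (sq_nonneg δ)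
        have h5 : 1 ≤ (K * δ) ^ 2 := one_le_pow₀ h
        have h6 : (0 : ℝ) ≤ n := Nat.cast_nonneg n
        calc (n : ℝ) = n * 1 := (mul_one _).symm
          _ ≤ n * (K * δ) ^ 2 := by gcongr
          _ = n * K ^ 2 * δ ^ 2 := by ring
          _ ≤ _ := h4
      exact ite_le_ite hsub hM
    · refine ENNReal.ofReal_le_ofReal ?_
      rw [div_le_iff₀ (by positivity)]
      have h5 : 1 ≤ (K * δ) ^ 2 := one_le_pow₀ h
      nlinarith [mul_le_mul_of_nonneg_left h5 hη.le]

omit [MeasurableSpace SL(2, ℝ)] [BorelSpace SL(2, ℝ)] in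
/-- **Module NC_MASS.** -/
theorem stmtMass (hLip : StmtLip) : StmtMass := by
  intro _ _ Γ _ D ρ Φ μ p hDm hD hFac hμ hflow r hr hr1
  obtain ⟨-, -, hρc, -, -, B, L, hB0, hL0, hρB, -⟩ := hLip Γ ρ hFac
  have hν := flowMeas0_nuR hμ hρc.measurable hFac.inv hρB
  have hsf := hν.sigmaFinite hD
  have hfin : (volume : Measure ℍ) D ≠ ⊤ := Berry.finite_of_cocompact hD hFac.cpt
  exact ⟨hsf, hν.left, hflow, hν.isFund hD, hν.fd_ne_top hDm hfin,
    box_bound hν hD hDm hρB hr1, fun η hη => box_ui hν hD hDm hρB hr1 η hη⟩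

end

end NC

end QE
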