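import Pool.Agent.NCV.Stmts

/-!
# Theorem N from the dyadic bound and the diagonal bound (module NC_N)
-/

open MeasureTheory Filter Topology Set
open UpperHalfPlane hiding I
open scoped ContDiff MatrixGroups ENNReal

namespace QE

namespace NC

noncomputable section

namespace TN

theorem dd_cont : Continuous fun p : SL(2, ℝ) × SL(2, ℝ) => dd p.1 p.2 := by
  have h : Continuous fun p : SL(2, ℝ) × SL(2, ℝ) => p.1⁻¹ * p.2 :=
    continuous_fst.inv.mul continuous_snd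
  have he : ∀ i j : Fin 2, Continuous fun p : SL(2, ℝ) × SL(2, ℝ) => (p.1⁻¹ * p.2) i j :=
    fun i j => (continuous_subtype_val.comp h).matrix_elem i j
  unfold dd nn
  exact ((((he 0 0).sub continuous_const).abs.add (he 0 1).abs).add (he 1 0).abs).add
    ((he 1 1).sub continuous_const).abs

variable [MeasurableSpace SL(2, ℝ)]

theorem PM_mono {D : Set ℍ} {ν : Measure SL(2, ℝ)} {P Q : SL(2, ℝ) → SL(2, ℝ) → Prop}
    (h : ∀ v w, P v w → Q v w) : PM D ν P ≤ PM D ν Q :=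
  lintegral_mono fun v => measure_mono fun w hw => h v w hw

theorem PM_false {D : Set ℍ} {ν : Measure SL(2, ℝ)} {P : SL(2, ℝ) → SL(2, ℝ) → Prop}
    (h : ∀ v w, ¬ P v w) : PM D ν P = 0 := by
  unfold PM
  have e : ∀ v, {w | P v w} = ∅ := fun v => by
    ext w
    simp [h v w]
  simp [e]

theorem PM_cover {D : Set ℍ} {ν : Measure SL(2, ℝ)} [SFinite ν]
    {Q P₀ : SL(2, ℝ) → SL(2, ℝ) → Prop} {P : ℕ → SL(2, ℝ) → SL(2, ℝ) → Prop}
    (hm₀ : MeasurableSet {q : SL(2, ℝ) × SL(2, ℝ) | P₀ q.1 q.2})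
    (hm : ∀ l, MeasurableSet {q : SL(2, ℝ) × SL(2, ℝ) | P l q.1 q.2})
    (h : ∀ v w, Q v w → P₀ v w ∨ ∃ l, P l v w) :
    PM D ν Q ≤ PM D ν P₀ + ∑' l, PM D ν (P l) := by
  have m₀ : Measurable fun v => ν {w | P₀ v w} := measurable_measure_prodMk_left hm₀
  have m : ∀ l, Measurable fun v => ν {w | P l v w} := fun l =>
    measurable_measure_prodMk_left (hm l)
  calc PM D ν Q ≤ ∫⁻ v in Berry.Fd D, (ν {w | P₀ v w} + ∑' l, ν {w | P l v w}) ∂ν := by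
        refine lintegral_mono fun v => ?_
        calc ν {w | Q v w} ≤ ν ({w | P₀ v w} ∪ ⋃ l, {w | P l v w}) := by
              refine measure_mono fun w hw => ?_
              rcases h v w hw with h1 | ⟨l, h1⟩
              · exact Or.inl h1
              · exact Or.inr (mem_iUnion.2 ⟨l, h1⟩)
          _ ≤ ν {w | P₀ v w} + ν (⋃ l, {w | P l v w}) := measure_union_le _ _
          _ ≤ _ := add_le_add le_rfl (measure_iUnion_le _)
    _ = _ := by
        rw [lintegral_add_left m₀, lintegral_tsum fun l => (m l).aemeasurable]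
        rfl

omit [MeasurableSpace SL(2, ℝ)] in
theorem dyadic {t : ℝ} (ht : 0 < t) (l₁ : ℕ) (h : t ≤ 2 / 2 ^ l₁) :
    ∃ n : ℕ, 1 / 2 ^ (n + l₁) ≤ t ∧ t ≤ 2 / 2 ^ (n + l₁) := by
  have hex : ∃ n : ℕ, 1 / (2 : ℝ) ^ (n + l₁) < t := by
    obtain ⟨n, hn⟩ := exists_pow_lt_of_lt_one ht (by norm_num : (1 / 2 : ℝ) < 1)
    refine ⟨n, lt_of_le_of_lt ?_ hn⟩
    rw [one_div_pow]
    exact one_div_le_one_div_of_le (by positivity)
      (pow_le_pow_right₀ (by norm_num) (Nat.le_add_right _ _))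
  classical
  refine ⟨Nat.find hex, (Nat.find_spec hex).le, ?_⟩
  rcases Nat.eq_zero_or_pos (Nat.find hex) with h0 | h0
  · rw [h0, zero_add]
    exact h
  · obtain ⟨k, hk⟩ := Nat.exists_eq_succ_of_ne_zero h0.ne'
    have h1 := Nat.find_min hex (m := k) (by omega)
    rw [not_lt] at h1
    rw [hk]
    refine h1.trans (le_of_eq ?_)
    rw [show k.succ + l₁ = (k + l₁) + 1 by omega, pow_succ]
    field_simp

end TN

open TN in
/-- **Theorem N** from the dyadic bound and the diagonal bound -/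
theorem stmtN (hS : StmtSum) (hD : StmtDiag) : StmtN := by
  intro _ _ Γ _ D Φ x y τ κ c r L k₀ k₁ ν hP hM η hη
  obtain ⟨c₀, hc₀, l₀, a, ha, hS⟩ := hS Γ D Φ x y τ κ c r L k₀ k₁ ν hP hM
  have := hM.sf
  have hη2 : 0 < η / 2 := by positivity
  obtain ⟨l₁, hl₁, hsum⟩ : ∃ l₁, l₀ ≤ l₁ ∧ ∑' k, a (k + l₁) ≤ ENNReal.ofReal (η / 2) := by
    have h1 := ENNReal.tendsto_sum_nat_add a ha
    have h2 := h1.eventually (ge_mem_nhds (ENNReal.ofReal_pos.2 hη2))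
    obtain ⟨l₁, h3, h4⟩ := (h2.and (eventually_ge_atTop l₀)).exists
    exact ⟨l₁, h4, h3⟩
  obtain ⟨δ₁, hδ₁, hD⟩ := hD Γ D Φ x y τ κ c r L k₀ k₁ ν hP hM (max 1 (2 / c₀)) (η / 2)
    (le_max_left _ _) hη2
  refine ⟨2 / 2 ^ l₁, by positivity, δ₁, hδ₁, fun δ hδ hδ1 => ?_⟩
  have hx := hP.xc
  have hy := hP.yc
  have ht := hP.tc
  have hm₀ : MeasurableSet {q : SL(2, ℝ) × SL(2, ℝ) | dd q.1 q.2 ≤ r ∧ |x q.1 q.2| ≤ δ ∧
      |τ q.1 q.2| ≤ δ ∧ |y q.1 q.2| ≤ max 1 (2 / c₀) * δ} := by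
    refine IsClosed.measurableSet ?_
    exact (isClosed_le dd_cont continuous_const).inter
      ((isClosed_le hx.abs continuous_const).inter
        ((isClosed_le ht.abs continuous_const).inter (isClosed_le hy.abs continuous_const)))
  have hm : ∀ l : ℕ, MeasurableSet {q : SL(2, ℝ) × SL(2, ℝ) | dd q.1 q.2 ≤ r ∧ |x q.1 q.2| ≤ δ ∧
      |τ q.1 q.2| ≤ δ ∧ 1 / 2 ^ (l + l₁) ≤ |y q.1 q.2| ∧ |y q.1 q.2| ≤ 2 / 2 ^ (l + l₁) ∧
      δ ≤ c₀ / 2 ^ (l + l₁)} := by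
    intro l
    refine IsClosed.measurableSet ?_
    exact (isClosed_le dd_cont continuous_const).inter
      ((isClosed_le hx.abs continuous_const).inter
        ((isClosed_le ht.abs continuous_const).inter
          ((isClosed_le continuous_const hy.abs).inter
            ((isClosed_le hy.abs continuous_const).inter isClosed_const))))
  have hcov := PM_cover (D := D) (ν := ν)
    (Q := fun v w => dd v w ≤ r ∧ |x v w| ≤ δ ∧ |τ v w| ≤ δ ∧ |y v w| ≤ 2 / 2 ^ l₁)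
    (P₀ := fun v w => dd v w ≤ r ∧ |x v w| ≤ δ ∧ |τ v w| ≤ δ ∧ |y v w| ≤ max 1 (2 / c₀) * δ)
    (P := fun l v w => dd v w ≤ r ∧ |x v w| ≤ δ ∧ |τ v w| ≤ δ ∧ 1 / 2 ^ (l + l₁) ≤ |y v w| ∧
      |y v w| ≤ 2 / 2 ^ (l + l₁) ∧ δ ≤ c₀ / 2 ^ (l + l₁)) hm₀ hm (by
      rintro v w ⟨h1, h2, h3, h4⟩
      rcases le_or_gt (|y v w|) (max 1 (2 / c₀) * δ) with h5 | h5
      · exact Or.inl ⟨h1, h2, h3, h5⟩
      · right
        have hA : 0 < max 1 (2 / c₀) := lt_of_lt_of_le one_pos (le_max_left _ _)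
        have hy0 : 0 < |y v w| := lt_trans (mul_pos hA hδ) h5
        obtain ⟨n, hn1, hn2⟩ := dyadic hy0 l₁ h4
        refine ⟨n, h1, h2, h3, hn1, hn2, ?_⟩
        have h6 : 2 / c₀ * δ ≤ max 1 (2 / c₀) * δ :=
          mul_le_mul_of_nonneg_right (le_max_right _ _) hδ.le
        have h7 : 2 / c₀ * δ ≤ 2 / 2 ^ (n + l₁) := h6.trans (h5.le.trans hn2)
        have h8 : δ = c₀ / 2 * (2 / c₀ * δ) := by field_simp
        rw [h8]
        calc c₀ / 2 * (2 / c₀ * δ) ≤ c₀ / 2 * (2 / 2 ^ (n + l₁)) :=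
              mul_le_mul_of_nonneg_left h7 (by positivity)
          _ = c₀ / 2 ^ (n + l₁) := by field_simp)
  refine hcov.trans ?_
  have hP0 := hD δ hδ hδ1
  have hPl : ∀ l : ℕ, PM D ν (fun v w => dd v w ≤ r ∧ |x v w| ≤ δ ∧ |τ v w| ≤ δ ∧
      1 / 2 ^ (l + l₁) ≤ |y v w| ∧ |y v w| ≤ 2 / 2 ^ (l + l₁) ∧ δ ≤ c₀ / 2 ^ (l + l₁))
      ≤ a (l + l₁) * ENNReal.ofReal (δ ^ 2) := by
    intro l
    by_cases h : δ ≤ c₀ / 2 ^ (l + l₁)
    · refine le_trans (PM_mono ?_) (hS (l + l₁) (by omega) δ hδ h)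
      rintro v w ⟨h1, h2, h3, h4, h5, -⟩
      exact ⟨h1, h2, h3, h4, h5⟩
    · rw [PM_false fun v w hvw => h hvw.2.2.2.2.2]
      exact zero_le
  calc _ ≤ ENNReal.ofReal (η / 2 * δ ^ 2) + ∑' l, a (l + l₁) * ENNReal.ofReal (δ ^ 2) :=
        add_le_add hP0 (ENNReal.tsum_le_tsum hPl)
    _ ≤ ENNReal.ofReal (η / 2 * δ ^ 2) + ENNReal.ofReal (η / 2) * ENNReal.ofReal (δ ^ 2) := by
        rw [ENNReal.tsum_mul_right]
        exact add_le_add le_rfl (mul_le_mul_left hsum _)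
    _ = ENNReal.ofReal (η * δ ^ 2) := by
        rw [← ENNReal.ofReal_mul hη2.le, ← ENNReal.ofReal_add (by positivity) (by positivity)]
        congr 1
        ring

end

end NC

end QE
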