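import Pool.Agent.NCV.Stmts
import Pool.Agent.Lib_helper67.QE.HypSurf

/-!
# Closed surfaces of negative curvature: the local hypotheses for sequences of eigenfunctions
-/

open MeasureTheory Filter Topology Set
open UpperHalfPlane hiding I
open scoped ContDiff MatrixGroups ENNReal

namespace QE

namespace NC

noncomputable section

variable {Γ : Subgroup SL(2, ℝ)} {D : Set ℍ} {ρ : ℍ → ℝ} {φ : ℕ → ℍ → ℝ} {m : ℕ → ℝ}

lemma ro_coe (ρ : ℍ → ℝ) (z : ℍ) : ro ρ (z : ℂ) = ρ z := by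
  unfold ro
  rw [ofComplex_apply]

lemma continuous_of_ro (h : ContDiffOn ℝ ∞ (ro ρ) UH) : Continuous ρ := by
  have h1 : Continuous fun z : ℍ => ro ρ (z : ℂ) :=
    h.continuousOn.comp_continuous continuous_coe fun z => z.im_pos
  exact h1.congr fun z => ro_coe ρ z

lemma contDiffOn_aR (h : ContDiffOn ℝ ∞ (ro ρ) UH) : ContDiffOn ℝ ∞ (aR ρ) UH := by
  have h1 : ContDiffOn ℝ ∞ (fun z : ℂ => z.im * Real.exp (-(ro ρ z))) UH :=
    (Complex.imCLM.contDiff.contDiffOn).mul h.neg.exp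
  exact Complex.ofRealCLM.contDiff.comp_contDiffOn h1

lemma contDiffOn_gR (h : ContDiffOn ℝ ∞ (ro ρ) UH) : ContDiffOn ℝ ∞ (gR ρ) UH := by
  have h1 : ContDiffOn ℝ ∞ (fun z : ℂ => Real.exp (2 * ro ρ z) / z.im ^ 2) UH := by
    refine (contDiffOn_const.mul h).exp.div ((Complex.imCLM.contDiff.contDiffOn).pow 2) ?_
    intro z hz
    have hz' : 0 < z.im := hz
    exact (pow_pos hz' 2).ne'
  exact Complex.ofRealCLM.contDiff.comp_contDiffOn h1

lemma aR_sq_gR (ρ : ℍ → ℝ) {z : ℂ} (hz : z ∈ UH) : aR ρ z ^ 2 * gR ρ z = 1 := by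
  have hz' : 0 < z.im := hz
  have h1 : (z.im * Real.exp (-(ro ρ z))) ^ 2 * (Real.exp (2 * ro ρ z) / z.im ^ 2) = 1 := by
    have e1 : Real.exp (-(ro ρ z)) ^ 2 * Real.exp (2 * ro ρ z) = 1 := by
      rw [← Real.exp_nat_mul, ← Real.exp_add]
      push_cast
      rw [show 2 * -(ro ρ z) + 2 * ro ρ z = 0 by ring, Real.exp_zero]
    have h0 : z.im ^ 2 ≠ 0 := (pow_pos hz' 2).ne'
    calc (z.im * Real.exp (-(ro ρ z))) ^ 2 * (Real.exp (2 * ro ρ z) / z.im ^ 2)
        = (z.im ^ 2 / z.im ^ 2) * (Real.exp (-(ro ρ z)) ^ 2 * Real.exp (2 * ro ρ z)) := by ring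
      _ = 1 := by rw [e1, div_self h0, one_mul]
  unfold aR gR
  exact_mod_cast h1

/-- the local hypotheses for a sequence of eigenfunctions of a conformal metric which is bounded
in `L⁴` -/
theorem setup_of_eigenR (hro : ContDiffOn ℝ ∞ (ro ρ) UH) (hφ : Berry.REigenSeq Γ ρ φ m)
    (hs : ∀ n, ContDiffOn ℝ ∞ (fun w : ℂ => φ n (ofComplex w)) UH)
    (hm : ∀ n, 1 ≤ m n) (hb : LBdd 4 UH (fun n z => (φ n (ofComplex z) : ℂ))) :
    Setup UH (gR ρ) (aR ρ) (fun n => 1 / m n) (fun n z => (φ n (ofComplex z) : ℂ)) := by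
  have hU : IsOpen UH := isOpen_UH
  have hsm : SmoothSeq UH (fun n z => (φ n (ofComplex z) : ℂ)) := fun n =>
    Complex.ofRealCLM.contDiff.comp_contDiffOn (hs n)
  have hpos : ∀ n, 0 < 1 / m n := fun n => by
    have := hm n
    positivity
  have hlim : Tendsto (fun n => 1 / m n) atTop (𝓝 0) := by
    simpa [one_div, Function.comp_def] using tendsto_inv_atTop_zero.comp hφ.tendsto
  have heig : ∀ n, ∀ z ∈ UH, 4 * (((1 / m n : ℝ)) : ℂ) ^ 2
      * dz (dzb (fun z => (φ n (ofComplex z) : ℂ))) z = - gR ρ z * (φ n (ofComplex z) : ℂ) := by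
    intro n z hz
    have hz' : 0 < z.im := hz
    have hm0 : m n ≠ 0 := by have := hm n; linarith
    have hcd : ContDiffAt ℝ 2 (fun w : ℂ => φ n (ofComplex w)) z :=
      (hφ.smooth _).contDiffAt (hU.mem_nhds hz)
    have h4 := four_dz_dzb hcd
    have he := hφ.eigen n ⟨z, hz'⟩
    have hoc : ofComplex z = ⟨z, hz'⟩ := ofComplex_apply_of_im_pos hz'
    have hre : (z.im : ℝ) ^ 2 * (Laplacian.laplacian (fun w : ℂ => φ n (ofComplex w)) z)
        = - (m n ^ 2 * Real.exp (2 * ro ρ z) * φ n (ofComplex z)) := by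
      unfold ro
      rw [hoc]; exact he
    have hrc : ((z.im : ℝ) : ℂ) ^ 2 * ((Laplacian.laplacian (fun w : ℂ =>
        φ n (ofComplex w)) z : ℝ) : ℂ) = - ((m n : ℂ) ^ 2 * ((Real.exp (2 * ro ρ z) : ℝ) : ℂ)
          * (φ n (ofComplex z) : ℂ)) := by
      exact_mod_cast congrArg (fun x : ℝ => (x : ℂ)) hre
    rw [← h4] at hrc
    have him : ((z.im : ℝ) : ℂ) ≠ 0 := by exact_mod_cast hz'.ne'
    have hmc : (m n : ℂ) ≠ 0 := by exact_mod_cast hm0
    have hg : gR ρ z = ((Real.exp (2 * ro ρ z) : ℝ) : ℂ) / ((z.im : ℝ) : ℂ) ^ 2 := by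
      unfold gR
      rw [Complex.ofReal_div, Complex.ofReal_pow]
    have h1m : (((1 / m n : ℝ)) : ℂ) = 1 / (m n : ℂ) := by
      rw [Complex.ofReal_div, Complex.ofReal_one]
    rw [hg, h1m]
    field_simp
    linear_combination hrc
  refine ⟨hU, hpos, hlim, contDiffOn_aR hro, contDiffOn_gR hro, fun z _ => Complex.conj_ofReal _,
    fun z hz => aR_sq_gR ρ hz, ?_, fun n z _ => Complex.conj_ofReal _, heig⟩
  refine tame_of_eigen hU hlim (ellProp hU hpos hlim) hsm hb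
    (b := fun z => -(1 / 4) * gR ρ z) (contDiffOn_const.mul (contDiffOn_gR hro)) fun n z hz => ?_
  have := heig n z hz
  unfold hLap
  linear_combination (1 / 4) * this

/-- **the module** -/
theorem stmtSetup : StmtSetup := fun _ _ _ _ hF hφ hs hm hb =>
  setup_of_eigenR hF.smooth hφ hs hm hb

/-- boundedness on compact sets, from bounded averages with respect to the conformal metric -/
lemma bdd_of_rAvg [Countable Γ] (hD : IsFundamentalDomain Γ D (volume : Measure ℍ))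
    (hDm : MeasurableSet D) (hK : ∃ K : Set ℍ, IsCompact K ∧ ∀ z, ∃ γ ∈ Γ, γ • z ∈ K)
    (hρ : Continuous ρ) (hρΓ : ∀ γ ∈ Γ, ∀ z, ρ (γ • z) = ρ z) {K : Set ℂ} (hKc : IsCompact K)
    (hKU : K ⊆ {w | 0 < w.im}) : ∃ M : ℝ, 0 ≤ M ∧ ∀ f : ℍ → ℝ, Continuous f → (∀ z, 0 ≤ f z) →
      (∀ γ ∈ Γ, ∀ z, f (γ • z) = f z) →
        ∫ w in K, f (ofComplex w) ≤ M * Berry.rAvg ρ D f := by
  obtain ⟨ζ, h1, h2, h3, h4, ⟨c₀, hc₀, h5⟩, h6⟩ := exists_test' hD hDm hK hρ hρΓ hKc hKU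
  have hg : Berry.Geo Γ ρ D := ⟨hD, hDm, Berry.finite_of_cocompact hD hK, hρΓ,
    Berry.bdd_of_cocompact hρ hρΓ hK, Berry.unif_of_cocompact hρ hρΓ hK⟩
  have hA0 : 0 < (Berry.area ρ D).toReal :=
    ENNReal.toReal_pos (Berry.area_ne_zero hg) (Berry.area_ne_top hg)
  refine ⟨1 / c₀ * (Berry.area ρ D).toReal, by positivity, fun f hf hf0 hinv => ?_⟩
  have hav := rAvg_eq hg hK h1 h2 h3 h6 hf hinv
  have i1 : Integrable (fun w => ζ w * f (ofComplex w)) :=
    (Surf.continuous_cut_mul h1 h3 hf).integrable_of_hasCompactSupport h2.mul_right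
  have i2 : IntegrableOn (fun w => f (ofComplex w)) K := by
    refine ContinuousOn.integrableOn_compact hKc fun w hw => ?_
    have hw' : 0 < w.im := hKU hw
    have h7 : ContinuousAt (fun w : ℂ => (ofComplex w : ℍ)) w :=
      (contMDiffAt_ofComplex (n := 1) hw').continuousAt
    exact (ContinuousAt.comp (f := fun w : ℂ => (ofComplex w : ℍ)) hf.continuousAt
      h7).continuousWithinAt
  calc ∫ w in K, f (ofComplex w) ≤ ∫ w in K, 1 / c₀ * (ζ w * f (ofComplex w)) := by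
        refine setIntegral_mono_on i2 (i1.const_mul _).integrableOn hKc.measurableSet
          fun w hw => ?_
        have h8 := h5 w hw
        have h9 := hf0 (ofComplex w)
        calc f (ofComplex w) = 1 / c₀ * (c₀ * f (ofComplex w)) := by field_simp
          _ ≤ 1 / c₀ * (ζ w * f (ofComplex w)) := by gcongr
    _ ≤ ∫ w, 1 / c₀ * (ζ w * f (ofComplex w)) := by
        refine setIntegral_le_integral (i1.const_mul _) (Eventually.of_forall fun w => ?_)
        have h8 := h4 w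
        have h9 := hf0 (ofComplex w)
        show 0 ≤ 1 / c₀ * (ζ w * f (ofComplex w))
        positivity
    _ = 1 / c₀ * ∫ w, ζ w * f (ofComplex w) := integral_const_mul _ _
    _ = 1 / c₀ * (Berry.area ρ D).toReal * Berry.rAvg ρ D f := by
        rw [hav]
        field_simp

/-- fourth powers of the functions -/
theorem bdd4R [Countable Γ] (hD : IsFundamentalDomain Γ D (volume : Measure ℍ))
    (hDm : MeasurableSet D) (hK : ∃ K : Set ℍ, IsCompact K ∧ ∀ z, ∃ γ ∈ Γ, γ • z ∈ K)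
    (hρ : Continuous ρ) (hρΓ : ∀ γ ∈ Γ, ∀ z, ρ (γ • z) = ρ z)
    (hc : ∀ n, Continuous (φ n)) (hinv : ∀ n, ∀ γ ∈ Γ, ∀ z, φ n (γ • z) = φ n z) {C : ℝ}
    (hC : ∀ n, Berry.rAvg ρ D (fun z => φ n z ^ 4) ≤ C) :
    LBdd 4 UH (fun n z => (φ n (ofComplex z) : ℂ)) := by
  intro K hKc hKU
  obtain ⟨M, hM0, hM⟩ := bdd_of_rAvg hD hDm hK hρ hρΓ hKc hKU
  refine ⟨M * C, Eventually.of_forall fun n => ?_⟩
  have h1 := hM (fun z => φ n z ^ 4) ((hc n).pow 4) (fun z => by positivity)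
    (fun γ hγ z => by simp only [hinv n γ hγ z])
  have e : ∀ w : ℂ, ‖((φ n (ofComplex w) : ℝ) : ℂ)‖ ^ 4 = φ n (ofComplex w) ^ 4 := by
    intro w
    rw [Complex.norm_real, Real.norm_eq_abs]
    exact Even.pow_abs (by decide) _
  simp only [e]
  exact h1.trans (mul_le_mul_of_nonneg_left (hC n) hM0)

/-- the same for infinitely many indices (the bound holds eventually or along a subsequence) -/
theorem bdd4R_ev [Countable Γ] (hD : IsFundamentalDomain Γ D (volume : Measure ℍ))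
    (hDm : MeasurableSet D) (hK : ∃ K : Set ℍ, IsCompact K ∧ ∀ z, ∃ γ ∈ Γ, γ • z ∈ K)
    (hρ : Continuous ρ) (hρΓ : ∀ γ ∈ Γ, ∀ z, ρ (γ • z) = ρ z)
    (hc : ∀ n, Continuous (φ n)) (hinv : ∀ n, ∀ γ ∈ Γ, ∀ z, φ n (γ • z) = φ n z) {C : ℝ}
    (hC : ∀ᶠ n in atTop, Berry.rAvg ρ D (fun z => φ n z ^ 4) ≤ C) :
    LBdd 4 UH (fun n z => (φ n (ofComplex z) : ℂ)) := by
  intro K hKc hKU
  obtain ⟨M, hM0, hM⟩ := bdd_of_rAvg hD hDm hK hρ hρΓ hKc hKU
  refine ⟨M * C, ?_⟩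
  filter_upwards [hC] with n hn
  have h1 := hM (fun z => φ n z ^ 4) ((hc n).pow 4) (fun z => by positivity)
    (fun γ hγ z => by simp only [hinv n γ hγ z])
  have e : ∀ w : ℂ, ‖((φ n (ofComplex w) : ℝ) : ℂ)‖ ^ 4 = φ n (ofComplex w) ^ 4 := by
    intro w
    rw [Complex.norm_real, Real.norm_eq_abs]
    exact Even.pow_abs (by decide) _
  simp only [e]
  exact h1.trans (mul_le_mul_of_nonneg_left hn hM0)

end

end NC

end QE
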