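import Pool.Agent.NCV.SumB
import Pool.Agent.NCV.Tools

/-!
# Crossing pairs: the dyadic bound (helper70)
-/

open MeasureTheory Filter Topology Set
open UpperHalfPlane hiding I
open scoped ContDiff MatrixGroups ENNReal

namespace QE

namespace NC

noncomputable section

/-- at most four dyadic scales are comparable to a given number -/
theorem count4 (u : ℝ) :
    ∑' l : ℕ, (if 1 / 2 ^ l / 2 ≤ u ∧ u ≤ 4 * (1 / 2 ^ l) then (1 : ℝ≥0∞) else 0) ≤ 4 := by
  classical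
  set A : ℕ → Prop := fun l => 1 / (2 : ℝ) ^ l / 2 ≤ u ∧ u ≤ 4 * (1 / 2 ^ l) with hA
  by_cases hex : ∃ l, A l
  · set l₁ := Nat.find hex with hl₁
    have h1 : A l₁ := Nat.find_spec hex
    have hsub : ∀ l, l ∉ Finset.Icc l₁ (l₁ + 3) → (if A l then (1 : ℝ≥0∞) else 0) = 0 := by
      intro l hl
      rw [if_neg]
      intro hAl
      apply hl
      rw [Finset.mem_Icc]
      refine ⟨Nat.find_min' hex hAl, ?_⟩
      by_contra hlt
      push Not at hlt
      have h2 : (1 : ℝ) / 2 ^ l₁ / 2 ≤ 4 * (1 / 2 ^ l) := h1.1.trans hAl.2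
      have h3 : (2 : ℝ) ^ (l₁ + 4) ≤ 2 ^ l := pow_le_pow_right₀ (by norm_num) (by omega)
      have h4 : (1 : ℝ) / 2 ^ l ≤ 1 / 2 ^ (l₁ + 4) := one_div_le_one_div_of_le (by positivity) h3
      have h5 : (1 : ℝ) / 2 ^ (l₁ + 4) = 1 / 2 ^ l₁ / 16 := by
        rw [pow_add]; field_simp; norm_num
      have h6 : (0 : ℝ) < 1 / 2 ^ l₁ := by positivity
      rw [h5] at h4
      linarith
    rw [tsum_eq_sum hsub]
    calc ∑ l ∈ Finset.Icc l₁ (l₁ + 3), (if A l then (1 : ℝ≥0∞) else 0)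
        ≤ ∑ l ∈ Finset.Icc l₁ (l₁ + 3), (1 : ℝ≥0∞) := by
          refine Finset.sum_le_sum fun l _ => ?_
          split_ifs <;> simp
      _ = 4 := by
          rw [Finset.sum_const, Nat.card_Icc]
          have : l₁ + 3 + 1 - l₁ = 4 := by omega
          rw [this]
          simp
  · push Not at hex
    have h0 : ∀ l, (if A l then (1 : ℝ≥0∞) else 0) = 0 := fun l => if_neg (hex l)
    have h1 : ∑' l : ℕ, (if A l then (1 : ℝ≥0∞) else 0) = 0 := by
      rw [ENNReal.tsum_eq_zero]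
      exact h0
    refine le_trans (le_of_eq h1) zero_le

variable {Γ : Subgroup SL(2, ℝ)} {Φ : ℝ → SL(2, ℝ) → SL(2, ℝ)}
  {x y τ : SL(2, ℝ) → SL(2, ℝ) → ℝ} {κ : SL(2, ℝ) → ℝ} {c r L k₀ k₁ : ℝ}

/-- the pairs of the dyadic bound -/
def XB (x y τ : SL(2, ℝ) → SL(2, ℝ) → ℝ) (r δ a b : ℝ) (v w : SL(2, ℝ)) : Prop :=
  dd v w ≤ r ∧ |x v w| ≤ δ ∧ |τ v w| ≤ δ ∧ a ≤ |y v w| ∧ |y v w| ≤ b

variable [MeasurableSpace SL(2, ℝ)] [BorelSpace SL(2, ℝ)] {D : Set ℍ} {ν : Measure SL(2, ℝ)}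

theorem PairSys.meas_XB (S : PairSys Γ Φ x y τ κ c r L k₀ k₁) (δ a b : ℝ) :
    MeasurableSet {p : SL(2, ℝ) × SL(2, ℝ) | XB x y τ r δ a b p.1 p.2} :=
  (measSet_dd_le r).inter ((measSet_abs_le S.xc δ).inter ((measSet_abs_le S.tc δ).inter
    ((measSet_le_abs S.yc a).inter (measSet_abs_le S.yc b))))

omit [MeasurableSpace SL(2, ℝ)] [BorelSpace SL(2, ℝ)] in
theorem PairSys.inv_XB (S : PairSys Γ Φ x y τ κ c r L k₀ k₁) (δ a b : ℝ) :
    ∀ γ ∈ Γ, ∀ v w, XB x y τ r δ a b (γ * v) (γ * w) ↔ XB x y τ r δ a b v w := by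
  intro γ hγ v w
  unfold XB
  rw [dd_left, S.xi γ hγ, S.ti γ hγ, S.yi γ hγ]

omit [BorelSpace SL(2, ℝ)] in
theorem PM_prod [SFinite ν] {P : SL(2, ℝ) → SL(2, ℝ) → Prop}
    (hP : MeasurableSet {p : SL(2, ℝ) × SL(2, ℝ) | P p.1 p.2}) :
    PM D ν P = ((ν.restrict (Berry.Fd D)).prod ν) {p | P p.1 p.2} := by
  rw [Measure.prod_apply hP]
  rfl

theorem PM_shift [Countable Γ] (S : PairSys Γ Φ x y τ κ c r L k₀ k₁)
    (M : MassSys Γ D Φ x τ r ν) {P : SL(2, ℝ) → SL(2, ℝ) → Prop}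
    (hP : MeasurableSet {p : SL(2, ℝ) × SL(2, ℝ) | P p.1 p.2})
    (hinv : ∀ γ ∈ Γ, ∀ v w, P (γ * v) (γ * w) ↔ P v w) (s t : ℝ) :
    ∫⁻ p, {p : SL(2, ℝ) × SL(2, ℝ) | P p.1 p.2}.indicator (fun _ => (1 : ℝ≥0∞))
      (Φ s p.1, Φ t p.2) ∂((ν.restrict (Berry.Fd D)).prod ν) = PM D ν P := by
  have := M.sf
  have hm : MeasurableSet {p : SL(2, ℝ) × SL(2, ℝ) | P (Φ s p.1) (Φ t p.2)} :=
    (((S.cont_flow s).measurable.comp measurable_fst).prodMk
      ((S.cont_flow t).measurable.comp measurable_snd)) hP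
  rw [← PM_flow_set S M hP hinv s t, PM_prod hm,
    ← one_mul (((ν.restrict (Berry.Fd D)).prod ν) {p | P (Φ s p.1) (Φ t p.2)}),
    ← lintegral_indicator_const hm]
  rfl

/-- **comparison of the masses at two scales** -/
theorem compare [Countable Γ] (S : PairSys Γ Φ x y τ κ c r L k₀ k₁)
    (M : MassSys Γ D Φ x τ r ν) {Y δ η : ℝ} (hY : 0 < Y) (hδ : 0 < δ) (hη : 0 < η) (hηδ : η ≤ δ)
    (hδY : δ ≤ Y / (128 * (k₁ + 1) * c * (5 * c ^ 4 * Real.exp L)))
    (hYr : Y ≤ r / (8 * c * (5 * c ^ 4 * Real.exp L) ^ 2)) :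
    PM D ν (XB x y τ r δ Y (2 * Y)) ≤ ENNReal.ofReal (δ ^ 2) *
      (ENNReal.ofReal (1024 / η ^ 2) * PM D ν (XB x y τ r η (Y / 2) (4 * Y))) := by
  classical
  have := M.sf
  set a := 8 * δ / Y with ha
  set b := 8 * δ with hb
  set lam : Measure (ℝ × ℝ) := ((volume : Measure ℝ).restrict (Icc (-a) a)).prod
    ((volume : Measure ℝ).restrict (Icc (-b) b)) with hlam
  set pi : Measure (SL(2, ℝ) × SL(2, ℝ)) := (ν.restrict (Berry.Fd D)).prod ν with hpi
  set Q : Set (SL(2, ℝ) × SL(2, ℝ)) := {p | XB x y τ r η (Y / 2) (4 * Y) p.1 p.2} with hQ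
  set P : Set (SL(2, ℝ) × SL(2, ℝ)) := {p | XB x y τ r δ Y (2 * Y) p.1 p.2} with hP
  have hQm : MeasurableSet Q := S.meas_XB _ _ _
  have hPm : MeasurableSet P := S.meas_XB _ _ _
  set F : SL(2, ℝ) × SL(2, ℝ) → ℝ × ℝ → ℝ≥0∞ := fun p q =>
    Q.indicator (fun _ => (1 : ℝ≥0∞)) (Φ q.1 p.1, Φ q.2 (Φ q.1 p.2)) with hF
  have hFm : Measurable (Function.uncurry F) := by
    have h1 : Continuous fun z : (SL(2, ℝ) × SL(2, ℝ)) × (ℝ × ℝ) => Φ z.2.1 z.1.1 :=
      S.cont.comp (continuous_snd.fst.prodMk continuous_fst.fst)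
    have h2 : Continuous fun z : (SL(2, ℝ) × SL(2, ℝ)) × (ℝ × ℝ) => Φ z.2.1 z.1.2 :=
      S.cont.comp (continuous_snd.fst.prodMk continuous_fst.snd)
    have h3 : Continuous fun z : (SL(2, ℝ) × SL(2, ℝ)) × (ℝ × ℝ) => Φ z.2.2 (Φ z.2.1 z.1.2) :=
      S.cont.comp (continuous_snd.snd.prodMk h2)
    exact (measurable_const.indicator hQm).comp (h1.prodMk h3).measurable
  -- the total
  have htot : ∫⁻ p, ∫⁻ q, F p q ∂lam ∂pi
      = PM D ν (XB x y τ r η (Y / 2) (4 * Y)) * (ENNReal.ofReal (2 * a) * ENNReal.ofReal (2 * b)) := by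
    rw [lintegral_lintegral_swap hFm.aemeasurable]
    have h1 : ∀ q : ℝ × ℝ, ∫⁻ p, F p q ∂pi = PM D ν (XB x y τ r η (Y / 2) (4 * Y)) := by
      intro q
      rw [← PM_shift S M (S.meas_XB η (Y / 2) (4 * Y)) (S.inv_XB η (Y / 2) (4 * Y)) q.1 (q.2 + q.1)]
      refine lintegral_congr fun p => ?_
      simp only [hF, S.add]
      rfl
    simp only [h1]
    rw [lintegral_const, hlam, ← univ_prod_univ, Measure.prod_prod]
    simp only [Measure.restrict_apply MeasurableSet.univ, univ_inter, Real.volume_Icc, sub_neg_eq_add]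
    rw [← two_mul, ← two_mul]
  -- the lower bound
  have hlow : ∀ p ∈ P, ENNReal.ofReal (η / (2 * Y)) * ENNReal.ofReal (η / 2) ≤ ∫⁻ q, F p q ∂lam := by
    rintro ⟨v, w⟩ ⟨p1, p2, p3, p4, p5⟩
    obtain ⟨t₀, s₀, ht₀, hs₀, hb'⟩ := S.area hY hδ hη hηδ hδY hYr p1 p2 p3 p4 p5
    set B : Set (ℝ × ℝ) := Icc (t₀ - η / (4 * Y)) (t₀ + η / (4 * Y)) ×ˢ
      Icc (s₀ - η / 4) (s₀ + η / 4) with hB
    have hBm : MeasurableSet B := measurableSet_Icc.prod measurableSet_Icc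
    have hmem : ∀ q ∈ B, |q.1| ≤ a ∧ |q.2| ≤ b ∧ (Φ q.1 v, Φ q.2 (Φ q.1 w)) ∈ Q := by
      rintro ⟨t, s⟩ ⟨h1, h2⟩
      obtain ⟨b1, b2, b3, b4, b5, b6, b7⟩ := hb' t s (abs_le.2 ⟨by linarith [h1.1], by linarith [h1.2]⟩)
        (abs_le.2 ⟨by linarith [h2.1], by linarith [h2.2]⟩)
      exact ⟨b1, b2, b3, b4, b5, b6, b7⟩
    have h1 : lam B = ENNReal.ofReal (η / (2 * Y)) * ENNReal.ofReal (η / 2) := by
      have hη4 : 0 < η / (4 * Y) := by positivity
      have i1 : Icc (t₀ - η / (4 * Y)) (t₀ + η / (4 * Y)) ⊆ Icc (-a) a := by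
        intro t ht
        have := (hmem (t, s₀) ⟨ht, ⟨by linarith, by linarith⟩⟩).1
        exact abs_le.1 this
      have i2 : Icc (s₀ - η / 4) (s₀ + η / 4) ⊆ Icc (-b) b := by
        intro s hs
        have := (hmem (t₀, s) ⟨⟨by linarith, by linarith⟩, hs⟩).2.1
        exact abs_le.1 this
      rw [hlam, hB, Measure.prod_prod, Measure.restrict_apply measurableSet_Icc,
        Measure.restrict_apply measurableSet_Icc, inter_eq_left.2 i1, inter_eq_left.2 i2,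
        Real.volume_Icc, Real.volume_Icc]
      congr 2
      · field_simp
        ring
      · ring
    rw [← h1]
    calc lam B = ∫⁻ q, B.indicator (fun _ => (1 : ℝ≥0∞)) q ∂lam := by
          rw [lintegral_indicator_const hBm, one_mul]
      _ ≤ ∫⁻ q, F (v, w) q ∂lam := by
          refine lintegral_mono fun q => ?_
          by_cases hq : q ∈ B
          · have h2 := (hmem q hq).2.2
            simp only [hF, indicator_of_mem h2, indicator_of_mem hq, le_refl]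
          · rw [indicator_of_notMem hq]
            exact zero_le
  have hmain : ENNReal.ofReal (η / (2 * Y)) * ENNReal.ofReal (η / 2) * pi P ≤
      PM D ν (XB x y τ r η (Y / 2) (4 * Y)) * (ENNReal.ofReal (2 * a) * ENNReal.ofReal (2 * b)) := by
    rw [← htot]
    calc ENNReal.ofReal (η / (2 * Y)) * ENNReal.ofReal (η / 2) * pi P
        = ∫⁻ p, P.indicator (fun _ => ENNReal.ofReal (η / (2 * Y)) * ENNReal.ofReal (η / 2)) p ∂pi := by
          rw [lintegral_indicator_const hPm]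
      _ ≤ _ := by
          refine lintegral_mono fun p => ?_
          by_cases hp : p ∈ P
          · rw [indicator_of_mem hp]
            exact hlow p hp
          · rw [indicator_of_notMem hp]
            exact zero_le
  rw [PM_prod hPm]
  set m := PM D ν (XB x y τ r η (Y / 2) (4 * Y)) with hm
  have e1 : ENNReal.ofReal (η / (2 * Y)) * ENNReal.ofReal (η / 2)
      = ENNReal.ofReal (η ^ 2 / (4 * Y)) := by
    rw [← ENNReal.ofReal_mul (by positivity)]
    congr 1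
    field_simp
    ring
  have e2 : ENNReal.ofReal (2 * a) * ENNReal.ofReal (2 * b)
      = ENNReal.ofReal (256 * δ ^ 2 / Y) := by
    rw [← ENNReal.ofReal_mul (by positivity)]
    congr 1
    rw [ha, hb]
    field_simp
    ring
  rw [e1, e2] at hmain
  have h3 : ENNReal.ofReal (4 * Y / η ^ 2) * (ENNReal.ofReal (η ^ 2 / (4 * Y)) * pi P) ≤
      ENNReal.ofReal (4 * Y / η ^ 2) * (m * ENNReal.ofReal (256 * δ ^ 2 / Y)) := by gcongr
  rw [← mul_assoc, ← ENNReal.ofReal_mul (by positivity)] at h3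
  have e3 : 4 * Y / η ^ 2 * (η ^ 2 / (4 * Y)) = 1 := by field_simp
  rw [e3, ENNReal.ofReal_one, one_mul] at h3
  refine h3.trans (le_of_eq ?_)
  rw [mul_comm m, ← mul_assoc, ← mul_assoc, ← ENNReal.ofReal_mul (by positivity),
    ← ENNReal.ofReal_mul (by positivity)]
  congr 2
  field_simp
  ring

/-- the sum over the dyadic scales -/
theorem sum_scales (S : PairSys Γ Φ x y τ κ c r L k₀ k₁)
    (M : MassSys Γ D Φ x τ r ν) {C : ℝ} (hC : ∀ δ : ℝ, 0 < δ → δ ≤ 1 →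
      ∫⁻ v in Berry.Fd D, ν (Bx x τ r δ v) ∂ν ≤ ENNReal.ofReal (C * δ ^ 2)) {η : ℝ} (hη : 0 < η)
    (hη1 : η ≤ 1) :
    ∑' l : ℕ, PM D ν (XB x y τ r η (1 / 2 ^ l / 2) (4 * (1 / 2 ^ l))) ≤
      4 * ENNReal.ofReal (C * η ^ 2) := by
  classical
  have := M.sf
  set pi : Measure (SL(2, ℝ) × SL(2, ℝ)) := (ν.restrict (Berry.Fd D)).prod ν with hpi
  set B : Set (SL(2, ℝ) × SL(2, ℝ)) := {p | p.2 ∈ Bx x τ r η p.1} with hB
  have hBm : MeasurableSet B := measSet_Bx_pair S.xc S.tc r η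
  have h1 : ∀ l : ℕ, PM D ν (XB x y τ r η (1 / 2 ^ l / 2) (4 * (1 / 2 ^ l)))
      = ∫⁻ p, {p : SL(2, ℝ) × SL(2, ℝ) | XB x y τ r η (1 / 2 ^ l / 2) (4 * (1 / 2 ^ l))
          p.1 p.2}.indicator (fun _ => (1 : ℝ≥0∞)) p ∂pi := by
    intro l
    rw [PM_prod (S.meas_XB _ _ _), lintegral_indicator_const (S.meas_XB _ _ _), one_mul]
  simp only [h1]
  rw [← lintegral_tsum fun l => (measurable_const.indicator (S.meas_XB _ _ _)).aemeasurable]
  calc ∫⁻ p, ∑' l : ℕ, {p : SL(2, ℝ) × SL(2, ℝ) | XB x y τ r η (1 / 2 ^ l / 2) (4 * (1 / 2 ^ l))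
          p.1 p.2}.indicator (fun _ => (1 : ℝ≥0∞)) p ∂pi
      ≤ ∫⁻ p, B.indicator (fun _ => (4 : ℝ≥0∞)) p ∂pi := by
        refine lintegral_mono fun p => ?_
        by_cases hp : p ∈ B
        · rw [indicator_of_mem hp]
          refine le_trans (ENNReal.tsum_le_tsum fun l => ?_) (count4 |y p.1 p.2|)
          by_cases hl : XB x y τ r η (1 / 2 ^ l / 2) (4 * (1 / 2 ^ l)) p.1 p.2
          · have e : {p : SL(2, ℝ) × SL(2, ℝ) | XB x y τ r η (1 / 2 ^ l / 2) (4 * (1 / 2 ^ l))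
                p.1 p.2}.indicator (fun _ => (1 : ℝ≥0∞)) p = 1 := indicator_of_mem (by exact hl) _
            rw [e, if_pos ⟨hl.2.2.2.1, hl.2.2.2.2⟩]
          · have e : {p : SL(2, ℝ) × SL(2, ℝ) | XB x y τ r η (1 / 2 ^ l / 2) (4 * (1 / 2 ^ l))
                p.1 p.2}.indicator (fun _ => (1 : ℝ≥0∞)) p = 0 := indicator_of_notMem (by exact hl) _
            rw [e]
            exact zero_le
        · rw [indicator_of_notMem hp]
          have h2 : ∀ l : ℕ, {p : SL(2, ℝ) × SL(2, ℝ) | XB x y τ r η (1 / 2 ^ l / 2)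
              (4 * (1 / 2 ^ l)) p.1 p.2}.indicator (fun _ => (1 : ℝ≥0∞)) p = 0 := by
            intro l
            refine indicator_of_notMem (fun hl => hp ?_) _
            obtain ⟨a1, a2, a3, _, _⟩ := hl
            exact ⟨a1, a2, a3⟩
          simp only [h2, tsum_zero, le_refl]
    _ = 4 * pi B := lintegral_indicator_const hBm _
    _ ≤ 4 * ENNReal.ofReal (C * η ^ 2) := by
        gcongr
        rw [hpi, Measure.prod_apply hBm]
        exact hC η hη hη1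

omit [MeasurableSpace SL(2, ℝ)] [BorelSpace SL(2, ℝ)] in
/-- **The dyadic bound.** -/
theorem stmtSum : StmtSum := by
  intro _ _ Γ _ D Φ x y τ κ c r L k₀ k₁ ν S M
  obtain ⟨C, hC0, hC⟩ := M.box
  have hc := S.c0
  have hk₁ : 0 < k₁ := S.kpos.trans_le ((S.klo 1).trans (S.khi 1))
  set K := 5 * c ^ 4 * Real.exp L with hK
  have hK0 : 0 < K := by positivity
  set c₀ : ℝ := 1 / (128 * (k₁ + 1) * c * K) with hc₀
  have hc₀0 : 0 < c₀ := by positivity
  obtain ⟨l₀, hl₀⟩ := exists_pow_lt_of_lt_one (show 0 < r / (8 * c * K ^ 2) by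
    have := S.rpos; positivity) (by norm_num : (1 / 2 : ℝ) < 1)
  set η : ℕ → ℝ := fun n => 1 / ((n : ℝ) + 1) with hη
  have hη0 : ∀ n, 0 < η n := fun n => by positivity
  have hη1 : ∀ n, η n ≤ 1 := fun n => by
    rw [hη]
    exact (div_le_one (by positivity)).2 (by linarith [Nat.cast_nonneg (α := ℝ) n])
  have hηt : Tendsto η atTop (𝓝 0) := tendsto_one_div_add_atTop_nhds_zero_nat
  set g : ℕ → ℕ → ℝ≥0∞ := fun n l => ENNReal.ofReal (1024 / η n ^ 2) *
    PM D ν (XB x y τ r (η n) (1 / 2 ^ l / 2) (4 * (1 / 2 ^ l))) with hg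
  refine ⟨c₀, hc₀0, l₀, fun l => liminf (fun n => g n l) atTop, ?_, ?_⟩
  · -- summability
    have h1 : ∀ n, ∑' l, g n l ≤ ENNReal.ofReal (4096 * C) := by
      intro n
      simp only [hg]
      rw [ENNReal.tsum_mul_left]
      calc ENNReal.ofReal (1024 / η n ^ 2) *
            ∑' l : ℕ, PM D ν (XB x y τ r (η n) (1 / 2 ^ l / 2) (4 * (1 / 2 ^ l)))
          ≤ ENNReal.ofReal (1024 / η n ^ 2) * (4 * ENNReal.ofReal (C * η n ^ 2)) := by
            gcongr
            exact sum_scales S M hC (hη0 n) (hη1 n)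
        _ = ENNReal.ofReal (4096 * C) := by
            have h0 := hη0 n
            rw [show (4 : ℝ≥0∞) = ENNReal.ofReal 4 by norm_num,
              ← ENNReal.ofReal_mul (by positivity), ← ENNReal.ofReal_mul (by positivity)]
            congr 1
            field_simp
            ring
    have h2 : ∑' l, liminf (fun n => g n l) atTop ≤ ENNReal.ofReal (4096 * C) := by
      rw [← lintegral_count]
      refine (lintegral_liminf_le fun n => measurable_from_top).trans ?_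
      refine liminf_le_of_frequently_le' (Frequently.of_forall fun n => ?_)
      rw [lintegral_count]
      exact h1 n
    exact ne_top_of_le_ne_top ENNReal.ofReal_ne_top h2
  · intro l hl δ hδ hδl
    have hY : (0 : ℝ) < 1 / 2 ^ l := by positivity
    have hYr : (1 : ℝ) / 2 ^ l ≤ r / (8 * c * K ^ 2) := by
      have h1 : ((1 : ℝ) / 2) ^ l ≤ (1 / 2) ^ l₀ := pow_le_pow_of_le_one (by norm_num) (by norm_num) hl
      rw [one_div_pow, one_div_pow] at h1
      rw [one_div_pow] at hl₀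
      linarith
    have hδY : δ ≤ 1 / 2 ^ l / (128 * (k₁ + 1) * c * K) := by
      refine hδl.trans (le_of_eq ?_)
      rw [hc₀]
      field_simp
    have e2 : (2 : ℝ) / 2 ^ l = 2 * (1 / 2 ^ l) := by ring
    have h1 : PM D ν (XB x y τ r δ (1 / 2 ^ l) (2 * (1 / 2 ^ l))) ≤
        liminf (fun n => g n l) atTop * ENNReal.ofReal (δ ^ 2) := by
      have hδ2 : ENNReal.ofReal (δ ^ 2) ≠ 0 := (ENNReal.ofReal_pos.2 (by positivity)).ne'
      rw [← ENNReal.div_le_iff hδ2 ENNReal.ofReal_ne_top]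
      refine le_liminf_of_le (by isBoundedDefault) ?_
      filter_upwards [hηt.eventually_le_const hδ] with n hn
      rw [ENNReal.div_le_iff hδ2 ENNReal.ofReal_ne_top, mul_comm (g n l)]
      exact compare S M hY hδ (hη0 n) hn hδY hYr
    rw [e2]
    exact h1

end

end NC

end QE
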