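import Pool.Agent.NCV.Stmts2
import Pool.Agent.NCV.Tools
import Pool.Agent.NCV.SumB

/-!
# The mass of the pairs which are much closer than `δ` (helper64)
-/

open MeasureTheory Filter Topology Set
open UpperHalfPlane hiding I
open scoped ContDiff MatrixGroups ENNReal

namespace QE

namespace NC

noncomputable section

namespace Tiny64

variable {Γ : Subgroup SL(2, ℝ)} {Φ : ℝ → SL(2, ℝ) → SL(2, ℝ)}
  {x y τ : SL(2, ℝ) → SL(2, ℝ) → ℝ} {κ : SL(2, ℝ) → ℝ} {c r L k₀ k₁ : ℝ}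

/-- the pair `(v, w)` is moved into the box of size `2 q δ` -/
theorem cover (S : PairSys Γ Φ x y τ κ c r L k₀ k₁) {q δ : ℝ} (hq : 0 < q) (hq1 : q ≤ 1)
    (hδ : 0 < δ) (hδ1 : 3 * δ ≤ 1) (h1 : 18 * c ^ 3 * δ ≤ q) (h2 : 6 * c ^ 2 * δ ≤ r)
    {v w : SL(2, ℝ)} (hT : Ty x y τ r q δ v w) :
    ∃ k : ℤ, |(k : ℝ)| ≤ 2 / q + 1 / 2 ∧ Φ (-(k * (q * δ))) w ∈ Bx x τ r (2 * (q * δ)) v := by
  obtain ⟨hd, hxy, hτ⟩ := hT
  have hc := PairSys.c0 S
  have hc1 := S.one_le
  have hqδ : 0 < q * δ := mul_pos hq hδ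
  have hqδ1 : q * δ ≤ δ := by nlinarith
  refine ⟨round (τ v w / (q * δ)), ?_, ?_⟩
  · have a1 := abs_sub_round (τ v w / (q * δ))
    have a2 : |τ v w / (q * δ)| ≤ 2 / q := by
      rw [abs_div, abs_of_pos hqδ, div_le_div_iff₀ hqδ hq]
      nlinarith
    have a3 := abs_sub_abs_le_abs_sub ((round (τ v w / (q * δ)) : ℤ) : ℝ) (τ v w / (q * δ))
    rw [abs_sub_comm] at a3
    linarith
  · set k : ℝ := ((round (τ v w / (q * δ)) : ℤ) : ℝ) with hk
    set s : ℝ := k * (q * δ) with hs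
    have a1 : |τ v w - s| ≤ q * δ / 2 := by
      have b1 := abs_sub_round (τ v w / (q * δ))
      rw [← hk] at b1
      have b2 : τ v w - s = (τ v w / (q * δ) - k) * (q * δ) := by
        rw [hs, sub_mul, div_mul_cancel₀ _ hqδ.ne']
      rw [b2, abs_mul, abs_of_pos hqδ]
      nlinarith
    have a2 : |s| ≤ 3 * δ := by
      have b1 := abs_sub_abs_le_abs_sub s (τ v w)
      rw [abs_sub_comm] at b1
      linarith
    have hdv : dd v w ≤ 3 * c * δ := by
      calc dd v w ≤ c * (|x v w| + |y v w| + |τ v w|) := S.dle v w hd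
        _ ≤ c * (q * δ + 2 * δ) := by gcongr
        _ ≤ c * (δ + 2 * δ) := by gcongr
        _ = 3 * c * δ := by ring
    have hdu : ∀ u, |u| ≤ 3 * δ → dd v (Φ u w) ≤ 6 * c ^ 2 * δ := by
      intro u hu
      have b1 := S.dmove w u (hu.trans hδ1)
      have b2 : c * |u| ≤ c * (3 * δ) := by gcongr
      have b3 : c * (3 * δ) ≤ r := by
        refine le_trans ?_ h2
        have : c ≤ c ^ 2 := by nlinarith
        nlinarith
      have b4 := S.dtri v w (Φ u w) hd (b1.trans (b2.trans b3))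
      calc dd v (Φ u w) ≤ c * (dd v w + dd w (Φ u w)) := b4
        _ ≤ c * (3 * c * δ + c * (3 * δ)) := by gcongr; exact b1.trans b2
        _ = 6 * c ^ 2 * δ := by ring
    have hsm : |-s| ≤ 3 * δ := by rwa [abs_neg]
    have h0 : |(0 : ℝ)| ≤ 3 * δ := by rw [abs_zero]; positivity
    have hcd : ∀ u, |u| ≤ 3 * δ → c * dd v (Φ u w) ≤ 6 * c ^ 3 * δ := by
      intro u hu
      calc c * dd v (Φ u w) ≤ c * (6 * c ^ 2 * δ) := by gcongr; exact hdu u hu
        _ = 6 * c ^ 3 * δ := by ring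
    have herr : 6 * c ^ 3 * δ * |-s - 0| ≤ q * δ := by
      rw [sub_zero]
      calc 6 * c ^ 3 * δ * |-s| ≤ 6 * c ^ 3 * δ * (3 * δ) := by gcongr
        _ = (18 * c ^ 3 * δ) * δ := by ring
        _ ≤ q * δ := by gcongr
    have hτs : |τ v (Φ (-s) w) - τ v w - (-s)| ≤ q * δ := by
      have b1 := mvt (f := fun u => τ v (Φ u w)) (a := 1) (C := 6 * c ^ 3 * δ) (R := 3 * δ)
        (fun u hu => by
          obtain ⟨t', ht', hb⟩ := S.tm v (Φ u w) ((hdu u hu).trans h2)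
          exact ⟨t', PairSys.shift_m S (f := τ) ht', hb.trans (hcd u hu)⟩) hsm h0
      simp only [S.zero] at b1
      have b2 : τ v (Φ (-s) w) - τ v w - (-s - 0) * 1 = τ v (Φ (-s) w) - τ v w - (-s) := by ring
      rw [b2] at b1
      exact b1.trans herr
    have hxs : |x v (Φ (-s) w) - x v w| ≤ q * δ := by
      have b1 := mvt (f := fun u => x v (Φ u w)) (a := 0) (C := 6 * c ^ 3 * δ) (R := 3 * δ)
        (fun u hu => by
          obtain ⟨t', ht', hb⟩ := S.xm v (Φ u w) ((hdu u hu).trans h2)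
          refine ⟨t', PairSys.shift_m S (f := x) ht', ?_⟩
          rw [sub_zero]
          exact hb.trans (hcd u hu)) hsm h0
      simp only [S.zero, mul_zero] at b1
      rw [sub_zero (x v (Φ (-s) w) - x v w)] at b1
      exact b1.trans herr
    refine ⟨(hdu _ hsm).trans h2, ?_, ?_⟩
    · have b1 := abs_add_le (x v (Φ (-s) w) - x v w) (x v w)
      rw [sub_add_cancel] at b1
      have b2 := abs_nonneg (y v w)
      linarith
    · have b1 := abs_add_le (τ v (Φ (-s) w) - τ v w - (-s)) (τ v w - s)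
      have e : τ v (Φ (-s) w) - τ v w - (-s) + (τ v w - s) = τ v (Φ (-s) w) := by ring
      rw [e] at b1
      linarith

variable [MeasurableSpace SL(2, ℝ)] {D : Set ℍ} {ν : Measure SL(2, ℝ)}

/-- subadditivity -/
theorem PM_le_sum [SFinite ν] {α : Type*} (A : Finset α) {P : SL(2, ℝ) → SL(2, ℝ) → Prop}
    {Q : α → SL(2, ℝ) → SL(2, ℝ) → Prop}
    (hQ : ∀ i ∈ A, MeasurableSet {p : SL(2, ℝ) × SL(2, ℝ) | Q i p.1 p.2})
    (h : ∀ v w, P v w → ∃ i ∈ A, Q i v w) : PM D ν P ≤ ∑ i ∈ A, PM D ν (Q i) := by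
  unfold PM
  rw [← lintegral_finsetSum A fun i hi => meas_mass (hQ i hi)]
  refine lintegral_mono fun v => ?_
  refine le_trans (measure_mono (t := ⋃ i ∈ A, {w | Q i v w}) ?_) (measure_biUnion_finset_le A _)
  intro w hw
  obtain ⟨i, hi, hq⟩ := h v w hw
  simp only [mem_iUnion]
  exact ⟨i, hi, hq⟩

end Tiny64

open Tiny64

theorem stmtTiny : StmtTiny := by
  intro _ _ Γ _ D Φ x y τ κ c r L k₀ k₁ ν S M
  obtain ⟨C, hC, hbox⟩ := M.box
  have hsf := M.sf
  have hc := PairSys.c0 S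
  have hr := S.rpos
  refine ⟨36 * C, by positivity, fun q hq hq1 => ?_⟩
  refine ⟨min (1 / 3) (min (q / (18 * c ^ 3)) (r / (6 * c ^ 2))), by positivity,
    fun δ hδ hδ0 => ?_⟩
  have d1 : 3 * δ ≤ 1 := by
    have := hδ0.le.trans (min_le_left _ _)
    linarith
  have d2 : 18 * c ^ 3 * δ ≤ q := by
    have := hδ0.le.trans ((min_le_right _ _).trans (min_le_left _ _))
    rw [le_div_iff₀ (by positivity)] at this
    linarith
  have d3 : 6 * c ^ 2 * δ ≤ r := by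
    have := hδ0.le.trans ((min_le_right _ _).trans (min_le_right _ _))
    rw [le_div_iff₀ (by positivity)] at this
    linarith
  have hqδ : 0 < q * δ := mul_pos hq hδ
  have hb := hbox (2 * (q * δ)) (by positivity) (by nlinarith)
  set K : ℕ := ⌈2 / q + 1 / 2⌉₊ with hK
  have hK1 : (K : ℝ) ≤ 2 / q + 3 / 2 := by
    have := (Nat.ceil_lt_add_one (a := 2 / q + 1 / 2) (by positivity)).le
    rw [← hK] at this
    linarith
  have hPm := measSet_Bx_pair S.xc S.tc r (2 * (q * δ))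
  have hinv : ∀ γ ∈ Γ, ∀ v w, (γ * w ∈ Bx x τ r (2 * (q * δ)) (γ * v)) ↔
      (w ∈ Bx x τ r (2 * (q * δ)) v) := by
    intro γ hγ v w
    unfold Bx
    simp only [Set.mem_ofPred_eq]
    rw [dd_left, S.xi γ hγ, S.ti γ hγ]
  have hfl : ∀ k : ℤ, PM D ν (fun v w => Φ (-(k * (q * δ))) w ∈ Bx x τ r (2 * (q * δ)) v) ≤
      ENNReal.ofReal (C * (2 * (q * δ)) ^ 2) := by
    intro k
    have e := PM_flow_set S M (P := fun v w => w ∈ Bx x τ r (2 * (q * δ)) v) hPm hinv 0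
      (-(k * (q * δ)))
    simp only [S.zero] at e
    rw [e]
    exact hb
  have hms : ∀ k : ℤ, MeasurableSet {p : SL(2, ℝ) × SL(2, ℝ) |
      Φ (-(k * (q * δ))) p.2 ∈ Bx x τ r (2 * (q * δ)) p.1} := fun k =>
    (measurable_fst.prodMk ((S.cont_flow (-(k * (q * δ)))).measurable.comp measurable_snd)) hPm
  have hsum : PM D ν (Ty x y τ r q δ) ≤ ∑ k ∈ Finset.Icc (-(K : ℤ)) K,
      PM D ν (fun v w => Φ (-(k * (q * δ))) w ∈ Bx x τ r (2 * (q * δ)) v) := by
    refine PM_le_sum (Finset.Icc (-(K : ℤ)) K) (fun k _ => hms k) fun v w hvw => ?_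
    obtain ⟨k, hk, hkb⟩ := cover S hq hq1 hδ d1 d2 d3 hvw
    refine ⟨k, ?_, hkb⟩
    have h1 : |(k : ℝ)| ≤ (K : ℝ) := hk.trans (Nat.le_ceil _)
    rw [Finset.mem_Icc, ← abs_le]
    exact_mod_cast h1
  refine hsum.trans ((Finset.sum_le_sum fun k _ => hfl k).trans ?_)
  rw [Finset.sum_const, Int.card_Icc, nsmul_eq_mul, ← ENNReal.ofReal_natCast,
    ← ENNReal.ofReal_mul (Nat.cast_nonneg _)]
  apply ENNReal.ofReal_le_ofReal
  have hcard : (((K : ℤ) + 1 - -(K : ℤ)).toNat : ℝ) = 2 * K + 1 := by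
    have : (((K : ℤ) + 1 - -(K : ℤ)).toNat) = 2 * K + 1 := by omega
    rw [this]
    push_cast
    ring
  rw [hcard]
  have h9 : q * (2 * (K : ℝ) + 1) ≤ 9 := by
    have e : q * (2 / q) = 2 := by field_simp
    have h3 : q * K ≤ q * (2 / q + 3 / 2) := by gcongr
    nlinarith
  calc (2 * (K : ℝ) + 1) * (C * (2 * (q * δ)) ^ 2)
      = (q * (2 * (K : ℝ) + 1)) * (4 * C * q * δ ^ 2) := by ring
    _ ≤ 9 * (4 * C * q * δ ^ 2) := by
        apply mul_le_mul_of_nonneg_right h9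
        positivity
    _ = 36 * C * q * δ ^ 2 := by ring

end

end NC

end QE
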