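import Pool.Agent.NCV.Three
import Pool.Agent.NCV.Conv
import Pool.Agent.NCV.Atoms
import Pool.Agent.NCV.Setup
import Pool.Agent.NCV.Lim
import Pool.Agent.NCV.N
import Pool.Agent.NCV.Dfin
import Pool.Agent.NCV.Kstep
import Pool.Agent.NCV.Tiny
import Pool.Agent.NCV.Cover
import Pool.Agent.NCV.Cross
import Pool.Agent.NCV.Inf
import Pool.Agent.NCV.Inv
import Pool.Agent.NCV.Flow
import Pool.Agent.NCV.Lip
import Pool.Agent.NCV.Fl
import Pool.Agent.NCV.Alg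
import Pool.Agent.NCV.Der
import Pool.Agent.NCV.Mass
import Pool.Agent.NCV.Sum

/-!
# Closed surfaces of negative curvature: assembly
-/

open UpperHalfPlane MeasureTheory MatrixGroups Filter Topology Set Berry
open scoped ENNReal ContDiff

namespace QE

namespace NC

/-- no directional atoms -/
theorem atoms : StmtAtoms := by
  have hC : StmtCross := stmtCross stmtSum
  have hD : StmtDiag := stmtDiag stmtTiny (stmtKstep hC) stmtCover hC
  have hN : StmtN := stmtN stmtSum hD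
  exact stmtAtoms stmtLip stmtInf (stmtFlow stmtLip) (stmtFl stmtLip)
    (stmtInv stmtLip (stmtFl stmtLip)) (stmtAlg stmtLip) (stmtDer stmtLip) (stmtMass stmtLip) hN

/-- the fourth moments -/
theorem final : StmtFinal := stmtFinal stmtSetup stmtLim atoms

variable {Γ : Subgroup SL(2, ℝ)} {ρ : ℍ → ℝ} {D : Set ℍ} {φ : ℕ → ℍ → ℝ} {m : ℕ → ℝ}

/-- the three-point functions -/
theorem three [Countable Γ] (hρ : ContDiffOn ℝ ∞ (fun w : ℂ => ρ (ofComplex w)) {w | 0 < w.im})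
    (hρΓ : ∀ γ ∈ Γ, ∀ z, ρ (γ • z) = ρ z)
    (hneg : ∀ z : ℍ, 0 < 1 + z.im ^ 2 * Laplacian.laplacian (fun w : ℂ => ρ (ofComplex w)) z)
    (hDm : MeasurableSet D) (hD : IsFundamentalDomain Γ D (volume : Measure ℍ))
    (hK : ∃ K : Set ℍ, IsCompact K ∧ ∀ z, ∃ γ ∈ Γ, γ • z ∈ K) (hφ : REigenSeq Γ ρ φ m)
    (hs : ∀ n, ContDiffOn ℝ ∞ (fun w : ℂ => φ n (ofComplex w)) {w | 0 < w.im})
    (x y z : ℂ) {ε : ℝ} (hε : 0 < ε) :
    ∀ᶠ n in atTop, |∫ p, rWave ρ (φ n) (m n) x p * rWave ρ (φ n) (m n) y p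
        * rWave ρ (φ n) (m n) z p ∂(rFrameProb ρ D)|
      ≤ ε * rAvg ρ D (fun z => φ n z ^ 4) ^ ((3 : ℝ) / 4) :=
  three_allR stmtSetup stmtLim atoms hDm hD ⟨hρ, hρΓ, hK⟩ hneg hφ hs x y z hε

/-- equidistribution of the squares -/
theorem mass [Countable Γ] (hρ : ContDiffOn ℝ ∞ (fun w : ℂ => ρ (ofComplex w)) {w | 0 < w.im})
    (hρΓ : ∀ γ ∈ Γ, ∀ z, ρ (γ • z) = ρ z)
    (hneg : ∀ z : ℍ, 0 < 1 + z.im ^ 2 * Laplacian.laplacian (fun w : ℂ => ρ (ofComplex w)) z)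
    (hDm : MeasurableSet D) (hD : IsFundamentalDomain Γ D (volume : Measure ℍ))
    (hK : ∃ K : Set ℍ, IsCompact K ∧ ∀ z, ∃ γ ∈ Γ, γ • z ∈ K) (hφ : REigenSeq Γ ρ φ m)
    (hs : ∀ n, ContDiffOn ℝ ∞ (fun w : ℂ => φ n (ofComplex w)) {w | 0 < w.im})
    (hn : ∀ n, rAvg ρ D (fun z => φ n z ^ 2) = 1)
    (h4 : Tendsto (fun n => rAvg ρ D (fun z => φ n z ^ 4)) atTop (𝓝 3))
    {f : ℍ → ℝ} (hf : Continuous f) (hfi : ∀ γ ∈ Γ, ∀ z, f (γ • z) = f z) :
    Tendsto (fun n => rAvg ρ D (fun z => f z * φ n z ^ 2)) atTop (𝓝 (rAvg ρ D f)) := by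
  have hg : Geo Γ ρ D := geo_of hDm hD hK (continuous_of_smooth hρ) hρΓ
  refine mass_of_four hg hK (fun n => continuous_of_smooth (hs n)) hφ.invariant hn
    (fun g hgc hgi ε hε => ?_) h4 hf hfi
  have key := final Γ ρ hρ hρΓ hneg D hDm hD hK φ m hφ hs hn (fun _ => 1) g continuous_const
    (fun _ => one_pos) (fun _ _ _ => rfl) hgc hgi 1 (fun _ => 1) (fun _ => 0) ε hε
  filter_upwards [key] with n h
  simp only [Finset.univ_unique, Finset.sum_singleton, sub_zero, waveK_zero, one_mul, one_pow,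
    mul_one, rWave_origin] at h
  rw [rFrame_base hg (f := fun z => φ n z ^ 4)] at h
  exact h

end NC

end QE
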