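import Pool.Agent.NCV.Stmts

/-!
# Module NC_CROSS, deterministic part
-/

open MeasureTheory Filter Topology Set
open UpperHalfPlane hiding I
open scoped ContDiff MatrixGroups ENNReal

set_option linter.unusedSectionVars false

namespace QE

namespace NC

noncomputable section

namespace Cr

variable {Γ : Subgroup SL(2, ℝ)} {Φ : ℝ → SL(2, ℝ) → SL(2, ℝ)}
  {x y τ : SL(2, ℝ) → SL(2, ℝ) → ℝ} {κ : SL(2, ℝ) → ℝ} {c r L k₀ k₁ : ℝ}

lemma dd_nonneg (v w : SL(2, ℝ)) : 0 ≤ dd v w := by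
  unfold dd nn
  positivity

lemma shift_deriv {f : SL(2, ℝ) → SL(2, ℝ) → ℝ} (hadd : ∀ s t g, Φ (s + t) g = Φ s (Φ t g))
    {v w : SL(2, ℝ)} {t f' : ℝ} (h : HasDerivAt (fun s => f (Φ s (Φ t v)) (Φ s (Φ t w))) f' 0) :
    HasDerivAt (fun s => f (Φ s v) (Φ s w)) f' t := by
  have h1 : HasDerivAt (fun s => f (Φ (s + t) v) (Φ (s + t) w)) f' (t - t) := by
    simpa only [hadd, sub_self] using h
  have h2 := HasDerivAt.comp_sub_const t t h1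
  simpa using h2

lemma shift_deriv2 {f : SL(2, ℝ) → SL(2, ℝ) → ℝ} (hadd : ∀ s t g, Φ (s + t) g = Φ s (Φ t g))
    {v w : SL(2, ℝ)} {t f' : ℝ} (h : HasDerivAt (fun s => f v (Φ s (Φ t w))) f' 0) :
    HasDerivAt (fun s => f v (Φ s w)) f' t := by
  have h1 : HasDerivAt (fun s => f v (Φ (s + t) w)) f' (t - t) := by
    simpa only [hadd, sub_self] using h
  have h2 := HasDerivAt.comp_sub_const t t h1
  simpa using h2

/-- Lipschitz bound on an interval -/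
lemma lip_of {f : ℝ → ℝ} {T C : ℝ} (h : ∀ t, |t| ≤ T → ∃ f' : ℝ, HasDerivAt f f' t ∧ |f'| ≤ C)
    {t₁ t₂ : ℝ} (h1 : |t₁| ≤ T) (h2 : |t₂| ≤ T) : |f t₂ - f t₁| ≤ C * |t₂ - t₁| := by
  have hc : Convex ℝ (Icc (-T) T) := convex_Icc _ _
  have := hc.norm_image_sub_le_of_norm_deriv_le (f := f) (C := C)
    (fun t ht => by
      obtain ⟨f', hf, -⟩ := h t (abs_le.2 ⟨ht.1, ht.2⟩)
      exact hf.differentiableAt)
    (fun t ht => by
      obtain ⟨f', hf, hb⟩ := h t (abs_le.2 ⟨ht.1, ht.2⟩)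
      rw [hf.deriv, Real.norm_eq_abs]; exact hb)
    (show t₁ ∈ Icc (-T) T from ⟨(abs_le.1 h1).1, (abs_le.1 h1).2⟩)
    (show t₂ ∈ Icc (-T) T from ⟨(abs_le.1 h2).1, (abs_le.1 h2).2⟩)
  simpa [Real.norm_eq_abs] using this

section win

variable (S : PairSys Γ Φ x y τ κ c r L k₀ k₁) {v w : SL(2, ℝ)} {T M : ℝ}
  (hM0 : 0 ≤ M) (hM1 : M ≤ r) (hw : ∀ t, |t| ≤ T → dd (Φ t v) (Φ t w) ≤ M)

include S hM0 hM1 hw

lemma x_der (t : ℝ) (ht : |t| ≤ T) : ∃ x' : ℝ, HasDerivAt (fun s => x (Φ s v) (Φ s w)) x' t ∧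
    |x' - y (Φ t v) (Φ t w)| ≤ c * M ^ 2 := by
  obtain ⟨x', h1, h2⟩ := S.xd (Φ t v) (Φ t w) ((hw t ht).trans hM1)
  refine ⟨x', shift_deriv S.add h1, h2.trans ?_⟩
  have hc : 0 ≤ c := by linarith [S.one_le]
  exact mul_le_mul_of_nonneg_left (pow_le_pow_left₀ (dd_nonneg _ _) (hw t ht) 2) hc

lemma y_der (t : ℝ) (ht : |t| ≤ T) : ∃ y' : ℝ, HasDerivAt (fun s => y (Φ s v) (Φ s w)) y' t ∧
    |y' - κ (Φ t v) * x (Φ t v) (Φ t w)| ≤ c * M ^ 2 := by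
  obtain ⟨x', h1, h2⟩ := S.yd (Φ t v) (Φ t w) ((hw t ht).trans hM1)
  refine ⟨x', shift_deriv S.add h1, h2.trans ?_⟩
  have hc : 0 ≤ c := by linarith [S.one_le]
  exact mul_le_mul_of_nonneg_left (pow_le_pow_left₀ (dd_nonneg _ _) (hw t ht) 2) hc

lemma t_der (t : ℝ) (ht : |t| ≤ T) : ∃ y' : ℝ, HasDerivAt (fun s => τ (Φ s v) (Φ s w)) y' t ∧
    |y'| ≤ c * M ^ 2 := by
  obtain ⟨x', h1, h2⟩ := S.td (Φ t v) (Φ t w) ((hw t ht).trans hM1)
  refine ⟨x', shift_deriv S.add h1, h2.trans ?_⟩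
  have hc : 0 ≤ c := by linarith [S.one_le]
  exact mul_le_mul_of_nonneg_left (pow_le_pow_left₀ (dd_nonneg _ _) (hw t ht) 2) hc

lemma x_bd (t : ℝ) (ht : |t| ≤ T) : |x (Φ t v) (Φ t w)| ≤ c * M :=
  (S.xle _ _ ((hw t ht).trans hM1)).trans
    (mul_le_mul_of_nonneg_left (hw t ht) (by linarith [S.one_le]))

lemma y_bd (t : ℝ) (ht : |t| ≤ T) : |y (Φ t v) (Φ t w)| ≤ c * M :=
  (S.yle _ _ ((hw t ht).trans hM1)).trans
    (mul_le_mul_of_nonneg_left (hw t ht) (by linarith [S.one_le]))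

lemma x_lip {t₁ t₂ : ℝ} (h1 : |t₁| ≤ T) (h2 : |t₂| ≤ T) :
    |x (Φ t₂ v) (Φ t₂ w) - x (Φ t₁ v) (Φ t₁ w)| ≤ (2 * c * M) * |t₂ - t₁| := by
  refine lip_of (f := fun s => x (Φ s v) (Φ s w)) (fun t ht => ?_) h1 h2
  obtain ⟨x', h3, h4⟩ := x_der S hM0 hM1 hw t ht
  refine ⟨x', h3, ?_⟩
  have h5 := y_bd S hM0 hM1 hw t ht
  have hc := S.one_le
  have hr := S.rle
  have h6 : c * M ^ 2 ≤ c * M := by
    refine mul_le_mul_of_nonneg_left ?_ (by linarith)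
    nlinarith
  have h7 : |x'| ≤ |x' - y (Φ t v) (Φ t w)| + |y (Φ t v) (Φ t w)| := by
    have := abs_add_le (x' - y (Φ t v) (Φ t w)) (y (Φ t v) (Φ t w))
    rwa [sub_add_cancel] at this
  linarith

lemma y_lip {t₁ t₂ : ℝ} (h1 : |t₁| ≤ T) (h2 : |t₂| ≤ T) :
    |y (Φ t₂ v) (Φ t₂ w) - y (Φ t₁ v) (Φ t₁ w)| ≤ ((k₁ + 1) * (c * M)) * |t₂ - t₁| := by
  refine lip_of (f := fun s => y (Φ s v) (Φ s w)) (fun t ht => ?_) h1 h2
  obtain ⟨x', h3, h4⟩ := y_der S hM0 hM1 hw t ht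
  refine ⟨x', h3, ?_⟩
  have h5 := x_bd S hM0 hM1 hw t ht
  have hc := S.one_le
  have hr := S.rle
  have h6 : c * M ^ 2 ≤ c * M := by
    refine mul_le_mul_of_nonneg_left ?_ (by linarith)
    nlinarith
  have hk1 := S.khi (Φ t v)
  have hk0 : 0 ≤ κ (Φ t v) := S.kpos.le.trans (S.klo _)
  have h7 : |x'| ≤ |x' - κ (Φ t v) * x (Φ t v) (Φ t w)| + |κ (Φ t v) * x (Φ t v) (Φ t w)| := by
    have := abs_add_le (x' - κ (Φ t v) * x (Φ t v) (Φ t w)) (κ (Φ t v) * x (Φ t v) (Φ t w))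
    rwa [sub_add_cancel] at this
  have h8 : |κ (Φ t v) * x (Φ t v) (Φ t w)| ≤ k₁ * (c * M) := by
    rw [abs_mul, abs_of_nonneg hk0]
    exact mul_le_mul hk1 h5 (abs_nonneg _) (hk0.trans hk1)
  linarith

lemma t_lip {t₁ t₂ : ℝ} (h1 : |t₁| ≤ T) (h2 : |t₂| ≤ T) :
    |τ (Φ t₂ v) (Φ t₂ w) - τ (Φ t₁ v) (Φ t₁ w)| ≤ (c * M ^ 2) * |t₂ - t₁| :=
  lip_of (f := fun s => τ (Φ s v) (Φ s w)) (t_der S hM0 hM1 hw) h1 h2

/-- lower bound of y at a crossing -/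
lemma cross_time (hT : 0 ≤ T) {t₀ : ℝ} (h0 : |t₀| ≤ T) (hcr : x (Φ t₀ v) (Φ t₀ w) = 0) :
    |x v w| + |y v w| ≤
      2 * (Real.exp (T * (1 + k₁)) * (|y (Φ t₀ v) (Φ t₀ w)| + c * M ^ 2)) := by
  have hc := S.one_le
  have hk1 : 0 < k₁ := S.kpos.trans_le ((S.klo v).trans (S.khi v))
  have hK : 0 < 1 + k₁ := by linarith
  -- the path
  set f : ℝ → ℝ × ℝ := fun s => (x (Φ (t₀ * (1 - s)) v) (Φ (t₀ * (1 - s)) w),
    y (Φ (t₀ * (1 - s)) v) (Φ (t₀ * (1 - s)) w)) with hf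
  have hin : ∀ s ∈ Icc (0 : ℝ) 1, |t₀ * (1 - s)| ≤ T := by
    intro s hs
    rw [abs_mul]
    have : |1 - s| ≤ 1 := abs_le.2 ⟨by linarith [hs.2], by linarith [hs.1]⟩
    nlinarith [abs_nonneg t₀, abs_nonneg (1 - s)]
  have hder : ∀ s ∈ Icc (0 : ℝ) 1, ∃ f' : ℝ × ℝ, HasDerivAt f f' s ∧
      ‖f'‖ ≤ (T * (1 + k₁)) * ‖f s‖ + T * (c * M ^ 2) := by
    intro s hs
    obtain ⟨x', hx1, hx2⟩ := x_der S hM0 hM1 hw _ (hin s hs)
    obtain ⟨y', hy1, hy2⟩ := y_der S hM0 hM1 hw _ (hin s hs)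
    have hlin : HasDerivAt (fun s : ℝ => t₀ * (1 - s)) (-t₀) s := by
      have := ((hasDerivAt_id s).const_sub 1).const_mul t₀
      simpa using this
    have e1 := hx1.comp s hlin
    have e2 := hy1.comp s hlin
    refine ⟨(x' * -t₀, y' * -t₀), e1.prodMk e2, ?_⟩
    have hX : |x (Φ (t₀ * (1 - s)) v) (Φ (t₀ * (1 - s)) w)| ≤ ‖f s‖ := by
      rw [hf, Prod.norm_mk]; exact le_max_left _ _
    have hY : |y (Φ (t₀ * (1 - s)) v) (Φ (t₀ * (1 - s)) w)| ≤ ‖f s‖ := by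
      rw [hf, Prod.norm_mk]; exact le_max_right _ _
    have hN : 0 ≤ ‖f s‖ := norm_nonneg _
    have hM2 : 0 ≤ c * M ^ 2 := by positivity
    have hkk0 : 0 ≤ κ (Φ (t₀ * (1 - s)) v) := S.kpos.le.trans (S.klo _)
    have hkk1 := S.khi (Φ (t₀ * (1 - s)) v)
    have bx : |x'| ≤ (1 + k₁) * ‖f s‖ + c * M ^ 2 := by
      have := abs_add_le (x' - y (Φ (t₀ * (1 - s)) v) (Φ (t₀ * (1 - s)) w))
        (y (Φ (t₀ * (1 - s)) v) (Φ (t₀ * (1 - s)) w))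
      rw [sub_add_cancel] at this
      nlinarith
    have by' : |y'| ≤ (1 + k₁) * ‖f s‖ + c * M ^ 2 := by
      have h7 := abs_add_le (y' - κ (Φ (t₀ * (1 - s)) v) *
        x (Φ (t₀ * (1 - s)) v) (Φ (t₀ * (1 - s)) w))
        (κ (Φ (t₀ * (1 - s)) v) * x (Φ (t₀ * (1 - s)) v) (Φ (t₀ * (1 - s)) w))
      rw [sub_add_cancel] at h7
      have h8 : |κ (Φ (t₀ * (1 - s)) v) * x (Φ (t₀ * (1 - s)) v) (Φ (t₀ * (1 - s)) w)| ≤
          k₁ * ‖f s‖ := by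
        rw [abs_mul, abs_of_nonneg hkk0]
        exact mul_le_mul hkk1 hX (abs_nonneg _) hk1.le
      nlinarith
    rw [Prod.norm_mk]
    refine max_le ?_ ?_
    · rw [norm_mul, Real.norm_eq_abs, norm_neg, Real.norm_eq_abs]
      calc |x'| * |t₀| ≤ ((1 + k₁) * ‖f s‖ + c * M ^ 2) * T :=
            mul_le_mul bx h0 (abs_nonneg _) (by positivity)
        _ = _ := by ring
    · rw [norm_mul, Real.norm_eq_abs, norm_neg, Real.norm_eq_abs]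
      calc |y'| * |t₀| ≤ ((1 + k₁) * ‖f s‖ + c * M ^ 2) * T :=
            mul_le_mul by' h0 (abs_nonneg _) (by positivity)
        _ = _ := by ring
  have hcont : ContinuousOn f (Icc 0 1) := fun s hs => by
    obtain ⟨f', h1, -⟩ := hder s hs
    exact h1.continuousAt.continuousWithinAt
  have hg := norm_le_gronwallBound_of_norm_deriv_right_le (f := f) (f' := fun s => deriv f s)
    (δ := |y (Φ t₀ v) (Φ t₀ w)|) (K := T * (1 + k₁)) (ε := T * (c * M ^ 2)) (a := 0) (b := 1)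
    hcont (fun s hs => by
      obtain ⟨f', h1, -⟩ := hder s ⟨hs.1, hs.2.le⟩
      rw [h1.deriv]
      exact h1.hasDerivWithinAt) (by
      rw [hf]
      simp only [sub_zero, mul_one]
      rw [Prod.norm_mk, hcr]
      simp) (fun s hs => by
      obtain ⟨f', h1, h2⟩ := hder s ⟨hs.1, hs.2.le⟩
      rw [h1.deriv]
      exact h2) 1 ⟨zero_le_one, le_rfl⟩
  have hf1 : f 1 = (x v w, y v w) := by
    rw [hf]
    simp [S.zero]
  rw [hf1, sub_zero] at hg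
  have hx1 : |x v w| ≤ ‖(x v w, y v w)‖ := by rw [Prod.norm_mk]; exact le_max_left _ _
  have hy1 : |y v w| ≤ ‖(x v w, y v w)‖ := by rw [Prod.norm_mk]; exact le_max_right _ _
  have hgb : gronwallBound (|y (Φ t₀ v) (Φ t₀ w)|) (T * (1 + k₁)) (T * (c * M ^ 2)) 1 ≤
      Real.exp (T * (1 + k₁)) * (|y (Φ t₀ v) (Φ t₀ w)| + c * M ^ 2) := by
    rcases hT.eq_or_lt with h1 | h1
    · rw [← h1]
      simp only [zero_mul, gronwallBound_K0, Real.exp_zero]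
      nlinarith [sq_nonneg M]
    · rw [gronwallBound_of_K_ne_0 (by positivity)]
      beta_reduce
      rw [mul_one]
      have h2 : T * (c * M ^ 2) / (T * (1 + k₁)) ≤ c * M ^ 2 := by
        rw [mul_div_mul_left _ _ h1.ne', div_le_iff₀ hK]
        have : 0 ≤ c * M ^ 2 := by positivity
        nlinarith
      have h3 : 0 ≤ Real.exp (T * (1 + k₁)) - 1 := by
        have := Real.one_le_exp (x := T * (1 + k₁)) (by positivity)
        linarith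
      have h4 := mul_le_mul_of_nonneg_right h2 h3
      have h5 : 0 ≤ c * M ^ 2 := by positivity
      nlinarith [Real.exp_pos (T * (1 + k₁))]
  linarith

end win

section move

variable (S : PairSys Γ Φ x y τ κ c r L k₀ k₁) {v w : SL(2, ℝ)} {M ρ₀ : ℝ}
  (hM1 : M ≤ r) (hw : dd v w ≤ M) (hρ0 : 0 ≤ ρ₀) (hρ1 : ρ₀ ≤ 1) (hρr : c * ρ₀ ≤ r)
  (hM' : c * (M + c * ρ₀) ≤ r)

include S hM1 hw hρ0 hρ1 hρr hM'

lemma move_dd {ρ : ℝ} (h : |ρ| ≤ ρ₀) : dd v (Φ ρ w) ≤ c * (M + c * ρ₀) := by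
  have hc := S.one_le
  have h1 := S.dmove w ρ (h.trans hρ1)
  have h2 : c * |ρ| ≤ c * ρ₀ := mul_le_mul_of_nonneg_left h (by linarith)
  have h3 := S.dtri v w (Φ ρ w) (hw.trans hM1) ((h1.trans h2).trans hρr)
  refine h3.trans (mul_le_mul_of_nonneg_left ?_ (by linarith))
  linarith

lemma move_x {ρ : ℝ} (h : |ρ| ≤ ρ₀) :
    |x v (Φ ρ w) - x v w| ≤ (c * (c * (M + c * ρ₀))) * ρ₀ := by
  have hc := S.one_le
  have key := lip_of (f := fun s => x v (Φ s w)) (T := ρ₀) (C := c * (c * (M + c * ρ₀)))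
    (fun t ht => by
      have h1 := move_dd S hM1 hw hρ0 hρ1 hρr hM' ht
      obtain ⟨x', h2, h3⟩ := S.xm v (Φ t w) (h1.trans hM')
      exact ⟨x', shift_deriv2 S.add h2, h3.trans (mul_le_mul_of_nonneg_left h1 (by linarith))⟩)
    (t₁ := 0) (t₂ := ρ) (by simpa using hρ0) h
  simp only [S.zero, sub_zero] at key
  have h0 : 0 ≤ c * (c * (M + c * ρ₀)) := by
    have := (dd_nonneg v w).trans hw
    positivity
  exact key.trans (mul_le_mul_of_nonneg_left h h0)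

lemma move_y {ρ : ℝ} (h : |ρ| ≤ ρ₀) :
    |y v (Φ ρ w) - y v w| ≤ (c * (c * (M + c * ρ₀))) * ρ₀ := by
  have hc := S.one_le
  have key := lip_of (f := fun s => y v (Φ s w)) (T := ρ₀) (C := c * (c * (M + c * ρ₀)))
    (fun t ht => by
      have h1 := move_dd S hM1 hw hρ0 hρ1 hρr hM' ht
      obtain ⟨x', h2, h3⟩ := S.ym v (Φ t w) (h1.trans hM')
      exact ⟨x', shift_deriv2 S.add h2, h3.trans (mul_le_mul_of_nonneg_left h1 (by linarith))⟩)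
    (t₁ := 0) (t₂ := ρ) (by simpa using hρ0) h
  simp only [S.zero, sub_zero] at key
  have h0 : 0 ≤ c * (c * (M + c * ρ₀)) := by
    have := (dd_nonneg v w).trans hw
    positivity
  exact key.trans (mul_le_mul_of_nonneg_left h h0)

lemma move_t {ρ : ℝ} (h : |ρ| ≤ ρ₀) :
    |τ v (Φ ρ w) - (τ v w + ρ)| ≤ (c * (c * (M + c * ρ₀))) * ρ₀ := by
  have hc := S.one_le
  have key := lip_of (f := fun s => τ v (Φ s w) - s) (T := ρ₀) (C := c * (c * (M + c * ρ₀)))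
    (fun t ht => by
      have h1 := move_dd S hM1 hw hρ0 hρ1 hρr hM' ht
      obtain ⟨x', h2, h3⟩ := S.tm v (Φ t w) (h1.trans hM')
      exact ⟨x' - 1, (shift_deriv2 S.add h2).sub (hasDerivAt_id t),
        h3.trans (mul_le_mul_of_nonneg_left h1 (by linarith))⟩)
    (t₁ := 0) (t₂ := ρ) (by simpa using hρ0) h
  simp only [S.zero, sub_zero] at key
  have h0 : 0 ≤ c * (c * (M + c * ρ₀)) := by
    have := (dd_nonneg v w).trans hw
    positivity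
  have e : τ v (Φ ρ w) - (τ v w + ρ) = τ v (Φ ρ w) - ρ - τ v w := by ring
  rw [e]
  exact key.trans (mul_le_mul_of_nonneg_left h h0)

end move

/-- dyadic blocks -/
lemma dyadic {a : ℝ} (h0 : 0 < a) (h1 : a ≤ 1) : ∃ l : ℕ, 1 / 2 ^ l ≤ a ∧ a ≤ 2 / 2 ^ l := by
  obtain ⟨n, hn1, hn2⟩ := exists_nat_pow_near_of_lt_one (y := (1 / 2 : ℝ)) h0 h1 (by norm_num)
    (by norm_num)
  refine ⟨n + 1, ?_, ?_⟩
  · rw [one_div_pow] at hn1
    exact hn1.le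
  · rw [one_div_pow] at hn2
    refine hn2.trans (le_of_eq ?_)
    rw [pow_succ]
    field_simp

end Cr

end

end NC

end QE
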