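import Pool.Agent.NCV.CrossA

/-!
# Module NC_CROSS: the covering
-/

open MeasureTheory Filter Topology Set
open UpperHalfPlane hiding I
open scoped ContDiff MatrixGroups ENNReal

namespace QE

namespace NC

noncomputable section

namespace Cr

variable {Γ : Subgroup SL(2, ℝ)} {Φ : ℝ → SL(2, ℝ) → SL(2, ℝ)}
  {x y τ : SL(2, ℝ) → SL(2, ℝ) → ℝ} {κ : SL(2, ℝ) → ℝ} {c r L k₀ k₁ : ℝ}

/-- the sets used in the covering -/
def QQ (x y τ : SL(2, ℝ) → SL(2, ℝ) → ℝ) (r a c₀ : ℝ) (l : ℕ) (v w : SL(2, ℝ)) : Prop :=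
  a ≤ c₀ / 2 ^ l ∧ dd v w ≤ r ∧ |x v w| ≤ a ∧ |τ v w| ≤ a ∧ 1 / 2 ^ l ≤ |y v w| ∧
    |y v w| ≤ 2 / 2 ^ l

lemma small (K m : ℝ) (hm : 0 < m) : ∀ᶠ δ in 𝓝 (0 : ℝ), K * δ ≤ m := by
  have h : Tendsto (fun δ : ℝ => K * δ) (𝓝 0) (𝓝 (K * 0)) := tendsto_id.const_mul K
  rw [mul_zero] at h
  exact (h.eventually (gt_mem_nhds hm)).mono fun δ hδ => hδ.le

lemma floor_grid {a s B : ℝ} (hs : 0 < s) (ha : |a| ≤ B) (N : ℕ) (hN : B / s + 1 ≤ N) :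
    ∃ k ∈ Finset.Icc (-(N : ℤ)) N, 0 ≤ a - k * s ∧ a - k * s ≤ s := by
  have h1 := Int.floor_le (a / s)
  have h2 := Int.lt_floor_add_one (a / s)
  have h3 : |a / s| ≤ B / s := by
    rw [abs_div, abs_of_pos hs]
    gcongr
  obtain ⟨h4, h5⟩ := abs_le.1 h3
  refine ⟨⌊a / s⌋, ?_, ?_, ?_⟩
  · rw [Finset.mem_Icc]
    constructor
    · have : (-(N : ℝ)) ≤ (⌊a / s⌋ : ℝ) := by linarith
      exact_mod_cast this
    · have : (⌊a / s⌋ : ℝ) ≤ (N : ℝ) := by linarith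
      exact_mod_cast this
  · rw [le_div_iff₀ hs] at h1
    linarith
  · have : a < ((⌊a / s⌋ : ℝ) + 1) * s := by
      rw [← div_lt_iff₀ hs]; exact h2
    linarith

lemma cover (S : PairSys Γ Φ x y τ κ c r L k₀ k₁) {c₀ : ℝ} (hc₀ : 0 < c₀) {T A : ℝ} (hT : 0 < T)
    (hA : 1 ≤ A) : ∃ (s h b₂ δ₁ : ℝ) (N J : ℕ), 0 < s ∧ 0 < h ∧ 0 < b₂ ∧ 0 < δ₁ ∧
      ∀ δ : ℝ, 0 < δ → δ < δ₁ → ∀ v w : SL(2, ℝ), dd v w ≤ r → |τ v w| ≤ A * δ →
        δ / A ≤ |x v w| + |y v w| → |x v w| + |y v w| ≤ A * δ →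
        (∃ t : ℝ, |t| ≤ T ∧ x (Φ t v) (Φ t w) = 0) →
        ∃ k ∈ Finset.Icc (-(N : ℤ)) N, ∃ j ∈ Finset.Icc (-(J : ℤ)) J, ∃ l : ℕ,
          1 / 2 ^ l ≤ b₂ * δ ∧ QQ x y τ r (2 * h * δ) c₀ l (Φ (k * s) v)
            (Φ (j * (h * δ)) (Φ (k * s) w)) := by
  have hc := S.one_le
  have hr0 := S.rpos
  have hr1 := S.rle
  have hk1 : 0 < k₁ := S.kpos.trans_le ((S.klo 1).trans (S.khi 1))
  have hL := S.Lnn
  have hA0 : 0 < A := by linarith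
  have hc0 : 0 < c := by linarith
  obtain ⟨E, hE⟩ : ∃ E : ℝ, E = Real.exp ((T + 1) * (1 + k₁)) := ⟨_, rfl⟩
  have hE0 : 0 < E := by rw [hE]; exact Real.exp_pos _
  obtain ⟨C2, hC2⟩ : ∃ C : ℝ, C = c * Real.exp (L * (T + 1)) * (2 * c * A) := ⟨_, rfl⟩
  have hC20 : 0 < C2 := by rw [hC2]; have := Real.exp_pos (L * (T + 1)); positivity
  obtain ⟨b₁, hb₁⟩ : ∃ b : ℝ, b = 1 / (8 * A * E) := ⟨_, rfl⟩
  have hb₁0 : 0 < b₁ := by rw [hb₁]; positivity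
  obtain ⟨h, hh1, hh2, hh0⟩ : ∃ h : ℝ, h ≤ 1 / 2 ∧ h ≤ c₀ * b₁ / 4 ∧ 0 < h :=
    ⟨min (1 / 2) (c₀ * b₁ / 4), min_le_left _ _, min_le_right _ _,
      lt_min (by norm_num) (by positivity)⟩
  obtain ⟨s, hs1, hs2, hs3, hs0⟩ : ∃ s : ℝ, s ≤ 1 ∧ 2 * c * C2 * s ≤ h ∧
      (k₁ + 1) * (c * C2) * s ≤ 1 / (16 * A * E) ∧ 0 < s := by
    refine ⟨min 1 (min (h / (2 * c * C2)) (1 / (16 * A * E) / ((k₁ + 1) * (c * C2)))),
      min_le_left _ _, ?_, ?_, ?_⟩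
    · have e1 := (min_le_right 1 (min (h / (2 * c * C2))
        (1 / (16 * A * E) / ((k₁ + 1) * (c * C2))))).trans (min_le_left _ _)
      rw [le_div_iff₀ (by positivity)] at e1
      linarith
    · have e1 := (min_le_right 1 (min (h / (2 * c * C2))
        (1 / (16 * A * E) / ((k₁ + 1) * (c * C2))))).trans (min_le_right _ _)
      rw [le_div_iff₀ (by positivity)] at e1
      linarith
    · exact lt_min one_pos (lt_min (by positivity) (by positivity))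
  obtain ⟨C4, hC4⟩ : ∃ C : ℝ, C = c * (C2 + c * (2 * A + 1)) := ⟨_, rfl⟩
  have hC40 : 0 < C4 := by rw [hC4]; positivity
  obtain ⟨C5, hC5⟩ : ∃ C : ℝ, C = c * C4 * (2 * A + 1) := ⟨_, rfl⟩
  have hC50 : 0 < C5 := by rw [hC5]; positivity
  obtain ⟨N, hN⟩ := exists_nat_ge (T / s + 1)
  obtain ⟨J, hJ⟩ := exists_nat_ge (2 * A / h + 1)
  have hev := (small (c * C2 ^ 2) (1 / (4 * A * E)) (by positivity)).and
    ((small C5 (1 / (16 * A * E)) (by positivity)).and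
    ((small C5 h hh0).and
    ((small ((T + 1) * (c * C2 ^ 2)) A hA0).and
    ((small (c * (2 * A + 1)) r hr0).and
    ((small C4 r hr0).and
    ((small C2 r hr0).and (small (c * C4) 1 one_pos)))))))
  rw [Metric.eventually_nhds_iff] at hev
  obtain ⟨δ₁, hδ₁, hev⟩ := hev
  refine ⟨s, h, c * C4, δ₁, N, J, hs0, hh0, by positivity, hδ₁, ?_⟩
  intro δ hδ hδ' v w hd ht hlo hhi ⟨t₀, ht₀, hcr⟩
  obtain ⟨q1, q2, q3, q4, q5, q6, q7, q8⟩ := hev (y := δ) (by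
    rw [Real.dist_eq, sub_zero, abs_of_pos hδ]; exact hδ')
  -- the window
  have hd1 : dd v w ≤ 2 * c * A * δ := by
    have := S.dle v w hd
    have h2 : |x v w| + |y v w| + |τ v w| ≤ 2 * A * δ := by linarith
    calc dd v w ≤ c * (|x v w| + |y v w| + |τ v w|) := this
      _ ≤ c * (2 * A * δ) := mul_le_mul_of_nonneg_left h2 hc0.le
      _ = _ := by ring
  have hM0 : 0 ≤ C2 * δ := by positivity
  have hw : ∀ t, |t| ≤ T + 1 → dd (Φ t v) (Φ t w) ≤ C2 * δ := by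
    intro t ht
    have e1 := S.dflow v w t
    have e2 : Real.exp (L * |t|) ≤ Real.exp (L * (T + 1)) :=
      Real.exp_le_exp.2 (mul_le_mul_of_nonneg_left ht hL)
    have e3 := dd_nonneg v w
    calc dd (Φ t v) (Φ t w) ≤ c * Real.exp (L * |t|) * dd v w := e1
      _ ≤ c * Real.exp (L * (T + 1)) * (2 * c * A * δ) := by gcongr
      _ = _ := by rw [hC2]; ring
  have hT1 : (0 : ℝ) ≤ T + 1 := by linarith
  have ht₀' : |t₀| ≤ T + 1 := by linarith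
  -- lower bound at the crossing
  have c1 := cross_time S hM0 q7 hw hT1 ht₀' hcr
  rw [← hE] at c1
  have c2 : δ / (4 * A * E) ≤ |y (Φ t₀ v) (Φ t₀ w)| := by
    have e1 : c * (C2 * δ) ^ 2 ≤ δ / (4 * A * E) := by
      calc c * (C2 * δ) ^ 2 = (c * C2 ^ 2 * δ) * δ := by ring
        _ ≤ (1 / (4 * A * E)) * δ := mul_le_mul_of_nonneg_right q1 hδ.le
        _ = _ := by ring
    have e2 : δ / A ≤ 2 * (E * (|y (Φ t₀ v) (Φ t₀ w)| + δ / (4 * A * E))) := by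
      refine (hlo.trans c1).trans ?_
      gcongr
    have e3 : 2 * (E * (|y (Φ t₀ v) (Φ t₀ w)| + δ / (4 * A * E))) =
        2 * E * |y (Φ t₀ v) (Φ t₀ w)| + δ / (2 * A) := by field_simp; ring
    rw [e3] at e2
    have e4 : δ / A = δ / (2 * A) + δ / (2 * A) := by field_simp; ring
    have e5 : δ / (2 * A) ≤ 2 * E * |y (Φ t₀ v) (Φ t₀ w)| := by linarith
    rw [div_le_iff₀ (by positivity)] at e5 ⊢
    calc δ ≤ 2 * E * |y (Φ t₀ v) (Φ t₀ w)| * (2 * A) := e5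
      _ = _ := by ring
  -- the grid time
  obtain ⟨k, hk, hk2, hk3⟩ := floor_grid hs0 ht₀ N hN
  obtain ⟨tk, htk⟩ : ∃ t : ℝ, t = k * s := ⟨_, rfl⟩
  rw [← htk] at hk2 hk3
  have htk1 : |tk| ≤ T + 1 := by
    obtain ⟨e1, e2⟩ := abs_le.1 ht₀
    rw [abs_le]; constructor <;> linarith
  have hdt : |tk - t₀| ≤ s := by rw [abs_le]; constructor <;> linarith
  have xk : |x (Φ tk v) (Φ tk w)| ≤ h * δ := by
    have e1 := x_lip S hM0 q7 hw ht₀' htk1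
    rw [hcr, sub_zero] at e1
    calc |x (Φ tk v) (Φ tk w)| ≤ 2 * c * (C2 * δ) * |tk - t₀| := e1
      _ ≤ 2 * c * (C2 * δ) * s := mul_le_mul_of_nonneg_left hdt (by positivity)
      _ = (2 * c * C2 * s) * δ := by ring
      _ ≤ h * δ := mul_le_mul_of_nonneg_right hs2 hδ.le
  have yk : 3 * δ / (16 * A * E) ≤ |y (Φ tk v) (Φ tk w)| := by
    have e1 := y_lip S hM0 q7 hw ht₀' htk1
    have e2 : (k₁ + 1) * (c * (C2 * δ)) * |tk - t₀| ≤ δ / (16 * A * E) := by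
      calc (k₁ + 1) * (c * (C2 * δ)) * |tk - t₀| ≤ (k₁ + 1) * (c * (C2 * δ)) * s :=
            mul_le_mul_of_nonneg_left hdt (by positivity)
        _ = ((k₁ + 1) * (c * C2) * s) * δ := by ring
        _ ≤ 1 / (16 * A * E) * δ := mul_le_mul_of_nonneg_right hs3 hδ.le
        _ = _ := by ring
    have e3 : |y (Φ t₀ v) (Φ t₀ w)| - |y (Φ tk v) (Φ tk w)| ≤
        |y (Φ tk v) (Φ tk w) - y (Φ t₀ v) (Φ t₀ w)| := by
      rw [abs_sub_comm]; exact abs_sub_abs_le_abs_sub _ _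
    have e4 : δ / (4 * A * E) = 3 * δ / (16 * A * E) + δ / (16 * A * E) := by field_simp; ring
    linarith
  have zk : |τ (Φ tk v) (Φ tk w)| ≤ 2 * A * δ := by
    have e1 := t_lip S hM0 q7 hw (t₁ := 0) (t₂ := tk) (by simpa using hT1) htk1
    simp only [S.zero, sub_zero] at e1
    have e2 : c * (C2 * δ) ^ 2 * |tk| ≤ A * δ := by
      calc c * (C2 * δ) ^ 2 * |tk| ≤ c * (C2 * δ) ^ 2 * (T + 1) :=
            mul_le_mul_of_nonneg_left htk1 (by positivity)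
        _ = ((T + 1) * (c * C2 ^ 2) * δ) * δ := by ring
        _ ≤ A * δ := mul_le_mul_of_nonneg_right q4 hδ.le
    have e3 := abs_add_le (τ (Φ tk v) (Φ tk w) - τ v w) (τ v w)
    rw [sub_add_cancel] at e3
    linarith
  -- the shift
  have hhδ : 0 < h * δ := by positivity
  obtain ⟨j, hj, hj2, hj3⟩ := floor_grid (a := -τ (Φ tk v) (Φ tk w)) (B := 2 * A * δ) hhδ
    (by rw [abs_neg]; exact zk) J (by
      refine le_trans (le_of_eq ?_) hJ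
      field_simp)
  obtain ⟨ρ, hρ⟩ : ∃ t : ℝ, t = j * (h * δ) := ⟨_, rfl⟩
  rw [← hρ] at hj2 hj3
  have hρ1 : |ρ| ≤ (2 * A + 1) * δ := by
    obtain ⟨e1, e2⟩ := abs_le.1 zk
    have e3 : h * δ ≤ 1 / 2 * δ := mul_le_mul_of_nonneg_right hh1 hδ.le
    have e4 : (2 * A + 1) * δ = 2 * A * δ + δ := by ring
    rw [abs_le, e4]; constructor <;> linarith
  have m0 : 0 ≤ (2 * A + 1) * δ := by positivity
  have m2 : c * ((2 * A + 1) * δ) ≤ r := by linarith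
  have m1 : (2 * A + 1) * δ ≤ 1 := by
    exact (le_mul_of_one_le_left m0 hc).trans (m2.trans hr1)
  have m3e : c * (C2 * δ + c * ((2 * A + 1) * δ)) = C4 * δ := by rw [hC4]; ring
  have m3 : c * (C2 * δ + c * ((2 * A + 1) * δ)) ≤ r := by rw [m3e]; exact q6
  have m4 : c * (c * (C2 * δ + c * ((2 * A + 1) * δ))) * ((2 * A + 1) * δ) = C5 * δ * δ := by
    rw [m3e, hC5]; ring
  have d1 := move_dd S q7 (hw tk htk1) m0 m1 m2 m3 hρ1
  have d2 := move_x S q7 (hw tk htk1) m0 m1 m2 m3 hρ1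
  have d3 := move_y S q7 (hw tk htk1) m0 m1 m2 m3 hρ1
  have d4 := move_t S q7 (hw tk htk1) m0 m1 m2 m3 hρ1
  rw [m3e] at d1
  rw [m4] at d2 d3 d4
  have f1 : C5 * δ * δ ≤ h * δ := mul_le_mul_of_nonneg_right q3 hδ.le
  have f2 : C5 * δ * δ ≤ δ / (16 * A * E) := by
    calc C5 * δ * δ ≤ 1 / (16 * A * E) * δ := mul_le_mul_of_nonneg_right q2 hδ.le
      _ = _ := by ring
  have g1 : |x (Φ tk v) (Φ ρ (Φ tk w))| ≤ 2 * h * δ := by
    have e := abs_add_le (x (Φ tk v) (Φ ρ (Φ tk w)) - x (Φ tk v) (Φ tk w)) (x (Φ tk v) (Φ tk w))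
    rw [sub_add_cancel] at e
    linarith
  have g2 : |τ (Φ tk v) (Φ ρ (Φ tk w))| ≤ 2 * h * δ := by
    have e := abs_add_le (τ (Φ tk v) (Φ ρ (Φ tk w)) - (τ (Φ tk v) (Φ tk w) + ρ))
      (τ (Φ tk v) (Φ tk w) + ρ)
    rw [sub_add_cancel] at e
    have e2 : |τ (Φ tk v) (Φ tk w) + ρ| ≤ h * δ := by
      rw [abs_le]; constructor <;> linarith
    linarith
  have g3 : b₁ * δ ≤ |y (Φ tk v) (Φ ρ (Φ tk w))| := by
    have e3 : |y (Φ tk v) (Φ tk w)| - |y (Φ tk v) (Φ ρ (Φ tk w))| ≤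
        |y (Φ tk v) (Φ ρ (Φ tk w)) - y (Φ tk v) (Φ tk w)| := by
      rw [abs_sub_comm]; exact abs_sub_abs_le_abs_sub _ _
    have e4 : b₁ * δ = 3 * δ / (16 * A * E) - δ / (16 * A * E) := by
      rw [hb₁]; field_simp; ring
    linarith
  have g4 : |y (Φ tk v) (Φ ρ (Φ tk w))| ≤ c * C4 * δ := by
    refine (S.yle _ _ (d1.trans q6)).trans ?_
    calc c * dd (Φ tk v) (Φ ρ (Φ tk w)) ≤ c * (C4 * δ) := mul_le_mul_of_nonneg_left d1 hc0.le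
      _ = _ := by ring
  have hyp : 0 < |y (Φ tk v) (Φ ρ (Φ tk w))| := lt_of_lt_of_le (by positivity) g3
  obtain ⟨l, hl1, hl2⟩ := dyadic hyp (g4.trans q8)
  refine ⟨k, hk, j, hj, l, hl1.trans g4, ?_⟩
  rw [← htk, ← hρ]
  refine ⟨?_, d1.trans q6, g1, g2, hl1, hl2⟩
  have p2 : (0 : ℝ) < 2 ^ l := by positivity
  have p3 : b₁ * δ ≤ 2 / 2 ^ l := g3.trans hl2
  rw [le_div_iff₀ p2] at p3 ⊢
  calc 2 * h * δ * 2 ^ l ≤ 2 * (c₀ * b₁ / 4) * δ * 2 ^ l := by gcongr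
    _ = c₀ / 2 * (b₁ * δ * 2 ^ l) := by ring
    _ ≤ c₀ / 2 * 2 := mul_le_mul_of_nonneg_left p3 (by positivity)
    _ = c₀ := by ring

end Cr

end

end NC

end QE
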