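import Pool.Agent.Lib_helper67.QE.HypKey
import Pool.Agent.LibH11.Berry.RFinal
import Pool.Agent.LibH11.QEV.Wrap

/-!
# Closed surfaces of negative curvature: definitions

`Γ ⊂ SL(2, ℝ)` countable with compact quotient, `ρ : ℍ → ℝ` smooth and `Γ`-invariant; the metric is
`e^{2ρ} (dx² + dy²) / y²`. Its unit tangent bundle is identified with `Γ \ SL(2, ℝ) / ±1` (the frame `g`
is based at `g • i`).
-/

open MeasureTheory Filter Topology Set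
open UpperHalfPlane hiding I
open scoped ContDiff MatrixGroups ENNReal

namespace QE

namespace NC

noncomputable section

/-- `ρ` as a function on the plane -/
def ro (ρ : ℍ → ℝ) (z : ℂ) : ℝ := ρ (ofComplex z)

/-- the weight `e^{-ρ} y` -/
def aR (ρ : ℍ → ℝ) (z : ℂ) : ℂ := ((z.im * Real.exp (-(ro ρ z)) : ℝ) : ℂ)

/-- the conformal factor `e^{2ρ} / y²` -/
def gR (ρ : ℍ → ℝ) (z : ℂ) : ℂ := ((Real.exp (2 * ro ρ z) / z.im ^ 2 : ℝ) : ℂ)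

/-- the standing hypotheses on `ρ` -/
structure Fac (Γ : Subgroup SL(2, ℝ)) (ρ : ℍ → ℝ) : Prop where
  smooth : ContDiffOn ℝ ∞ (ro ρ) UH
  inv : ∀ γ ∈ Γ, ∀ z, ρ (γ • z) = ρ z
  cpt : ∃ K : Set ℍ, IsCompact K ∧ ∀ z, ∃ γ ∈ Γ, γ • z ∈ K

/-- `-K e^{2ρ} = 1 + y² (ρ_xx + ρ_yy)` for the Gaussian curvature `K` -/
def lapR (ρ : ℍ → ℝ) (z : ℍ) : ℝ := 1 + z.im ^ 2 * Laplacian.laplacian (ro ρ) z

/-- the Fourier coefficients (along the fibres of the circle bundle) of a measure which is, after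
multiplication by `e^{2ρ}`, invariant under the geodesic flow of `e^{2ρ} (dx² + dy²) / y²` -/
structure LimFamR (Γ : Subgroup SL(2, ℝ)) (ρ : ℍ → ℝ) (u : ℤ → ℂ → ℂ) : Prop
    extends LimFam0 Γ u where
  transport : ∀ k : ℤ, ∀ ζ : ℂ → ℂ, Test UH ζ →
    ∫ z, ((aR ρ z * dz ζ z - k * dz (aR ρ) z * ζ z) * u (k - 1) z
      + (aR ρ z * dzb ζ z + k * dzb (aR ρ) z * ζ z) * u (k + 1) z) * gR ρ z = 0

/-! ### the geodesic flow -/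

/-- the derivative of `ρ` along `s ↦ g exp (s P) • i`, `P = (0 1/2; 1/2 0)` -/
def Pr (ρ : ℍ → ℝ) (g : SL(2, ℝ)) : ℝ :=
  fderiv ℝ (ro ρ) ((g • UpperHalfPlane.I : ℍ) : ℂ) (1 / den g Complex.I ^ 2)

/-- the derivative of `ρ` along `s ↦ g exp (s H) • i`, `H = diag (1/2, -1/2)` -/
def Hr (ρ : ℍ → ℝ) (g : SL(2, ℝ)) : ℝ :=
  fderiv ℝ (ro ρ) ((g • UpperHalfPlane.I : ℍ) : ℂ) (Complex.I / den g Complex.I ^ 2)

/-- `A g = e^{-ρ} (H + (P ρ) R)`, `R = (0 -1/2; 1/2 0)`: the geodesic vector field at `g` is `g A(g)` -/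
def AA (ρ : ℍ → ℝ) (g : SL(2, ℝ)) : Matrix (Fin 2) (Fin 2) ℝ :=
  Real.exp (-ρ (g • UpperHalfPlane.I)) • !![1 / 2, -(Pr ρ g / 2); Pr ρ g / 2, -(1 / 2)]

/-- the geodesic vector field in the linear coordinates of `iota` -/
def XV (ρ : ℍ → ℝ) (g : SL(2, ℝ)) : ℂ × ℂ :=
  Real.exp (-ρ (g • UpperHalfPlane.I)) • (Vq (iota g) + (Pr ρ g / 2) • (Complex.I • iota g))

/-- the geodesic flow -/
structure GFlow (ρ : ℍ → ℝ) (Φ : ℝ → SL(2, ℝ) → SL(2, ℝ)) : Prop where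
  zero : ∀ g, Φ 0 g = g
  add : ∀ s t g, Φ (s + t) g = Φ s (Φ t g)
  cont : Continuous fun p : ℝ × SL(2, ℝ) => Φ p.1 p.2
  deriv : ∀ g t (i j : Fin 2), HasDerivAt (fun s => Φ s g i j)
    (((Φ t g : Matrix (Fin 2) (Fin 2) ℝ) * AA ρ (Φ t g)) i j) t
  left : ∀ γ : SL(2, ℝ), (∀ z, ρ (γ • z) = ρ z) → ∀ t g, Φ t (γ * g) = γ * Φ t g
  neg : ∀ t g, Φ t (-g) = -Φ t g

/-! ### coordinates of pairs -/

/-- distance of `g` to `1` -/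
def nn (g : SL(2, ℝ)) : ℝ := |g 0 0 - 1| + |g 0 1| + |g 1 0| + |g 1 1 - 1|

/-- distance of `v` and `w` -/
def dd (v w : SL(2, ℝ)) : ℝ := nn (v⁻¹ * w)

/-- the coordinate of `w - v` along the direction perpendicular to `v` -/
def xx (ρ : ℍ → ℝ) (v w : SL(2, ℝ)) : ℝ :=
  Real.exp (ρ (v • UpperHalfPlane.I)) * ((v⁻¹ * w) 0 1 + (v⁻¹ * w) 1 0)

/-- the coordinate of `w - v` along `v` -/
def tt (ρ : ℍ → ℝ) (v w : SL(2, ℝ)) : ℝ :=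
  Real.exp (ρ (v • UpperHalfPlane.I)) * ((v⁻¹ * w) 0 0 - (v⁻¹ * w) 1 1)

/-- the coordinate of `w - v` along the fibre -/
def yy (ρ : ℍ → ℝ) (v w : SL(2, ℝ)) : ℝ :=
  ((v⁻¹ * w) 1 0 - (v⁻¹ * w) 0 1) - ((v⁻¹ * w) 0 0 - (v⁻¹ * w) 1 1) * Pr ρ v
    + ((v⁻¹ * w) 0 1 + (v⁻¹ * w) 1 0) * Hr ρ v

/-- the negative of the Gaussian curvature at `g • i` -/
def kap (ρ : ℍ → ℝ) (g : SL(2, ℝ)) : ℝ :=
  Real.exp (-(2 * ρ (g • UpperHalfPlane.I))) * lapR ρ (g • UpperHalfPlane.I)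

/-- the algebraic part: what is needed of the coordinates `x`, `y`, `τ` of pairs, with constants
`c ≥ 1`, `0 < r ≤ 1` -/
structure PairAlg (Γ : Subgroup SL(2, ℝ)) (x y τ : SL(2, ℝ) → SL(2, ℝ) → ℝ) (c r : ℝ) : Prop where
  one_le : 1 ≤ c
  rpos : 0 < r
  rle : r ≤ 1
  -- the coordinates
  xc : Continuous fun p : SL(2, ℝ) × SL(2, ℝ) => x p.1 p.2
  yc : Continuous fun p : SL(2, ℝ) × SL(2, ℝ) => y p.1 p.2
  tc : Continuous fun p : SL(2, ℝ) × SL(2, ℝ) => τ p.1 p.2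
  xi : ∀ γ ∈ Γ, ∀ v w, x (γ * v) (γ * w) = x v w
  yi : ∀ γ ∈ Γ, ∀ v w, y (γ * v) (γ * w) = y v w
  ti : ∀ γ ∈ Γ, ∀ v w, τ (γ * v) (γ * w) = τ v w
  -- the distance
  dsymm : ∀ v w, dd w v = dd v w
  dtri : ∀ v w u, dd v w ≤ r → dd w u ≤ r → dd v u ≤ c * (dd v w + dd w u)
  dle : ∀ v w, dd v w ≤ r → dd v w ≤ c * (|x v w| + |y v w| + |τ v w|)
  xle : ∀ v w, dd v w ≤ r → |x v w| ≤ c * dd v w
  yle : ∀ v w, dd v w ≤ r → |y v w| ≤ c * dd v w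
  tle : ∀ v w, dd v w ≤ r → |τ v w| ≤ c * dd v w
  -- change of the base point
  xcc : ∀ v w u, dd v w ≤ r → dd v u ≤ r → |x v u - x v w - x w u| ≤ c * (dd v w + dd v u) ^ 2
  ycc : ∀ v w u, dd v w ≤ r → dd v u ≤ r → |y v u - y v w - y w u| ≤ c * (dd v w + dd v u) ^ 2
  tcc : ∀ v w u, dd v w ≤ r → dd v u ≤ r → |τ v u - τ v w - τ w u| ≤ c * (dd v w + dd v u) ^ 2

/-- the flow and the distance -/
structure PairFl (Φ : ℝ → SL(2, ℝ) → SL(2, ℝ)) (c L : ℝ) : Prop where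
  dflow : ∀ v w t, dd (Φ t v) (Φ t w) ≤ c * Real.exp (L * |t|) * dd v w
  dmove : ∀ v t, |t| ≤ 1 → dd v (Φ t v) ≤ c * |t|

/-- the derivatives of the coordinates along the flow, and when the second point is moved -/
structure PairDer (Φ : ℝ → SL(2, ℝ) → SL(2, ℝ)) (x y τ : SL(2, ℝ) → SL(2, ℝ) → ℝ)
    (κ : SL(2, ℝ) → ℝ) (c r : ℝ) : Prop where
  xd : ∀ v w, dd v w ≤ r → ∃ x' : ℝ, HasDerivAt (fun s => x (Φ s v) (Φ s w)) x' 0 ∧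
    |x' - y v w| ≤ c * dd v w ^ 2
  yd : ∀ v w, dd v w ≤ r → ∃ y' : ℝ, HasDerivAt (fun s => y (Φ s v) (Φ s w)) y' 0 ∧
    |y' - κ v * x v w| ≤ c * dd v w ^ 2
  td : ∀ v w, dd v w ≤ r → ∃ t' : ℝ, HasDerivAt (fun s => τ (Φ s v) (Φ s w)) t' 0 ∧
    |t'| ≤ c * dd v w ^ 2
  xm : ∀ v w, dd v w ≤ r → ∃ x' : ℝ, HasDerivAt (fun s => x v (Φ s w)) x' 0 ∧
    |x'| ≤ c * dd v w
  ym : ∀ v w, dd v w ≤ r → ∃ y' : ℝ, HasDerivAt (fun s => y v (Φ s w)) y' 0 ∧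
    |y'| ≤ c * dd v w
  tm : ∀ v w, dd v w ≤ r → ∃ t' : ℝ, HasDerivAt (fun s => τ v (Φ s w)) t' 0 ∧
    |t' - 1| ≤ c * dd v w

/-- all that is needed of the coordinates `x`, `y`, `τ` of pairs, the flow `Φ` and the function `κ`
(the negative of the curvature) -/
structure PairSys (Γ : Subgroup SL(2, ℝ)) (Φ : ℝ → SL(2, ℝ) → SL(2, ℝ))
    (x y τ : SL(2, ℝ) → SL(2, ℝ) → ℝ) (κ : SL(2, ℝ) → ℝ) (c r L k₀ k₁ : ℝ) : Prop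
    extends PairAlg Γ x y τ c r, PairFl Φ c L, PairDer Φ x y τ κ c r where
  Lnn : 0 ≤ L
  kpos : 0 < k₀
  zero : ∀ g, Φ 0 g = g
  add : ∀ s t g, Φ (s + t) g = Φ s (Φ t g)
  cont : Continuous fun p : ℝ × SL(2, ℝ) => Φ p.1 p.2
  left : ∀ γ ∈ Γ, ∀ t g, Φ t (γ * g) = γ * Φ t g
  klo : ∀ v, k₀ ≤ κ v
  khi : ∀ v, κ v ≤ k₁

/-- the set of the `w` in the box of size `δ` around `v` -/
def Bx (x τ : SL(2, ℝ) → SL(2, ℝ) → ℝ) (r δ : ℝ) (v : SL(2, ℝ)) : Set SL(2, ℝ) :=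
  {w | dd v w ≤ r ∧ |x v w| ≤ δ ∧ |τ v w| ≤ δ}

variable [MeasurableSpace SL(2, ℝ)] [BorelSpace SL(2, ℝ)]

/-- the measure `e^{2ρ} μ` -/
def nuR (ρ : ℍ → ℝ) (μ : Measure SL(2, ℝ)) : Measure SL(2, ℝ) :=
  μ.withDensity fun g => ENNReal.ofReal (Real.exp (2 * ρ (g • UpperHalfPlane.I)))

/-- what is needed of the measure -/
structure MassSys (Γ : Subgroup SL(2, ℝ)) (D : Set ℍ) (Φ : ℝ → SL(2, ℝ) → SL(2, ℝ))
    (x τ : SL(2, ℝ) → SL(2, ℝ) → ℝ) (r : ℝ) (ν : Measure SL(2, ℝ)) : Prop where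
  sf : SigmaFinite ν
  left : ∀ γ ∈ Γ, Measure.map (fun g => γ * g) ν = ν
  flow : ∀ t, Measure.map (Φ t) ν = ν
  fund : IsFundamentalDomain Γ (Berry.Fd D) ν
  fin : ν (Berry.Fd D) ≠ ⊤
  -- the quadratic bound for boxes
  box : ∃ C : ℝ, 0 ≤ C ∧ ∀ δ : ℝ, 0 < δ → δ ≤ 1 →
    ∫⁻ v in Berry.Fd D, ν (Bx x τ r δ v) ∂ν ≤ ENNReal.ofReal (C * δ ^ 2)
  -- uniform integrability
  ui : ∀ η : ℝ, 0 < η → ∃ M : ℝ, 0 < M ∧ ∀ δ : ℝ, 0 < δ → δ ≤ 1 →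
    ∫⁻ v in Berry.Fd D, (if ν (Bx x τ r δ v) ≤ ENNReal.ofReal (M * δ ^ 2) then 0
      else ν (Bx x τ r δ v)) ∂ν ≤ ENNReal.ofReal (η * δ ^ 2)

end

end NC

end QE
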