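import Pool.Agent.NCV.Stmts
import Pool.Agent.Lib_helper67.QE.HypStatW

/-!
# Closed surfaces of negative curvature: the final assembly

Sequences of eigenfunctions with bounded fourth moments have subsequences with microlocal limits; along
these the mass and the fourth moments are controlled; the linear statistics of the local waves.
-/

open UpperHalfPlane MeasureTheory MatrixGroups Filter Topology Set Berry
open scoped ENNReal ContDiff

namespace QE

namespace NC

noncomputable section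

variable {Γ : Subgroup SL(2, ℝ)} {ρ : ℍ → ℝ} {D : Set ℍ}

/-! ### eigenfunctions -/

theorem reig_comp {φ : ℕ → ℍ → ℝ} {m : ℕ → ℝ} (h : REigenSeq Γ ρ φ m) {s : ℕ → ℕ}
    (hs : Tendsto s atTop atTop) : REigenSeq Γ ρ (fun n => φ (s n)) (fun n => m (s n)) :=
  ⟨fun _ => h.invariant _, fun _ => h.smooth _, fun _ => h.eigen _, h.tendsto.comp hs⟩

theorem reig_scale {φ : ℕ → ℍ → ℝ} {m : ℕ → ℝ} (h : REigenSeq Γ ρ φ m) (c : ℕ → ℝ) :
    REigenSeq Γ ρ (fun n z => c n * φ n z) m := by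
  refine ⟨fun n γ hγ z => ?_, fun n => contDiffOn_const.mul (h.smooth n), fun n z => ?_,
    h.tendsto⟩
  · show c n * φ n (γ • z) = c n * φ n z
    rw [h.invariant _ γ hγ]
  · have h1 := h.eigen n z
    have hcd : ContDiffAt ℝ 2 (fun w : ℂ => φ n (ofComplex w)) (z : ℂ) :=
      (h.smooth n).contDiffAt ((isOpen_lt continuous_const Complex.continuous_im).mem_nhds
        z.im_pos)
    have h2 : (Laplacian.laplacian (fun w : ℂ => c n * φ n (ofComplex w))) (z : ℂ)
        = c n * (Laplacian.laplacian (fun w : ℂ => φ n (ofComplex w))) (z : ℂ) := by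
      have := InnerProductSpace.laplacian_smul (c n) hcd
      simpa [Pi.smul_def, smul_eq_mul] using this
    show z.im ^ 2 * (Laplacian.laplacian (fun w : ℂ => c n * φ n (ofComplex w))) (z : ℂ)
      = -(m n ^ 2 * Real.exp (2 * ρ z) * (c n * φ n z))
    rw [h2]
    linear_combination (c n) * h1

/-! ### averages -/

/-- the average with respect to the area of the metric -/
theorem rAvg_eq_int (hDm : MeasurableSet D) (hρ : Continuous ρ) (f : ℍ → ℝ) :
    rAvg ρ D f = ((area ρ D).toReal)⁻¹ * ∫ z in D, Real.exp (2 * ρ z) * f z := by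
  unfold rAvg ProbabilityTheory.cond
  rw [integral_smul_measure, smul_eq_mul, ENNReal.toReal_inv]
  congr 1
  unfold area
  have hm : Measurable fun z : ℍ => ENNReal.ofReal (Real.exp (2 * ρ z)) :=
    ENNReal.measurable_ofReal.comp
      (Real.continuous_exp.comp (continuous_const.mul hρ)).measurable
  rw [restrict_withDensity hDm, integral_withDensity_eq_integral_toReal_smul hm
    (Eventually.of_forall fun z => ENNReal.ofReal_lt_top)]
  refine integral_congr_ae (Eventually.of_forall fun z => ?_)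
  beta_reduce
  rw [ENNReal.toReal_ofReal (Real.exp_pos _).le, smul_eq_mul]

theorem geo_of [Countable Γ] (hDm : MeasurableSet D)
    (hD : IsFundamentalDomain Γ D (volume : Measure ℍ))
    (hK : ∃ K : Set ℍ, IsCompact K ∧ ∀ z, ∃ γ ∈ Γ, γ • z ∈ K)
    (hρ : Continuous ρ) (hρΓ : ∀ γ ∈ Γ, ∀ z, ρ (γ • z) = ρ z) : Geo Γ ρ D :=
  ⟨hD, hDm, finite_of_cocompact hD hK, hρΓ, bdd_of_cocompact hρ hρΓ hK,
    unif_of_cocompact hρ hρΓ hK⟩

/-- averages with respect to the area of the metric and with respect to the hyperbolic area -/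
theorem exists_rAvg_eq [Countable Γ] (hDm : MeasurableSet D)
    (hD : IsFundamentalDomain Γ D (volume : Measure ℍ))
    (hK : ∃ K : Set ℍ, IsCompact K ∧ ∀ z, ∃ γ ∈ Γ, γ • z ∈ K)
    (hρ : Continuous ρ) (hρΓ : ∀ γ ∈ Γ, ∀ z, ρ (γ • z) = ρ z) :
    ∃ A : ℝ, 0 < A ∧ ∀ f : ℍ → ℝ, rAvg ρ D f = A * surfAvg D (fun z => Real.exp (2 * ρ z) * f z) := by
  have hg := geo_of hDm hD hK hρ hρΓ
  have hApos : 0 < (area ρ D).toReal := ENNReal.toReal_pos (area_ne_zero hg) (area_ne_top hg)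
  have hv := Surf.vol_pos hD hK
  refine ⟨((area ρ D).toReal)⁻¹ * ((volume : Measure ℍ) D).toReal, by positivity, fun f => ?_⟩
  rw [rAvg_eq_int hDm hρ, Surf.surfAvg_eq]
  field_simp

/-! ### sequences with microlocal limits -/

/-- a sequence of eigenfunctions with microlocal limits -/
structure LimSeqR (Γ : Subgroup SL(2, ℝ)) (ρ : ℍ → ℝ) (D : Set ℍ) (φ : ℕ → ℍ → ℝ) (m : ℕ → ℝ)
    (u : ℤ → ℂ → ℂ) (p : ℍ → ℝ) : Prop where
  set : Setup UH (gR ρ) (aR ρ) (fun n => 1 / m n) (fun n z => (φ n (ofComplex z) : ℂ))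
  cont : ∀ n, Continuous (φ n)
  inv : ∀ n, ∀ γ ∈ Γ, ∀ z, φ n (γ • z) = φ n z
  one : ∀ n, 1 ≤ m n
  tend : Tendsto m atTop atTop
  meas : ∀ k, Measurable (u k)
  loc : ∀ k, LocL2 UH (u k)
  lim : JLim UH (fun n => 1 / m n) (aR ρ) (fun n z => (φ n (ofComplex z) : ℂ)) u
  real : ∀ᵐ z ∂((volume : Measure ℂ).restrict UH), 0 ≤ (u 0 z).re ∧ (u 0 z).im = 0
  pm : Measurable p
  p0 : ∀ z, 0 ≤ p z
  pinv : ∀ γ ∈ Γ, ∀ z, p (γ • z) = p z
  pae : ∀ᵐ z : ℍ, p z = (u 0 z).re
  psq : IntegrableOn (fun z => p z ^ 2) D (volume : Measure ℍ)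
  fej : ∀ ζ : ℂ → ℝ, Continuous ζ → HasCompactSupport ζ → tsupport ζ ⊆ UH → (∀ z, 0 ≤ ζ z) →
    Tendsto (fun N : ℕ => (1 / (N : ℝ)) * ∑ k ∈ Finset.Ioo (-(N : ℤ)) N,
      ∫ z, ζ z * ‖u k z‖ ^ 2) atTop (𝓝 0)

/-- **Sequences with bounded fourth moments have subsequences with microlocal limits.** -/
theorem exists_limSeqR (hSet : StmtSetup) (hLim : StmtLim) (hA : StmtAtoms) [Countable Γ]
    (hDm : MeasurableSet D) (hD : IsFundamentalDomain Γ D (volume : Measure ℍ))
    (hF : Fac Γ ρ) (hpos : ∀ z, 0 < lapR ρ z) {φ : ℕ → ℍ → ℝ} {m : ℕ → ℝ}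
    (hφ : REigenSeq Γ ρ φ m)
    (hs : ∀ n, ContDiffOn ℝ ∞ (fun w : ℂ => φ n (ofComplex w)) {w | 0 < w.im}) {C : ℝ}
    (hC : ∀ n, surfAvg D (fun z => φ n z ^ 4) ≤ C) :
    ∃ s : ℕ → ℕ, StrictMono s ∧ ∃ u p,
      LimSeqR Γ ρ D (fun n => φ (s n)) (fun n => m (s n)) u p := by
  have hK := hF.cpt
  obtain ⟨N, hN⟩ := (hφ.tendsto.eventually_ge_atTop 1).exists_forall_of_atTop
  have hshift : Tendsto (fun n : ℕ => n + N) atTop atTop := tendsto_add_atTop_nat N
  have hc : ∀ n, Continuous (φ n) := fun n => continuous_of_smooth (hs n)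
  have S := hSet Γ ρ (fun n => φ (n + N)) (fun n => m (n + N)) hF (reig_comp hφ hshift)
    (fun n => hs _) (fun n => hN _ (Nat.le_add_left _ _))
    (bdd4_of_avg hD hK (fun n => hc (n + N)) (fun n => hφ.invariant _) (fun n => hC _))
  obtain ⟨s, hsm, u, hum, hu, hw⟩ := exists_limits S
  -- the subsequence
  set φ' : ℕ → ℍ → ℝ := fun n => φ (s n + N) with hφ'
  have hφs := reig_comp (reig_comp hφ hshift) hsm.tendsto_atTop
  have S' := hSet Γ ρ φ' (fun n => m (s n + N)) hF hφs (fun n => hs _)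
    (fun n => hN _ (Nat.le_add_left _ _))
    (bdd4_of_avg hD hK (fun n => hc (s n + N)) (fun n => hφ.invariant _) (fun n => hC _))
  have hw' : JLim UH (fun n => 1 / m (s n + N)) (aR ρ) (fun n z => (φ' n (ofComplex z) : ℂ)) u := by
    intro j k
    refine (hw j k).congr fun n z _ => ?_
    rw [← E_sub (fun n => 1 / m (n + N)) (aR ρ) (fun n z => (φ (n + N) (ofComplex z) : ℂ)) s j n z,
      ← E_sub (fun n => 1 / m (n + N)) (aR ρ) (fun n z => (φ (n + N) (ofComplex z) : ℂ)) s k n z]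
  have hFam : LimFamR Γ ρ u := hLim Γ ρ _ _ u hF S' hum hu hw' (fun γ hγ n z hz => by
    have e : ofComplex (mob γ z) = γ • ofComplex z := by
      unfold mob
      rw [ofComplex_apply]
    simp only [e, hφ', hφ.invariant _ γ hγ])
  obtain ⟨p, hpm, hp0, hpi, hpae, hpsq, hN'⟩ := hA Γ D ρ u hDm hD hF hpos hFam
  exact ⟨fun n => s n + N, fun a b hab => Nat.add_lt_add_right (hsm hab) N, u, p, S',
    fun n => hc _, fun n => hφ.invariant _, fun n => hN _ (Nat.le_add_left _ _),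
    hφ.tendsto.comp (hshift.comp hsm.tendsto_atTop), hum, hu, hw', hFam.real, hpm, hp0, hpi, hpae,
    hpsq, hN'⟩

/-- the conclusions along a subsequence with microlocal limits: `p` is the weak limit of the
squares, the fourth moments are at least `3 p²` -/
structure GoodR (Γ : Subgroup SL(2, ℝ)) (D : Set ℍ) (φ : ℕ → ℍ → ℝ) (p : ℍ → ℝ) : Prop where
  pI : IntegrableOn p D (volume : Measure ℍ)
  psq : IntegrableOn (fun z => p z ^ 2) D (volume : Measure ℍ)
  mass : ∀ f : ℍ → ℝ, Continuous f → (∀ γ ∈ Γ, ∀ z, f (γ • z) = f z) →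
    Tendsto (fun n => surfAvg D (fun z => f z * φ n z ^ 2)) atTop
      (𝓝 (surfAvg D (fun z => f z * p z)))
  four : ∀ f : ℍ → ℝ, Continuous f → (∀ z, 0 ≤ f z) → (∀ γ ∈ Γ, ∀ z, f (γ • z) = f z) → ∀ ε > 0,
    ∀ᶠ n in atTop, 3 * surfAvg D (fun z => f z * p z ^ 2) - ε
      ≤ surfAvg D (fun z => f z * φ n z ^ 4)

/-- **The moments of order two and four** along a sequence with microlocal limits. -/
theorem LimSeqR.good [Countable Γ] (hD : IsFundamentalDomain Γ D (volume : Measure ℍ))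
    (hK : ∃ K : Set ℍ, IsCompact K ∧ ∀ z, ∃ γ ∈ Γ, γ • z ∈ K) {φ : ℕ → ℍ → ℝ} {m : ℕ → ℝ}
    {u : ℤ → ℂ → ℂ} {p : ℍ → ℝ} (L : LimSeqR Γ ρ D φ m u p) : GoodR Γ D φ p := by
  have S := L.set
  have hc := L.cont
  have hinv := L.inv
  have hum := L.meas
  have hu := L.loc
  have hw := L.lim
  have hpm := L.pm
  have hpi := L.pinv
  have hpsq := L.psq
  have hN := L.fej
  have hfin : (volume : Measure ℍ) D ≠ ⊤ := finite_of_cocompact hD hK
  have hpI : IntegrableOn p D (volume : Measure ℍ) := by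
    have : IsFiniteMeasure ((volume : Measure ℍ).restrict D) := ⟨by
      rw [Measure.restrict_apply_univ]; exact hfin.lt_top⟩
    have h2 : MemLp p 2 ((volume : Measure ℍ).restrict D) :=
      (memLp_two_iff_integrable_sq hpm.aestronglyMeasurable).2 hpsq
    exact h2.integrable (by norm_num)
  have hpw : ∀ᵐ z ∂((volume : Measure ℂ).restrict UH), u 0 z = (p (ofComplex z) : ℂ) := by
    have h1 : ∀ᵐ z ∂((volume : Measure ℂ).restrict UH), p (ofComplex z) = (u 0 z).re := by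
      refine ae_UH ?_
      filter_upwards [L.pae] with z hz
      rw [ofComplex_apply]; exact hz
    filter_upwards [h1, L.real] with z h1 h2
    rw [h1]
    exact Complex.ext rfl (by rw [h2.2, Complex.ofReal_im])
  have hw0 : WLim UH (fun n z => (φ n (ofComplex z) : ℂ) * (φ n (ofComplex z) : ℂ)) (u 0) :=
    S.lim_zero hu hw 0
  refine ⟨hpI, hpsq, fun f hf hfi =>
    mass_limit hD hK hc hinv hw0 hpm hpi hpI hpw hf hfi, ?_⟩
  -- fourth moments
  intro f hf hf0 hfi ε hε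
  obtain ⟨ζ, h1, h2, h3, h4, h5⟩ := Surf.exists_test_int hD hK
  obtain ⟨B, hB⟩ := bdd_of_cocompact hf hfi hK
  have hco : ∀ n, ContinuousOn (fun z => φ n (ofComplex z)) UH := fun n w hw =>
    ((hc n).continuousAt.comp
      (contMDiffAt_ofComplex (n := 0) (show 0 < w.im from hw)).continuousAt).continuousWithinAt
  have hζf : Continuous fun w => ζ w * f (ofComplex w) := Surf.continuous_cut_mul h1 h3 hf
  have hζs : HasCompactSupport fun w => ζ w * f (ofComplex w) := h2.mul_right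
  have hζsub : tsupport (fun w => ζ w * f (ofComplex w)) ⊆ UH :=
    (closure_mono (Function.support_mul_subset_left _ _)).trans h3
  have hv := Surf.vol_pos hD hK
  have hlow := cont_lower isOpen_UH (F := fun n z => φ n (ofComplex z) ^ 4)
    (fun n => (hco n).pow 4) (fun n z => by positivity) (p2 := fun z => ‖u 0 z‖ ^ 2)
    (fun z => by positivity) (fun K hKc hKU => by
      have := hu 0 K hKc hKU
      exact (memLp_two_iff_integrable_sq_norm this.1).1 this)
    (fun η hηs hηc hηU hη0 ε hε => by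
      have h6 := local_atomless S hum hu hw (S.lim_conj hu hw) hηs hηc hηU hη0
        (hN η hηs.continuous hηc hηU hη0) hε
      simpa only [Complex.ofReal_re] using h6) hζf hζs hζsub
    (fun w => mul_nonneg (h4 w) (hf0 _)) (ε := ε * ((volume : Measure ℍ) D).toReal)
    (by positivity)
  filter_upwards [hlow] with n hn
  have s1 : ∫ z, ζ z * f (ofComplex z) * φ n (ofComplex z) ^ 4 = ∫ z in D, f z * φ n z ^ 4 := by
    have hcn : Continuous fun z => f z * φ n z ^ 4 := hf.mul ((hc n).pow 4)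
    have hin : ∀ γ ∈ Γ, ∀ z, f (γ • z) * φ n (γ • z) ^ 4 = f z * φ n z ^ 4 := fun γ hγ z => by
      rw [hfi γ hγ, hinv n γ hγ]
    have h6 := (h5 _ hcn.measurable (Surf.integrableOn_of_invariant hD hK hcn hin) hin).2
    rw [← h6]
    refine integral_congr_ae (Eventually.of_forall fun z => ?_)
    beta_reduce; ring
  have s2 : ∫ z, ζ z * f (ofComplex z) * ‖u 0 z‖ ^ 2 = ∫ z in D, f z * p z ^ 2 := by
    have hpf : IntegrableOn (fun z => f z * p z ^ 2) D (volume : Measure ℍ) := by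
      refine Integrable.bdd_mul hpsq hf.aestronglyMeasurable.restrict
        (Eventually.of_forall fun z => ?_) (c := B)
      rw [Real.norm_eq_abs]; exact hB z
    have hin : ∀ γ ∈ Γ, ∀ z, f (γ • z) * p (γ • z) ^ 2 = f z * p z ^ 2 := fun γ hγ z => by
      rw [hfi γ hγ, hpi γ hγ]
    have h6 := (h5 (fun z => f z * p z ^ 2) (hf.measurable.mul (hpm.pow_const 2)) hpf hin).2
    rw [← h6]
    refine integral_congr_ae ?_
    have hpw' := (ae_restrict_iff' isOpen_UH.measurableSet).1 hpw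
    filter_upwards [hpw'] with z hz
    by_cases hzU : z ∈ UH
    · rw [hz hzU, Complex.norm_real, Real.norm_eq_abs, sq_abs]
      ring
    · have h0 : ζ z = 0 := image_eq_zero_of_notMem_tsupport fun hh => hzU (h3 hh)
      rw [h0]; ring
  rw [s1, s2] at hn
  rw [Surf.surfAvg_eq, Surf.surfAvg_eq]
  have e1 : 3 * (((volume : Measure ℍ) D).toReal⁻¹ * ∫ z in D, f z * p z ^ 2) - ε
      = ((volume : Measure ℍ) D).toReal⁻¹ * (3 * (∫ z in D, f z * p z ^ 2)
        - ε * ((volume : Measure ℍ) D).toReal) := by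
    field_simp
  rw [e1]
  exact mul_le_mul_of_nonneg_left hn (by positivity)

/-- **The weighted form of the lower bound for the fourth moments**, with respect to the hyperbolic
area. -/
theorem weighted_fourthR [Countable Γ] (hD : IsFundamentalDomain Γ D (volume : Measure ℍ))
    (hK : ∃ K : Set ℍ, IsCompact K ∧ ∀ z, ∃ γ ∈ Γ, γ • z ∈ K)
    {φ : ℕ → ℍ → ℝ} (hc : ∀ n, Continuous (φ n)) (hinv : ∀ n, ∀ γ ∈ Γ, ∀ z, φ n (γ • z) = φ n z)
    (H : ∀ s : ℕ → ℕ, StrictMono s → (∃ C, ∀ n, surfAvg D (fun z => φ (s n) z ^ 4) ≤ C) →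
      ∃ t : ℕ → ℕ, StrictMono t ∧ ∃ p, GoodR Γ D (fun n => φ (s (t n))) p)
    {B₂ : ℝ} (hn : ∀ n, surfAvg D (fun z => φ n z ^ 2) ≤ B₂)
    {w g : ℍ → ℝ} (hw : Continuous w) (hw0 : ∀ z, 0 < w z) (hwi : ∀ γ ∈ Γ, ∀ z, w (γ • z) = w z)
    (hg : Continuous g) (hgi : ∀ γ ∈ Γ, ∀ z, g (γ • z) = g z) {ε : ℝ} (hε : 0 < ε) :
    ∀ᶠ n in atTop, 3 * surfAvg D (fun z => w z * g z * φ n z ^ 2) ^ 2 - ε
      ≤ surfAvg D (fun z => w z * g z ^ 2) * surfAvg D (fun z => w z * φ n z ^ 4) := by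
  by_contra hcon
  rw [Filter.not_eventually] at hcon
  obtain ⟨s, hsm, hsn⟩ := extraction_of_frequently_atTop hcon
  simp only [not_le] at hsn
  set a := surfAvg D (fun z => w z * g z ^ 2) with ha
  -- integrability
  have hInt : ∀ f : ℍ → ℝ, Continuous f → (∀ γ ∈ Γ, ∀ z, f (γ • z) = f z) →
      IntegrableOn f D (volume : Measure ℍ) := fun f hf hfi =>
    Surf.integrableOn_of_invariant hD hK hf hfi
  have iwg : IntegrableOn (fun z => w z * g z ^ 2) D (volume : Measure ℍ) :=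
    hInt _ (hw.mul (hg.pow 2)) fun γ hγ z => by rw [hwi γ hγ, hgi γ hγ]
  have i2 : ∀ n, IntegrableOn (fun z => w z * g z * φ n z ^ 2) D (volume : Measure ℍ) := fun n =>
    hInt _ ((hw.mul hg).mul ((hc n).pow 2)) fun γ hγ z => by
      rw [hwi γ hγ, hgi γ hγ, hinv n γ hγ]
  have i4 : ∀ n, IntegrableOn (fun z => w z * φ n z ^ 4) D (volume : Measure ℍ) := fun n =>
    hInt _ (hw.mul ((hc n).pow 4)) fun γ hγ z => by rw [hwi γ hγ, hinv n γ hγ]
  -- the Cauchy-Schwarz inequality for `φ n`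
  have hcs : ∀ n, surfAvg D (fun z => w z * g z * φ n z ^ 2) ^ 2
      ≤ a * surfAvg D (fun z => w z * φ n z ^ 4) := by
    intro n
    have e : (fun z => w z * (φ n z ^ 2) ^ 2) = fun z => w z * φ n z ^ 4 := by
      funext z; ring
    have h1 := avg_cs (D := D) (w := w) (g := g) (q := fun z => φ n z ^ 2) (fun z => (hw0 z).le) iwg
      (i2 n) (by rw [e]; exact i4 n)
    rw [e] at h1
    exact h1
  have ha0 : 0 ≤ a := Surf.surfAvg_nonneg fun z => mul_nonneg (hw0 z).le (sq_nonneg _)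
  -- boundedness of the second moments
  obtain ⟨B, hB⟩ := bdd_of_cocompact (hw.mul hg) (fun γ hγ z => by
    show w (γ • z) * g (γ • z) = w z * g z
    rw [hwi γ hγ, hgi γ hγ]) hK
  have hB0 : 0 ≤ B := (abs_nonneg _).trans (hB I)
  have i2' : ∀ n, IntegrableOn (fun z => φ n z ^ 2) D (volume : Measure ℍ) := fun n =>
    hInt _ ((hc n).pow 2) fun γ hγ z => by rw [hinv n γ hγ]
  have hv := Surf.vol_pos hD hK
  have hmono : ∀ f f' : ℍ → ℝ, IntegrableOn f D (volume : Measure ℍ) →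
      IntegrableOn f' D (volume : Measure ℍ) → (∀ z, f z ≤ f' z) → surfAvg D f ≤ surfAvg D f' := by
    intro f f' hf hf' hle
    rw [Surf.surfAvg_eq, Surf.surfAvg_eq]
    exact mul_le_mul_of_nonneg_left (integral_mono hf hf' hle) (by positivity)
  have hcB : ∀ n, surfAvg D (fun z => w z * g z * φ n z ^ 2) ^ 2 ≤ (B * B₂) ^ 2 := by
    intro n
    have h1 : surfAvg D (fun z => w z * g z * φ n z ^ 2) ≤ B * B₂ := by
      have := hmono _ (fun z => B * φ n z ^ 2) (i2 n) ((i2' n).const_mul B) fun z =>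
        mul_le_mul_of_nonneg_right ((le_abs_self _).trans (hB z)) (sq_nonneg _)
      rw [Surf.surfAvg_const_mul] at this
      exact this.trans (mul_le_mul_of_nonneg_left (hn n) hB0)
    have h2 : -(B * B₂) ≤ surfAvg D (fun z => w z * g z * φ n z ^ 2) := by
      have := hmono (fun z => (-B) * φ n z ^ 2) _ ((i2' n).const_mul (-B)) (i2 n) fun z =>
        mul_le_mul_of_nonneg_right ((neg_le_neg (hB z)).trans (neg_abs_le _)) (sq_nonneg _)
      rw [Surf.surfAvg_const_mul] at this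
      have h3 := mul_le_mul_of_nonneg_left (hn n) hB0
      linarith
    exact sq_le_sq' h2 h1
  rcases ha0.eq_or_lt with h0 | h0
  · have h1 := hcs (s 0)
    have h2 := hsn 0
    rw [← h0, zero_mul] at h1 h2
    linarith [sq_nonneg (surfAvg D (fun z => w z * g z * φ (s 0) z ^ 2))]
  -- the fourth moments are bounded
  obtain ⟨B', hB'⟩ := bdd_of_cocompact (f := fun z => 1 / w z)
    (continuous_const.div hw fun z => (hw0 z).ne') (fun γ hγ z => by rw [hwi γ hγ]) hK
  have hb4 : ∀ n, surfAvg D (fun z => φ (s n) z ^ 4) ≤ B' * (3 * (B * B₂) ^ 2 / a) := by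
    intro n
    have h1 : surfAvg D (fun z => w z * φ (s n) z ^ 4) ≤ 3 * (B * B₂) ^ 2 / a := by
      rw [le_div_iff₀ h0]
      have h2 := hsn n
      have h3 := hcB (s n)
      nlinarith
    have hB'0 : 0 ≤ B' := (abs_nonneg _).trans (hB' I)
    have i4' : IntegrableOn (fun z => φ (s n) z ^ 4) D (volume : Measure ℍ) :=
      hInt _ ((hc _).pow 4) fun γ hγ z => by rw [hinv _ γ hγ]
    have h2 := hmono _ (fun z => B' * (w z * φ (s n) z ^ 4)) i4' ((i4 _).const_mul _) fun z => by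
      have h3 : 1 / w z ≤ B' := (le_abs_self _).trans (hB' z)
      have h4 : 1 ≤ B' * w z := by
        rw [div_le_iff₀ (hw0 z)] at h3
        exact h3
      have h5 : 0 ≤ φ (s n) z ^ 4 := by positivity
      nlinarith
    rw [Surf.surfAvg_const_mul] at h2
    exact h2.trans (mul_le_mul_of_nonneg_left h1 hB'0)
  obtain ⟨t, ht, p, hgd⟩ := H s hsm ⟨_, hb4⟩
  obtain ⟨Bw, hBw⟩ := bdd_of_cocompact hw hwi hK
  have j2 : IntegrableOn (fun z => w z * g z * p z) D (volume : Measure ℍ) :=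
    Integrable.bdd_mul hgd.pI (hw.mul hg).aestronglyMeasurable.restrict
      (Eventually.of_forall fun z => by rw [Real.norm_eq_abs]; exact hB z)
  have j3 : IntegrableOn (fun z => w z * p z ^ 2) D (volume : Measure ℍ) :=
    Integrable.bdd_mul hgd.psq hw.aestronglyMeasurable.restrict
      (Eventually.of_forall fun z => by rw [Real.norm_eq_abs]; exact hBw z)
  have hcsp := avg_cs (D := D) (w := w) (g := g) (q := p) (fun z => (hw0 z).le) iwg j2 j3
  have hm := hgd.mass (fun z => w z * g z) (hw.mul hg) (fun γ hγ z => by rw [hwi γ hγ, hgi γ hγ])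
  have h1 := hgd.four w hw (fun z => (hw0 z).le) hwi (ε / (3 * a)) (by positivity)
  have h2 := ((hm.pow 2).const_mul 3).eventually_lt_const
    (show 3 * surfAvg D (fun z => w z * g z * p z) ^ 2
      < 3 * surfAvg D (fun z => w z * g z * p z) ^ 2 + ε / 3 by linarith)
  obtain ⟨n, hn1, hn2⟩ := (h1.and h2).exists
  have hn3 := hsn (t n)
  have e1 : a * (ε / (3 * a)) = ε / 3 := by field_simp
  have e2 := mul_le_mul_of_nonneg_left hn1 ha0
  rw [mul_sub, e1] at e2
  nlinarith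

/-! ### linear statistics -/

theorem wt_aR {z : ℂ} (hz : z ∈ UH) : wt (gw ρ) z = aR ρ z := by
  have h1 : wt (gw ρ) z = (z.im : ℂ) * (Real.exp (-ρ (ofComplex z)) : ℂ) :=
    wt_gw (show 0 < z.im from hz)
  rw [h1]
  unfold aR ro
  push_cast
  rfl

/-- the setting of the correlations of the local waves -/
theorem LimSeqR.ws [Countable Γ] (hDm : MeasurableSet D)
    (hD : IsFundamentalDomain Γ D (volume : Measure ℍ)) (hF : Fac Γ ρ) {φ : ℕ → ℍ → ℝ} {m : ℕ → ℝ}
    {u : ℤ → ℂ → ℂ} {p : ℍ → ℝ} (L : LimSeqR Γ ρ D φ m u p) :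
    WS Γ ρ D φ m (fun n => 1 / m n) (gR ρ) where
  geo := geo_of hDm hD hF.cpt (continuous_of_smooth hF.smooth) hF.inv
  coc := hF.cpt
  rc := continuous_of_smooth hF.smooth
  pc := L.cont
  pinv := L.inv
  mpos := fun n => by have := L.one n; linarith
  mlim := L.tend
  hm := fun _ => rfl
  set := L.set.congr_a fun z hz => wt_aR hz

variable {φ : ℕ → ℍ → ℝ} {m : ℕ → ℝ} {u : ℤ → ℂ → ℂ} {p : ℍ → ℝ} {r : ℕ}

/-- the rotation averages in the two settings -/
theorem LimSeqR.rot_eq [Countable Γ] (hDm : MeasurableSet D)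
    (hD : IsFundamentalDomain Γ D (volume : Measure ℍ)) (hF : Fac Γ ρ)
    (L : LimSeqR Γ ρ D φ m u p)
    (c : Fin r → ℝ) (x : Fin r → ℂ) {ψ : ℂ → ℝ} (hψ : ContDiff ℝ ∞ ψ)
    (hψs : HasCompactSupport ψ) (hψU : tsupport ψ ⊆ HH) :
    ∀ᶠ n in atTop, (∑ q : Fin 4 → Fin r, (∏ j, (c (q j) : ℂ))
        * Setup.rotP (fun n => 1 / m n) (aR ρ) (fun n z => (φ n (ofComplex z) : ℂ))
          (fun z => (ψ z : ℂ)) (fun i => frXi (fun n => 1 / m n) (em ρ) (x i)) q n).re
      = ∑ q : Fin 4 → Fin r, (∏ j, c (q j))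
        * ∫ z, ψ z * angProd ρ (φ n) (m n) (fun j => x (q j)) (ofComplex z) := by
  have W := L.ws hDm hD hF
  have h1 : ∀ᶠ n in atTop, ∀ q : Fin 4 → Fin r, _ :=
    eventually_all.2 fun q => W.ang_eq (fun j => x (q j)) hψ hψs hψU
  filter_upwards [h1] with n hn
  rw [Complex.re_sum]
  refine Finset.sum_congr rfl fun q _ => ?_
  have e1 : Setup.rotP (fun n => 1 / m n) (aR ρ) (fun n z => (φ n (ofComplex z) : ℂ))
          (fun z => (ψ z : ℂ)) (fun i => frXi (fun n => 1 / m n) (em ρ) (x i)) q n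
      = ∫ θ, (∫ z, (ψ z : ℂ) * ∏ i, (φ n (ofComplex (z + ((1 / m n : ℝ) : ℂ) * wt (gw ρ) z
        * frXi (fun n => 1 / m n) (em ρ) (x (q i)) n θ z)) : ℂ)) ∂ang := by
    unfold Setup.rotP
    refine integral_congr_ae (Eventually.of_forall fun θ => ?_)
    refine integral_congr_ae (Eventually.of_forall fun z => ?_)
    beta_reduce
    by_cases hz : z ∈ UH
    · rw [wt_aR hz]
    · have : ψ z = 0 := image_eq_zero_of_notMem_tsupport fun hh => hz (hψU hh)
      rw [this]; simp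
  rw [e1, hn q, ← Complex.ofReal_prod, ← Complex.ofReal_mul, Complex.ofReal_re]

/-- **The lower bound for linear statistics.** -/
theorem LimSeqR.lin_lower [Countable Γ] (hDm : MeasurableSet D)
    (hD : IsFundamentalDomain Γ D (volume : Measure ℍ)) (hF : Fac Γ ρ)
    (L : LimSeqR Γ ρ D φ m u p)
    {w : ℍ → ℝ} (hw : Continuous w) (hw0 : ∀ z, 0 ≤ w z) (hwi : ∀ γ ∈ Γ, ∀ z, w (γ • z) = w z)
    (c : Fin r → ℝ) (x : Fin r → ℂ) {ε : ℝ} (hε : 0 < ε) :
    ∀ᶠ n in atTop, statVar c x ^ 2 * rAvg ρ D (fun z => w z * φ n z ^ 4) - ε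
      ≤ ∫ p, w p.1 * (∑ i, c i * rWave ρ (φ n) (m n) (x i) p) ^ 4 ∂(rFrameProb ρ D) := by
  have W := L.ws hDm hD hF
  have key := W.stat_ge hw hw0 hwi 1 (statVar c x ^ 2) c x (fun ψ hψ hψs hψU hψ0 ε hε => by
    obtain ⟨δ, hδ, hδU⟩ := exists_thick hψs hψU
    have h1 := Setup.lin_local_lower L.set ⟨L.loc, L.lim⟩ hψs hδ hδU (κ := 2) two_ne_zero c x
      (fun i => frXi (fun n => 1 / m n) (em ρ) (x i))
      (fun i => (W.disp hψs hψU (x i)).congr_a fun z hz => (wt_aR (hψU hz)).symm)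
      hψ hψs le_rfl hψ0 (L.fej ψ hψ.continuous hψs hψU hψ0) hε
    filter_upwards [h1, L.rot_eq hDm hD hF c x hψ hψs hψU] with n n1 n2
    rw [n2, int_re_four (fun z => φ n (ofComplex z))] at n1
    linarith) hε
  filter_upwards [key] with n hn
  linarith

/-- **The lower bound for the fourth moments of linear statistics**, for all sequences. -/
theorem lin_lowerR (hSet : StmtSetup) (hLim : StmtLim) (hA : StmtAtoms) [Countable Γ]
    (hDm : MeasurableSet D) (hD : IsFundamentalDomain Γ D (volume : Measure ℍ))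
    (hF : Fac Γ ρ) (hpos : ∀ z, 0 < lapR ρ z)
    (hφ : REigenSeq Γ ρ φ m)
    (hs : ∀ n, ContDiffOn ℝ ∞ (fun w : ℂ => φ n (ofComplex w)) {w | 0 < w.im})
    {w : ℍ → ℝ} (hw : Continuous w) (hw0 : ∀ z, 0 ≤ w z) (hwi : ∀ γ ∈ Γ, ∀ z, w (γ • z) = w z)
    (c : Fin r → ℝ) (x : Fin r → ℂ) {ε : ℝ} (hε : 0 < ε) :
    ∀ᶠ n in atTop, statVar c x ^ 2 * rAvg ρ D (fun z => w z * φ n z ^ 4)
        - ε * surfAvg D (fun z => φ n z ^ 4)
      ≤ ∫ p, w p.1 * (∑ i, c i * rWave ρ (φ n) (m n) (x i) p) ^ 4 ∂(rFrameProb ρ D) := by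
  have hK := hF.cpt
  by_contra hcon
  rw [Filter.not_eventually] at hcon
  obtain ⟨s, hsm, hsn⟩ := extraction_of_frequently_atTop hcon
  simp only [not_le] at hsn
  have hc : ∀ n, Continuous (φ n) := fun n => continuous_of_smooth (hs n)
  set A : ℕ → ℝ := fun n => surfAvg D (fun z => φ (s n) z ^ 4) with hA'
  have hA0 : ∀ n, 0 ≤ A n := fun n => integral_nonneg fun z => by positivity
  have hA1 : ∀ n, 0 < A n := by
    intro n
    rcases (hA0 n).eq_or_lt with h0 | h0
    · exfalso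
      have h1 := eq_zero_of_avg hD hK (hc (s n)) (hφ.invariant _) h0.symm
      have h2 : φ (s n) = fun _ => 0 := funext h1
      have h3 := hsn n
      rw [h2] at h3
      unfold rAvg surfAvg rWave at h3
      simp at h3
    · exact h0
  set b : ℕ → ℝ := fun n => (rt4 (A n))⁻¹ with hbdef
  have hrt : ∀ n, rt4 (A n) ^ 4 = A n := fun n => rt4_pow (hA0 n)
  have hrt0 : ∀ n, 0 < rt4 (A n) := by
    intro n
    rcases (rt4_nonneg (A n)).eq_or_lt with h2 | h2
    · exfalso
      have h3 := hrt n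
      rw [← h2] at h3
      have := hA1 n
      norm_num at h3
      linarith
    · exact h2
  have hb0 : ∀ n, 0 < b n := fun n => inv_pos.2 (hrt0 n)
  have hb4 : ∀ n, b n ^ 4 * A n = 1 := by
    intro n
    rw [hbdef]
    simp only
    rw [inv_pow, hrt, inv_mul_cancel₀ (hA1 n).ne']
  -- the normalised sequence
  have hE := reig_comp hφ hsm.tendsto_atTop
  have hψE := reig_scale hE b
  have hψs : ∀ n, ContDiffOn ℝ ∞ (fun w : ℂ => b n * φ (s n) (ofComplex w)) {w | 0 < w.im} :=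
    fun n => contDiffOn_const.mul (hs (s n))
  have e2 : ∀ n, surfAvg D (fun z => (b n * φ (s n) z) ^ 4) = b n ^ 4 * A n := by
    intro n
    rw [hA']
    unfold surfAvg
    rw [← integral_const_mul]
    congr 1; funext z; ring
  have h4 : ∀ n, surfAvg D (fun z => (b n * φ (s n) z) ^ 4) = 1 := fun n => by rw [e2, hb4]
  obtain ⟨t, ht, u, p, L⟩ := exists_limSeqR hSet hLim hA hDm hD hF hpos hψE hψs
    (fun n => (h4 n).le)
  obtain ⟨n, hn⟩ := (L.lin_lower hDm hD hF hw hw0 hwi c x hε).exists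
  have h5 := hsn (t n)
  set k := t n with hk
  have e1 : rAvg ρ D (fun z => w z * (b k * φ (s k) z) ^ 4)
      = b k ^ 4 * rAvg ρ D (fun z => w z * φ (s k) z ^ 4) := by
    unfold rAvg
    rw [← integral_const_mul]
    congr 1; funext z; ring
  have e3 : ∫ p, w p.1 * (∑ i, c i * rWave ρ (fun z => b k * φ (s k) z) (m (s k)) (x i) p) ^ 4
        ∂(rFrameProb ρ D)
      = b k ^ 4 * ∫ p, w p.1 * (∑ i, c i * rWave ρ (φ (s k)) (m (s k)) (x i) p) ^ 4
        ∂(rFrameProb ρ D) := by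
    rw [← integral_const_mul]
    congr 1; funext p
    have : ∑ i, c i * rWave ρ (fun z => b k * φ (s k) z) (m (s k)) (x i) p
        = b k * ∑ i, c i * rWave ρ (φ (s k)) (m (s k)) (x i) p := by
      rw [Finset.mul_sum]
      refine Finset.sum_congr rfl fun i _ => ?_
      unfold rWave; ring
    rw [this]; ring
  rw [e1, e3] at hn
  have hb4' : 0 < b k ^ 4 := by have := hb0 k; positivity
  have h6 := mul_lt_mul_of_pos_left h5 hb4'
  have h7 := hb4 k
  have h8 : b k ^ 4 * (statVar c x ^ 2 * rAvg ρ D (fun z => w z * φ (s k) z ^ 4) - ε * A k)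
      = statVar c x ^ 2 * (b k ^ 4 * rAvg ρ D (fun z => w z * φ (s k) z ^ 4))
        - ε * (b k ^ 4 * A k) := by ring
  rw [h7] at h8
  have h9 : surfAvg D (fun z => φ (s k) z ^ 4) = A k := rfl
  rw [h9] at h6
  linarith

/-- **The final result.** -/
theorem stmtFinal (hSet : StmtSetup) (hLim : StmtLim) (hA : StmtAtoms) : StmtFinal := by
  intro Γ _ ρ hρs hρΓ hpos D hDm hD hK φ m hφ hs hn w g hw hw0 hwi hg hgi r c x ε hε
  have hF : Fac Γ ρ := ⟨hρs, hρΓ, hK⟩
  have hρc : Continuous ρ := continuous_of_smooth hρs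
  have hc : ∀ n, Continuous (φ n) := fun n => continuous_of_smooth (hs n)
  have e : statVar c x = ∑ i, ∑ j, c i * c j * waveK (x i - x j) := by
    unfold statVar
    rw [← Fintype.sum_prod_type (f := fun q : Fin r × Fin r => c q.1 * c q.2 * waveK (x q.1 - x q.2))]
    refine Fintype.sum_equiv (finTwoArrowEquiv (Fin r)) _ _ fun q => ?_
    simp [Fin.prod_univ_two, finTwoArrowEquiv]
  rw [← e]
  obtain ⟨A, hA0, hAv⟩ := exists_rAvg_eq hDm hD hK hρc hρΓ
  -- the weight of the area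
  set v : ℍ → ℝ := fun z => Real.exp (2 * ρ z) with hv
  have hvc : Continuous v := Real.continuous_exp.comp (continuous_const.mul hρc)
  have hv0 : ∀ z, 0 < v z := fun z => Real.exp_pos _
  have hvi : ∀ γ ∈ Γ, ∀ z, v (γ • z) = v z := fun γ hγ z => by simp only [hv, hρΓ γ hγ]
  set w' : ℍ → ℝ := fun z => v z * w z with hw'
  have hw'c : Continuous w' := hvc.mul hw
  have hw'0 : ∀ z, 0 < w' z := fun z => mul_pos (hv0 z) (hw0 z)
  have hw'i : ∀ γ ∈ Γ, ∀ z, w' (γ • z) = w' z := fun γ hγ z => by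
    simp only [hw', hvi γ hγ, hwi γ hγ]
  have a1 : rAvg ρ D (fun z => w z * g z ^ 2) = A * surfAvg D (fun z => w' z * g z ^ 2) := by
    rw [hAv]; congr 2; funext z; simp only [hw', hv]; ring
  have a2 : ∀ n, rAvg ρ D (fun z => w z * g z * φ n z ^ 2)
      = A * surfAvg D (fun z => w' z * g z * φ n z ^ 2) := fun n => by
    rw [hAv]; congr 2; funext z; simp only [hw', hv]; ring
  have a4 : ∀ n, rAvg ρ D (fun z => w z * φ n z ^ 4)
      = A * surfAvg D (fun z => w' z * φ n z ^ 4) := fun n => by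
    rw [hAv]; congr 2; funext z; simp only [hw', hv]; ring
  have hInt : ∀ f : ℍ → ℝ, Continuous f → (∀ γ ∈ Γ, ∀ z, f (γ • z) = f z) →
      IntegrableOn f D (volume : Measure ℍ) := fun f hf hfi =>
    Surf.integrableOn_of_invariant hD hK hf hfi
  have hmono : ∀ f f' : ℍ → ℝ, IntegrableOn f D (volume : Measure ℍ) →
      IntegrableOn f' D (volume : Measure ℍ) → (∀ z, f z ≤ f' z) → surfAvg D f ≤ surfAvg D f' := by
    intro f f' hf hf' hle
    rw [Surf.surfAvg_eq, Surf.surfAvg_eq]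
    exact mul_le_mul_of_nonneg_left (integral_mono hf hf' hle) (by positivity)
  have i2 : ∀ n, IntegrableOn (fun z => w' z * g z * φ n z ^ 2) D (volume : Measure ℍ) := fun n =>
    hInt _ ((hw'c.mul hg).mul ((hc n).pow 2)) fun γ hγ z => by
      rw [hw'i γ hγ, hgi γ hγ, hφ.invariant n γ hγ]
  have i2' : ∀ n, IntegrableOn (fun z => φ n z ^ 2) D (volume : Measure ℍ) := fun n =>
    hInt _ ((hc n).pow 2) fun γ hγ z => by rw [hφ.invariant n γ hγ]
  have iv2 : ∀ n, IntegrableOn (fun z => v z * φ n z ^ 2) D (volume : Measure ℍ) := fun n =>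
    hInt _ (hvc.mul ((hc n).pow 2)) fun γ hγ z => by rw [hvi γ hγ, hφ.invariant n γ hγ]
  have i4 : ∀ n, IntegrableOn (fun z => w' z * φ n z ^ 4) D (volume : Measure ℍ) := fun n =>
    hInt _ (hw'c.mul ((hc n).pow 4)) fun γ hγ z => by rw [hw'i γ hγ, hφ.invariant n γ hγ]
  have i4' : ∀ n, IntegrableOn (fun z => φ n z ^ 4) D (volume : Measure ℍ) := fun n =>
    hInt _ ((hc n).pow 4) fun γ hγ z => by rw [hφ.invariant n γ hγ]
  -- the second moments are bounded
  obtain ⟨Bv, hBv⟩ := bdd_of_cocompact (f := fun z => 1 / v z)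
    (continuous_const.div hvc fun z => (hv0 z).ne') (fun γ hγ z => by rw [hvi γ hγ]) hK
  have hBv0 : 0 ≤ Bv := (abs_nonneg _).trans (hBv I)
  have hn2 : ∀ n, surfAvg D (fun z => φ n z ^ 2) ≤ Bv * A⁻¹ := by
    intro n
    have h1 : A * surfAvg D (fun z => v z * φ n z ^ 2) = 1 := by
      rw [← hn n, hAv]
    have h2 : surfAvg D (fun z => v z * φ n z ^ 2) = A⁻¹ := by
      field_simp
      linarith
    have h3 := hmono _ (fun z => Bv * (v z * φ n z ^ 2)) (i2' n) ((iv2 n).const_mul _) fun z => by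
      have h3 : 1 / v z ≤ Bv := (le_abs_self _).trans (hBv z)
      have h4 : 1 ≤ Bv * v z := by
        rw [div_le_iff₀ (hv0 z)] at h3
        exact h3
      have h5 : 0 ≤ φ n z ^ 2 := by positivity
      nlinarith
    rw [Surf.surfAvg_const_mul, h2] at h3
    exact h3
  obtain ⟨B, hB⟩ := bdd_of_cocompact (hw'c.mul hg) (fun γ hγ z => by
    show w' (γ • z) * g (γ • z) = w' z * g z
    rw [hw'i γ hγ, hgi γ hγ]) hK
  have hB0 : 0 ≤ B := (abs_nonneg _).trans (hB I)
  set B₃ : ℝ := A * (B * (Bv * A⁻¹)) with hB₃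
  have hcB : ∀ n, rAvg ρ D (fun z => w z * g z * φ n z ^ 2) ^ 2 ≤ B₃ ^ 2 := by
    intro n
    rw [a2]
    have h1 : surfAvg D (fun z => w' z * g z * φ n z ^ 2) ≤ B * (Bv * A⁻¹) := by
      have := hmono _ (fun z => B * φ n z ^ 2) (i2 n) ((i2' n).const_mul B) fun z =>
        mul_le_mul_of_nonneg_right ((le_abs_self _).trans (hB z)) (sq_nonneg _)
      rw [Surf.surfAvg_const_mul] at this
      exact this.trans (mul_le_mul_of_nonneg_left (hn2 n) hB0)
    have h2 : -(B * (Bv * A⁻¹)) ≤ surfAvg D (fun z => w' z * g z * φ n z ^ 2) := by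
      have := hmono (fun z => (-B) * φ n z ^ 2) _ ((i2' n).const_mul (-B)) (i2 n) fun z =>
        mul_le_mul_of_nonneg_right ((neg_le_neg (hB z)).trans (neg_abs_le _)) (sq_nonneg _)
      rw [Surf.surfAvg_const_mul] at this
      have h3 := mul_le_mul_of_nonneg_left (hn2 n) hB0
      linarith
    have h3 := mul_le_mul_of_nonneg_left h1 hA0.le
    have h4 := mul_le_mul_of_nonneg_left h2 hA0.le
    refine sq_le_sq' ?_ h3
    rw [hB₃]; linarith
  -- fourth moments with and without the weight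
  obtain ⟨B', hB'⟩ := bdd_of_cocompact (f := fun z => 1 / w' z)
    (continuous_const.div hw'c fun z => (hw'0 z).ne') (fun γ hγ z => by rw [hw'i γ hγ]) hK
  have hB'0 : 0 ≤ B' := (abs_nonneg _).trans (hB' I)
  have h4le : ∀ n, surfAvg D (fun z => φ n z ^ 4)
      ≤ B' * A⁻¹ * rAvg ρ D (fun z => w z * φ n z ^ 4) := by
    intro n
    have h2 := hmono _ (fun z => B' * (w' z * φ n z ^ 4)) (i4' n) ((i4 n).const_mul _) fun z => by
      have h3 : 1 / w' z ≤ B' := (le_abs_self _).trans (hB' z)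
      have h4 : 1 ≤ B' * w' z := by
        rw [div_le_iff₀ (hw'0 z)] at h3
        exact h3
      have h5 : 0 ≤ φ n z ^ 4 := by positivity
      nlinarith
    rw [Surf.surfAvg_const_mul] at h2
    refine h2.trans (le_of_eq ?_)
    rw [a4]
    field_simp
  -- nonnegativity
  set a := rAvg ρ D (fun z => w z * g z ^ 2) with ha
  have ha0 : 0 ≤ a := integral_nonneg fun z => mul_nonneg (hw0 z).le (sq_nonneg _)
  set τ := statVar c x ^ 2 with hτ
  have hτ0 : 0 ≤ τ := sq_nonneg _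
  have hE0 : ∀ n, 0 ≤ ∫ p, w p.1 * (∑ i, c i * rWave ρ (φ n) (m n) (x i) p) ^ 4
      ∂(rFrameProb ρ D) := fun n =>
    integral_nonneg fun p => mul_nonneg (hw0 _).le (by positivity)
  rcases hτ0.eq_or_lt with h0 | h0
  · refine Eventually.of_forall fun n => ?_
    rw [← h0, mul_zero, zero_mul]
    have := mul_nonneg ha0 (hE0 n)
    linarith
  -- the parameters
  set δ : ℝ := min τ (ε / (6 * (B₃ ^ 2 + 1))) with hδ
  have hδ0 : 0 < δ := lt_min h0 (by positivity)
  have hδτ : δ ≤ τ := min_le_left _ _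
  have hδε : 3 * B₃ ^ 2 * δ ≤ ε / 2 := by
    have h1 : δ ≤ ε / (6 * (B₃ ^ 2 + 1)) := min_le_right _ _
    have h2 : 3 * B₃ ^ 2 * δ ≤ 3 * B₃ ^ 2 * (ε / (6 * (B₃ ^ 2 + 1))) :=
      mul_le_mul_of_nonneg_left h1 (by positivity)
    refine h2.trans ?_
    rw [mul_div_assoc', div_le_div_iff₀ (by positivity) (by norm_num)]
    nlinarith [sq_nonneg B₃]
  have hG : ∀ s : ℕ → ℕ, StrictMono s → (∃ C, ∀ n, surfAvg D (fun z => φ (s n) z ^ 4) ≤ C) →
      ∃ t : ℕ → ℕ, StrictMono t ∧ ∃ p, GoodR Γ D (fun n => φ (s (t n))) p := by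
    rintro s hsm ⟨C, hC⟩
    obtain ⟨t, ht, u, p, L⟩ := exists_limSeqR hSet hLim hA hDm hD hF hpos
      (reig_comp hφ hsm.tendsto_atTop) (fun n => hs _) hC
    exact ⟨t, ht, p, L.good hD hK⟩
  have h1 := weighted_fourthR hD hK hc hφ.invariant hG hn2 hw'c hw'0 hw'i hg hgi
    (ε := ε / (2 * τ) / A ^ 2) (by positivity)
  have h2 := lin_lowerR hSet hLim hA hDm hD hF hpos hφ hs hw (fun z => (hw0 z).le) hwi c x
    (ε := δ / (B' * A⁻¹ + 1)) (by positivity)
  filter_upwards [h1, h2] with n hn1 hn2'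
  -- the inequality for the averages with respect to the area of the metric
  have hn1' : 3 * rAvg ρ D (fun z => w z * g z * φ n z ^ 2) ^ 2 - ε / (2 * τ)
      ≤ a * rAvg ρ D (fun z => w z * φ n z ^ 4) := by
    rw [a1, a2, a4]
    have h3 := mul_le_mul_of_nonneg_left hn1 (sq_nonneg A)
    have h4 : A ^ 2 * (3 * surfAvg D (fun z => w' z * g z * φ n z ^ 2) ^ 2
        - ε / (2 * τ) / A ^ 2)
        = 3 * (A * surfAvg D (fun z => w' z * g z * φ n z ^ 2)) ^ 2 - ε / (2 * τ) := by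
      field_simp
    rw [h4] at h3
    linarith
  set A4 := rAvg ρ D (fun z => w z * φ n z ^ 4) with hA4
  set b := rAvg ρ D (fun z => w z * g z * φ n z ^ 2) with hb
  set E4 := ∫ p, w p.1 * (∑ i, c i * rWave ρ (φ n) (m n) (x i) p) ^ 4 ∂(rFrameProb ρ D) with hE4
  have hA40 : 0 ≤ A4 := integral_nonneg fun z => mul_nonneg (hw0 z).le (by positivity)
  have hBA0 : 0 ≤ B' * A⁻¹ := by positivity
  have h3 : (τ - δ) * A4 ≤ E4 := by
    have h4 : δ / (B' * A⁻¹ + 1) * surfAvg D (fun z => φ n z ^ 4) ≤ δ * A4 := by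
      calc δ / (B' * A⁻¹ + 1) * surfAvg D (fun z => φ n z ^ 4)
          ≤ δ / (B' * A⁻¹ + 1) * (B' * A⁻¹ * A4) :=
            mul_le_mul_of_nonneg_left (h4le n) (by positivity)
        _ = δ * A4 * (B' * A⁻¹ / (B' * A⁻¹ + 1)) := by ring
        _ ≤ δ * A4 * 1 := by
            refine mul_le_mul_of_nonneg_left ?_ (by positivity)
            exact (div_le_one (by positivity)).2 (by linarith)
        _ = δ * A4 := mul_one _
    linarith
  have h5 : (τ - δ) * (a * A4) ≤ a * E4 := by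
    calc (τ - δ) * (a * A4) = a * ((τ - δ) * A4) := by ring
      _ ≤ a * E4 := mul_le_mul_of_nonneg_left h3 ha0
  have h6 : (τ - δ) * (3 * b ^ 2 - ε / (2 * τ)) ≤ (τ - δ) * (a * A4) :=
    mul_le_mul_of_nonneg_left hn1' (by linarith)
  have h7 : τ * (ε / (2 * τ)) = ε / 2 := by field_simp
  have h8 : 0 ≤ δ * (ε / (2 * τ)) := by positivity
  have h9 : 3 * b ^ 2 * δ ≤ ε / 2 := by
    refine le_trans ?_ hδε
    have := hcB n
    nlinarith
  nlinarith

end

end NC

end QE
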