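import Mathlib

/-!
# Friedrichs' lemma for Lipschitz functions (module NC_INV, helper38)
-/

open MeasureTheory Filter Topology Set Metric
open scoped ContDiff NNReal Convolution

namespace QE

namespace NC

namespace Fried

noncomputable section

variable {E : Type} [NormedAddCommGroup E] [NormedSpace ℝ E] [FiniteDimensional ℝ E]
  [MeasurableSpace E] [BorelSpace E]

/-- the bump of radius `1 / (n + 1)` -/
def bmp (n : ℕ) : ContDiffBump (0 : E) :=
  ⟨1 / (n + 1) / 2, 1 / (n + 1), by positivity, by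
    have : (0 : ℝ) < 1 / (n + 1) := by positivity
    linarith⟩

/-- the mollified function -/
def mol (μ : Measure E) (F : E → ℂ) (n : ℕ) : E → ℂ :=
  (bmp n).normed μ ⋆[ContinuousLinearMap.lsmul ℝ ℝ, μ] F

variable {μ : Measure E} [μ.IsAddHaarMeasure] {F : E → ℂ}

theorem mol_apply (F : E → ℂ) (n : ℕ) (x : E) :
    mol μ F n x = ∫ t, (bmp n).normed μ t • F (x - t) ∂μ := rfl

theorem mol_smooth (hF : Continuous F) (n : ℕ) : ContDiff ℝ ∞ (mol μ F n) :=
  (bmp n).hasCompactSupport_normed.contDiff_convolution_left _ (bmp n).contDiff_normed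
    hF.locallyIntegrable

theorem mol_supp (hc : HasCompactSupport F) (n : ℕ) : HasCompactSupport (mol μ F n) :=
  (bmp n).hasCompactSupport_normed.convolution _ hc

theorem mol_int (hF : Continuous F) (n : ℕ) (x : E) :
    Integrable (fun t => (bmp n).normed μ t • F (x - t)) μ := by
  refine Continuous.integrable_of_hasCompactSupport ?_ ?_
  · exact (bmp n).continuous_normed.smul (hF.comp (continuous_const.sub continuous_id))
  · exact (bmp n).hasCompactSupport_normed.smul_right

theorem mol_lip {K : ℝ≥0} (hF : LipschitzWith K F) (n : ℕ) : LipschitzWith K (mol μ F n) := by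
  refine LipschitzWith.of_dist_le_mul fun x y => ?_
  rw [dist_eq_norm, dist_eq_norm, mol_apply, mol_apply, ← integral_sub (mol_int hF.continuous n x)
    (mol_int hF.continuous n y)]
  have h1 : ∀ t, ‖(bmp n).normed μ t • F (x - t) - (bmp n).normed μ t • F (y - t)‖ ≤
      (bmp n).normed μ t * (K * ‖x - y‖) := by
    intro t
    rw [← smul_sub, norm_smul, Real.norm_of_nonneg ((bmp n).nonneg_normed t)]
    refine mul_le_mul_of_nonneg_left ?_ ((bmp n).nonneg_normed t)
    have := hF.dist_le_mul (x - t) (y - t)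
    rwa [dist_eq_norm, dist_eq_norm, sub_sub_sub_cancel_right] at this
  refine (norm_integral_le_of_norm_le ((bmp n).integrable_normed.mul_const _)
    (ae_of_all _ h1)).trans ?_
  rw [integral_mul_const, (bmp n).integral_normed, one_mul]

theorem mol_fderiv {K : ℝ≥0} (hF : LipschitzWith K F) (n : ℕ) (x : E) :
    ‖fderiv ℝ (mol μ F n) x‖ ≤ K :=
  norm_fderiv_le_of_lipschitz ℝ (mol_lip hF n)

/-- the main estimate -/
theorem mol_est {K : ℝ≥0} (hF : LipschitzWith K F) {W : E → E} {Y : E → ℂ} (hW : Continuous W)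
    (hY : Continuous Y) (hd : ∀ q, HasLineDerivAt ℝ F (Y q) q (W q)) (n : ℕ) (x : E) {δ : ℝ}
    (h1 : ∀ t, ‖t‖ < 1 / (n + 1) → ‖W x - W (x - t)‖ ≤ δ)
    (h2 : ∀ t, ‖t‖ < 1 / (n + 1) → ‖Y (x - t) - Y x‖ ≤ δ) :
    ‖fderiv ℝ (mol μ F n) x (W x) - Y x‖ ≤ (K + 1) * δ := by
  set φ : E → ℝ := (bmp n).normed μ with hφ
  have hφ0 : ∀ t, 0 ≤ φ t := fun t => (bmp n).nonneg_normed t
  have hφc : Continuous φ := (bmp n).continuous_normed
  have hφs : HasCompactSupport φ := (bmp n).hasCompactSupport_normed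
  have hφi : Integrable φ μ := (bmp n).integrable_normed
  have hφ1 : ∫ t, φ t ∂μ = 1 := (bmp n).integral_normed
  have hφz : ∀ t, ¬ ‖t‖ < 1 / (n + 1) → φ t = 0 := by
    intro t ht
    by_contra h
    have h3 : t ∈ Function.support ((bmp n).normed μ) := h
    rw [(bmp n).support_normed_eq, mem_ball_zero_iff] at h3
    exact ht h3
  -- the difference quotients
  set g : ℝ → E → ℂ := fun s t => φ t • (s⁻¹ • (F (x - t + s • W x) - F (x - t))) with hg
  set h : ℝ → E → ℂ := fun s t => φ t • (s⁻¹ • (F (x - t + s • W (x - t)) - F (x - t))) with hh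
  have hgc : ∀ s, Continuous (g s) := by
    intro s
    have := hF.continuous
    simp only [hg]
    fun_prop
  have hhc : ∀ s, Continuous (h s) := by
    intro s
    have := hF.continuous
    simp only [hh]
    fun_prop
  have hgi : ∀ s, Integrable (g s) μ := fun s =>
    (hgc s).integrable_of_hasCompactSupport hφs.smul_right
  have hhi : ∀ s, Integrable (h s) μ := fun s =>
    (hhc s).integrable_of_hasCompactSupport hφs.smul_right
  -- first limit
  have l1 : Tendsto (fun s => ∫ t, g s t ∂μ) (𝓝[≠] 0) (𝓝 (fderiv ℝ (mol μ F n) x (W x))) := by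
    have hdiff : DifferentiableAt ℝ (mol μ F n) x :=
      ((mol_smooth hF.continuous n).differentiable (by simp)) x
    have e := hdiff.hasFDerivAt.hasLineDerivAt (W x)
    have e2 := (hasDerivAt_iff_tendsto_slope_zero (𝕜 := ℝ)).1 e
    refine e2.congr fun s => ?_
    simp only [zero_add, zero_smul, add_zero]
    rw [mol_apply, mol_apply, ← integral_sub (mol_int hF.continuous n _)
      (mol_int hF.continuous n _), ← integral_smul]
    refine integral_congr_ae (ae_of_all _ fun t => ?_)
    simp only [hg, hφ]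
    rw [← smul_sub, smul_comm]
    congr 4
    abel_nf
  -- second limit
  have l2 : Tendsto (fun s => ∫ t, h s t ∂μ) (𝓝[≠] 0) (𝓝 (∫ t, φ t • Y (x - t) ∂μ)) := by
    refine tendsto_integral_filter_of_dominated_convergence
      (fun t => φ t * (K * ‖W (x - t)‖)) ?_ ?_ ?_ ?_
    · exact Eventually.of_forall fun s => (hhc s).aestronglyMeasurable
    · filter_upwards [self_mem_nhdsWithin] with s hs
      have hs' : s ≠ 0 := hs
      refine ae_of_all _ fun t => ?_
      simp only [hh]
      rw [norm_smul, Real.norm_of_nonneg (hφ0 t)]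
      refine mul_le_mul_of_nonneg_left ?_ (hφ0 t)
      rw [norm_smul, norm_inv]
      have e1 := hF.dist_le_mul (x - t + s • W (x - t)) (x - t)
      rw [dist_eq_norm, dist_eq_norm, add_sub_cancel_left, norm_smul] at e1
      have hs0 : 0 < ‖s‖ := norm_pos_iff.2 hs'
      rw [inv_mul_le_iff₀ hs0]
      linarith
    · refine Continuous.integrable_of_hasCompactSupport ?_ ?_
      · fun_prop
      · exact hφs.mul_right
    · refine ae_of_all _ fun t => ?_
      have e2 := (hasDerivAt_iff_tendsto_slope_zero (𝕜 := ℝ)).1 (hd (x - t))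
      simp only [zero_add, zero_smul, add_zero] at e2
      exact e2.const_smul (φ t)
  -- comparison
  have l3 : ∀ s : ℝ, s ≠ 0 → ‖(∫ t, g s t ∂μ) - ∫ t, h s t ∂μ‖ ≤ K * δ := by
    intro s hs
    rw [← integral_sub (hgi s) (hhi s)]
    have e0 : ∀ t, ‖g s t - h s t‖ ≤ φ t * (K * δ) := by
      intro t
      simp only [hg, hh]
      rw [← smul_sub, ← smul_sub, sub_sub_sub_cancel_right, norm_smul,
        Real.norm_of_nonneg (hφ0 t)]
      by_cases ht : ‖t‖ < 1 / (n + 1)
      · refine mul_le_mul_of_nonneg_left ?_ (hφ0 t)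
        rw [norm_smul, norm_inv]
        have e1 := hF.dist_le_mul (x - t + s • W x) (x - t + s • W (x - t))
        rw [dist_eq_norm, dist_eq_norm, add_sub_add_left_eq_sub, ← smul_sub, norm_smul] at e1
        have hs0 : 0 < ‖s‖ := norm_pos_iff.2 hs
        rw [inv_mul_le_iff₀ hs0]
        refine e1.trans ?_
        have e3 := h1 t ht
        have : (K : ℝ) * (‖s‖ * ‖W x - W (x - t)‖) = ‖s‖ * (K * ‖W x - W (x - t)‖) := by ring
        rw [this]
        exact mul_le_mul_of_nonneg_left (mul_le_mul_of_nonneg_left e3 K.coe_nonneg) hs0.le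
      · rw [hφz t ht]; simp
    refine (norm_integral_le_of_norm_le (hφi.mul_const _) (ae_of_all _ e0)).trans ?_
    rw [integral_mul_const, hφ1, one_mul]
  have l4 : ‖fderiv ℝ (mol μ F n) x (W x) - ∫ t, φ t • Y (x - t) ∂μ‖ ≤ K * δ := by
    refine le_of_tendsto (l1.sub l2).norm ?_
    filter_upwards [self_mem_nhdsWithin] with s hs
    exact l3 s hs
  have l5 : ‖(∫ t, φ t • Y (x - t) ∂μ) - Y x‖ ≤ δ := by
    have e1 : Y x = ∫ t, φ t • Y x ∂μ := by rw [integral_smul_const, hφ1, one_smul]
    have i1 : Integrable (fun t => φ t • Y (x - t)) μ :=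
      Continuous.integrable_of_hasCompactSupport (by fun_prop) hφs.smul_right
    have i2 : Integrable (fun t => φ t • Y x) μ := hφi.smul_const _
    conv_lhs => rw [e1]
    rw [← integral_sub i1 i2]
    have e0 : ∀ t, ‖φ t • Y (x - t) - φ t • Y x‖ ≤ φ t * δ := by
      intro t
      rw [← smul_sub, norm_smul, Real.norm_of_nonneg (hφ0 t)]
      by_cases ht : ‖t‖ < 1 / (n + 1)
      · exact mul_le_mul_of_nonneg_left (h2 t ht) (hφ0 t)
      · rw [hφz t ht]; simp
    refine (norm_integral_le_of_norm_le (hφi.mul_const _) (ae_of_all _ e0)).trans ?_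
    rw [integral_mul_const, hφ1, one_mul]
  calc ‖fderiv ℝ (mol μ F n) x (W x) - Y x‖
      = ‖(fderiv ℝ (mol μ F n) x (W x) - ∫ t, φ t • Y (x - t) ∂μ) +
          ((∫ t, φ t • Y (x - t) ∂μ) - Y x)‖ := by congr 1; abel
    _ ≤ K * δ + δ := (norm_add_le _ _).trans (add_le_add l4 l5)
    _ = (K + 1) * δ := by ring

theorem mol_tendsto {K : ℝ≥0} (hF : LipschitzWith K F) {W : E → E} {Y : E → ℂ}
    (hW : Continuous W) (hY : Continuous Y) (hd : ∀ q, HasLineDerivAt ℝ F (Y q) q (W q)) (x : E) :
    Tendsto (fun n => fderiv ℝ (mol μ F n) x (W x)) atTop (𝓝 (Y x)) := by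
  rw [Metric.tendsto_atTop]
  intro ε hε
  set δ : ℝ := ε / (2 * (K + 1)) with hδ
  have hK : (0 : ℝ) < K + 1 := by positivity
  have hδ0 : 0 < δ := by positivity
  have cW : ContinuousAt (fun t => W (x - t)) 0 := by fun_prop
  have cY : ContinuousAt (fun t => Y (x - t)) 0 := by fun_prop
  obtain ⟨r1, hr1, k1⟩ := Metric.continuousAt_iff.1 cW δ hδ0
  obtain ⟨r2, hr2, k2⟩ := Metric.continuousAt_iff.1 cY δ hδ0
  obtain ⟨N, hN⟩ := exists_nat_one_div_lt (lt_min hr1 hr2)
  refine ⟨N, fun n hn => ?_⟩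
  have hn' : 1 / ((n : ℝ) + 1) < min r1 r2 := by
    refine lt_of_le_of_lt ?_ hN
    have : (N : ℝ) ≤ n := by exact_mod_cast hn
    exact one_div_le_one_div_of_le (by positivity) (by linarith)
  rw [dist_eq_norm]
  refine lt_of_le_of_lt (mol_est hF hW hY hd n x (δ := δ) ?_ ?_) ?_
  · intro t ht
    have := k1 (x := t) (by
      rw [dist_zero_right]
      exact ht.trans (hn'.trans_le (min_le_left _ _)))
    rw [sub_zero, dist_comm, dist_eq_norm] at this
    exact this.le
  · intro t ht
    have := k2 (x := t) (by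
      rw [dist_zero_right]
      exact ht.trans (hn'.trans_le (min_le_right _ _)))
    rw [sub_zero, dist_eq_norm] at this
    exact this.le
  · rw [hδ]
    have : ((K : ℝ) + 1) * (ε / (2 * (K + 1))) = ε / 2 := by field_simp
    rw [this]
    linarith

/-- outside of the `1`-neighbourhood of the support the derivative vanishes -/
theorem mol_zero {R : ℝ} (hR : ∀ x, R < ‖x‖ → F x = 0) (n : ℕ) {x : E} (hx : R + 1 < ‖x‖) :
    fderiv ℝ (mol μ F n) x = 0 := by
  have h : mol μ F n =ᶠ[𝓝 x] fun _ => 0 := by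
    have : {y : E | R + 1 < ‖y‖} ∈ 𝓝 x :=
      (isOpen_lt continuous_const continuous_norm).mem_nhds hx
    filter_upwards [this] with y hy
    have hy' : R + 1 < ‖y‖ := hy
    rw [mol_apply]
    refine integral_eq_zero_of_ae (ae_of_all _ fun t => ?_)
    by_cases ht : ‖t‖ < 1 / (n + 1)
    · have h1 : (1 : ℝ) / (n + 1) ≤ 1 := by
        rw [div_le_one (by positivity)]
        linarith [Nat.cast_nonneg (α := ℝ) n]
      have h2 : ‖y‖ - ‖t‖ ≤ ‖y - t‖ := norm_sub_norm_le y t
      have : F (y - t) = 0 := hR _ (by linarith)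
      simp [this]
    · have h3 : (bmp n).normed μ t = 0 := by
        by_contra h
        have h3 : t ∈ Function.support ((bmp n).normed μ) := h
        rw [(bmp n).support_normed_eq, mem_ball_zero_iff] at h3
        exact ht h3
      simp [h3]
  rw [h.fderiv_eq]
  simp

end

end Fried

end NC

end QE
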