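import Pool.Agent.NCV.InvA
import Pool.Agent.NCV.Lip
import Pool.Agent.NCV.Fl

/-!
# Extension of Lipschitz functions from `SL(2, ℝ)` (module NC_INV, helper38)
-/

open MeasureTheory Filter Topology Set
open UpperHalfPlane hiding I
open scoped ContDiff MatrixGroups ENNReal NNReal

namespace QE

namespace NC

namespace Inv

noncomputable section

/-- the determinant -/
def dt (q : ℂ × ℂ) : ℝ := q.1.im * q.2.re - q.1.re * q.2.im

/-- multiply the first row -/
def sc (l : ℝ) (q : ℂ × ℂ) : ℂ × ℂ := (l • q.1, q.2)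

/-- the matrix with normalised first row -/
def mk2 (q : ℂ × ℂ) (h : 0 < dt q) : SL(2, ℝ) :=
  ⟨!![q.1.im / dt q, q.1.re / dt q; q.2.im, q.2.re], by
    rw [Matrix.det_fin_two_of]
    have h' : q.1.im * q.2.re - q.1.re * q.2.im = dt q := rfl
    have hne := h.ne'
    field_simp
    linarith⟩

/-- the projection to `SL(2, ℝ)` -/
def pj (q : ℂ × ℂ) : SL(2, ℝ) := if h : 0 < dt q then mk2 q h else 1

theorem dt_iota (g : SL(2, ℝ)) : dt (iota g) = 1 := by
  have h := g.2
  rw [Matrix.det_fin_two] at h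
  exact h

theorem dt_sc (l : ℝ) (q : ℂ × ℂ) : dt (sc l q) = l * dt q := by
  simp only [dt, sc, Complex.smul_im, Complex.smul_re, smul_eq_mul]
  ring

theorem iota_pj {q : ℂ × ℂ} (h : 0 < dt q) : iota (pj q) = sc (dt q)⁻¹ q := by
  have e : pj q = mk2 q h := dif_pos h
  rw [e]
  unfold iota sc mk2
  refine Prod.ext (Complex.ext ?_ ?_) (Complex.ext ?_ ?_)
  · show q.1.re / dt q = ((dt q)⁻¹ • q.1).re
    rw [Complex.smul_re, smul_eq_mul, div_eq_inv_mul]
  · show q.1.im / dt q = ((dt q)⁻¹ • q.1).im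
    rw [Complex.smul_im, smul_eq_mul, div_eq_inv_mul]
  · rfl
  · rfl

theorem sc_sc (l m : ℝ) (q : ℂ × ℂ) : sc l (sc m q) = sc (l * m) q := by
  simp [sc, mul_smul]

theorem sc_one (q : ℂ × ℂ) : sc 1 q = q := by simp [sc]

theorem sc_iota_pj {q : ℂ × ℂ} (h : 0 < dt q) : sc (dt q) (iota (pj q)) = q := by
  rw [iota_pj h, sc_sc, mul_inv_cancel₀ h.ne', sc_one]

theorem iota_inj : Function.Injective iota := iota_closedEmbedding.injective

theorem pj_sc_iota {l : ℝ} (hl : 0 < l) (g : SL(2, ℝ)) : pj (sc l (iota g)) = g := by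
  have h : dt (sc l (iota g)) = l := by rw [dt_sc, dt_iota, mul_one]
  apply iota_inj
  rw [iota_pj (by rw [h]; exact hl), h, sc_sc, inv_mul_cancel₀ hl.ne', sc_one]

theorem pj_iota (g : SL(2, ℝ)) : pj (iota g) = g := by
  have := pj_sc_iota one_pos g
  rwa [sc_one] at this

theorem continuous_dt : Continuous dt := by
  unfold dt
  fun_prop

theorem continuousOn_pj : ContinuousOn pj {q | 0 < dt q} := by
  rw [iota_closedEmbedding.isInducing.continuousOn_iff]
  have h : ContinuousOn (fun q : ℂ × ℂ => sc (dt q)⁻¹ q) {q | 0 < dt q} := by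
    have h1 : ContinuousOn (fun q : ℂ × ℂ => (dt q)⁻¹) {q | 0 < dt q} :=
      continuous_dt.continuousOn.inv₀ fun q hq => (ne_of_gt hq)
    unfold sc
    exact (h1.smul continuous_fst.continuousOn).prodMk continuous_snd.continuousOn
  exact h.congr fun q hq => iota_pj hq

/-- the cutoff of the function -/
def eta (d : ℝ) : ℝ := max 0 (min 1 (2 - 4 * |d - 1|))

/-- the cutoff of the vector field -/
def chi (d : ℝ) : ℝ := max 0 (min 1 (4 * d - 1))

theorem continuous_eta : Continuous eta := by unfold eta; fun_prop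

theorem continuous_chi : Continuous chi := by unfold chi; fun_prop

theorem eta_nonneg (d : ℝ) : 0 ≤ eta d := le_max_left _ _

theorem eta_le (d : ℝ) : eta d ≤ 1 := max_le zero_le_one (min_le_left _ _)

theorem eta_one : eta 1 = 1 := by norm_num [eta]

theorem chi_one : chi 1 = 1 := by norm_num [chi]

theorem chi_zero {d : ℝ} (h : d ≤ 1 / 4) : chi d = 0 := by
  unfold chi
  rw [max_eq_left]
  exact (min_le_right _ _).trans (by linarith)

theorem eta_pos {d : ℝ} (h : eta d ≠ 0) : |d - 1| < 1 / 2 := by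
  by_contra hc
  push Not at hc
  apply h
  unfold eta
  rw [max_eq_left]
  exact (min_le_right _ _).trans (by linarith)

theorem eta_lip (a b : ℝ) : |eta a - eta b| ≤ 4 * |a - b| := by
  have h1 : |eta a - eta b| ≤ |min 1 (2 - 4 * |a - 1|) - min 1 (2 - 4 * |b - 1|)| := by
    have := abs_max_sub_max_le_abs (min 1 (2 - 4 * |a - 1|)) (min 1 (2 - 4 * |b - 1|)) 0
    unfold eta
    rwa [max_comm 0, max_comm 0]
  have h2 : |min 1 (2 - 4 * |a - 1|) - min 1 (2 - 4 * |b - 1|)| ≤
      |(2 - 4 * |a - 1|) - (2 - 4 * |b - 1|)| := by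
    have := abs_min_sub_min_le_max 1 (2 - 4 * |a - 1|) 1 (2 - 4 * |b - 1|)
    refine this.trans (max_le ?_ le_rfl)
    simp
  have h3 : |(2 - 4 * |a - 1|) - (2 - 4 * |b - 1|)| = 4 * |(|a - 1| - |b - 1|)| := by
    have : (2 - 4 * |a - 1|) - (2 - 4 * |b - 1|) = -(4 * (|a - 1| - |b - 1|)) := by ring
    rw [this, abs_neg, abs_mul]
    norm_num
  have h4 : |(|a - 1| - |b - 1|)| ≤ |(a - 1) - (b - 1)| := abs_abs_sub_abs_le _ _
  have h5 : (a - 1) - (b - 1) = a - b := by ring
  rw [h5] at h4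
  linarith

/-- continuity of a cut off function -/
theorem cont_cut {B : Type} [NormedAddCommGroup B] [NormedSpace ℝ B] {a : ℂ × ℂ → ℝ}
    {b : ℂ × ℂ → B} (ha : Continuous a) (h0 : ∀ q, dt q ≤ 1 / 4 → a q = 0)
    (hb : ContinuousOn b {q | 0 < dt q}) : Continuous fun q => a q • b q := by
  rw [continuous_iff_continuousAt]
  intro q
  by_cases h : 0 < dt q
  · have : {q | 0 < dt q} ∈ 𝓝 q := (isOpen_lt continuous_const continuous_dt).mem_nhds h
    exact ha.continuousAt.smul (hb.continuousAt this)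
  · have h1 : {q | dt q < 1 / 4} ∈ 𝓝 q := by
      refine (isOpen_lt continuous_dt continuous_const).mem_nhds ?_
      show dt q < 1 / 4
      linarith
    have e : (fun q => a q • b q) =ᶠ[𝓝 q] fun _ => 0 := by
      filter_upwards [h1] with y hy
      rw [h0 y (le_of_lt hy), zero_smul]
    exact continuousAt_const.congr e.symm

/-- the extended function -/
def ext (f : SL(2, ℝ) → ℂ) (q : ℂ × ℂ) : ℂ := eta (dt q) • f (pj q)

theorem ext_iota (f : SL(2, ℝ) → ℂ) (g : SL(2, ℝ)) : ext f (iota g) = f g := by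
  unfold ext
  rw [dt_iota, eta_one, one_smul, pj_iota]

theorem dt_sub (q p : ℂ × ℂ) : |dt q - dt p| ≤ 2 * (‖q‖ + ‖p‖) * ‖q - p‖ := by
  have a1 : |q.1.im - p.1.im| ≤ ‖q - p‖ := by
    have := (Complex.abs_im_le_norm (q.1 - p.1)).trans (norm_fst_le (q - p))
    simpa using this
  have a2 : |q.1.re - p.1.re| ≤ ‖q - p‖ := by
    have := (Complex.abs_re_le_norm (q.1 - p.1)).trans (norm_fst_le (q - p))
    simpa using this
  have a3 : |q.2.im - p.2.im| ≤ ‖q - p‖ := by
    have := (Complex.abs_im_le_norm (q.2 - p.2)).trans (norm_snd_le (q - p))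
    simpa using this
  have a4 : |q.2.re - p.2.re| ≤ ‖q - p‖ := by
    have := (Complex.abs_re_le_norm (q.2 - p.2)).trans (norm_snd_le (q - p))
    simpa using this
  have b1 : |q.2.re| ≤ ‖q‖ := (Complex.abs_re_le_norm _).trans (norm_snd_le q)
  have b2 : |q.2.im| ≤ ‖q‖ := (Complex.abs_im_le_norm _).trans (norm_snd_le q)
  have b3 : |p.1.im| ≤ ‖p‖ := (Complex.abs_im_le_norm _).trans (norm_fst_le p)
  have b4 : |p.1.re| ≤ ‖p‖ := (Complex.abs_re_le_norm _).trans (norm_fst_le p)
  have e : dt q - dt p = (q.1.im - p.1.im) * q.2.re + p.1.im * (q.2.re - p.2.re) -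
      (q.1.re - p.1.re) * q.2.im - p.1.re * (q.2.im - p.2.im) := by
    unfold dt; ring
  have c1 := mul_le_mul a1 b1 (abs_nonneg _) (norm_nonneg _)
  have c2 := mul_le_mul b3 a4 (abs_nonneg _) (norm_nonneg _)
  have c3 := mul_le_mul a2 b2 (abs_nonneg _) (norm_nonneg _)
  have c4 := mul_le_mul b4 a3 (abs_nonneg _) (norm_nonneg _)
  rw [← abs_mul] at c1 c2 c3 c4
  rw [e, abs_le]
  have d1 := abs_le.1 c1
  have d2 := abs_le.1 c2
  have d3 := abs_le.1 c3
  have d4 := abs_le.1 c4
  constructor <;> nlinarith [d1.1, d1.2, d2.1, d2.2, d3.1, d3.2, d4.1, d4.2]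

/-- the extension of a Lipschitz function is Lipschitz -/
theorem ext_lip {f : SL(2, ℝ) → ℂ} {R M C : ℝ} (hR : 0 ≤ R) (hM : 0 ≤ M) (hC : 0 ≤ C)
    (h1 : ∀ g, R < ‖iota g‖ → f g = 0) (h2 : ∀ v w, ‖f v - f w‖ ≤ C * ‖iota v - iota w‖)
    (h3 : ∀ g, ‖f g‖ ≤ M) : ∃ K : ℝ≥0, LipschitzWith K (ext f) := by
  set T : ℝ := 2 * R + 1 with hT
  have hT1 : 1 ≤ T := by linarith
  set δ : ℝ := 1 / (16 * (T + 1)) with hδ
  have hδ0 : 0 < δ := by positivity
  have hδ1 : δ ≤ 1 := by
    rw [hδ, div_le_one (by positivity)]; linarith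
  set K₁ : ℝ := 16 * (T + 1) * M + C * (4 + 32 * (T + 1) * T) with hK₁
  have hK₁0 : 0 ≤ K₁ := by positivity
  set K₂ : ℝ := 2 * M / δ with hK₂
  have hK₂0 : 0 ≤ K₂ := by positivity
  -- the bound
  have hb : ∀ q, ‖ext f q‖ ≤ M := by
    intro q
    unfold ext
    rw [norm_smul, Real.norm_of_nonneg (eta_nonneg _)]
    calc eta (dt q) * ‖f (pj q)‖ ≤ 1 * M :=
          mul_le_mul (eta_le _) (h3 _) (norm_nonneg _) zero_le_one
      _ = M := one_mul M
  have key : ∀ q p, ext f q ≠ 0 → ‖ext f q - ext f p‖ ≤ (K₁ + K₂) * ‖q - p‖ := by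
    intro q p hq
    by_cases hfar : δ ≤ ‖q - p‖
    · have e1 : ‖ext f q - ext f p‖ ≤ 2 * M := by
        have := (norm_sub_le (ext f q) (ext f p)).trans (add_le_add (hb q) (hb p))
        linarith
      have e2 : 2 * M ≤ K₂ * ‖q - p‖ := by
        rw [hK₂, div_mul_eq_mul_div, le_div_iff₀ hδ0]
        exact mul_le_mul_of_nonneg_left hfar (by positivity)
      have e3 : 0 ≤ K₁ * ‖q - p‖ := by positivity
      linarith
    · push Not at hfar
      have hη : eta (dt q) ≠ 0 := by
        intro h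
        apply hq
        unfold ext
        rw [h, zero_smul]
      have hf : f (pj q) ≠ 0 := by
        intro h
        apply hq
        unfold ext
        rw [h, smul_zero]
      obtain ⟨g1, g2⟩ := abs_lt.1 (eta_pos hη)
      have hd1 : 1 / 2 < dt q := by linarith
      have hd2 : dt q < 3 / 2 := by linarith
      have hd0 : 0 < dt q := by linarith
      have hRq : ‖iota (pj q)‖ ≤ R := by
        by_contra hc
        push Not at hc
        exact hf (h1 _ hc)
      have hq1 : ‖q.1‖ ≤ T := by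
        have e := congrArg Prod.fst (sc_iota_pj hd0)
        have e' : dt q • (iota (pj q)).1 = q.1 := e
        rw [← e', norm_smul, Real.norm_of_nonneg hd0.le]
        have := (norm_fst_le (iota (pj q))).trans hRq
        calc dt q * ‖(iota (pj q)).1‖ ≤ 3 / 2 * R :=
              mul_le_mul hd2.le this (norm_nonneg _) (by norm_num)
          _ ≤ T := by linarith
      have hq2 : ‖q.2‖ ≤ T := by
        have e := congrArg Prod.snd (sc_iota_pj hd0)
        have e' : (iota (pj q)).2 = q.2 := e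
        rw [← e']
        have := (norm_snd_le (iota (pj q))).trans hRq
        linarith
      have hqT : ‖q‖ ≤ T := max_le hq1 hq2
      have hpT : ‖p‖ ≤ T + 1 := by
        have e : p = q - (q - p) := by abel
        have := norm_sub_le q (q - p)
        rw [← e] at this
        linarith
      have hdd : |dt q - dt p| ≤ 4 * (T + 1) * ‖q - p‖ := by
        refine (dt_sub q p).trans (mul_le_mul_of_nonneg_right ?_ (norm_nonneg _))
        linarith
      have hdd2 : |dt q - dt p| ≤ 1 / 4 := by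
        refine hdd.trans ?_
        have : 4 * (T + 1) * ‖q - p‖ ≤ 4 * (T + 1) * δ :=
          mul_le_mul_of_nonneg_left hfar.le (by positivity)
        refine this.trans (le_of_eq ?_)
        rw [hδ]; field_simp; norm_num
      obtain ⟨g3, g4⟩ := abs_le.1 hdd2
      have hp1 : 1 / 4 ≤ dt p := by linarith
      have hp0 : 0 < dt p := by linarith
      -- the distance of the projections
      have hpr : ‖iota (pj q) - iota (pj p)‖ ≤ (4 + 32 * (T + 1) * T) * ‖q - p‖ := by
        rw [iota_pj hd0, iota_pj hp0]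
        have e1 : ‖(dt q)⁻¹ • q.1 - (dt p)⁻¹ • p.1‖ ≤ (4 + 32 * (T + 1) * T) * ‖q - p‖ := by
          have e2 : (dt q)⁻¹ • q.1 - (dt p)⁻¹ • p.1 =
              (dt p)⁻¹ • (q.1 - p.1) + ((dt q)⁻¹ - (dt p)⁻¹) • q.1 := by
            rw [smul_sub, sub_smul]; abel
          rw [e2]
          refine (norm_add_le _ _).trans ?_
          rw [norm_smul, norm_smul]
          have e3 : ‖(dt p)⁻¹‖ ≤ 4 := by
            rw [Real.norm_of_nonneg (inv_nonneg.2 hp0.le)]
            rw [inv_le_comm₀ hp0 (by norm_num)]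
            linarith
          have e4 : ‖q.1 - p.1‖ ≤ ‖q - p‖ := norm_fst_le (q - p)
          have e5 : ‖(dt q)⁻¹ - (dt p)⁻¹‖ ≤ 8 * (4 * (T + 1) * ‖q - p‖) := by
            have e6 : (dt q)⁻¹ - (dt p)⁻¹ = (dt p)⁻¹ * (dt q)⁻¹ * (dt p - dt q) := by
              field_simp
            rw [e6, Real.norm_eq_abs, abs_mul, abs_mul, abs_sub_comm (dt p)]
            refine mul_le_mul ?_ hdd (abs_nonneg _) (by norm_num)
            rw [abs_of_pos (inv_pos.2 hp0), abs_of_pos (inv_pos.2 hd0)]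
            have e7 : (dt q)⁻¹ ≤ 2 := by
              rw [inv_le_comm₀ hd0 (by norm_num)]
              linarith
            have e8 : (dt p)⁻¹ ≤ 4 := by
              rw [inv_le_comm₀ hp0 (by norm_num)]
              linarith
            have e9 := mul_le_mul e8 e7 (inv_nonneg.2 hd0.le) (by norm_num)
            linarith
          have f1 := mul_le_mul e3 e4 (norm_nonneg _) (by norm_num)
          have f2 := mul_le_mul e5 hq1 (norm_nonneg _) (by positivity)
          calc _ ≤ 4 * ‖q - p‖ + 8 * (4 * (T + 1) * ‖q - p‖) * T := add_le_add f1 f2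
            _ = _ := by ring
        have e2 : ‖q.2 - p.2‖ ≤ (4 + 32 * (T + 1) * T) * ‖q - p‖ := by
          have := norm_snd_le (q - p)
          have h4 : (1 : ℝ) ≤ 4 + 32 * (T + 1) * T := by
            have : 0 ≤ 32 * (T + 1) * T := by positivity
            linarith
          calc ‖q.2 - p.2‖ ≤ 1 * ‖q - p‖ := by rw [one_mul]; exact this
            _ ≤ _ := mul_le_mul_of_nonneg_right h4 (norm_nonneg _)
        exact max_le e1 e2
      have e0 : ext f q - ext f p = (eta (dt q) - eta (dt p)) • f (pj p) +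
          eta (dt q) • (f (pj q) - f (pj p)) := by
        unfold ext
        rw [sub_smul, smul_sub]; abel
      rw [e0]
      refine (norm_add_le _ _).trans ?_
      rw [norm_smul, norm_smul]
      have f1 : ‖eta (dt q) - eta (dt p)‖ * ‖f (pj p)‖ ≤ 4 * (4 * (T + 1) * ‖q - p‖) * M := by
        refine mul_le_mul ?_ (h3 _) (norm_nonneg _) (by positivity)
        rw [Real.norm_eq_abs]
        exact (eta_lip _ _).trans (mul_le_mul_of_nonneg_left hdd (by norm_num))
      have f2 : ‖eta (dt q)‖ * ‖f (pj q) - f (pj p)‖ ≤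
          1 * (C * ((4 + 32 * (T + 1) * T) * ‖q - p‖)) := by
        refine mul_le_mul ?_ ?_ (norm_nonneg _) zero_le_one
        · rw [Real.norm_of_nonneg (eta_nonneg _)]; exact eta_le _
        · exact (h2 _ _).trans (mul_le_mul_of_nonneg_left hpr hC)
      have f3 : 0 ≤ K₂ * ‖q - p‖ := by positivity
      calc _ ≤ 4 * (4 * (T + 1) * ‖q - p‖) * M + 1 * (C * ((4 + 32 * (T + 1) * T) * ‖q - p‖)) :=
            add_le_add f1 f2
        _ = K₁ * ‖q - p‖ := by rw [hK₁]; ring
        _ ≤ (K₁ + K₂) * ‖q - p‖ := by linarith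
  refine ⟨⟨K₁ + K₂, by positivity⟩, LipschitzWith.of_dist_le_mul fun q p => ?_⟩
  rw [dist_eq_norm, dist_eq_norm]
  show ‖ext f q - ext f p‖ ≤ (K₁ + K₂) * ‖q - p‖
  by_cases hq : ext f q = 0
  · by_cases hp : ext f p = 0
    · rw [hq, hp, sub_zero, norm_zero]; positivity
    · rw [norm_sub_rev (ext f q), norm_sub_rev q]
      exact key p q hp
  · exact key q p hq

theorem ext_supp {f : SL(2, ℝ) → ℂ} {R : ℝ} (h1 : ∀ g, R < ‖iota g‖ → f g = 0)
    {q : ℂ × ℂ} (hq : 2 * R < ‖q‖) : ext f q = 0 := by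
  by_contra hne
  have hη : eta (dt q) ≠ 0 := by
    intro h
    apply hne
    unfold ext
    rw [h, zero_smul]
  have hf : f (pj q) ≠ 0 := by
    intro h
    apply hne
    unfold ext
    rw [h, smul_zero]
  obtain ⟨g1, g2⟩ := abs_lt.1 (eta_pos hη)
  have hd0 : 0 < dt q := by linarith
  have hRq : ‖iota (pj q)‖ ≤ R := by
    by_contra hc
    push Not at hc
    exact hf (h1 _ hc)
  have hR : 0 ≤ R := (norm_nonneg _).trans hRq
  have hq1 : ‖q.1‖ ≤ 2 * R := by
    have e := congrArg Prod.fst (sc_iota_pj hd0)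
    have e' : dt q • (iota (pj q)).1 = q.1 := e
    rw [← e', norm_smul, Real.norm_of_nonneg hd0.le]
    have := (norm_fst_le (iota (pj q))).trans hRq
    exact mul_le_mul (by linarith) this (norm_nonneg _) (by norm_num)
  have hq2 : ‖q.2‖ ≤ 2 * R := by
    have e := congrArg Prod.snd (sc_iota_pj hd0)
    have e' : (iota (pj q)).2 = q.2 := e
    rw [← e']
    have := (norm_snd_le (iota (pj q))).trans hRq
    linarith
  have : ‖q‖ ≤ 2 * R := max_le hq1 hq2
  linarith

/-- a Lipschitz function differentiable along a curve has a line derivative -/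
theorem line_of_curve {F : ℂ × ℂ → ℂ} {K : ℝ≥0} (hF : LipschitzWith K F) {c : ℝ → ℂ × ℂ}
    {w : ℂ × ℂ} {y : ℂ} (hc : HasDerivAt c w 0) (hy : HasDerivAt (fun s => F (c s)) y 0) :
    HasLineDerivAt ℝ F y (c 0) w := by
  unfold HasLineDerivAt
  have h1 : HasDerivAt (fun s => F (c 0 + s • w) - F (c s)) 0 0 := by
    rw [hasDerivAt_iff_isLittleO]
    have h2 := (hasDerivAt_iff_isLittleO.1 hc)
    refine (Asymptotics.IsBigO.of_bound (K : ℝ) (Eventually.of_forall fun s => ?_)).trans_isLittleO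
      h2
    simp only [sub_zero, smul_zero, zero_smul, add_zero, sub_self]
    have := hF.dist_le_mul (c 0 + s • w) (c s)
    rw [dist_eq_norm, dist_eq_norm, norm_sub_rev (c 0 + s • w)] at this
    refine this.trans (le_of_eq ?_)
    congr 2
    abel
  have h3 := h1.add hy
  rw [zero_add] at h3
  refine h3.congr_of_eventuallyEq (Eventually.of_forall fun s => ?_)
  simp

end

end Inv

end NC

end QE
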