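import Pool.Agent.NCV.Defs

/-!
# Closed surfaces of negative curvature: the statements of the modules
-/

open MeasureTheory Filter Topology Set
open UpperHalfPlane hiding I
open scoped ContDiff MatrixGroups ENNReal

namespace QE

namespace NC

noncomputable section

/-! ### waves -/

/-- the local hypotheses for a sequence of eigenfunctions bounded in `L⁴` -/
def StmtSetup : Prop :=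
  ∀ (Γ : Subgroup SL(2, ℝ)) (ρ : ℍ → ℝ) (φ : ℕ → ℍ → ℝ) (m : ℕ → ℝ), Fac Γ ρ →
    Berry.REigenSeq Γ ρ φ m →
    (∀ n, ContDiffOn ℝ ∞ (fun w : ℂ => φ n (ofComplex w)) UH) → (∀ n, 1 ≤ m n) →
    LBdd 4 UH (fun n z => (φ n (ofComplex z) : ℂ)) →
    Setup UH (gR ρ) (aR ρ) (fun n => 1 / m n) (fun n z => (φ n (ofComplex z) : ℂ))

/-- the weak limits of the products of jets -/
def StmtLim : Prop :=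
  ∀ (Γ : Subgroup SL(2, ℝ)) (ρ : ℍ → ℝ) (h : ℕ → ℝ) (φ : ℕ → ℂ → ℂ) (u : ℤ → ℂ → ℂ), Fac Γ ρ →
    Setup UH (gR ρ) (aR ρ) h φ → (∀ k, Measurable (u k)) → (∀ k, LocL2 UH (u k)) →
    JLim UH h (aR ρ) φ u → (∀ γ ∈ Γ, ∀ n, ∀ z ∈ UH, φ n (mob γ z) = φ n z) →
    LimFamR Γ ρ u

/-- infinitesimal invariance -/
def StmtInf : Prop :=
  ∀ [MeasurableSpace SL(2, ℝ)] [BorelSpace SL(2, ℝ)] (Γ : Subgroup SL(2, ℝ)) (ρ : ℍ → ℝ)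
    (u : ℤ → ℂ → ℂ) (μ : Measure SL(2, ℝ)) [IsFiniteMeasureOnCompacts μ], Fac Γ ρ →
    LimFamR Γ ρ u → Measure.map (fun g => -g) μ = μ →
    (∀ (k : ℤ) (ζ : ℍ → ℂ), Continuous ζ → HasCompactSupport ζ →
      ∫ g : SL(2, ℝ), ζ (g • UpperHalfPlane.I) * (starRingEnd ℂ) (dirG g ^ k) ∂μ =
        ∫ z : ℍ, ζ z * u k z) →
    ∀ H : ℂ × ℂ → ℂ, ContDiff ℝ ∞ H → HasCompactSupport H →
      ∫ g, fderiv ℝ H (iota g) (XV ρ g) ∂(nuR ρ μ) = 0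

/-! ### the functions `ρ`, `P ρ`, `H ρ` on the frames -/

/-- bounds, invariance, continuity and Lipschitz estimates -/
def StmtLip : Prop :=
  ∀ (Γ : Subgroup SL(2, ℝ)) (ρ : ℍ → ℝ), Fac Γ ρ →
    (∀ γ : SL(2, ℝ), (∀ z, ρ (γ • z) = ρ z) → ∀ g, Pr ρ (γ * g) = Pr ρ g ∧ Hr ρ (γ * g) = Hr ρ g) ∧
    (∀ g, Pr ρ (-g) = Pr ρ g ∧ Hr ρ (-g) = Hr ρ g) ∧
    Continuous ρ ∧ Continuous (Pr ρ) ∧ Continuous (Hr ρ) ∧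
    ∃ B L : ℝ, 0 ≤ B ∧ 0 ≤ L ∧ (∀ z, |ρ z| ≤ B) ∧ (∀ g, |Pr ρ g| ≤ B) ∧ (∀ g, |Hr ρ g| ≤ B) ∧
      (∀ v w : SL(2, ℝ), |ρ (w • UpperHalfPlane.I) - ρ (v • UpperHalfPlane.I)| ≤ L * dd v w) ∧
      (∀ v w : SL(2, ℝ), |Pr ρ w - Pr ρ v| ≤ L * dd v w) ∧
      (∀ v w : SL(2, ℝ), |Hr ρ w - Hr ρ v| ≤ L * dd v w)

/-! ### the flow -/

/-- existence of the geodesic flow -/
def StmtFlow : Prop :=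
  ∀ (Γ : Subgroup SL(2, ℝ)) (ρ : ℍ → ℝ), Fac Γ ρ → ∃ Φ : ℝ → SL(2, ℝ) → SL(2, ℝ), GFlow ρ Φ

/-- the flow and the distance -/
def StmtFl : Prop :=
  ∀ (Γ : Subgroup SL(2, ℝ)) (ρ : ℍ → ℝ) (Φ : ℝ → SL(2, ℝ) → SL(2, ℝ)), Fac Γ ρ → GFlow ρ Φ →
    ∃ c L : ℝ, 1 ≤ c ∧ 0 ≤ L ∧ PairFl Φ c L

/-- infinitesimal invariance implies invariance -/
def StmtInv : Prop :=
  ∀ [MeasurableSpace SL(2, ℝ)] [BorelSpace SL(2, ℝ)] (Γ : Subgroup SL(2, ℝ)) (ρ : ℍ → ℝ)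
    (Φ : ℝ → SL(2, ℝ) → SL(2, ℝ)) (ν : Measure SL(2, ℝ)) [IsFiniteMeasureOnCompacts ν],
    Fac Γ ρ → GFlow ρ Φ →
    (∀ H : ℂ × ℂ → ℂ, ContDiff ℝ ∞ H → HasCompactSupport H →
      ∫ g, fderiv ℝ H (iota g) (XV ρ g) ∂ν = 0) →
    ∀ t, Measure.map (Φ t) ν = ν

/-! ### the coordinates of pairs -/

/-- the algebraic part -/
def StmtAlg : Prop :=
  ∀ (Γ : Subgroup SL(2, ℝ)) (ρ : ℍ → ℝ), Fac Γ ρ →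
    ∃ c r : ℝ, PairAlg Γ (xx ρ) (yy ρ) (tt ρ) c r

/-- the derivatives -/
def StmtDer : Prop :=
  ∀ (Γ : Subgroup SL(2, ℝ)) (ρ : ℍ → ℝ) (Φ : ℝ → SL(2, ℝ) → SL(2, ℝ)), Fac Γ ρ → GFlow ρ Φ →
    ∃ c r : ℝ, 1 ≤ c ∧ 0 < r ∧ PairDer Φ (xx ρ) (yy ρ) (tt ρ) (kap ρ) c r

/-- the measure -/
def StmtMass : Prop :=
  ∀ [MeasurableSpace SL(2, ℝ)] [BorelSpace SL(2, ℝ)] (Γ : Subgroup SL(2, ℝ)) [Countable Γ]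
    (D : Set ℍ) (ρ : ℍ → ℝ) (Φ : ℝ → SL(2, ℝ) → SL(2, ℝ)) (μ : Measure SL(2, ℝ)) (p : ℍ → ℝ),
    MeasurableSet D → IsFundamentalDomain Γ D (volume : Measure ℍ) → Fac Γ ρ →
    FlowMeas0 Γ D μ p → (∀ t, Measure.map (Φ t) (nuR ρ μ) = nuR ρ μ) →
    ∀ r : ℝ, 0 < r → r ≤ 1 → MassSys Γ D Φ (xx ρ) (tt ρ) r (nuR ρ μ)

/-! ### dynamics -/

section dyn

variable [MeasurableSpace SL(2, ℝ)]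

/-- the mass, modulo `Γ`, of a set of pairs -/
def PM (D : Set ℍ) (ν : Measure SL(2, ℝ)) (P : SL(2, ℝ) → SL(2, ℝ) → Prop) : ℝ≥0∞ :=
  ∫⁻ v in Berry.Fd D, ν {w | P v w} ∂ν

end dyn

/-- the dyadic bound for the mass of the pairs of crossing geodesics -/
def StmtSum : Prop :=
  ∀ [MeasurableSpace SL(2, ℝ)] [BorelSpace SL(2, ℝ)] (Γ : Subgroup SL(2, ℝ)) [Countable Γ]
    (D : Set ℍ) (Φ : ℝ → SL(2, ℝ) → SL(2, ℝ)) (x y τ : SL(2, ℝ) → SL(2, ℝ) → ℝ)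
    (κ : SL(2, ℝ) → ℝ) (c r L k₀ k₁ : ℝ) (ν : Measure SL(2, ℝ)),
    PairSys Γ Φ x y τ κ c r L k₀ k₁ → MassSys Γ D Φ x τ r ν →
    ∃ c₀ : ℝ, 0 < c₀ ∧ ∃ l₀ : ℕ, ∃ a : ℕ → ℝ≥0∞, (∑' l, a l ≠ ⊤) ∧
      ∀ l : ℕ, l₀ ≤ l → ∀ δ : ℝ, 0 < δ → δ ≤ c₀ / 2 ^ l →
        PM D ν (fun v w => dd v w ≤ r ∧ |x v w| ≤ δ ∧ |τ v w| ≤ δ ∧ 1 / 2 ^ l ≤ |y v w| ∧
          |y v w| ≤ 2 / 2 ^ l) ≤ a l * ENNReal.ofReal (δ ^ 2)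

/-- pairs of geodesics which are close to each other at a comparable scale and cross in a bounded time
have small mass -/
def StmtCross : Prop :=
  ∀ [MeasurableSpace SL(2, ℝ)] [BorelSpace SL(2, ℝ)] (Γ : Subgroup SL(2, ℝ)) [Countable Γ]
    (D : Set ℍ) (Φ : ℝ → SL(2, ℝ) → SL(2, ℝ)) (x y τ : SL(2, ℝ) → SL(2, ℝ) → ℝ)
    (κ : SL(2, ℝ) → ℝ) (c r L k₀ k₁ : ℝ) (ν : Measure SL(2, ℝ)),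
    PairSys Γ Φ x y τ κ c r L k₀ k₁ → MassSys Γ D Φ x τ r ν →
    ∀ T A η : ℝ, 0 < T → 1 ≤ A → 0 < η → ∃ δ₀ : ℝ, 0 < δ₀ ∧ ∀ δ : ℝ, 0 < δ → δ < δ₀ →
      PM D ν (fun v w => dd v w ≤ r ∧ |τ v w| ≤ A * δ ∧ δ / A ≤ |x v w| + |y v w| ∧
        |x v w| + |y v w| ≤ A * δ ∧ ∃ t : ℝ, |t| ≤ T ∧ x (Φ t v) (Φ t w) = 0)
        ≤ ENNReal.ofReal (η * δ ^ 2)

/-- the mass of the pairs at distance about `δ` in all directions is small -/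
def StmtDiag : Prop :=
  ∀ [MeasurableSpace SL(2, ℝ)] [BorelSpace SL(2, ℝ)] (Γ : Subgroup SL(2, ℝ)) [Countable Γ]
    (D : Set ℍ) (Φ : ℝ → SL(2, ℝ) → SL(2, ℝ)) (x y τ : SL(2, ℝ) → SL(2, ℝ) → ℝ)
    (κ : SL(2, ℝ) → ℝ) (c r L k₀ k₁ : ℝ) (ν : Measure SL(2, ℝ)),
    PairSys Γ Φ x y τ κ c r L k₀ k₁ → MassSys Γ D Φ x τ r ν →
    ∀ A η : ℝ, 1 ≤ A → 0 < η → ∃ δ₀ : ℝ, 0 < δ₀ ∧ ∀ δ : ℝ, 0 < δ → δ < δ₀ →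
      PM D ν (fun v w => dd v w ≤ r ∧ |x v w| ≤ δ ∧ |τ v w| ≤ δ ∧ |y v w| ≤ A * δ)
        ≤ ENNReal.ofReal (η * δ ^ 2)

/-- **Theorem N** -/
def StmtN : Prop :=
  ∀ [MeasurableSpace SL(2, ℝ)] [BorelSpace SL(2, ℝ)] (Γ : Subgroup SL(2, ℝ)) [Countable Γ]
    (D : Set ℍ) (Φ : ℝ → SL(2, ℝ) → SL(2, ℝ)) (x y τ : SL(2, ℝ) → SL(2, ℝ) → ℝ)
    (κ : SL(2, ℝ) → ℝ) (c r L k₀ k₁ : ℝ) (ν : Measure SL(2, ℝ)),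
    PairSys Γ Φ x y τ κ c r L k₀ k₁ → MassSys Γ D Φ x τ r ν →
    ∀ η : ℝ, 0 < η → ∃ ε : ℝ, 0 < ε ∧ ∃ δ₀ : ℝ, 0 < δ₀ ∧ ∀ δ : ℝ, 0 < δ → δ < δ₀ →
      PM D ν (fun v w => dd v w ≤ r ∧ |x v w| ≤ δ ∧ |τ v w| ≤ δ ∧ |y v w| ≤ ε)
        ≤ ENNReal.ofReal (η * δ ^ 2)

/-! ### assembly -/

/-- no directional atoms -/
def StmtAtoms : Prop :=
  ∀ (Γ : Subgroup SL(2, ℝ)) [Countable Γ] (D : Set ℍ) (ρ : ℍ → ℝ) (u : ℤ → ℂ → ℂ),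
    MeasurableSet D → IsFundamentalDomain Γ D (volume : Measure ℍ) → Fac Γ ρ →
    (∀ z, 0 < lapR ρ z) → LimFamR Γ ρ u →
    ∃ p : ℍ → ℝ, Measurable p ∧ (∀ z, 0 ≤ p z) ∧ (∀ γ ∈ Γ, ∀ z, p (γ • z) = p z) ∧
      (∀ᵐ z : ℍ, p z = (u 0 z).re) ∧ IntegrableOn (fun z => p z ^ 2) D (volume : Measure ℍ) ∧
      ∀ ζ : ℂ → ℝ, Continuous ζ → HasCompactSupport ζ → tsupport ζ ⊆ UH → (∀ z, 0 ≤ ζ z) →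
        Tendsto (fun N : ℕ => (1 / (N : ℝ)) * ∑ k ∈ Finset.Ioo (-(N : ℤ)) N,
          ∫ z, ζ z * ‖u k z‖ ^ 2) atTop (𝓝 0)

/-- **the final result** -/
def StmtFinal : Prop :=
  ∀ (Γ : Subgroup SL(2, ℝ)) [Countable Γ] (ρ : ℍ → ℝ),
    ContDiffOn ℝ ∞ (fun w : ℂ => ρ (ofComplex w)) {w | 0 < w.im} →
    (∀ γ ∈ Γ, ∀ z, ρ (γ • z) = ρ z) →
    (∀ z : ℍ, 0 < 1 + z.im ^ 2 * Laplacian.laplacian (fun w : ℂ => ρ (ofComplex w)) z) →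
    ∀ D : Set ℍ, MeasurableSet D → IsFundamentalDomain Γ D (volume : Measure ℍ) →
    (∃ K : Set ℍ, IsCompact K ∧ ∀ z, ∃ γ ∈ Γ, γ • z ∈ K) →
    ∀ (φ : ℕ → ℍ → ℝ) (m : ℕ → ℝ), Berry.REigenSeq Γ ρ φ m →
    (∀ n, ContDiffOn ℝ ∞ (fun w : ℂ => φ n (ofComplex w)) {w | 0 < w.im}) →
    (∀ n, Berry.rAvg ρ D (fun z => φ n z ^ 2) = 1) →
    ∀ w g : ℍ → ℝ, Continuous w → (∀ z, 0 < w z) → (∀ γ ∈ Γ, ∀ z, w (γ • z) = w z) →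
    Continuous g → (∀ γ ∈ Γ, ∀ z, g (γ • z) = g z) →
    ∀ (r : ℕ) (c : Fin r → ℝ) (x : Fin r → ℂ), ∀ ε > 0, ∀ᶠ n in atTop,
      3 * (∑ i, ∑ j, c i * c j * Berry.waveK (x i - x j)) ^ 2
          * Berry.rAvg ρ D (fun z => w z * g z * φ n z ^ 2) ^ 2 - ε
        ≤ Berry.rAvg ρ D (fun z => w z * g z ^ 2)
          * ∫ p, w p.1 * (∑ i, c i * Berry.rWave ρ (φ n) (m n) (x i) p) ^ 4
            ∂(Berry.rFrameProb ρ D)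

end

end NC

end QE
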