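import Pool.Agent.NCV.Stmts

/-!
# Crossing pairs: the analytic part (helper70)
-/

open MeasureTheory Filter Topology Set
open UpperHalfPlane hiding I
open scoped ContDiff MatrixGroups ENNReal

namespace QE

namespace NC

noncomputable section

/-- mean value inequality -/
theorem mvt {f : ℝ → ℝ} {a C R : ℝ}
    (h : ∀ t, |t| ≤ R → ∃ f' : ℝ, HasDerivAt f f' t ∧ |f' - a| ≤ C) {t t' : ℝ} (ht : |t| ≤ R)
    (ht' : |t'| ≤ R) : |f t - f t' - (t - t') * a| ≤ C * |t - t'| := by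
  have hcv : Convex ℝ (Icc (-R) R) := convex_Icc _ _
  have h1 := hcv.norm_image_sub_le_of_norm_hasDerivWithin_le (𝕜 := ℝ)
    (f := fun t => f t - t * a) (f' := fun t => deriv f t - a) (C := C) (x := t') (y := t)
    (fun s hs => by
      obtain ⟨f', hf, _⟩ := h s (abs_le.2 hs)
      rw [hf.deriv]
      have h2 : HasDerivAt (fun t => f t - t * a) (f' - 1 * a) s :=
        hf.sub ((hasDerivAt_id s).mul_const a)
      rw [one_mul] at h2
      exact h2.hasDerivWithinAt)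
    (fun s hs => by
      obtain ⟨f', hf, hb⟩ := h s (abs_le.2 hs)
      rw [hf.deriv]
      exact hb) (abs_le.1 ht') (abs_le.1 ht)
  simp only [Real.norm_eq_abs] at h1
  have e : f t - t * a - (f t' - t' * a) = f t - f t' - (t - t') * a := by ring
  rwa [e] at h1

/-- continuity from a Lipschitz estimate -/
theorem cont_of_lip {f : ℝ → ℝ} {C R : ℝ}
    (h : ∀ t t', |t| ≤ R → |t'| ≤ R → |f t - f t'| ≤ C * |t - t'|) :
    ContinuousOn f (Icc (-R) R) := by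
  have h1 : LipschitzOnWith (Real.toNNReal C) f (Icc (-R) R) := by
    refine LipschitzOnWith.of_dist_le_mul fun t ht t' ht' => ?_
    rw [Real.dist_eq, Real.dist_eq]
    refine (h t t' (abs_le.2 ht) (abs_le.2 ht')).trans ?_
    gcongr
    exact Real.le_coe_toNNReal C
  exact h1.continuousOn

/-- a common zero of the two coordinates -/
theorem zero_core {X T : ℝ → ℝ → ℝ} {y₀ Y δ : ℝ} (hY : 0 < Y) (hδ : 0 < δ) (hy1 : Y ≤ |y₀|)
    (h1 : ∀ s t t', |s| ≤ 4 * δ → |t| ≤ 4 * δ / Y → |t'| ≤ 4 * δ / Y →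
      |X t s - X t' s - (t - t') * y₀| ≤ Y / 4 * |t - t'|)
    (h2 : ∀ t s s', |t| ≤ 4 * δ / Y → |s| ≤ 4 * δ → |s'| ≤ 4 * δ →
      |X t s - X t s'| ≤ 1 / 8 * |s - s'|)
    (h3 : ∀ s t t', |s| ≤ 4 * δ → |t| ≤ 4 * δ / Y → |t'| ≤ 4 * δ / Y →
      |T t s - T t' s| ≤ Y / 8 * |t - t'|)
    (h4 : ∀ t s s', |t| ≤ 4 * δ / Y → |s| ≤ 4 * δ → |s'| ≤ 4 * δ →
      |T t s - T t s' - (s - s')| ≤ 1 / 8 * |s - s'|)
    (hX : |X 0 0| ≤ δ) (hT : |T 0 0| ≤ δ) :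
    ∃ t₀ s₀ : ℝ, |t₀| ≤ 4 * δ / Y ∧ |s₀| ≤ 4 * δ ∧ X t₀ s₀ = 0 ∧ T t₀ s₀ = 0 := by
  set t₁ := 4 * δ / Y with ht₁
  set s₁ := 4 * δ with hs₁
  have ht₁0 : 0 < t₁ := by positivity
  have hs₁0 : 0 < s₁ := by positivity
  have hYt : Y * t₁ = 4 * δ := mul_div_cancel₀ _ hY.ne'
  have z0 : |(0 : ℝ)| ≤ t₁ := by rw [abs_zero]; exact ht₁0.le
  have z1 : |(0 : ℝ)| ≤ s₁ := by rw [abs_zero]; exact hs₁0.le
  have e1 : |s₁| ≤ s₁ := by rw [abs_of_pos hs₁0]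
  have e2 : |-s₁| ≤ s₁ := by rw [abs_neg, abs_of_pos hs₁0]
  -- the zero of `T t`
  have hex : ∀ t, |t| ≤ t₁ → ∃ s, |s| ≤ s₁ ∧ T t s = 0 := by
    intro t ht
    have hT0 : |T t 0| ≤ 3 / 2 * δ := by
      have h5 := h3 0 t 0 z1 ht z0
      rw [sub_zero] at h5
      have h6 : Y / 8 * |t| ≤ δ / 2 := by
        calc Y / 8 * |t| ≤ Y / 8 * t₁ := by gcongr
          _ = δ / 2 := by linarith
      have h7 : |T t 0| ≤ |T t 0 - T 0 0| + |T 0 0| := by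
        have := abs_add_le (T t 0 - T 0 0) (T 0 0)
        simpa using this
      linarith
    have hc : ContinuousOn (T t) (Icc (-s₁) s₁) := cont_of_lip (C := 9 / 8) fun s s' hs hs' => by
      have h5 := h4 t s s' ht hs hs'
      have h6 := abs_add_le (T t s - T t s' - (s - s')) (s - s')
      rw [sub_add_cancel] at h6
      linarith
    have hp : 0 ≤ T t s₁ := by
      have h5 := h4 t s₁ 0 ht e1 z1
      rw [sub_zero, abs_of_pos hs₁0] at h5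
      have h6 := (abs_le.1 h5).1
      have h7 := (abs_le.1 hT0).1
      linarith
    have hn : T t (-s₁) ≤ 0 := by
      have h5 := h4 t (-s₁) 0 ht e2 z1
      rw [sub_zero, abs_neg, abs_of_pos hs₁0] at h5
      have h6 := (abs_le.1 h5).2
      have h7 := (abs_le.1 hT0).2
      linarith
    obtain ⟨s, hs, h5⟩ := intermediate_value_Icc (by linarith : -s₁ ≤ s₁) hc ⟨hn, hp⟩
    exact ⟨s, abs_le.2 hs, h5⟩
  choose! σ hσ using hex
  -- the curve is Lipschitz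
  have hlip : ∀ t t', |t| ≤ t₁ → |t'| ≤ t₁ → |σ t - σ t'| ≤ Y / 7 * |t - t'| := by
    intro t t' ht ht'
    have h5 := h4 t (σ t) (σ t') ht (hσ t ht).1 (hσ t' ht').1
    have h6 := h3 (σ t') t t' (hσ t' ht').1 ht ht'
    rw [(hσ t ht).2] at h5
    rw [(hσ t' ht').2, sub_zero] at h6
    have h7 : |σ t - σ t'| ≤ |0 - T t (σ t') - (σ t - σ t')| + |T t (σ t')| := by
      have := abs_add_le (0 - T t (σ t') - (σ t - σ t')) (T t (σ t'))
      have e : 0 - T t (σ t') - (σ t - σ t') + T t (σ t') = -(σ t - σ t') := by ring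
      rw [e, abs_neg] at this
      exact this
    linarith
  have hc : ContinuousOn (fun t => X t (σ t)) (Icc (-t₁) t₁) := by
    refine cont_of_lip (C := |y₀| + Y / 4 + Y) fun t t' ht ht' => ?_
    have h5 := h1 (σ t) t t' (hσ t ht).1 ht ht'
    have h6 := h2 t' (σ t) (σ t') ht' (hσ t ht).1 (hσ t' ht').1
    have h7 := hlip t t' ht ht'
    have h8 : |X t (σ t) - X t' (σ t')| ≤ |X t (σ t) - X t' (σ t) - (t - t') * y₀| +
        |t - t'| * |y₀| + |X t' (σ t) - X t' (σ t')| := by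
      have a1 := abs_add_le (X t (σ t) - X t' (σ t) - (t - t') * y₀) ((t - t') * y₀)
      have a2 := abs_add_le (X t (σ t) - X t' (σ t)) (X t' (σ t) - X t' (σ t'))
      rw [sub_add_cancel] at a1
      rw [abs_mul] at a1
      have e : X t (σ t) - X t' (σ t) + (X t' (σ t) - X t' (σ t')) = X t (σ t) - X t' (σ t') := by
        ring
      rw [e] at a2
      linarith
    have h9 : (|y₀| + Y / 4 + Y) * |t - t'| = Y / 4 * |t - t'| + |t - t'| * |y₀| +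
        Y * |t - t'| := by ring
    have h10 : 0 ≤ Y * |t - t'| := by positivity
    rw [h9]
    linarith
  -- the values at the end points
  have hend : ∀ t, |t| = t₁ → |X t (σ t) - t * y₀| ≤ 5 / 2 * δ := by
    intro t ht
    have ht' : |t| ≤ t₁ := ht.le
    have h5 := h1 (σ t) t 0 (hσ t ht').1 ht' z0
    have h6 := h2 0 (σ t) 0 z0 (hσ t ht').1 z1
    rw [sub_zero, ht] at h5
    rw [sub_zero] at h6
    have h7 := (hσ t ht').1
    have a1 : |X t (σ t) - t * y₀| ≤ |X t (σ t) - X 0 (σ t) - t * y₀| + |X 0 (σ t) - X 0 0|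
        + |X 0 0| := by
      have a2 := abs_add_le (X t (σ t) - X 0 (σ t) - t * y₀) (X 0 (σ t) - X 0 0 + X 0 0)
      have a3 := abs_add_le (X 0 (σ t) - X 0 0) (X 0 0)
      have e : X t (σ t) - X 0 (σ t) - t * y₀ + (X 0 (σ t) - X 0 0 + X 0 0)
          = X t (σ t) - t * y₀ := by ring
      rw [e] at a2
      linarith
    have h8 : Y / 4 * t₁ = δ := by linarith
    linarith
  have hbig : 4 * δ ≤ t₁ * |y₀| := by
    calc 4 * δ = t₁ * Y := by rw [← hYt]; ring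
      _ ≤ t₁ * |y₀| := by gcongr
  have hy0 : 0 < |y₀| := hY.trans_le hy1
  have hyy : y₀ * y₀ = |y₀| * |y₀| := (abs_mul_abs_self y₀).symm
  have hpos : 0 ≤ y₀ * X t₁ (σ t₁) := by
    have h5 := hend t₁ (abs_of_pos ht₁0)
    have h6 : |y₀ * (X t₁ (σ t₁) - t₁ * y₀)| ≤ |y₀| * (5 / 2 * δ) := by
      rw [abs_mul]; gcongr
    have h7 := (abs_le.1 h6).1
    have h8 : |y₀| * (4 * δ) ≤ |y₀| * (t₁ * |y₀|) := by gcongr
    have h9 : y₀ * (X t₁ (σ t₁) - t₁ * y₀) = y₀ * X t₁ (σ t₁) - t₁ * (|y₀| * |y₀|) := by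
      rw [← hyy]; ring
    rw [h9] at h7
    have h10 : 0 < |y₀| * δ := by positivity
    nlinarith
  have hneg : y₀ * X (-t₁) (σ (-t₁)) ≤ 0 := by
    have h5 := hend (-t₁) (by rw [abs_neg]; exact abs_of_pos ht₁0)
    have h6 : |y₀ * (X (-t₁) (σ (-t₁)) - -t₁ * y₀)| ≤ |y₀| * (5 / 2 * δ) := by
      rw [abs_mul]; gcongr
    have h7 := (abs_le.1 h6).2
    have h8 : |y₀| * (4 * δ) ≤ |y₀| * (t₁ * |y₀|) := by gcongr
    have h9 : y₀ * (X (-t₁) (σ (-t₁)) - -t₁ * y₀)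
        = y₀ * X (-t₁) (σ (-t₁)) + t₁ * (|y₀| * |y₀|) := by
      rw [← hyy]; ring
    rw [h9] at h7
    have h10 : 0 < |y₀| * δ := by positivity
    nlinarith
  obtain ⟨t₀, ht₀, h5⟩ := intermediate_value_Icc (by linarith : -t₁ ≤ t₁)
    (continuousOn_const.mul hc : ContinuousOn (fun t => y₀ * X t (σ t)) (Icc (-t₁) t₁))
    ⟨hneg, hpos⟩
  have ht₀' : |t₀| ≤ t₁ := abs_le.2 ht₀
  refine ⟨t₀, σ t₀, ht₀', (hσ t₀ ht₀').1, ?_, (hσ t₀ ht₀').2⟩
  have h5' : y₀ * X t₀ (σ t₀) = 0 := h5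
  rcases mul_eq_zero.1 h5' with h6 | h6
  · rw [h6, abs_zero] at hy0
    exact absurd hy0 (lt_irrefl _)
  · exact h6

/-- near the common zero the two coordinates are small -/
theorem area_core {X T : ℝ → ℝ → ℝ} {y₀ Y δ η : ℝ} (hY : 0 < Y) (hδ : 0 < δ) (hη : 0 < η)
    (hηδ : η ≤ δ) (hy1 : Y ≤ |y₀|) (hy2 : |y₀| ≤ 2 * Y)
    (h1 : ∀ s t t', |s| ≤ 8 * δ → |t| ≤ 8 * δ / Y → |t'| ≤ 8 * δ / Y →
      |X t s - X t' s - (t - t') * y₀| ≤ Y / 4 * |t - t'|)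
    (h2 : ∀ t s s', |t| ≤ 8 * δ / Y → |s| ≤ 8 * δ → |s'| ≤ 8 * δ →
      |X t s - X t s'| ≤ 1 / 8 * |s - s'|)
    (h3 : ∀ s t t', |s| ≤ 8 * δ → |t| ≤ 8 * δ / Y → |t'| ≤ 8 * δ / Y →
      |T t s - T t' s| ≤ Y / 8 * |t - t'|)
    (h4 : ∀ t s s', |t| ≤ 8 * δ / Y → |s| ≤ 8 * δ → |s'| ≤ 8 * δ →
      |T t s - T t s' - (s - s')| ≤ 1 / 8 * |s - s'|)
    (hX : |X 0 0| ≤ δ) (hT : |T 0 0| ≤ δ) :
    ∃ t₀ s₀ : ℝ, |t₀| ≤ 4 * δ / Y ∧ |s₀| ≤ 4 * δ ∧ ∀ t s, |t - t₀| ≤ η / (4 * Y) →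
      |s - s₀| ≤ η / 4 → |t| ≤ 8 * δ / Y ∧ |s| ≤ 8 * δ ∧ |X t s| ≤ η ∧ |T t s| ≤ η := by
  have i1 : 4 * δ / Y ≤ 8 * δ / Y := by gcongr; norm_num
  have i2 : 4 * δ ≤ 8 * δ := by linarith
  obtain ⟨t₀, s₀, ht₀, hs₀, hX₀, hT₀⟩ := zero_core (X := X) (T := T) hY hδ hy1
    (fun s t t' a b c => h1 s t t' (a.trans i2) (b.trans i1) (c.trans i1))
    (fun t s s' a b c => h2 t s s' (a.trans i1) (b.trans i2) (c.trans i2))
    (fun s t t' a b c => h3 s t t' (a.trans i2) (b.trans i1) (c.trans i1))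
    (fun t s s' a b c => h4 t s s' (a.trans i1) (b.trans i2) (c.trans i2)) hX hT
  refine ⟨t₀, s₀, ht₀, hs₀, fun t s ht hs => ?_⟩
  have j1 : |t| ≤ 8 * δ / Y := by
    have a1 := abs_add_le (t - t₀) t₀
    rw [sub_add_cancel] at a1
    have a2 : η / (4 * Y) ≤ 4 * δ / Y := by
      rw [div_le_div_iff₀ (by positivity) hY]
      nlinarith
    have a3 : 4 * δ / Y + 4 * δ / Y = 8 * δ / Y := by ring
    linarith
  have j2 : |s| ≤ 8 * δ := by
    have a1 := abs_add_le (s - s₀) s₀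
    rw [sub_add_cancel] at a1
    linarith
  have k1 : |t₀| ≤ 8 * δ / Y := ht₀.trans i1
  have k2 : |s₀| ≤ 8 * δ := hs₀.trans i2
  have hYη : Y * (η / (4 * Y)) = η / 4 := by field_simp
  refine ⟨j1, j2, ?_, ?_⟩
  · have a1 := h1 s t t₀ j2 j1 k1
    have a2 := h2 t₀ s s₀ k1 j2 k2
    rw [hX₀, sub_zero] at a2
    have a3 : |X t s| ≤ |X t s - X t₀ s - (t - t₀) * y₀| + |t - t₀| * |y₀| + |X t₀ s| := by
      have b1 := abs_add_le (X t s - X t₀ s - (t - t₀) * y₀) ((t - t₀) * y₀ + X t₀ s)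
      have b2 := abs_add_le ((t - t₀) * y₀) (X t₀ s)
      rw [abs_mul] at b2
      have e : X t s - X t₀ s - (t - t₀) * y₀ + ((t - t₀) * y₀ + X t₀ s) = X t s := by ring
      rw [e] at b1
      linarith
    have a4 : Y / 4 * |t - t₀| ≤ η / 16 := by
      calc Y / 4 * |t - t₀| ≤ Y / 4 * (η / (4 * Y)) := by gcongr
        _ = η / 16 := by linarith
    have a5 : |t - t₀| * |y₀| ≤ η / 2 := by
      calc |t - t₀| * |y₀| ≤ η / (4 * Y) * (2 * Y) := by gcongr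
        _ = η / 2 := by linarith
    linarith
  · have a1 := h3 s t t₀ j2 j1 k1
    have a2 := h4 t₀ s s₀ k1 j2 k2
    rw [hT₀, sub_zero] at a2
    have a3 : |T t s| ≤ |T t s - T t₀ s| + |T t₀ s - (s - s₀)| + |s - s₀| := by
      have b1 := abs_add_le (T t s - T t₀ s) (T t₀ s - (s - s₀) + (s - s₀))
      have b2 := abs_add_le (T t₀ s - (s - s₀)) (s - s₀)
      have e : T t s - T t₀ s + (T t₀ s - (s - s₀) + (s - s₀)) = T t s := by ring
      rw [e] at b1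
      linarith
    have a4 : Y / 8 * |t - t₀| ≤ η / 32 := by
      calc Y / 8 * |t - t₀| ≤ Y / 8 * (η / (4 * Y)) := by gcongr
        _ = η / 32 := by linarith
    linarith

end

end NC

end QE
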