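import Pool.Agent.NCV.Final
import Pool.Agent.Lib_helper67.QE.HypPts

/-!
# Closed surfaces of negative curvature: three-point functions

The three-point functions of the local waves, for every sequence of eigenfunctions.
-/

open UpperHalfPlane MeasureTheory MatrixGroups Filter Topology Set Berry
open scoped ENNReal ContDiff

namespace QE

namespace NC

noncomputable section

variable {Γ : Subgroup SL(2, ℝ)} {ρ : ℍ → ℝ} {D : Set ℍ}
variable {φ : ℕ → ℍ → ℝ} {m : ℕ → ℝ} {u : ℤ → ℂ → ℂ} {p : ℍ → ℝ} {k : ℕ}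

/-- the rotation averages in the two settings -/
theorem LimSeqR.ang_eq [Countable Γ] (hDm : MeasurableSet D)
    (hD : IsFundamentalDomain Γ D (volume : Measure ℍ)) (hF : Fac Γ ρ)
    (L : LimSeqR Γ ρ D φ m u p)
    (x : Fin k → ℂ) {ψ : ℂ → ℝ} (hψ : ContDiff ℝ ∞ ψ)
    (hψs : HasCompactSupport ψ) (hψU : tsupport ψ ⊆ HH) :
    ∀ᶠ n in atTop, ∫ θ, (∫ z, (ψ z : ℂ) * ∏ i, (φ n (ofComplex (z + ((1 / m n : ℝ) : ℂ) * aR ρ z
        * frXi (fun n => 1 / m n) (em ρ) (x i) n θ z)) : ℂ)) ∂ang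
      = ((∫ z, ψ z * angProd ρ (φ n) (m n) x (ofComplex z) : ℝ) : ℂ) := by
  have W := L.ws hDm hD hF
  filter_upwards [W.ang_eq x hψ hψs hψU] with n hn
  rw [← hn]
  refine integral_congr_ae (Eventually.of_forall fun θ => ?_)
  refine integral_congr_ae (Eventually.of_forall fun z => ?_)
  beta_reduce
  by_cases hz : z ∈ UH
  · rw [wt_aR hz]
  · have : ψ z = 0 := image_eq_zero_of_notMem_tsupport fun hh => hz (hψU hh)
    rw [this]; simp

/-- **The three-point functions vanish in the limit.** -/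
theorem LimSeqR.three [Countable Γ] (hDm : MeasurableSet D)
    (hD : IsFundamentalDomain Γ D (volume : Measure ℍ)) (hF : Fac Γ ρ)
    (L : LimSeqR Γ ρ D φ m u p) (x y w : ℂ) :
    Tendsto (fun n => ∫ p, rWave ρ (φ n) (m n) x p * rWave ρ (φ n) (m n) y p
      * rWave ρ (φ n) (m n) w p ∂(rFrameProb ρ D)) atTop (𝓝 0) := by
  have W := L.ws hDm hD hF
  have key := W.wrap_gen ![x, y, w] (prod_le_four (by norm_num)) (G := fun _ _ => 0)
    (fun _ => continuous_const) (fun _ _ _ _ => rfl) (fun K _ _ => ⟨0, by simp⟩)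
    (fun ψ hψ hψs hψU => by
      obtain ⟨δ, hδ, hδU⟩ := exists_thick hψs hψU
      have h1 := L.set.three_local_var ⟨L.loc, L.lim⟩ (fun ρ hρ hρ0 => by
          have hρr : Continuous ρ := Complex.continuous_re.comp hρ.smooth.continuous
          have hρt : tsupport (fun z => (ρ z : ℂ)) = tsupport ρ := Test.tsupport_eq ρ
          exact L.fej ρ hρr (by
            have := hρ.supp
            unfold HasCompactSupport at this ⊢
            rwa [hρt] at this) (by rw [← hρt]; exact hρ.sub) hρ0) hψs hδ hδU (q := 2) two_ne_zero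
        ![x, y, w] (fun i => frXi (fun n => 1 / m n) (em ρ) (![x, y, w] i))
        (fun i => (W.disp hψs hψU (![x, y, w] i)).congr_a fun z hz => (wt_aR (hψU hz)).symm)
        (test_of_smooth hψ hψs hψU) (by rw [Test.tsupport_eq])
      have h2 : Tendsto (fun n => (((∫ z, ψ z * angProd ρ (φ n) (m n) ![x, y, w]
          (ofComplex z)) - ∫ z, ψ z * 0 : ℝ) : ℂ)) atTop (𝓝 0) := by
        refine h1.congr' ?_
        filter_upwards [L.ang_eq hDm hD hF ![x, y, w] hψ hψs hψU] with n n1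
        simp only [mul_zero, integral_zero, sub_zero]
        rw [← n1]
        refine integral_congr_ae (Eventually.of_forall fun θ => ?_)
        refine integral_congr_ae (Eventually.of_forall fun z => ?_)
        beta_reduce
        rw [Fin.prod_univ_three]
      have h3 := (Complex.continuous_re.tendsto _).comp h2
      simpa only [Function.comp_def, Complex.ofReal_re, Complex.zero_re] using h3)
  refine key.congr fun n => ?_
  simp only [Fin.prod_univ_three, Matrix.cons_val_zero, Matrix.cons_val_one,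
    Matrix.cons_val]
  unfold rAvg
  simp

/-- **Three-point functions**, for every sequence of eigenfunctions. -/
theorem three_allR (hSet : StmtSetup) (hLim : StmtLim) (hA : StmtAtoms) [Countable Γ]
    (hDm : MeasurableSet D) (hD : IsFundamentalDomain Γ D (volume : Measure ℍ))
    (hF : Fac Γ ρ) (hpos : ∀ z, 0 < lapR ρ z)
    (hφ : REigenSeq Γ ρ φ m)
    (hs : ∀ n, ContDiffOn ℝ ∞ (fun w : ℂ => φ n (ofComplex w)) {w | 0 < w.im})
    (x y w : ℂ) {ε : ℝ} (hε : 0 < ε) :
    ∀ᶠ n in atTop, |∫ p, rWave ρ (φ n) (m n) x p * rWave ρ (φ n) (m n) y p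
        * rWave ρ (φ n) (m n) w p ∂(rFrameProb ρ D)|
      ≤ ε * rAvg ρ D (fun z => φ n z ^ 4) ^ ((3 : ℝ) / 4) := by
  have hK := hF.cpt
  have hρc : Continuous ρ := continuous_of_smooth hF.smooth
  -- comparison of the averages
  obtain ⟨A₀, hA₀, hAv⟩ := exists_rAvg_eq hDm hD hK hρc hF.inv
  have hvc : Continuous fun z => Real.exp (2 * ρ z) :=
    Real.continuous_exp.comp (continuous_const.mul hρc)
  obtain ⟨Bv, hBv⟩ := bdd_of_cocompact (f := fun z => 1 / Real.exp (2 * ρ z))
    (continuous_const.div hvc fun z => (Real.exp_pos _).ne')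
    (fun γ hγ z => by rw [hF.inv γ hγ]) hK
  have hBv0 : 0 ≤ Bv := (abs_nonneg _).trans (hBv I)
  have hc : ∀ n, Continuous (φ n) := fun n => continuous_of_smooth (hs n)
  have hcomp : ∀ n, surfAvg D (fun z => φ n z ^ 4)
      ≤ Bv * A₀⁻¹ * rAvg ρ D (fun z => φ n z ^ 4) := by
    intro n
    have i1 : IntegrableOn (fun z => φ n z ^ 4) D (volume : Measure ℍ) :=
      Surf.integrableOn_of_invariant hD hK ((hc n).pow 4) fun γ hγ z => by
        rw [hφ.invariant n γ hγ]
    have i2 : IntegrableOn (fun z => Bv * (Real.exp (2 * ρ z) * φ n z ^ 4)) D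
        (volume : Measure ℍ) :=
      (Surf.integrableOn_of_invariant hD hK (hvc.mul ((hc n).pow 4)) fun γ hγ z => by
        show Real.exp (2 * ρ (γ • z)) * φ n (γ • z) ^ 4 = Real.exp (2 * ρ z) * φ n z ^ 4
        rw [hφ.invariant n γ hγ, hF.inv γ hγ]).const_mul _
    have h1 : surfAvg D (fun z => φ n z ^ 4)
        ≤ surfAvg D (fun z => Bv * (Real.exp (2 * ρ z) * φ n z ^ 4)) := by
      rw [Surf.surfAvg_eq, Surf.surfAvg_eq]
      refine mul_le_mul_of_nonneg_left (integral_mono i1 i2 fun z => ?_) (by positivity)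
      have h3 : 1 / Real.exp (2 * ρ z) ≤ Bv := (le_abs_self _).trans (hBv z)
      have h4 : 1 ≤ Bv * Real.exp (2 * ρ z) := by
        rw [div_le_iff₀ (Real.exp_pos _)] at h3
        exact h3
      have h5 : 0 ≤ φ n z ^ 4 := by positivity
      beta_reduce
      nlinarith
    rw [Surf.surfAvg_const_mul] at h1
    rw [hAv]
    refine h1.trans (le_of_eq ?_)
    field_simp
  by_contra hcon
  rw [Filter.not_eventually] at hcon
  obtain ⟨s, hsm, hsn⟩ := extraction_of_frequently_atTop hcon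
  simp only [not_le] at hsn
  set A : ℕ → ℝ := fun n => surfAvg D (fun z => φ (s n) z ^ 4) with hA'
  have hA0 : ∀ n, 0 ≤ A n := fun n => integral_nonneg fun z => by positivity
  have hA1 : ∀ n, 0 < A n := by
    intro n
    rcases (hA0 n).eq_or_lt with h0 | h0
    · exfalso
      have h1 := eq_zero_of_avg hD hK (hc (s n)) (hφ.invariant _) h0.symm
      have h2 : φ (s n) = fun _ => 0 := funext h1
      have h3 := hsn n
      rw [h2] at h3
      unfold rAvg rWave at h3
      simp at h3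
    · exact h0
  set b : ℕ → ℝ := fun n => (rt4 (A n))⁻¹ with hbdef
  have hrt : ∀ n, rt4 (A n) ^ 4 = A n := fun n => rt4_pow (hA0 n)
  have hrt0 : ∀ n, 0 < rt4 (A n) := by
    intro n
    rcases (rt4_nonneg (A n)).eq_or_lt with h2 | h2
    · exfalso
      have h3 := hrt n
      rw [← h2] at h3
      have := hA1 n
      norm_num at h3
      linarith
    · exact h2
  have hb0 : ∀ n, 0 < b n := fun n => inv_pos.2 (hrt0 n)
  have hb4 : ∀ n, b n ^ 4 * A n = 1 := by
    intro n
    rw [hbdef]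
    simp only
    rw [inv_pow, hrt, inv_mul_cancel₀ (hA1 n).ne']
  -- the normalised sequence
  have hE := reig_comp hφ hsm.tendsto_atTop
  have hψE := reig_scale hE b
  have hψs : ∀ n, ContDiffOn ℝ ∞ (fun w : ℂ => b n * φ (s n) (ofComplex w)) {w | 0 < w.im} :=
    fun n => contDiffOn_const.mul (hs (s n))
  have e2 : ∀ n, surfAvg D (fun z => (b n * φ (s n) z) ^ 4) = b n ^ 4 * A n := by
    intro n
    rw [hA']
    unfold surfAvg
    rw [← integral_const_mul]
    congr 1; funext z; ring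
  have h4 : ∀ n, surfAvg D (fun z => (b n * φ (s n) z) ^ 4) = 1 := fun n => by rw [e2, hb4]
  obtain ⟨t, ht, u, p, L⟩ := exists_limSeqR hSet hLim hA hDm hD hF hpos hψE hψs
    (fun n => (h4 n).le)
  set M : ℝ := (Bv * A₀⁻¹ + 1) ^ ((3 : ℝ) / 4) with hM
  have hM0 : 0 < M := Real.rpow_pos_of_pos (by positivity) _
  have h1 := (Metric.tendsto_nhds.1 (L.three hDm hD hF x y w)) (ε / M) (by positivity)
  obtain ⟨n, hn⟩ := h1.exists
  rw [dist_zero_right, Real.norm_eq_abs] at hn
  have h5 := hsn (t n)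
  set k := t n with hk
  set I3 : ℝ := ∫ p, rWave ρ (φ (s k)) (m (s k)) x p * rWave ρ (φ (s k)) (m (s k)) y p
    * rWave ρ (φ (s k)) (m (s k)) w p ∂(rFrameProb ρ D) with hI3
  set R : ℝ := rAvg ρ D (fun z => φ (s k) z ^ 4) with hR
  have hR0 : 0 ≤ R := integral_nonneg fun z => by positivity
  have e3 : ∫ p, rWave ρ (fun z => b k * φ (s k) z) (m (s k)) x p
        * rWave ρ (fun z => b k * φ (s k) z) (m (s k)) y p
        * rWave ρ (fun z => b k * φ (s k) z) (m (s k)) w p ∂(rFrameProb ρ D) = b k ^ 3 * I3 := by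
    rw [hI3, ← integral_const_mul]
    congr 1; funext p
    unfold rWave; ring
  rw [e3] at hn
  have hb3 : 0 < b k ^ 3 := by have := hb0 k; positivity
  rw [abs_mul, abs_of_pos hb3] at hn
  -- the comparison
  have h6 : (1 : ℝ) ≤ (Bv * A₀⁻¹ + 1) * (b k ^ 4 * R) := by
    have h7 := hb4 k
    have h8 : A k ≤ Bv * A₀⁻¹ * R := hcomp (s k)
    have hb4' : 0 < b k ^ 4 := by have := hb0 k; positivity
    calc (1 : ℝ) = b k ^ 4 * A k := h7.symm
      _ ≤ b k ^ 4 * (Bv * A₀⁻¹ * R) := mul_le_mul_of_nonneg_left h8 hb4'.le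
      _ ≤ b k ^ 4 * ((Bv * A₀⁻¹ + 1) * R) :=
          mul_le_mul_of_nonneg_left (mul_le_mul_of_nonneg_right (by linarith) hR0) hb4'.le
      _ = _ := by ring
  have h9 : (1 : ℝ) ≤ M * (b k ^ 3 * R ^ ((3 : ℝ) / 4)) := by
    have h10 : (1 : ℝ) ≤ ((Bv * A₀⁻¹ + 1) * (b k ^ 4 * R)) ^ ((3 : ℝ) / 4) :=
      Real.one_le_rpow h6 (by norm_num)
    rw [Real.mul_rpow (by positivity) (by have := hb0 k; positivity)] at h10
    have h11 := four_rpow hR0 (hb0 k).le 3
    rw [show (((3 : ℕ) : ℝ) / 4) = (3 : ℝ) / 4 by norm_num] at h11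
    rw [h11] at h10
    exact h10
  have h12 : b k ^ 3 * (ε * R ^ ((3 : ℝ) / 4)) < ε / M :=
    (mul_lt_mul_of_pos_left h5 hb3).trans hn
  rw [lt_div_iff₀ hM0] at h12
  nlinarith

end

end NC

end QE
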